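import Pool.Agent.Lib.MP_c86c76_al.Eng.Loop
import Pool.Agent.Lib.MP_c86c76_al.B.Defs

/-!
Signed words in a system of tables with inverse letters.
-/

set_option autoImplicit false

namespace Pool.Agent.Lib.MP_c86c76_al.Eng

open Pool.Agent.MB

variable {I J S S' : Type}

theorem Form.virtual_at [Finite I] [Finite J] (F : Form I S') (x0 : J × (I → ℤ))
    (γ : F.Good J) (c : ℤ) (hc : c ≠ 0) (hγ : γ.1 (x0, 0) = (x0, c)) :
    ∃ K : Subgroup (F.Good J), K.FiniteIndex ∧ ∃ (φ : K →* Multiplicative ℤ) (k : K),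
      φ k ≠ 1 ∧ k.1 = γ := by
  have hmul : ∀ (g h : F.Good J) x, (g * h).1 (x, 0) =
      ((g.1 ((h.1 (x, 0)).1, 0)).1, (g.1 ((h.1 (x, 0)).1, 0)).2 + (h.1 (x, 0)).2) := by
    intro g h x
    rw [Subgroup.coe_mul, Equiv.Perm.mul_apply]
    exact (g.2 (h.1 (x, 0)).1 (h.1 (x, 0)).2).1
  let act : MulAction (F.Good J) (J × (I → ℤ)) :=
    { smul := fun g x => (g.1 (x, 0)).1
      one_smul := fun x => rfl
      mul_smul := fun g h x => by
        show ((g * h).1 (x, 0)).1 = (g.1 ((h.1 (x, 0)).1, 0)).1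
        rw [hmul] }
  have hfin : (MulAction.orbit (F.Good J) x0).Finite :=
    (F.finite_level (F.Q x0.2)).subset (by
      rintro _ ⟨g, rfl⟩
      exact (g.2 x0 0).2)
  refine ⟨MulAction.stabilizer (F.Good J) x0, ⟨?_⟩, MonoidHom.mk'
    (fun k => Multiplicative.ofAdd (k.1.1 (x0, 0)).2) fun a b => ?_,
    ⟨γ, congrArg Prod.fst hγ⟩, ?_, rfl⟩
  · rw [MulAction.index_stabilizer]
    exact ((Set.ncard_pos hfin).2 ⟨x0, MulAction.mem_orbit_self x0⟩).ne'
  · have hb : (b.1.1 (x0, 0)).1 = x0 := b.2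
    rw [Subgroup.coe_mul, hmul, hb, ofAdd_add]
  · rw [MonoidHom.mk'_apply, hγ]
    exact fun h => hc (ofAdd_eq_one.1 h)

/-- The letter of a signed generator. -/
noncomputable def letS (σ : ℕ → S) (br : S → S) (l : ℕ × Bool) : S :=
  Prod.rec (motive := fun _ => S) (fun k b => cond b (σ k) (br (σ k))) l

section
variable (F : Form I S') (T : S → J → Blk I J) (hI : F.Inv T) (σ : ℕ → S) (br : S → S)
  (h1 : ∀ s (y : St I J ℤ), run T ([br s] ++ [s]) y = y)
  (h2 : ∀ s (y : St I J ℤ), run T (s :: [br s]) y = y)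

/-- The generators in the group of good permutations. -/
noncomputable def tauS (k : ℕ) : F.Good J :=
  ⟨genP T (fun s => [br s]) h1 h2 (σ k), Form.good_of_run hI [σ k] _ fun _ => rfl⟩

theorem gw_tauS (w : RW) (y : St I J ℤ) :
    (gw (tauS F T hI σ br h1 h2) w).1 y = run T (w.map (letS σ br)) y := by
  induction w with
  | nil => rfl
  | cons l w ih =>
    obtain ⟨k, b⟩ := l
    have e : gw (tauS F T hI σ br h1 h2) ((k, b) :: w) =
        cond b (tauS F T hI σ br h1 h2 k) (tauS F T hI σ br h1 h2 k)⁻¹ *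
          gw (tauS F T hI σ br h1 h2) w := by
      simp [gw, FreeGroup.lift_mk]
    rw [e, Subgroup.coe_mul, Equiv.Perm.mul_apply, ih]
    cases b <;> rfl

theorem gw_tauS_one (w : RW) (h : ∀ y : St I J ℤ, run T (w.map (letS σ br)) y = run T [] y) :
    gw (tauS F T hI σ br h1 h2) w = 1 :=
  Subtype.ext (Equiv.ext fun y => (gw_tauS F T hI σ br h1 h2 w y).trans (h y))

end

end Pool.Agent.Lib.MP_c86c76_al.Eng
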