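import Pool.Agent.Lib.MP_c86c76_al.Eng.Data3b
import Pool.Agent.Lib.MP_c86c76_al.Eng.BGen

/-!
The Lickorish twists in genus three as good permutations.
-/

set_option autoImplicit false

namespace Pool.Agent.Lib.MP_c86c76_al.Eng

open Pool.Agent.MB

/-- The twists `a1 b1 a2 c1 b2 a3 c2 b3` and their inverses. -/
noncomputable def TB3 : I16 → J28 → Blk I16 J28 :=
  I16.fn t0 t1 t6 t2 t3 t14 t4 t5 t7 t8 t13 t9 t10 t15 t11 t12

/-- The inverse letter. -/
noncomputable def br3 : I16 → I16 :=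
  I16.fn .c8 .c9 .c10 .c11 .c12 .c13 .c14 .c15 .c0 .c1 .c2 .c3 .c4 .c5 .c6 .c7

/-- The letter of a generator. -/
def sg3 (k : ℕ) : I16 := I16.all.getD k .c0

theorem TB3_facts : Short TB3 255 ∧ (∀ s, gch3 TB3 s = true) ∧
    ∀ s, chk3 TB3 ([br3 s] ++ [s]) [] J28.all = true ∧
      chk3 TB3 (s :: [br3 s]) [] J28.all = true := by
  refine ⟨short_of TB3 255 I16.all J28.all I16.all I16.mem_all J28.mem_all I16.mem_all
    (by decide +kernel), fun s => ?_, fun s => ?_⟩
  · cases s <;> decide +kernel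
  · cases s <;> decide +kernel

theorem invB3 : F3.Inv TB3 := inv3_of TB3 TB3_facts.1 TB3_facts.2.1

/-- The target group in genus three. -/
abbrev A3 : Type := F3.Good J28

/-- The twists. -/
noncomputable def tau3 : ℕ → A3 := tauS F3 TB3 invB3 sg3 br3
  (fun s y => run_eq_of_chk3 TB3 TB3_facts.1 invB3 _ [] (by simp) (by simp)
    (fun j => ⟨_, j.mem_all, (TB3_facts.2.2 s).1⟩) y)
  (fun s y => run_eq_of_chk3 TB3 TB3_facts.1 invB3 _ [] (by simp) (by simp)
    (fun j => ⟨_, j.mem_all, (TB3_facts.2.2 s).2⟩) y)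

/-- The test of a relator on one block. -/
noncomputable def relB3 (w : RW) (j : J28) : Bool :=
  Nat.ble w.length 1000 && chk3 TB3 (w.map (letS sg3 br3)) [] [j]

theorem gw_tau3_one (w : RW) (h : ∀ j, relB3 w j = true) : gw tau3 w = 1 := by
  simp only [relB3, Bool.and_eq_true, Nat.ble_eq] at h
  exact gw_tauS_one _ _ _ _ _ _ _ w (run_eq_of_chk3 TB3 TB3_facts.1 invB3 _ []
    (by simpa using (h .c0).1) (by simp) fun j => ⟨_, List.mem_singleton_self j, (h j).2⟩)

theorem gw_tau3_all (L : List RW) (h : ∀ j, (L.all fun w => relB3 w j) = true) :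
    ∀ w ∈ L, gw tau3 w = 1 :=
  fun w hw => gw_tau3_one w fun j => List.all_eq_true.1 (h j) w hw

/-- The test of a loop. -/
noncomputable def loopB3 (w : RW) (j : J28) (k : I16) (c : ℤ) : Bool :=
  Nat.ble w.length 1000 && decide (c ≠ 0 ∧ |c| ≤ 1000) &&
    lchk TB3 I16.fa I16.all 255 (2 ^ 36) (w.map (letS sg3 br3)) j k c

theorem virt3 (w : RW) (j : J28) (k : I16) (c : ℤ) (h : loopB3 w j k c = true) :
    ∃ K : Subgroup A3, K.FiniteIndex ∧ ∃ (χ : K →* Multiplicative ℤ) (γ : K),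
      χ γ ≠ 1 ∧ γ.1 = gw tau3 w := by
  simp only [loopB3, Bool.and_eq_true, Nat.ble_eq, decide_eq_true_eq] at h
  refine F3.virtual_at (j, Pi.single k 1) _ c h.1.2.1 ((gw_tauS _ _ _ _ _ _ _ w _).trans ?_)
  refine loop_of_lchk TB3 255 TB3_facts.1 I16.fa_spec I16.all I16.mem_all (2 ^ 36) (2 ^ 34)
    (by norm_num) (by norm_num) _ j k c (h.1.2.2.trans (by norm_num)) ?_ h.2
  refine (Form.bd_unif invB3 255 TB3_facts.1 (2 ^ 10) (by decide +kernel) _ j k).mono ?_
  have e : F3.L ^ F3.cw'.length * 2 ^ 10 = 2 ^ 16 := by decide +kernel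
  rw [e, List.length_map]
  have := h.1.1
  have : (w.length * 255 + 1) * 2 ^ 16 ≤ 2 ^ 34 := by omega
  exact_mod_cast this

end Pool.Agent.Lib.MP_c86c76_al.Eng
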