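import Mathlib

/-!
Block monomial integral affine actions given by sparse tables, and a kernel test for
equality of words.
-/

set_option autoImplicit false

namespace Pool.Agent.Lib.MP_c86c76_al.Eng

/-- A sparse integer row: indices added and indices subtracted. -/
abbrev Row (I : Type) : Type := List I × List I

/-- Target block, rows of the linear part, cocycle row. -/
abbrev Blk (I J : Type) : Type := J × (I → Row I) × Row I

variable {I J S M M' : Type} [AddCommGroup M] [AddCommGroup M']

/-- A row applied to a vector. -/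
def dot (r : Row I) (x : I → M) : M := (r.1.map x).sum - (r.2.map x).sum

/-- States. -/
abbrev St (I J M : Type) : Type := (J × (I → M)) × M

/-- One letter. -/
def step (T : S → J → Blk I J) (s : S) (y : St I J M) : St I J M :=
  (((T s y.1.1).1, fun i => dot ((T s y.1.1).2.1 i) y.1.2), y.2 + dot (T s y.1.1).2.2 y.1.2)

/-- A word, acting from the right end. -/
def run (T : S → J → Blk I J) : List S → St I J M → St I J M
  | [], y => y
  | s :: w, y => step T s (run T w y)

theorem run_append (T : S → J → Blk I J) (u v : List S) (y : St I J M) :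
    run T (u ++ v) y = run T u (run T v y) := by
  induction u with
  | nil => rfl
  | cons s u ih => rw [List.cons_append, run, run, ih]

theorem dot_map (φ : M →+ M') (r : Row I) (x : I → M) :
    dot r (fun i => φ (x i)) = φ (dot r x) := by
  rw [dot, dot, map_sub, map_list_sum, map_list_sum, List.map_map, List.map_map]
  rfl

/-- A homomorphism applied to a state. -/
def mapSt (φ : M →+ M') (y : St I J M) : St I J M' := ((y.1.1, fun i => φ (y.1.2 i)), φ y.2)

theorem run_map (T : S → J → Blk I J) (φ : M →+ M') (w : List S) (y : St I J M) :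
    run T w (mapSt φ y) = mapSt φ (run T w y) := by
  induction w with
  | nil => rfl
  | cons s w ih =>
    rw [run, run, ih]
    simp only [step, mapSt, dot_map, map_add]

theorem run_shift (T : S → J → Blk I J) (w : List S) (x : J × (I → M)) (n : M) :
    run T w (x, n) = ((run T w (x, 0)).1, (run T w (x, 0)).2 + n) := by
  induction w with
  | nil => simp [run]
  | cons s w ih =>
    rw [run, run, ih]
    simp only [step, Prod.mk.injEq, true_and]
    abel

/-- Size of a row. -/
def l1 (r : Row I) : ℕ := r.1.length + r.2.length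

theorem abs_sum_le {K : ℤ} (x : I → ℤ) (hx : ∀ i, |x i| ≤ K) (l : List I) :
    |(l.map x).sum| ≤ l.length * K := by
  induction l with
  | nil => simp
  | cons a l ih =>
    have h1 := hx a
    have h3 := abs_add_le (x a) (l.map x).sum
    simp only [List.map_cons, List.sum_cons, List.length_cons]
    push_cast
    linarith

theorem abs_dot_le {K : ℤ} (hK : 0 ≤ K) (x : I → ℤ) (hx : ∀ i, |x i| ≤ K) (r : Row I) (L : ℕ)
    (hr : l1 r ≤ L) : |dot r x| ≤ L * K := by
  have h1 := abs_sum_le x hx r.1
  have h2 := abs_sum_le x hx r.2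
  have h3 := abs_sub (r.1.map x).sum (r.2.map x).sum
  have h4 : ((r.1.length : ℤ) + r.2.length) * K ≤ L * K :=
    mul_le_mul_of_nonneg_right (by exact_mod_cast hr) hK
  rw [dot]
  linarith

/-- All rows are short. -/
def Short (T : S → J → Blk I J) (L : ℕ) : Prop :=
  ∀ s j, (∀ i, l1 ((T s j).2.1 i) ≤ L) ∧ l1 (T s j).2.2 ≤ L

/-- A bound for an integer state. -/
def Bd (K : ℤ) (y : St I J ℤ) : Prop := (∀ i, |y.1.2 i| ≤ K) ∧ |y.2| ≤ K

theorem Bd.mono {K K' : ℤ} {y : St I J ℤ} (h : Bd K y) (hK : K ≤ K') : Bd K' y :=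
  ⟨fun i => (h.1 i).trans hK, h.2.trans hK⟩

theorem bd_crude (T : S → J → Blk I J) (L : ℕ) (hT : Short T L) (w : List S) (y : St I J ℤ)
    (hy : Bd 1 y) : Bd ((L + 1) ^ w.length) (run T w y) := by
  induction w with
  | nil => simpa [run] using hy
  | cons s w ih =>
    have hK : (0 : ℤ) ≤ (L + 1) ^ w.length := by positivity
    refine ⟨fun i => ?_, ?_⟩
    · have := abs_dot_le hK _ ih.1 _ L ((hT s (run T w y).1.1).1 i)
      simp only [run, step, List.length_cons, pow_succ]
      linarith
    · have h1 := abs_dot_le hK _ ih.1 _ L (hT s (run T w y).1.1).2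
      have h2 := ih.2
      have h3 := abs_add_le (run T w y).2 (dot (T s (run T w y).1.1).2.2 (run T w y).1.2)
      simp only [run, step, List.length_cons, pow_succ]
      linarith

theorem digits_zero {A : Type} [Fintype A] (idx : A → ℕ) (hinj : Function.Injective idx) (n : ℕ)
    (hlt : ∀ a, idx a < n) (B : ℤ) (m : A → ℤ) (hm : ∀ a, |m a| < B)
    (h : B ^ n ∣ ∑ a, m a * B ^ idx a) : m = 0 := by
  classical
  by_contra hne
  have hex : (Finset.univ.filter fun a => m a ≠ 0).Nonempty := by
    obtain ⟨a, ha⟩ := Function.ne_iff.1 hne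
    exact ⟨a, by simpa using ha⟩
  obtain ⟨a, ha, hmin⟩ := Finset.exists_min_image _ idx hex
  have ha0 : m a ≠ 0 := by simpa using ha
  have hB : B ≠ 0 := (lt_of_le_of_lt (abs_nonneg _) (hm a)).ne'
  have h1 : B ^ (idx a + 1) ∣ ∑ b, m b * B ^ idx b := (pow_dvd_pow B (hlt a)).trans h
  rw [← Finset.add_sum_erase _ _ (Finset.mem_univ a)] at h1
  have h2 : B ^ (idx a + 1) ∣ ∑ b ∈ Finset.univ.erase a, m b * B ^ idx b := by
    refine Finset.dvd_sum fun b hb => ?_
    by_cases hb0 : m b = 0
    · simp [hb0]
    · have h3 := hmin b (by simpa using hb0)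
      have h4 : idx a ≠ idx b := fun e => (Finset.mem_erase.1 hb).1 (hinj e).symm
      exact Dvd.dvd.mul_left (pow_dvd_pow B (by omega)) _
  have h3 : B ^ (idx a + 1) ∣ m a * B ^ idx a := (dvd_add_left h2).1 h1
  rw [pow_succ', mul_dvd_mul_iff_right (pow_ne_zero _ hB)] at h3
  exact ha0 (Int.eq_zero_of_abs_lt_dvd h3 (hm a))

section
variable [Fintype I] [DecidableEq I]

/-- The unit vectors. -/
def E : I → I → ℤ := fun i => Pi.single i 1

/-- Pairing with a vector. -/
def ev {R : Type} [CommRing R] (f : I → R) : (I → ℤ) →+ R :=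
  AddMonoidHom.mk' (fun m => ∑ k, (m k : R) * f k) fun a b => by
    simp [add_mul, Finset.sum_add_distrib]

theorem ev_E {R : Type} [CommRing R] (f : I → R) (i : I) : ev f (E i) = f i := by
  simp [ev, E, Pi.single_apply]

theorem st_eq {R : Type} [CommRing R] (j : J) (f : I → R) :
    (((j, f), 0) : St I J R) = mapSt (ev f) ((j, E), 0) := by
  simp only [mapSt, ev_E, map_zero]

theorem ev_single (k : I) (m : I → ℤ) : ev (Pi.single k (1 : ℤ)) m = m k := by
  simp [ev, Pi.single_apply]

omit [DecidableEq I] in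
theorem pack_inj (idx : I → ℕ) (hinj : Function.Injective idx) (n : ℕ) (hlt : ∀ a, idx a < n)
    (B : ℕ) (K : ℤ) (hK : K + K < B) (a b : I → ℤ) (ha : ∀ k, |a k| ≤ K) (hb : ∀ k, |b k| ≤ K)
    (h : ev (fun i => ((B ^ idx i : ℕ) : ZMod (B ^ n))) a =
      ev (fun i => ((B ^ idx i : ℕ) : ZMod (B ^ n))) b) : a = b := by
  refine sub_eq_zero.1 (digits_zero idx hinj n hlt B (a - b) (fun k => ?_) ?_)
  · exact lt_of_le_of_lt ((abs_sub _ _).trans (add_le_add (ha k) (hb k))) hK
  · have h1 : ev (fun i => ((B ^ idx i : ℕ) : ZMod (B ^ n))) (a - b) = 0 := by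
      rw [map_sub, h, sub_self]
    have h2 := (ZMod.intCast_zmod_eq_zero_iff_dvd (∑ k, (a - b) k * (B : ℤ) ^ idx k) (B ^ n)).1
      (by simpa [ev] using h1)
    exact_mod_cast h2

/-- Equality on the packed vector gives equality everywhere. -/
theorem run_eq_of_pack (T : S → J → Blk I J) (idx : I → ℕ) (hinj : Function.Injective idx)
    (n : ℕ) (hlt : ∀ a, idx a < n) (B : ℕ) (K : ℤ) (hK : K + K < B) (u v : List S) (j : J)
    (hu : ∀ k, Bd K (run T u ((j, Pi.single k 1), 0)))
    (hv : ∀ k, Bd K (run T v ((j, Pi.single k 1), 0)))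
    (h : run T u ((j, fun i => ((B ^ idx i : ℕ) : ZMod (B ^ n))), 0) =
      run T v ((j, fun i => ((B ^ idx i : ℕ) : ZMod (B ^ n))), 0))
    (f : I → ℤ) (c : ℤ) : run T u ((j, f), c) = run T v ((j, f), c) := by
  have e : run T u ((j, E), 0) = run T v ((j, E), 0) := by
    rw [st_eq, run_map, run_map] at h
    have hb : ∀ w : List S, (∀ k, Bd K (run T w ((j, Pi.single k 1), 0))) → ∀ k,
        (∀ i, |(run T w ((j, E), 0)).1.2 i k| ≤ K) ∧ |(run T w ((j, E), 0)).2 k| ≤ K := by
      intro w hw k
      have := hw k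
      rw [st_eq, run_map] at this
      simpa only [Bd, mapSt, ev_single] using this
    replace hu := hb u hu
    replace hv := hb v hv
    simp only [mapSt, Prod.mk.injEq] at h
    refine Prod.ext (Prod.ext h.1.1 (funext fun i => ?_)) ?_
    · exact pack_inj idx hinj n hlt B K hK _ _ (fun k => (hu k).1 i) (fun k => (hv k).1 i)
        (congrFun h.1.2 i)
    · exact pack_inj idx hinj n hlt B K hK _ _ (fun k => (hu k).2) (fun k => (hv k).2) h.2
  rw [run_shift T u, run_shift T v, st_eq, run_map, run_map, e]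

omit [Fintype I] in
theorem bd_single (j : J) (k : I) : Bd 1 (((j, Pi.single k 1), 0) : St I J ℤ) := by
  refine ⟨fun i => ?_, by simp⟩
  by_cases h : i = k
  · subst h; simp
  · simp [Pi.single_eq_of_ne h]

end

end Pool.Agent.Lib.MP_c86c76_al.Eng
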