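import Pool.Agent.Lib.MP_c86c76_al.Eng.Fast

/-!
Tables of an affine action of the genus three mapping class group.
-/

set_option autoImplicit false

namespace Pool.Agent.Lib.MP_c86c76_al.Eng

/-- One block. -/
noncomputable def t0_0 : Blk I16 J28 := (.c1, I16.fn ([],[.c1,.c2]) ([.c0],[.c3]) ([.c2],[]) ([.c3],[]) ([],[.c5,.c6]) ([.c4],[.c7]) ([.c6],[]) ([.c7],[]) ([],[.c9,.c10]) ([.c8],[.c11]) ([.c10],[]) ([.c11],[]) ([],[.c13,.c14]) ([.c12],[.c15]) ([.c14],[]) ([.c15],[]), ([],[]))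
/-- One block. -/
noncomputable def t0_1 : Blk I16 J28 := (.c0, I16.fn ([.c1,.c3],[]) ([],[.c0,.c2]) ([.c2],[]) ([.c3],[]) ([.c5,.c7],[]) ([],[.c4,.c6]) ([.c6],[]) ([.c7],[]) ([.c9,.c11],[]) ([],[.c8,.c10]) ([.c10],[]) ([.c11],[]) ([.c13,.c15],[]) ([],[.c12,.c14]) ([.c14],[]) ([.c15],[]), ([],[]))
/-- One block. -/
noncomputable def t0_2 : Blk I16 J28 := (.c2, I16.fn ([.c0,.c2],[]) ([.c1,.c3],[]) ([],[.c3]) ([.c2],[]) ([.c4,.c6],[]) ([.c5,.c7],[]) ([],[.c7]) ([.c6],[]) ([.c8,.c10],[]) ([.c9,.c11],[]) ([],[.c11]) ([.c10],[]) ([.c12,.c14],[]) ([.c13,.c15],[]) ([],[.c15]) ([.c14],[]), ([],[]))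
/-- One block. -/
noncomputable def t0_3 : Blk I16 J28 := (.c4, I16.fn ([],[.c1,.c2]) ([.c0],[.c3]) ([.c2],[]) ([.c3],[]) ([],[.c5,.c6]) ([.c4],[.c7]) ([.c6],[]) ([.c7],[]) ([],[.c9,.c10]) ([.c8],[.c11]) ([.c10],[]) ([.c11],[]) ([],[.c13,.c14]) ([.c12],[.c15]) ([.c14],[]) ([.c15],[]), ([],[]))
/-- One block. -/
noncomputable def t0_4 : Blk I16 J28 := (.c3, I16.fn ([.c1,.c3],[]) ([],[.c0,.c2]) ([.c2],[]) ([.c3],[]) ([.c5,.c7],[]) ([],[.c4,.c6]) ([.c6],[]) ([.c7],[]) ([.c9,.c11],[]) ([],[.c8,.c10]) ([.c10],[]) ([.c11],[]) ([.c13,.c15],[]) ([],[.c12,.c14]) ([.c14],[]) ([.c15],[]), ([],[]))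
/-- One block. -/
noncomputable def t0_5 : Blk I16 J28 := (.c5, I16.fn ([],[.c1,.c2]) ([.c0],[.c3]) ([.c2],[]) ([.c3],[]) ([],[.c5,.c6]) ([.c4],[.c7]) ([.c6],[]) ([.c7],[]) ([],[.c9,.c10]) ([.c8],[.c11]) ([.c10],[]) ([.c11],[]) ([],[.c13,.c14]) ([.c12],[.c15]) ([.c14],[]) ([.c15],[]), ([],[]))
/-- One block. -/
noncomputable def t0_6 : Blk I16 J28 := (.c7, I16.fn ([],[.c1,.c2]) ([.c0],[.c3]) ([.c2],[]) ([.c3],[]) ([],[.c5,.c6]) ([.c4],[.c7]) ([.c6],[]) ([.c7],[]) ([],[.c9,.c10]) ([.c8],[.c11]) ([.c10],[]) ([.c11],[]) ([],[.c13,.c14]) ([.c12],[.c15]) ([.c14],[]) ([.c15],[]), ([],[]))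
/-- One block. -/
noncomputable def t0_7 : Blk I16 J28 := (.c6, I16.fn ([.c1,.c3],[]) ([],[.c0,.c2]) ([.c2],[]) ([.c3],[]) ([.c5,.c7],[]) ([],[.c4,.c6]) ([.c6],[]) ([.c7],[]) ([.c9,.c11],[]) ([],[.c8,.c10]) ([.c10],[]) ([.c11],[]) ([.c13,.c15],[]) ([],[.c12,.c14]) ([.c14],[]) ([.c15],[]), ([],[]))
/-- One block. -/
noncomputable def t0_8 : Blk I16 J28 := (.c8, I16.fn ([.c0,.c2],[]) ([.c1,.c3],[]) ([],[.c3]) ([.c2],[]) ([.c4,.c6],[]) ([.c5,.c7],[]) ([],[.c7]) ([.c6],[]) ([.c8,.c10],[]) ([.c9,.c11],[]) ([],[.c11]) ([.c10],[]) ([.c12,.c14],[]) ([.c13,.c15],[]) ([],[.c15]) ([.c14],[]), ([],[]))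
/-- One block. -/
noncomputable def t0_9 : Blk I16 J28 := (.c9, I16.fn ([.c0,.c2],[]) ([.c1,.c3],[]) ([],[.c3]) ([.c2],[]) ([.c4,.c6],[]) ([.c5,.c7],[]) ([],[.c7]) ([.c6],[]) ([.c8,.c10],[]) ([.c9,.c11],[]) ([],[.c11]) ([.c10],[]) ([.c12,.c14],[]) ([.c13,.c15],[]) ([],[.c15]) ([.c14],[]), ([],[]))
/-- One block. -/
noncomputable def t0_10 : Blk I16 J28 := (.c10, I16.fn ([],[.c1,.c2]) ([.c0],[.c3]) ([.c2],[]) ([.c3],[]) ([],[.c5,.c6]) ([.c4],[.c7]) ([.c6],[]) ([.c7],[]) ([],[.c9,.c10]) ([.c8],[.c11]) ([.c10],[]) ([.c11],[]) ([],[.c13,.c14]) ([.c12],[.c15]) ([.c14],[]) ([.c15],[]), ([],[]))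
/-- One block. -/
noncomputable def t0_11 : Blk I16 J28 := (.c11, I16.fn ([.c0,.c2],[]) ([.c1,.c3],[]) ([],[.c3]) ([.c2],[]) ([.c4,.c6],[]) ([.c5,.c7],[]) ([],[.c7]) ([.c6],[]) ([.c8,.c10],[]) ([.c9,.c11],[]) ([],[.c11]) ([.c10],[]) ([.c12,.c14],[]) ([.c13,.c15],[]) ([],[.c15]) ([.c14],[]), ([],[]))
/-- One block. -/
noncomputable def t0_12 : Blk I16 J28 := (.c13, I16.fn ([],[.c1,.c2]) ([.c0],[.c3]) ([.c2],[]) ([.c3],[]) ([],[.c5,.c6]) ([.c4],[.c7]) ([.c6],[]) ([.c7],[]) ([],[.c9,.c10]) ([.c8],[.c11]) ([.c10],[]) ([.c11],[]) ([],[.c13,.c14]) ([.c12],[.c15]) ([.c14],[]) ([.c15],[]), ([],[]))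
/-- One block. -/
noncomputable def t0_13 : Blk I16 J28 := (.c12, I16.fn ([.c1,.c3],[]) ([],[.c0,.c2]) ([.c2],[]) ([.c3],[]) ([.c5,.c7],[]) ([],[.c4,.c6]) ([.c6],[]) ([.c7],[]) ([.c9,.c11],[]) ([],[.c8,.c10]) ([.c10],[]) ([.c11],[]) ([.c13,.c15],[]) ([],[.c12,.c14]) ([.c14],[]) ([.c15],[]), ([],[]))
/-- One block. -/
noncomputable def t0_14 : Blk I16 J28 := (.c14, I16.fn ([.c0,.c2],[]) ([.c1,.c3],[]) ([],[.c3]) ([.c2],[]) ([.c4,.c6],[]) ([.c5,.c7],[]) ([],[.c7]) ([.c6],[]) ([.c8,.c10],[]) ([.c9,.c11],[]) ([],[.c11]) ([.c10],[]) ([.c12,.c14],[]) ([.c13,.c15],[]) ([],[.c15]) ([.c14],[]), ([],[]))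
/-- One block. -/
noncomputable def t0_15 : Blk I16 J28 := (.c15, I16.fn ([.c0,.c2],[]) ([.c1,.c3],[]) ([],[.c3]) ([.c2],[]) ([.c4,.c6],[]) ([.c5,.c7],[]) ([],[.c7]) ([.c6],[]) ([.c8,.c10],[]) ([.c9,.c11],[]) ([],[.c11]) ([.c10],[]) ([.c12,.c14],[]) ([.c13,.c15],[]) ([],[.c15]) ([.c14],[]), ([],[]))
/-- One block. -/
noncomputable def t0_16 : Blk I16 J28 := (.c16, I16.fn ([],[.c1,.c2]) ([.c0],[.c3]) ([.c2],[]) ([.c3],[]) ([],[.c5,.c6]) ([.c4],[.c7]) ([.c6],[]) ([.c7],[]) ([],[.c9,.c10]) ([.c8],[.c11]) ([.c10],[]) ([.c11],[]) ([],[.c13,.c14]) ([.c12],[.c15]) ([.c14],[]) ([.c15],[]), ([],[]))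
/-- One block. -/
noncomputable def t0_17 : Blk I16 J28 := (.c17, I16.fn ([.c0,.c2],[]) ([.c1,.c3],[]) ([],[.c3]) ([.c2],[]) ([.c4,.c6],[]) ([.c5,.c7],[]) ([],[.c7]) ([.c6],[]) ([.c8,.c10],[]) ([.c9,.c11],[]) ([],[.c11]) ([.c10],[]) ([.c12,.c14],[]) ([.c13,.c15],[]) ([],[.c15]) ([.c14],[]), ([],[]))
/-- One block. -/
noncomputable def t0_18 : Blk I16 J28 := (.c18, I16.fn ([],[.c1,.c2]) ([.c0],[.c3]) ([.c2],[]) ([.c3],[]) ([],[.c5,.c6]) ([.c4],[.c7]) ([.c6],[]) ([.c7],[]) ([],[.c9,.c10]) ([.c8],[.c11]) ([.c10],[]) ([.c11],[]) ([],[.c13,.c14]) ([.c12],[.c15]) ([.c14],[]) ([.c15],[]), ([],[]))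
/-- One block. -/
noncomputable def t0_19 : Blk I16 J28 := (.c20, I16.fn ([],[.c1,.c2]) ([.c0],[.c3]) ([.c2],[]) ([.c3],[]) ([],[.c5,.c6]) ([.c4],[.c7]) ([.c6],[]) ([.c7],[]) ([],[.c9,.c10]) ([.c8],[.c11]) ([.c10],[]) ([.c11],[]) ([],[.c13,.c14]) ([.c12],[.c15]) ([.c14],[]) ([.c15],[]), ([],[]))
/-- One block. -/
noncomputable def t0_20 : Blk I16 J28 := (.c19, I16.fn ([.c1,.c3],[]) ([],[.c0,.c2]) ([.c2],[]) ([.c3],[]) ([.c5,.c7],[]) ([],[.c4,.c6]) ([.c6],[]) ([.c7],[]) ([.c9,.c11],[]) ([],[.c8,.c10]) ([.c10],[]) ([.c11],[]) ([.c13,.c15],[]) ([],[.c12,.c14]) ([.c14],[]) ([.c15],[]), ([],[]))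
/-- One block. -/
noncomputable def t0_21 : Blk I16 J28 := (.c21, I16.fn ([],[.c1,.c2]) ([.c0],[.c3]) ([.c2],[]) ([.c3],[]) ([],[.c5,.c6]) ([.c4],[.c7]) ([.c6],[]) ([.c7],[]) ([],[.c9,.c10]) ([.c8],[.c11]) ([.c10],[]) ([.c11],[]) ([],[.c13,.c14]) ([.c12],[.c15]) ([.c14],[]) ([.c15],[]), ([],[]))
/-- One block. -/
noncomputable def t0_22 : Blk I16 J28 := (.c22, I16.fn ([],[.c1,.c2]) ([.c0],[.c3]) ([.c2],[]) ([.c3],[]) ([],[.c5,.c6]) ([.c4],[.c7]) ([.c6],[]) ([.c7],[]) ([],[.c9,.c10]) ([.c8],[.c11]) ([.c10],[]) ([.c11],[]) ([],[.c13,.c14]) ([.c12],[.c15]) ([.c14],[]) ([.c15],[]), ([],[]))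
/-- One block. -/
noncomputable def t0_23 : Blk I16 J28 := (.c23, I16.fn ([.c0,.c2],[]) ([.c1,.c3],[]) ([],[.c3]) ([.c2],[]) ([.c4,.c6],[]) ([.c5,.c7],[]) ([],[.c7]) ([.c6],[]) ([.c8,.c10],[]) ([.c9,.c11],[]) ([],[.c11]) ([.c10],[]) ([.c12,.c14],[]) ([.c13,.c15],[]) ([],[.c15]) ([.c14],[]), ([],[]))
/-- One block. -/
noncomputable def t0_24 : Blk I16 J28 := (.c25, I16.fn ([],[.c1,.c2]) ([.c0],[.c3]) ([.c2],[]) ([.c3],[]) ([],[.c5,.c6]) ([.c4],[.c7]) ([.c6],[]) ([.c7],[]) ([],[.c9,.c10]) ([.c8],[.c11]) ([.c10],[]) ([.c11],[]) ([],[.c13,.c14]) ([.c12],[.c15]) ([.c14],[]) ([.c15],[]), ([],[]))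
/-- One block. -/
noncomputable def t0_25 : Blk I16 J28 := (.c24, I16.fn ([.c1,.c3],[]) ([],[.c0,.c2]) ([.c2],[]) ([.c3],[]) ([.c5,.c7],[]) ([],[.c4,.c6]) ([.c6],[]) ([.c7],[]) ([.c9,.c11],[]) ([],[.c8,.c10]) ([.c10],[]) ([.c11],[]) ([.c13,.c15],[]) ([],[.c12,.c14]) ([.c14],[]) ([.c15],[]), ([],[]))
/-- One block. -/
noncomputable def t0_26 : Blk I16 J28 := (.c26, I16.fn ([.c0,.c2],[]) ([.c1,.c3],[]) ([],[.c3]) ([.c2],[]) ([.c4,.c6],[]) ([.c5,.c7],[]) ([],[.c7]) ([.c6],[]) ([.c8,.c10],[]) ([.c9,.c11],[]) ([],[.c11]) ([.c10],[]) ([.c12,.c14],[]) ([.c13,.c15],[]) ([],[.c15]) ([.c14],[]), ([],[]))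
/-- One block. -/
noncomputable def t0_27 : Blk I16 J28 := (.c27, I16.fn ([.c0,.c2],[]) ([.c1,.c3],[]) ([],[.c3]) ([.c2],[]) ([.c4,.c6],[]) ([.c5,.c7],[]) ([],[.c7]) ([.c6],[]) ([.c8,.c10],[]) ([.c9,.c11],[]) ([],[.c11]) ([.c10],[]) ([.c12,.c14],[]) ([.c13,.c15],[]) ([],[.c15]) ([.c14],[]), ([],[]))
/-- The blocks of a generator. -/
noncomputable def t0 : J28 → Blk I16 J28 := J28.fn t0_0 t0_1 t0_2 t0_3 t0_4 t0_5 t0_6 t0_7 t0_8 t0_9 t0_10 t0_11 t0_12 t0_13 t0_14 t0_15 t0_16 t0_17 t0_18 t0_19 t0_20 t0_21 t0_22 t0_23 t0_24 t0_25 t0_26 t0_27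
/-- One block. -/
noncomputable def t1_0 : Blk I16 J28 := (.c2, I16.fn ([],[.c1]) ([.c0],[]) ([.c1,.c2],[]) ([.c3],[.c0]) ([],[.c5]) ([.c4],[]) ([.c5,.c6],[]) ([.c7],[.c4]) ([],[.c9]) ([.c8],[]) ([.c9,.c10],[]) ([.c11],[.c8]) ([],[.c13]) ([.c12],[]) ([.c13,.c14],[]) ([.c15],[.c12]), ([],[]))
/-- One block. -/
noncomputable def t1_1 : Blk I16 J28 := (.c1, I16.fn ([],[.c1]) ([.c0],[]) ([.c1,.c2],[]) ([.c3],[.c0]) ([],[.c5]) ([.c4],[]) ([.c5,.c6],[]) ([.c7],[.c4]) ([],[.c9]) ([.c8],[]) ([.c9,.c10],[]) ([.c11],[.c8]) ([],[.c13]) ([.c12],[]) ([.c13,.c14],[]) ([.c15],[.c12]), ([],[]))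
/-- One block. -/
noncomputable def t1_2 : Blk I16 J28 := (.c0, I16.fn ([.c1],[]) ([],[.c0]) ([.c0,.c2],[]) ([.c1,.c3],[]) ([.c5],[]) ([],[.c4]) ([.c4,.c6],[]) ([.c5,.c7],[]) ([.c9],[]) ([],[.c8]) ([.c8,.c10],[]) ([.c9,.c11],[]) ([.c13],[]) ([],[.c12]) ([.c12,.c14],[]) ([.c13,.c15],[]), ([],[]))
/-- One block. -/
noncomputable def t1_3 : Blk I16 J28 := (.c3, I16.fn ([.c0],[]) ([.c1],[]) ([],[.c1,.c3]) ([.c0,.c2],[]) ([.c4],[]) ([.c5],[]) ([],[.c5,.c7]) ([.c4,.c6],[]) ([.c8],[]) ([.c9],[]) ([],[.c9,.c11]) ([.c8,.c10],[]) ([.c12],[]) ([.c13],[]) ([],[.c13,.c15]) ([.c12,.c14],[]), ([],[]))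
/-- One block. -/
noncomputable def t1_4 : Blk I16 J28 := (.c5, I16.fn ([.c0],[]) ([.c1],[]) ([],[.c1,.c3]) ([.c0,.c2],[]) ([.c4],[]) ([.c5],[]) ([],[.c5,.c7]) ([.c4,.c6],[]) ([.c8],[]) ([.c9],[]) ([],[.c9,.c11]) ([.c8,.c10],[]) ([.c12],[]) ([.c13],[]) ([],[.c13,.c15]) ([.c12,.c14],[]), ([],[]))
/-- One block. -/
noncomputable def t1_5 : Blk I16 J28 := (.c4, I16.fn ([.c0],[]) ([.c1],[]) ([.c3],[.c0]) ([],[.c1,.c2]) ([.c4],[]) ([.c5],[]) ([.c7],[.c4]) ([],[.c5,.c6]) ([.c8],[]) ([.c9],[]) ([.c11],[.c8]) ([],[.c9,.c10]) ([.c12],[]) ([.c13],[]) ([.c15],[.c12]) ([],[.c13,.c14]), ([],[]))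
/-- One block. -/
noncomputable def t1_6 : Blk I16 J28 := (.c8, I16.fn ([],[.c1]) ([.c0],[]) ([.c1,.c2],[]) ([.c3],[.c0]) ([],[.c5]) ([.c4],[]) ([.c5,.c6],[]) ([.c7],[.c4]) ([],[.c9]) ([.c8],[]) ([.c9,.c10],[]) ([.c11],[.c8]) ([],[.c13]) ([.c12],[]) ([.c13,.c14],[]) ([.c15],[.c12]), ([],[]))
/-- One block. -/
noncomputable def t1_7 : Blk I16 J28 := (.c7, I16.fn ([],[.c1]) ([.c0],[]) ([.c1,.c2],[]) ([.c3],[.c0]) ([],[.c5]) ([.c4],[]) ([.c5,.c6],[]) ([.c7],[.c4]) ([],[.c9]) ([.c8],[]) ([.c9,.c10],[]) ([.c11],[.c8]) ([],[.c13]) ([.c12],[]) ([.c13,.c14],[]) ([.c15],[.c12]), ([],[]))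
/-- One block. -/
noncomputable def t1_8 : Blk I16 J28 := (.c6, I16.fn ([.c1],[]) ([],[.c0]) ([.c0,.c2],[]) ([.c1,.c3],[]) ([.c5],[]) ([],[.c4]) ([.c4,.c6],[]) ([.c5,.c7],[]) ([.c9],[]) ([],[.c8]) ([.c8,.c10],[]) ([.c9,.c11],[]) ([.c13],[]) ([],[.c12]) ([.c12,.c14],[]) ([.c13,.c15],[]), ([],[]))
/-- One block. -/
noncomputable def t1_9 : Blk I16 J28 := (.c9, I16.fn ([],[.c1]) ([.c0],[]) ([.c1,.c2],[]) ([.c3],[.c0]) ([],[.c5]) ([.c4],[]) ([.c5,.c6],[]) ([.c7],[.c4]) ([],[.c9]) ([.c8],[]) ([.c9,.c10],[]) ([.c11],[.c8]) ([],[.c13]) ([.c12],[]) ([.c13,.c14],[]) ([.c15],[.c12]), ([],[]))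
/-- One block. -/
noncomputable def t1_10 : Blk I16 J28 := (.c10, I16.fn ([.c0],[]) ([.c1],[]) ([],[.c1,.c3]) ([.c0,.c2],[]) ([.c4],[]) ([.c5],[]) ([],[.c5,.c7]) ([.c4,.c6],[]) ([.c8],[]) ([.c9],[]) ([],[.c9,.c11]) ([.c8,.c10],[]) ([.c12],[]) ([.c13],[]) ([],[.c13,.c15]) ([.c12,.c14],[]), ([],[]))
/-- One block. -/
noncomputable def t1_11 : Blk I16 J28 := (.c11, I16.fn ([],[.c1]) ([.c0],[]) ([.c1,.c2],[]) ([.c3],[.c0]) ([],[.c5]) ([.c4],[]) ([.c5,.c6],[]) ([.c7],[.c4]) ([],[.c9]) ([.c8],[]) ([.c9,.c10],[]) ([.c11],[.c8]) ([],[.c13]) ([.c12],[]) ([.c13,.c14],[]) ([.c15],[.c12]), ([],[]))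
/-- One block. -/
noncomputable def t1_12 : Blk I16 J28 := (.c14, I16.fn ([],[.c1]) ([.c0],[]) ([.c1,.c2],[]) ([.c3],[.c0]) ([],[.c5]) ([.c4],[]) ([.c5,.c6],[]) ([.c7],[.c4]) ([],[.c9]) ([.c8],[]) ([.c9,.c10],[]) ([.c11],[.c8]) ([],[.c13]) ([.c12],[]) ([.c13,.c14],[]) ([.c15],[.c12]), ([],[]))
/-- One block. -/
noncomputable def t1_13 : Blk I16 J28 := (.c13, I16.fn ([],[.c1]) ([.c0],[]) ([.c1,.c2],[]) ([.c3],[.c0]) ([],[.c5]) ([.c4],[]) ([.c5,.c6],[]) ([.c7],[.c4]) ([],[.c9]) ([.c8],[]) ([.c9,.c10],[]) ([.c11],[.c8]) ([],[.c13]) ([.c12],[]) ([.c13,.c14],[]) ([.c15],[.c12]), ([],[]))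
/-- One block. -/
noncomputable def t1_14 : Blk I16 J28 := (.c12, I16.fn ([.c1],[]) ([],[.c0]) ([.c0,.c2],[]) ([.c1,.c3],[]) ([.c5],[]) ([],[.c4]) ([.c4,.c6],[]) ([.c5,.c7],[]) ([.c9],[]) ([],[.c8]) ([.c8,.c10],[]) ([.c9,.c11],[]) ([.c13],[]) ([],[.c12]) ([.c12,.c14],[]) ([.c13,.c15],[]), ([],[]))
/-- One block. -/
noncomputable def t1_15 : Blk I16 J28 := (.c15, I16.fn ([],[.c1]) ([.c0],[]) ([.c1,.c2],[]) ([.c3],[.c0]) ([],[.c5]) ([.c4],[]) ([.c5,.c6],[]) ([.c7],[.c4]) ([],[.c9]) ([.c8],[]) ([.c9,.c10],[]) ([.c11],[.c8]) ([],[.c13]) ([.c12],[]) ([.c13,.c14],[]) ([.c15],[.c12]), ([],[]))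
/-- One block. -/
noncomputable def t1_16 : Blk I16 J28 := (.c16, I16.fn ([.c0],[]) ([.c1],[]) ([],[.c1,.c3]) ([.c0,.c2],[]) ([.c4],[]) ([.c5],[]) ([],[.c5,.c7]) ([.c4,.c6],[]) ([.c8],[]) ([.c9],[]) ([],[.c9,.c11]) ([.c8,.c10],[]) ([.c12],[]) ([.c13],[]) ([],[.c13,.c15]) ([.c12,.c14],[]), ([],[]))
/-- One block. -/
noncomputable def t1_17 : Blk I16 J28 := (.c17, I16.fn ([],[.c1]) ([.c0],[]) ([.c1,.c2],[]) ([.c3],[.c0]) ([],[.c5]) ([.c4],[]) ([.c5,.c6],[]) ([.c7],[.c4]) ([],[.c9]) ([.c8],[]) ([.c9,.c10],[]) ([.c11],[.c8]) ([],[.c13]) ([.c12],[]) ([.c13,.c14],[]) ([.c15],[.c12]), ([],[]))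
/-- One block. -/
noncomputable def t1_18 : Blk I16 J28 := (.c18, I16.fn ([.c0],[]) ([.c1],[]) ([],[.c1,.c3]) ([.c0,.c2],[]) ([.c4],[]) ([.c5],[]) ([],[.c5,.c7]) ([.c4,.c6],[]) ([.c8],[]) ([.c9],[]) ([],[.c9,.c11]) ([.c8,.c10],[]) ([.c12],[]) ([.c13],[]) ([],[.c13,.c15]) ([.c12,.c14],[]), ([],[]))
/-- One block. -/
noncomputable def t1_19 : Blk I16 J28 := (.c19, I16.fn ([.c0],[]) ([.c1],[]) ([],[.c1,.c3]) ([.c0,.c2],[]) ([.c4],[]) ([.c5],[]) ([],[.c5,.c7]) ([.c4,.c6],[]) ([.c8],[]) ([.c9],[]) ([],[.c9,.c11]) ([.c8,.c10],[]) ([.c12],[]) ([.c13],[]) ([],[.c13,.c15]) ([.c12,.c14],[]), ([],[]))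
/-- One block. -/
noncomputable def t1_20 : Blk I16 J28 := (.c21, I16.fn ([.c0],[]) ([.c1],[]) ([],[.c1,.c3]) ([.c0,.c2],[]) ([.c4],[]) ([.c5],[]) ([],[.c5,.c7]) ([.c4,.c6],[]) ([.c8],[]) ([.c9],[]) ([],[.c9,.c11]) ([.c8,.c10],[]) ([.c12],[]) ([.c13],[]) ([],[.c13,.c15]) ([.c12,.c14],[]), ([],[]))
/-- One block. -/
noncomputable def t1_21 : Blk I16 J28 := (.c20, I16.fn ([.c0],[]) ([.c1],[]) ([.c3],[.c0]) ([],[.c1,.c2]) ([.c4],[]) ([.c5],[]) ([.c7],[.c4]) ([],[.c5,.c6]) ([.c8],[]) ([.c9],[]) ([.c11],[.c8]) ([],[.c9,.c10]) ([.c12],[]) ([.c13],[]) ([.c15],[.c12]) ([],[.c13,.c14]), ([],[]))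
/-- One block. -/
noncomputable def t1_22 : Blk I16 J28 := (.c22, I16.fn ([.c0],[]) ([.c1],[]) ([],[.c1,.c3]) ([.c0,.c2],[]) ([.c4],[]) ([.c5],[]) ([],[.c5,.c7]) ([.c4,.c6],[]) ([.c8],[]) ([.c9],[]) ([],[.c9,.c11]) ([.c8,.c10],[]) ([.c12],[]) ([.c13],[]) ([],[.c13,.c15]) ([.c12,.c14],[]), ([],[]))
/-- One block. -/
noncomputable def t1_23 : Blk I16 J28 := (.c23, I16.fn ([],[.c1]) ([.c0],[]) ([.c1,.c2],[]) ([.c3],[.c0]) ([],[.c5]) ([.c4],[]) ([.c5,.c6],[]) ([.c7],[.c4]) ([],[.c9]) ([.c8],[]) ([.c9,.c10],[]) ([.c11],[.c8]) ([],[.c13]) ([.c12],[]) ([.c13,.c14],[]) ([.c15],[.c12]), ([],[]))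
/-- One block. -/
noncomputable def t1_24 : Blk I16 J28 := (.c26, I16.fn ([],[.c1]) ([.c0],[]) ([.c1,.c2],[]) ([.c3],[.c0]) ([],[.c5]) ([.c4],[]) ([.c5,.c6],[]) ([.c7],[.c4]) ([],[.c9]) ([.c8],[]) ([.c9,.c10],[]) ([.c11],[.c8]) ([],[.c13]) ([.c12],[]) ([.c13,.c14],[]) ([.c15],[.c12]), ([],[]))
/-- One block. -/
noncomputable def t1_25 : Blk I16 J28 := (.c25, I16.fn ([],[.c1]) ([.c0],[]) ([.c1,.c2],[]) ([.c3],[.c0]) ([],[.c5]) ([.c4],[]) ([.c5,.c6],[]) ([.c7],[.c4]) ([],[.c9]) ([.c8],[]) ([.c9,.c10],[]) ([.c11],[.c8]) ([],[.c13]) ([.c12],[]) ([.c13,.c14],[]) ([.c15],[.c12]), ([],[]))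
/-- One block. -/
noncomputable def t1_26 : Blk I16 J28 := (.c24, I16.fn ([.c1],[]) ([],[.c0]) ([.c0,.c2],[]) ([.c1,.c3],[]) ([.c5],[]) ([],[.c4]) ([.c4,.c6],[]) ([.c5,.c7],[]) ([.c9],[]) ([],[.c8]) ([.c8,.c10],[]) ([.c9,.c11],[]) ([.c13],[]) ([],[.c12]) ([.c12,.c14],[]) ([.c13,.c15],[]), ([],[]))
/-- One block. -/
noncomputable def t1_27 : Blk I16 J28 := (.c27, I16.fn ([],[.c1]) ([.c0],[]) ([.c1,.c2],[]) ([.c3],[.c0]) ([],[.c5]) ([.c4],[]) ([.c5,.c6],[]) ([.c7],[.c4]) ([],[.c9]) ([.c8],[]) ([.c9,.c10],[]) ([.c11],[.c8]) ([],[.c13]) ([.c12],[]) ([.c13,.c14],[]) ([.c15],[.c12]), ([],[]))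
/-- The blocks of a generator. -/
noncomputable def t1 : J28 → Blk I16 J28 := J28.fn t1_0 t1_1 t1_2 t1_3 t1_4 t1_5 t1_6 t1_7 t1_8 t1_9 t1_10 t1_11 t1_12 t1_13 t1_14 t1_15 t1_16 t1_17 t1_18 t1_19 t1_20 t1_21 t1_22 t1_23 t1_24 t1_25 t1_26 t1_27
/-- One block. -/
noncomputable def t2_0 : Blk I16 J28 := (.c3, I16.fn ([.c7],[.c1,.c2,.c4,.c6]) ([.c0],[.c3,.c5,.c6,.c7]) ([.c2,.c6],[]) ([.c3,.c7],[]) ([.c4,.c6],[]) ([.c5,.c7],[]) ([],[.c7]) ([.c6],[]) ([.c15],[.c9,.c10,.c12,.c14]) ([.c8],[.c11,.c13,.c14,.c15]) ([.c10,.c14],[]) ([.c11,.c15],[]) ([.c12,.c14],[]) ([.c13,.c15],[]) ([],[.c15]) ([.c14],[]), ([],[]))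
/-- One block. -/
noncomputable def t2_1 : Blk I16 J28 := (.c4, I16.fn ([.c7],[.c1,.c2,.c4,.c6]) ([.c0],[.c3,.c5,.c6,.c7]) ([.c2,.c6],[]) ([.c3,.c7],[]) ([.c4,.c6],[]) ([.c5,.c7],[]) ([],[.c7]) ([.c6],[]) ([.c15],[.c9,.c10,.c12,.c14]) ([.c8],[.c11,.c13,.c14,.c15]) ([.c10,.c14],[]) ([.c11,.c15],[]) ([.c12,.c14],[]) ([.c13,.c15],[]) ([],[.c15]) ([.c14],[]), ([],[]))
/-- One block. -/
noncomputable def t2_2 : Blk I16 J28 := (.c2, I16.fn ([.c7],[.c1,.c2,.c4,.c6]) ([.c0],[.c3,.c5,.c6,.c7]) ([.c2,.c6],[]) ([.c3,.c7],[]) ([.c4,.c6],[]) ([.c5,.c7],[]) ([],[.c7]) ([.c6],[]) ([.c15],[.c9,.c10,.c12,.c14]) ([.c8],[.c11,.c13,.c14,.c15]) ([.c10,.c14],[]) ([.c11,.c15],[]) ([.c12,.c14],[]) ([.c13,.c15],[]) ([],[.c15]) ([.c14],[]), ([],[]))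
/-- One block. -/
noncomputable def t2_3 : Blk I16 J28 := (.c0, I16.fn ([.c1,.c3,.c5,.c6,.c7],[]) ([.c7],[.c0,.c2,.c4,.c6]) ([.c2],[.c7]) ([.c3,.c6],[]) ([.c4],[.c7]) ([.c5,.c6],[]) ([.c7],[]) ([],[.c6]) ([.c9,.c11,.c13,.c14,.c15],[]) ([.c15],[.c8,.c10,.c12,.c14]) ([.c10],[.c15]) ([.c11,.c14],[]) ([.c12],[.c15]) ([.c13,.c14],[]) ([.c15],[]) ([],[.c14]), ([],[]))
/-- One block. -/
noncomputable def t2_4 : Blk I16 J28 := (.c1, I16.fn ([.c1,.c3,.c5,.c6,.c7],[]) ([.c7],[.c0,.c2,.c4,.c6]) ([.c2],[.c7]) ([.c3,.c6],[]) ([.c4],[.c7]) ([.c5,.c6],[]) ([.c7],[]) ([],[.c6]) ([.c9,.c11,.c13,.c14,.c15],[]) ([.c15],[.c8,.c10,.c12,.c14]) ([.c10],[.c15]) ([.c11,.c14],[]) ([.c12],[.c15]) ([.c13,.c14],[]) ([.c15],[]) ([],[.c14]), ([],[]))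
/-- One block. -/
noncomputable def t2_5 : Blk I16 J28 := (.c5, I16.fn ([.c0,.c2,.c4,.c6],[.c7]) ([.c1,.c3,.c5,.c6,.c7],[]) ([],[.c3,.c6]) ([.c2],[.c7]) ([],[.c5,.c6]) ([.c4],[.c7]) ([.c6],[]) ([.c7],[]) ([.c8,.c10,.c12,.c14],[.c15]) ([.c9,.c11,.c13,.c14,.c15],[]) ([],[.c11,.c14]) ([.c10],[.c15]) ([],[.c13,.c14]) ([.c12],[.c15]) ([.c14],[]) ([.c15],[]), ([],[]))
/-- One block. -/
noncomputable def t2_6 : Blk I16 J28 := (.c6, I16.fn ([.c0,.c2,.c4,.c6],[.c7]) ([.c1,.c3,.c5,.c6,.c7],[]) ([],[.c3,.c6]) ([.c2],[.c7]) ([],[.c5,.c6]) ([.c4],[.c7]) ([.c6],[]) ([.c7],[]) ([.c8,.c10,.c12,.c14],[.c15]) ([.c9,.c11,.c13,.c14,.c15],[]) ([],[.c11,.c14]) ([.c10],[.c15]) ([],[.c13,.c14]) ([.c12],[.c15]) ([.c14],[]) ([.c15],[]), ([],[]))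
/-- One block. -/
noncomputable def t2_7 : Blk I16 J28 := (.c7, I16.fn ([.c0,.c2,.c4,.c6],[.c7]) ([.c1,.c3,.c5,.c6,.c7],[]) ([],[.c3,.c6]) ([.c2],[.c7]) ([],[.c5,.c6]) ([.c4],[.c7]) ([.c6],[]) ([.c7],[]) ([.c8,.c10,.c12,.c14],[.c15]) ([.c9,.c11,.c13,.c14,.c15],[]) ([],[.c11,.c14]) ([.c10],[.c15]) ([],[.c13,.c14]) ([.c12],[.c15]) ([.c14],[]) ([.c15],[]), ([],[]))
/-- One block. -/
noncomputable def t2_8 : Blk I16 J28 := (.c9, I16.fn ([.c0,.c2,.c4,.c6],[.c7]) ([.c1,.c3,.c5,.c6,.c7],[]) ([],[.c3,.c6]) ([.c2],[.c7]) ([],[.c5,.c6]) ([.c4],[.c7]) ([.c6],[]) ([.c7],[]) ([.c8,.c10,.c12,.c14],[.c15]) ([.c9,.c11,.c13,.c14,.c15],[]) ([],[.c11,.c14]) ([.c10],[.c15]) ([],[.c13,.c14]) ([.c12],[.c15]) ([.c14],[]) ([.c15],[]), ([],[]))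
/-- One block. -/
noncomputable def t2_9 : Blk I16 J28 := (.c8, I16.fn ([.c0],[.c3,.c5,.c6,.c7]) ([.c1,.c2,.c4,.c6],[.c7]) ([.c3,.c7],[]) ([],[.c2,.c6]) ([.c5,.c7],[]) ([],[.c4,.c6]) ([.c6],[]) ([.c7],[]) ([.c8],[.c11,.c13,.c14,.c15]) ([.c9,.c10,.c12,.c14],[.c15]) ([.c11,.c15],[]) ([],[.c10,.c14]) ([.c13,.c15],[]) ([],[.c12,.c14]) ([.c14],[]) ([.c15],[]), ([],[]))
/-- One block. -/
noncomputable def t2_10 : Blk I16 J28 := (.c10, I16.fn ([.c7],[.c1,.c2,.c4,.c6]) ([.c0],[.c3,.c5,.c6,.c7]) ([.c2,.c6],[]) ([.c3,.c7],[]) ([.c4,.c6],[]) ([.c5,.c7],[]) ([],[.c7]) ([.c6],[]) ([.c15],[.c9,.c10,.c12,.c14]) ([.c8],[.c11,.c13,.c14,.c15]) ([.c10,.c14],[]) ([.c11,.c15],[]) ([.c12,.c14],[]) ([.c13,.c15],[]) ([],[.c15]) ([.c14],[]), ([.c7,.c15],[.c6]))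
/-- One block. -/
noncomputable def t2_11 : Blk I16 J28 := (.c11, I16.fn ([.c0,.c2,.c4,.c6],[.c7]) ([.c1,.c3,.c5,.c6,.c7],[]) ([],[.c3,.c6]) ([.c2],[.c7]) ([],[.c5,.c6]) ([.c4],[.c7]) ([.c6],[]) ([.c7],[]) ([.c8,.c10,.c12,.c14],[.c15]) ([.c9,.c11,.c13,.c14,.c15],[]) ([],[.c11,.c14]) ([.c10],[.c15]) ([],[.c13,.c14]) ([.c12],[.c15]) ([.c14],[]) ([.c15],[]), ([.c7,.c13,.c15],[.c4,.c4,.c6,.c12]))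
/-- One block. -/
noncomputable def t2_12 : Blk I16 J28 := (.c12, I16.fn ([.c0,.c2,.c4,.c6],[.c7]) ([.c1,.c3,.c5,.c6,.c7],[]) ([],[.c3,.c6]) ([.c2],[.c7]) ([],[.c5,.c6]) ([.c4],[.c7]) ([.c6],[]) ([.c7],[]) ([.c8,.c10,.c12,.c14],[.c15]) ([.c9,.c11,.c13,.c14,.c15],[]) ([],[.c11,.c14]) ([.c10],[.c15]) ([],[.c13,.c14]) ([.c12],[.c15]) ([.c14],[]) ([.c15],[]), ([],[]))
/-- One block. -/
noncomputable def t2_13 : Blk I16 J28 := (.c13, I16.fn ([.c0,.c2,.c4,.c6],[.c7]) ([.c1,.c3,.c5,.c6,.c7],[]) ([],[.c3,.c6]) ([.c2],[.c7]) ([],[.c5,.c6]) ([.c4],[.c7]) ([.c6],[]) ([.c7],[]) ([.c8,.c10,.c12,.c14],[.c15]) ([.c9,.c11,.c13,.c14,.c15],[]) ([],[.c11,.c14]) ([.c10],[.c15]) ([],[.c13,.c14]) ([.c12],[.c15]) ([.c14],[]) ([.c15],[]), ([],[]))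
/-- One block. -/
noncomputable def t2_14 : Blk I16 J28 := (.c15, I16.fn ([.c0,.c2,.c4,.c6],[.c7]) ([.c1,.c3,.c5,.c6,.c7],[]) ([],[.c3,.c6]) ([.c2],[.c7]) ([],[.c5,.c6]) ([.c4],[.c7]) ([.c6],[]) ([.c7],[]) ([.c8,.c10,.c12,.c14],[.c15]) ([.c9,.c11,.c13,.c14,.c15],[]) ([],[.c11,.c14]) ([.c10],[.c15]) ([],[.c13,.c14]) ([.c12],[.c15]) ([.c14],[]) ([.c15],[]), ([],[]))
/-- One block. -/
noncomputable def t2_15 : Blk I16 J28 := (.c14, I16.fn ([.c0],[.c3,.c5,.c6,.c7]) ([.c1,.c2,.c4,.c6],[.c7]) ([.c3,.c7],[]) ([],[.c2,.c6]) ([.c5,.c7],[]) ([],[.c4,.c6]) ([.c6],[]) ([.c7],[]) ([.c8],[.c11,.c13,.c14,.c15]) ([.c9,.c10,.c12,.c14],[.c15]) ([.c11,.c15],[]) ([],[.c10,.c14]) ([.c13,.c15],[]) ([],[.c12,.c14]) ([.c14],[]) ([.c15],[]), ([],[]))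
/-- One block. -/
noncomputable def t2_16 : Blk I16 J28 := (.c16, I16.fn ([.c7],[.c1,.c2,.c4,.c6]) ([.c0],[.c3,.c5,.c6,.c7]) ([.c2,.c6],[]) ([.c3,.c7],[]) ([.c4,.c6],[]) ([.c5,.c7],[]) ([],[.c7]) ([.c6],[]) ([.c15],[.c9,.c10,.c12,.c14]) ([.c8],[.c11,.c13,.c14,.c15]) ([.c10,.c14],[]) ([.c11,.c15],[]) ([.c12,.c14],[]) ([.c13,.c15],[]) ([],[.c15]) ([.c14],[]), ([.c7,.c14,.c15],[]))
/-- One block. -/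
noncomputable def t2_17 : Blk I16 J28 := (.c17, I16.fn ([.c0,.c2,.c4,.c6],[.c7]) ([.c1,.c3,.c5,.c6,.c7],[]) ([],[.c3,.c6]) ([.c2],[.c7]) ([],[.c5,.c6]) ([.c4],[.c7]) ([.c6],[]) ([.c7],[]) ([.c8,.c10,.c12,.c14],[.c15]) ([.c9,.c11,.c13,.c14,.c15],[]) ([],[.c11,.c14]) ([.c10],[.c15]) ([],[.c13,.c14]) ([.c12],[.c15]) ([.c14],[]) ([.c15],[]), ([.c5,.c7,.c13,.c13,.c14,.c15],[.c4]))
/-- One block. -/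
noncomputable def t2_18 : Blk I16 J28 := (.c21, I16.fn ([.c0,.c2,.c4,.c6],[.c7]) ([.c1,.c3,.c5,.c6,.c7],[]) ([],[.c3,.c6]) ([.c2],[.c7]) ([],[.c5,.c6]) ([.c4],[.c7]) ([.c6],[]) ([.c7],[]) ([.c8,.c10,.c12,.c14],[.c15]) ([.c9,.c11,.c13,.c14,.c15],[]) ([],[.c11,.c14]) ([.c10],[.c15]) ([],[.c13,.c14]) ([.c12],[.c15]) ([.c14],[]) ([.c15],[]), ([],[]))
/-- One block. -/
noncomputable def t2_19 : Blk I16 J28 := (.c19, I16.fn ([.c7],[.c1,.c2,.c4,.c6]) ([.c0],[.c3,.c5,.c6,.c7]) ([.c2,.c6],[]) ([.c3,.c7],[]) ([.c4,.c6],[]) ([.c5,.c7],[]) ([],[.c7]) ([.c6],[]) ([.c15],[.c9,.c10,.c12,.c14]) ([.c8],[.c11,.c13,.c14,.c15]) ([.c10,.c14],[]) ([.c11,.c15],[]) ([.c12,.c14],[]) ([.c13,.c15],[]) ([],[.c15]) ([.c14],[]), ([],[]))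
/-- One block. -/
noncomputable def t2_20 : Blk I16 J28 := (.c20, I16.fn ([.c7],[.c1,.c2,.c4,.c6]) ([.c0],[.c3,.c5,.c6,.c7]) ([.c2,.c6],[]) ([.c3,.c7],[]) ([.c4,.c6],[]) ([.c5,.c7],[]) ([],[.c7]) ([.c6],[]) ([.c15],[.c9,.c10,.c12,.c14]) ([.c8],[.c11,.c13,.c14,.c15]) ([.c10,.c14],[]) ([.c11,.c15],[]) ([.c12,.c14],[]) ([.c13,.c15],[]) ([],[.c15]) ([.c14],[]), ([],[]))
/-- One block. -/
noncomputable def t2_21 : Blk I16 J28 := (.c18, I16.fn ([.c0],[.c3,.c5,.c6,.c7]) ([.c1,.c2,.c4,.c6],[.c7]) ([.c3,.c7],[]) ([],[.c2,.c6]) ([.c5,.c7],[]) ([],[.c4,.c6]) ([.c6],[]) ([.c7],[]) ([.c8],[.c11,.c13,.c14,.c15]) ([.c9,.c10,.c12,.c14],[.c15]) ([.c11,.c15],[]) ([],[.c10,.c14]) ([.c13,.c15],[]) ([],[.c12,.c14]) ([.c14],[]) ([.c15],[]), ([],[]))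
/-- One block. -/
noncomputable def t2_22 : Blk I16 J28 := (.c22, I16.fn ([.c7],[.c1,.c2,.c4,.c6]) ([.c0],[.c3,.c5,.c6,.c7]) ([.c2,.c6],[]) ([.c3,.c7],[]) ([.c4,.c6],[]) ([.c5,.c7],[]) ([],[.c7]) ([.c6],[]) ([.c15],[.c9,.c10,.c12,.c14]) ([.c8],[.c11,.c13,.c14,.c15]) ([.c10,.c14],[]) ([.c11,.c15],[]) ([.c12,.c14],[]) ([.c13,.c15],[]) ([],[.c15]) ([.c14],[]), ([.c7,.c15],[]))
/-- One block. -/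
noncomputable def t2_23 : Blk I16 J28 := (.c23, I16.fn ([.c0,.c2,.c4,.c6],[.c7]) ([.c1,.c3,.c5,.c6,.c7],[]) ([],[.c3,.c6]) ([.c2],[.c7]) ([],[.c5,.c6]) ([.c4],[.c7]) ([.c6],[]) ([.c7],[]) ([.c8,.c10,.c12,.c14],[.c15]) ([.c9,.c11,.c13,.c14,.c15],[]) ([],[.c11,.c14]) ([.c10],[.c15]) ([],[.c13,.c14]) ([.c12],[.c15]) ([.c14],[]) ([.c15],[]), ([.c5,.c7,.c13,.c15],[.c4,.c12]))
/-- One block. -/
noncomputable def t2_24 : Blk I16 J28 := (.c24, I16.fn ([.c0,.c2,.c4,.c6],[.c7]) ([.c1,.c3,.c5,.c6,.c7],[]) ([],[.c3,.c6]) ([.c2],[.c7]) ([],[.c5,.c6]) ([.c4],[.c7]) ([.c6],[]) ([.c7],[]) ([.c8,.c10,.c12,.c14],[.c15]) ([.c9,.c11,.c13,.c14,.c15],[]) ([],[.c11,.c14]) ([.c10],[.c15]) ([],[.c13,.c14]) ([.c12],[.c15]) ([.c14],[]) ([.c15],[]), ([],[]))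
/-- One block. -/
noncomputable def t2_25 : Blk I16 J28 := (.c25, I16.fn ([.c0,.c2,.c4,.c6],[.c7]) ([.c1,.c3,.c5,.c6,.c7],[]) ([],[.c3,.c6]) ([.c2],[.c7]) ([],[.c5,.c6]) ([.c4],[.c7]) ([.c6],[]) ([.c7],[]) ([.c8,.c10,.c12,.c14],[.c15]) ([.c9,.c11,.c13,.c14,.c15],[]) ([],[.c11,.c14]) ([.c10],[.c15]) ([],[.c13,.c14]) ([.c12],[.c15]) ([.c14],[]) ([.c15],[]), ([],[]))
/-- One block. -/
noncomputable def t2_26 : Blk I16 J28 := (.c27, I16.fn ([.c0,.c2,.c4,.c6],[.c7]) ([.c1,.c3,.c5,.c6,.c7],[]) ([],[.c3,.c6]) ([.c2],[.c7]) ([],[.c5,.c6]) ([.c4],[.c7]) ([.c6],[]) ([.c7],[]) ([.c8,.c10,.c12,.c14],[.c15]) ([.c9,.c11,.c13,.c14,.c15],[]) ([],[.c11,.c14]) ([.c10],[.c15]) ([],[.c13,.c14]) ([.c12],[.c15]) ([.c14],[]) ([.c15],[]), ([],[]))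
/-- One block. -/
noncomputable def t2_27 : Blk I16 J28 := (.c26, I16.fn ([.c0],[.c3,.c5,.c6,.c7]) ([.c1,.c2,.c4,.c6],[.c7]) ([.c3,.c7],[]) ([],[.c2,.c6]) ([.c5,.c7],[]) ([],[.c4,.c6]) ([.c6],[]) ([.c7],[]) ([.c8],[.c11,.c13,.c14,.c15]) ([.c9,.c10,.c12,.c14],[.c15]) ([.c11,.c15],[]) ([],[.c10,.c14]) ([.c13,.c15],[]) ([],[.c12,.c14]) ([.c14],[]) ([.c15],[]), ([],[]))
/-- The blocks of a generator. -/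
noncomputable def t2 : J28 → Blk I16 J28 := J28.fn t2_0 t2_1 t2_2 t2_3 t2_4 t2_5 t2_6 t2_7 t2_8 t2_9 t2_10 t2_11 t2_12 t2_13 t2_14 t2_15 t2_16 t2_17 t2_18 t2_19 t2_20 t2_21 t2_22 t2_23 t2_24 t2_25 t2_26 t2_27
/-- One block. -/
noncomputable def t3_0 : Blk I16 J28 := (.c6, I16.fn ([],[.c1]) ([.c0],[]) ([],[.c3]) ([.c2],[]) ([.c1,.c4],[]) ([.c5],[.c0]) ([.c3,.c6],[]) ([.c7],[.c2]) ([],[.c9]) ([.c8],[]) ([],[.c11]) ([.c10],[]) ([.c9,.c12],[]) ([.c13],[.c8]) ([.c11,.c14],[]) ([.c15],[.c10]), ([],[.c4,.c6]))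
/-- One block. -/
noncomputable def t3_1 : Blk I16 J28 := (.c7, I16.fn ([],[.c1]) ([.c0],[]) ([],[.c3]) ([.c2],[]) ([.c1,.c4],[]) ([.c5],[.c0]) ([.c3,.c6],[]) ([.c7],[.c2]) ([],[.c9]) ([.c8],[]) ([],[.c11]) ([.c10],[]) ([.c9,.c12],[]) ([.c13],[.c8]) ([.c11,.c14],[]) ([.c15],[.c10]), ([],[.c5,.c6,.c7]))
/-- One block. -/
noncomputable def t3_2 : Blk I16 J28 := (.c8, I16.fn ([],[.c1]) ([.c0],[]) ([],[.c3]) ([.c2],[]) ([.c1,.c4],[]) ([.c5],[.c0]) ([.c3,.c6],[]) ([.c7],[.c2]) ([],[.c9]) ([.c8],[]) ([],[.c11]) ([.c10],[]) ([.c9,.c12],[]) ([.c13],[.c8]) ([.c11,.c14],[]) ([.c15],[.c10]), ([],[.c4,.c5,.c6]))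
/-- One block. -/
noncomputable def t3_3 : Blk I16 J28 := (.c3, I16.fn ([],[.c1]) ([.c0],[]) ([],[.c3]) ([.c2],[]) ([.c1,.c4],[]) ([.c5],[.c0]) ([.c3,.c6],[]) ([.c7],[.c2]) ([],[.c9]) ([.c8],[]) ([],[.c11]) ([.c10],[]) ([.c9,.c12],[]) ([.c13],[.c8]) ([.c11,.c14],[]) ([.c15],[.c10]), ([.c1],[]))
/-- One block. -/
noncomputable def t3_4 : Blk I16 J28 := (.c4, I16.fn ([],[.c1]) ([.c0],[]) ([],[.c3]) ([.c2],[]) ([.c1,.c4],[]) ([.c5],[.c0]) ([.c3,.c6],[]) ([.c7],[.c2]) ([],[.c9]) ([.c8],[]) ([],[.c11]) ([.c10],[]) ([.c9,.c12],[]) ([.c13],[.c8]) ([.c11,.c14],[]) ([.c15],[.c10]), ([],[.c0,.c2]))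
/-- One block. -/
noncomputable def t3_5 : Blk I16 J28 := (.c5, I16.fn ([],[.c1]) ([.c0],[]) ([],[.c3]) ([.c2],[]) ([.c1,.c4],[]) ([.c5],[.c0]) ([.c3,.c6],[]) ([.c7],[.c2]) ([],[.c9]) ([.c8],[]) ([],[.c11]) ([.c10],[]) ([.c9,.c12],[]) ([.c13],[.c8]) ([.c11,.c14],[]) ([.c15],[.c10]), ([],[.c3]))
/-- One block. -/
noncomputable def t3_6 : Blk I16 J28 := (.c0, I16.fn ([.c1],[]) ([],[.c0]) ([.c3],[]) ([],[.c2]) ([.c0,.c4],[]) ([.c1,.c5],[]) ([.c2,.c6],[]) ([.c3,.c7],[]) ([.c9],[]) ([],[.c8]) ([.c11],[]) ([],[.c10]) ([.c8,.c12],[]) ([.c9,.c13],[]) ([.c10,.c14],[]) ([.c11,.c15],[]), ([.c0,.c2,.c4,.c6],[]))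
/-- One block. -/
noncomputable def t3_7 : Blk I16 J28 := (.c1, I16.fn ([.c1],[]) ([],[.c0]) ([.c3],[]) ([],[.c2]) ([.c0,.c4],[]) ([.c1,.c5],[]) ([.c2,.c6],[]) ([.c3,.c7],[]) ([.c9],[]) ([],[.c8]) ([.c11],[]) ([],[.c10]) ([.c8,.c12],[]) ([.c9,.c13],[]) ([.c10,.c14],[]) ([.c11,.c15],[]), ([.c1,.c2,.c3,.c5,.c6,.c7],[]))
/-- One block. -/
noncomputable def t3_8 : Blk I16 J28 := (.c2, I16.fn ([.c1],[]) ([],[.c0]) ([.c3],[]) ([],[.c2]) ([.c0,.c4],[]) ([.c1,.c5],[]) ([.c2,.c6],[]) ([.c3,.c7],[]) ([.c9],[]) ([],[.c8]) ([.c11],[]) ([],[.c10]) ([.c8,.c12],[]) ([.c9,.c13],[]) ([.c10,.c14],[]) ([.c11,.c15],[]), ([.c0,.c1,.c2,.c4,.c5,.c6],[]))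
/-- One block. -/
noncomputable def t3_9 : Blk I16 J28 := (.c9, I16.fn ([.c0],[]) ([.c1],[]) ([.c2],[]) ([.c3],[]) ([],[.c1,.c5]) ([.c0,.c4],[]) ([],[.c3,.c7]) ([.c2,.c6],[]) ([.c8],[]) ([.c9],[]) ([.c10],[]) ([.c11],[]) ([],[.c9,.c13]) ([.c8,.c12],[]) ([],[.c11,.c15]) ([.c10,.c14],[]), ([],[]))
/-- One block. -/
noncomputable def t3_10 : Blk I16 J28 := (.c10, I16.fn ([.c0],[]) ([.c1],[]) ([.c2],[]) ([.c3],[]) ([],[.c1,.c5]) ([.c0,.c4],[]) ([],[.c3,.c7]) ([.c2,.c6],[]) ([.c8],[]) ([.c9],[]) ([.c10],[]) ([.c11],[]) ([],[.c9,.c13]) ([.c8,.c12],[]) ([],[.c11,.c15]) ([.c10,.c14],[]), ([],[]))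
/-- One block. -/
noncomputable def t3_11 : Blk I16 J28 := (.c15, I16.fn ([.c0],[]) ([.c1],[]) ([.c2],[]) ([.c3],[]) ([],[.c1,.c5]) ([.c0,.c4],[]) ([],[.c3,.c7]) ([.c2,.c6],[]) ([.c8],[]) ([.c9],[]) ([.c10],[]) ([.c11],[]) ([],[.c9,.c13]) ([.c8,.c12],[]) ([],[.c11,.c15]) ([.c10,.c14],[]), ([],[]))
/-- One block. -/
noncomputable def t3_12 : Blk I16 J28 := (.c12, I16.fn ([],[.c1]) ([.c0],[]) ([],[.c3]) ([.c2],[]) ([.c1,.c4],[]) ([.c5],[.c0]) ([.c3,.c6],[]) ([.c7],[.c2]) ([],[.c9]) ([.c8],[]) ([],[.c11]) ([.c10],[]) ([.c9,.c12],[]) ([.c13],[.c8]) ([.c11,.c14],[]) ([.c15],[.c10]), ([.c0,.c2],[.c1,.c3,.c9,.c11]))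
/-- One block. -/
noncomputable def t3_13 : Blk I16 J28 := (.c13, I16.fn ([],[.c1]) ([.c0],[]) ([],[.c3]) ([.c2],[]) ([.c1,.c4],[]) ([.c5],[.c0]) ([.c3,.c6],[]) ([.c7],[.c2]) ([],[.c9]) ([.c8],[]) ([],[.c11]) ([.c10],[]) ([.c9,.c12],[]) ([.c13],[.c8]) ([.c11,.c14],[]) ([.c15],[.c10]), ([.c0,.c1,.c2,.c2,.c8,.c10],[.c11]))
/-- One block. -/
noncomputable def t3_14 : Blk I16 J28 := (.c14, I16.fn ([],[.c1]) ([.c0],[]) ([],[.c3]) ([.c2],[]) ([.c1,.c4],[]) ([.c5],[.c0]) ([.c3,.c6],[]) ([.c7],[.c2]) ([],[.c9]) ([.c8],[]) ([],[.c11]) ([.c10],[]) ([.c9,.c12],[]) ([.c13],[.c8]) ([.c11,.c14],[]) ([.c15],[.c10]), ([.c0,.c0,.c2,.c8],[.c3,.c9,.c11]))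
/-- One block. -/
noncomputable def t3_15 : Blk I16 J28 := (.c11, I16.fn ([.c0],[]) ([.c1],[]) ([.c2],[]) ([.c3],[]) ([.c5],[.c0]) ([],[.c1,.c4]) ([.c7],[.c2]) ([],[.c3,.c6]) ([.c8],[]) ([.c9],[]) ([.c10],[]) ([.c11],[]) ([.c13],[.c8]) ([],[.c9,.c12]) ([.c15],[.c10]) ([],[.c11,.c14]), ([],[]))
/-- One block. -/
noncomputable def t3_16 : Blk I16 J28 := (.c18, I16.fn ([],[.c1]) ([.c0],[]) ([],[.c3]) ([.c2],[]) ([.c1,.c4],[]) ([.c5],[.c0]) ([.c3,.c6],[]) ([.c7],[.c2]) ([],[.c9]) ([.c8],[]) ([],[.c11]) ([.c10],[]) ([.c9,.c12],[]) ([.c13],[.c8]) ([.c11,.c14],[]) ([.c15],[.c10]), ([],[]))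
/-- One block. -/
noncomputable def t3_17 : Blk I16 J28 := (.c17, I16.fn ([],[.c1]) ([.c0],[]) ([],[.c3]) ([.c2],[]) ([.c1,.c4],[]) ([.c5],[.c0]) ([.c3,.c6],[]) ([.c7],[.c2]) ([],[.c9]) ([.c8],[]) ([],[.c11]) ([.c10],[]) ([.c9,.c12],[]) ([.c13],[.c8]) ([.c11,.c14],[]) ([.c15],[.c10]), ([],[]))
/-- One block. -/
noncomputable def t3_18 : Blk I16 J28 := (.c16, I16.fn ([.c1],[]) ([],[.c0]) ([.c3],[]) ([],[.c2]) ([.c0,.c4],[]) ([.c1,.c5],[]) ([.c2,.c6],[]) ([.c3,.c7],[]) ([.c9],[]) ([],[.c8]) ([.c11],[]) ([],[.c10]) ([.c8,.c12],[]) ([.c9,.c13],[]) ([.c10,.c14],[]) ([.c11,.c15],[]), ([],[]))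
/-- One block. -/
noncomputable def t3_19 : Blk I16 J28 := (.c19, I16.fn ([.c0],[]) ([.c1],[]) ([.c2],[]) ([.c3],[]) ([],[.c1,.c5]) ([.c0,.c4],[]) ([],[.c3,.c7]) ([.c2,.c6],[]) ([.c8],[]) ([.c9],[]) ([.c10],[]) ([.c11],[]) ([],[.c9,.c13]) ([.c8,.c12],[]) ([],[.c11,.c15]) ([.c10,.c14],[]), ([.c0,.c4,.c8],[.c5,.c9,.c13,.c13]))
/-- One block. -/
noncomputable def t3_20 : Blk I16 J28 := (.c20, I16.fn ([.c0],[]) ([.c1],[]) ([.c2],[]) ([.c3],[]) ([],[.c1,.c5]) ([.c0,.c4],[]) ([],[.c3,.c7]) ([.c2,.c6],[]) ([.c8],[]) ([.c9],[]) ([.c10],[]) ([.c11],[]) ([],[.c9,.c13]) ([.c8,.c12],[]) ([],[.c11,.c15]) ([.c10,.c14],[]), ([.c1,.c3,.c4,.c5,.c6,.c7,.c8,.c9,.c10,.c11,.c12,.c12,.c14,.c14],[]))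
/-- One block. -/
noncomputable def t3_21 : Blk I16 J28 := (.c21, I16.fn ([.c0],[]) ([.c1],[]) ([.c2],[]) ([.c3],[]) ([],[.c1,.c5]) ([.c0,.c4],[]) ([],[.c3,.c7]) ([.c2,.c6],[]) ([.c8],[]) ([.c9],[]) ([.c10],[]) ([.c11],[]) ([],[.c9,.c13]) ([.c8,.c12],[]) ([],[.c11,.c15]) ([.c10,.c14],[]), ([.c7,.c11,.c15,.c15],[.c2,.c6,.c10]))
/-- One block. -/
noncomputable def t3_22 : Blk I16 J28 := (.c22, I16.fn ([.c0],[]) ([.c1],[]) ([.c2],[]) ([.c3],[]) ([],[.c1,.c5]) ([.c0,.c4],[]) ([],[.c3,.c7]) ([.c2,.c6],[]) ([.c8],[]) ([.c9],[]) ([.c10],[]) ([.c11],[]) ([],[.c9,.c13]) ([.c8,.c12],[]) ([],[.c11,.c15]) ([.c10,.c14],[]), ([],[]))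
/-- One block. -/
noncomputable def t3_23 : Blk I16 J28 := (.c27, I16.fn ([.c0],[]) ([.c1],[]) ([.c2],[]) ([.c3],[]) ([],[.c1,.c5]) ([.c0,.c4],[]) ([],[.c3,.c7]) ([.c2,.c6],[]) ([.c8],[]) ([.c9],[]) ([.c10],[]) ([.c11],[]) ([],[.c9,.c13]) ([.c8,.c12],[]) ([],[.c11,.c15]) ([.c10,.c14],[]), ([],[]))
/-- One block. -/
noncomputable def t3_24 : Blk I16 J28 := (.c24, I16.fn ([],[.c1]) ([.c0],[]) ([],[.c3]) ([.c2],[]) ([.c1,.c4],[]) ([.c5],[.c0]) ([.c3,.c6],[]) ([.c7],[.c2]) ([],[.c9]) ([.c8],[]) ([],[.c11]) ([.c10],[]) ([.c9,.c12],[]) ([.c13],[.c8]) ([.c11,.c14],[]) ([.c15],[.c10]), ([],[.c1,.c3,.c9,.c11]))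
/-- One block. -/
noncomputable def t3_25 : Blk I16 J28 := (.c25, I16.fn ([],[.c1]) ([.c0],[]) ([],[.c3]) ([.c2],[]) ([.c1,.c4],[]) ([.c5],[.c0]) ([.c3,.c6],[]) ([.c7],[.c2]) ([],[.c9]) ([.c8],[]) ([],[.c11]) ([.c10],[]) ([.c9,.c12],[]) ([.c13],[.c8]) ([.c11,.c14],[]) ([.c15],[.c10]), ([.c0,.c2,.c8,.c10],[.c3,.c11]))
/-- One block. -/
noncomputable def t3_26 : Blk I16 J28 := (.c26, I16.fn ([],[.c1]) ([.c0],[]) ([],[.c3]) ([.c2],[]) ([.c1,.c4],[]) ([.c5],[.c0]) ([.c3,.c6],[]) ([.c7],[.c2]) ([],[.c9]) ([.c8],[]) ([],[.c11]) ([.c10],[]) ([.c9,.c12],[]) ([.c13],[.c8]) ([.c11,.c14],[]) ([.c15],[.c10]), ([.c0,.c8],[.c1,.c3,.c9,.c11]))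
/-- One block. -/
noncomputable def t3_27 : Blk I16 J28 := (.c23, I16.fn ([.c0],[]) ([.c1],[]) ([.c2],[]) ([.c3],[]) ([.c5],[.c0]) ([],[.c1,.c4]) ([.c7],[.c2]) ([],[.c3,.c6]) ([.c8],[]) ([.c9],[]) ([.c10],[]) ([.c11],[]) ([.c13],[.c8]) ([],[.c9,.c12]) ([.c15],[.c10]) ([],[.c11,.c14]), ([],[]))
/-- The blocks of a generator. -/
noncomputable def t3 : J28 → Blk I16 J28 := J28.fn t3_0 t3_1 t3_2 t3_3 t3_4 t3_5 t3_6 t3_7 t3_8 t3_9 t3_10 t3_11 t3_12 t3_13 t3_14 t3_15 t3_16 t3_17 t3_18 t3_19 t3_20 t3_21 t3_22 t3_23 t3_24 t3_25 t3_26 t3_27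
/-- One block. -/
noncomputable def t4_0 : Blk I16 J28 := (.c0, I16.fn ([.c0,.c4,.c8,.c12],[.c13]) ([.c1,.c5,.c9,.c12,.c13],[]) ([.c2,.c6,.c10,.c14],[.c15]) ([.c3,.c7,.c11,.c14,.c15],[]) ([],[.c5,.c12]) ([.c4],[.c13]) ([],[.c7,.c14]) ([.c6],[.c15]) ([],[.c9,.c12]) ([.c8],[.c13]) ([],[.c11,.c14]) ([.c10],[.c15]) ([.c12],[]) ([.c13],[]) ([.c14],[]) ([.c15],[]), ([],[]))
/-- One block. -/
noncomputable def t4_1 : Blk I16 J28 := (.c1, I16.fn ([.c0,.c4,.c8,.c12],[.c13]) ([.c1,.c5,.c9,.c12,.c13],[]) ([.c2,.c6,.c10,.c14],[.c15]) ([.c3,.c7,.c11,.c14,.c15],[]) ([],[.c5,.c12]) ([.c4],[.c13]) ([],[.c7,.c14]) ([.c6],[.c15]) ([],[.c9,.c12]) ([.c8],[.c13]) ([],[.c11,.c14]) ([.c10],[.c15]) ([.c12],[]) ([.c13],[]) ([.c14],[]) ([.c15],[]), ([],[]))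
/-- One block. -/
noncomputable def t4_2 : Blk I16 J28 := (.c2, I16.fn ([.c0,.c4,.c8,.c12],[.c13]) ([.c1,.c5,.c9,.c12,.c13],[]) ([.c2,.c6,.c10,.c14],[.c15]) ([.c3,.c7,.c11,.c14,.c15],[]) ([],[.c5,.c12]) ([.c4],[.c13]) ([],[.c7,.c14]) ([.c6],[.c15]) ([],[.c9,.c12]) ([.c8],[.c13]) ([],[.c11,.c14]) ([.c10],[.c15]) ([.c12],[]) ([.c13],[]) ([.c14],[]) ([.c15],[]), ([],[]))
/-- One block. -/
noncomputable def t4_3 : Blk I16 J28 := (.c3, I16.fn ([.c0,.c4,.c8,.c12],[.c13]) ([.c1,.c5,.c9,.c12,.c13],[]) ([.c2,.c6,.c10,.c14],[.c15]) ([.c3,.c7,.c11,.c14,.c15],[]) ([],[.c5,.c12]) ([.c4],[.c13]) ([],[.c7,.c14]) ([.c6],[.c15]) ([],[.c9,.c12]) ([.c8],[.c13]) ([],[.c11,.c14]) ([.c10],[.c15]) ([.c12],[]) ([.c13],[]) ([.c14],[]) ([.c15],[]), ([],[]))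
/-- One block. -/
noncomputable def t4_4 : Blk I16 J28 := (.c4, I16.fn ([.c0,.c4,.c8,.c12],[.c13]) ([.c1,.c5,.c9,.c12,.c13],[]) ([.c2,.c6,.c10,.c14],[.c15]) ([.c3,.c7,.c11,.c14,.c15],[]) ([],[.c5,.c12]) ([.c4],[.c13]) ([],[.c7,.c14]) ([.c6],[.c15]) ([],[.c9,.c12]) ([.c8],[.c13]) ([],[.c11,.c14]) ([.c10],[.c15]) ([.c12],[]) ([.c13],[]) ([.c14],[]) ([.c15],[]), ([],[]))
/-- One block. -/
noncomputable def t4_5 : Blk I16 J28 := (.c5, I16.fn ([.c0,.c4,.c8,.c12],[.c13]) ([.c1,.c5,.c9,.c12,.c13],[]) ([.c2,.c6,.c10,.c14],[.c15]) ([.c3,.c7,.c11,.c14,.c15],[]) ([],[.c5,.c12]) ([.c4],[.c13]) ([],[.c7,.c14]) ([.c6],[.c15]) ([],[.c9,.c12]) ([.c8],[.c13]) ([],[.c11,.c14]) ([.c10],[.c15]) ([.c12],[]) ([.c13],[]) ([.c14],[]) ([.c15],[]), ([],[]))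
/-- One block. -/
noncomputable def t4_6 : Blk I16 J28 := (.c12, I16.fn ([.c1,.c5,.c9,.c12,.c13],[]) ([.c13],[.c0,.c4,.c8,.c12]) ([.c3,.c7,.c11,.c14,.c15],[]) ([.c15],[.c2,.c6,.c10,.c14]) ([.c4],[.c13]) ([.c5,.c12],[]) ([.c6],[.c15]) ([.c7,.c14],[]) ([.c8],[.c13]) ([.c9,.c12],[]) ([.c10],[.c15]) ([.c11,.c14],[]) ([.c13],[]) ([],[.c12]) ([.c15],[]) ([],[.c14]), ([],[]))
/-- One block. -/
noncomputable def t4_7 : Blk I16 J28 := (.c13, I16.fn ([.c1,.c5,.c9,.c12,.c13],[]) ([.c13],[.c0,.c4,.c8,.c12]) ([.c3,.c7,.c11,.c14,.c15],[]) ([.c15],[.c2,.c6,.c10,.c14]) ([.c4],[.c13]) ([.c5,.c12],[]) ([.c6],[.c15]) ([.c7,.c14],[]) ([.c8],[.c13]) ([.c9,.c12],[]) ([.c10],[.c15]) ([.c11,.c14],[]) ([.c13],[]) ([],[.c12]) ([.c15],[]) ([],[.c14]), ([],[]))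
/-- One block. -/
noncomputable def t4_8 : Blk I16 J28 := (.c14, I16.fn ([.c1,.c5,.c9,.c12,.c13],[]) ([.c13],[.c0,.c4,.c8,.c12]) ([.c3,.c7,.c11,.c14,.c15],[]) ([.c15],[.c2,.c6,.c10,.c14]) ([.c4],[.c13]) ([.c5,.c12],[]) ([.c6],[.c15]) ([.c7,.c14],[]) ([.c8],[.c13]) ([.c9,.c12],[]) ([.c10],[.c15]) ([.c11,.c14],[]) ([.c13],[]) ([],[.c12]) ([.c15],[]) ([],[.c14]), ([],[]))
/-- One block. -/
noncomputable def t4_9 : Blk I16 J28 := (.c15, I16.fn ([.c1,.c5,.c9,.c12,.c13],[]) ([.c13],[.c0,.c4,.c8,.c12]) ([.c3,.c7,.c11,.c14,.c15],[]) ([.c15],[.c2,.c6,.c10,.c14]) ([.c4],[.c13]) ([.c5,.c12],[]) ([.c6],[.c15]) ([.c7,.c14],[]) ([.c8],[.c13]) ([.c9,.c12],[]) ([.c10],[.c15]) ([.c11,.c14],[]) ([.c13],[]) ([],[.c12]) ([.c15],[]) ([],[.c14]), ([],[]))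
/-- One block. -/
noncomputable def t4_10 : Blk I16 J28 := (.c10, I16.fn ([.c13],[.c1,.c4,.c8,.c12]) ([.c0],[.c5,.c9,.c12,.c13]) ([.c15],[.c3,.c6,.c10,.c14]) ([.c2],[.c7,.c11,.c14,.c15]) ([.c4,.c12],[]) ([.c5,.c13],[]) ([.c6,.c14],[]) ([.c7,.c15],[]) ([.c8,.c12],[]) ([.c9,.c13],[]) ([.c10,.c14],[]) ([.c11,.c15],[]) ([],[.c13]) ([.c12],[]) ([],[.c15]) ([.c14],[]), ([],[]))
/-- One block. -/
noncomputable def t4_11 : Blk I16 J28 := (.c11, I16.fn ([.c13],[.c1,.c4,.c8,.c12]) ([.c0],[.c5,.c9,.c12,.c13]) ([.c15],[.c3,.c6,.c10,.c14]) ([.c2],[.c7,.c11,.c14,.c15]) ([.c4,.c12],[]) ([.c5,.c13],[]) ([.c6,.c14],[]) ([.c7,.c15],[]) ([.c8,.c12],[]) ([.c9,.c13],[]) ([.c10,.c14],[]) ([.c11,.c15],[]) ([],[.c13]) ([.c12],[]) ([],[.c15]) ([.c14],[]), ([],[]))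
/-- One block. -/
noncomputable def t4_12 : Blk I16 J28 := (.c6, I16.fn ([.c13],[.c1,.c4,.c8,.c12]) ([.c0],[.c5,.c9,.c12,.c13]) ([.c15],[.c3,.c6,.c10,.c14]) ([.c2],[.c7,.c11,.c14,.c15]) ([.c4,.c12],[]) ([.c5,.c13],[]) ([.c6,.c14],[]) ([.c7,.c15],[]) ([.c8,.c12],[]) ([.c9,.c13],[]) ([.c10,.c14],[]) ([.c11,.c15],[]) ([],[.c13]) ([.c12],[]) ([],[.c15]) ([.c14],[]), ([],[]))
/-- One block. -/
noncomputable def t4_13 : Blk I16 J28 := (.c7, I16.fn ([.c13],[.c1,.c4,.c8,.c12]) ([.c0],[.c5,.c9,.c12,.c13]) ([.c15],[.c3,.c6,.c10,.c14]) ([.c2],[.c7,.c11,.c14,.c15]) ([.c4,.c12],[]) ([.c5,.c13],[]) ([.c6,.c14],[]) ([.c7,.c15],[]) ([.c8,.c12],[]) ([.c9,.c13],[]) ([.c10,.c14],[]) ([.c11,.c15],[]) ([],[.c13]) ([.c12],[]) ([],[.c15]) ([.c14],[]), ([],[]))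
/-- One block. -/
noncomputable def t4_14 : Blk I16 J28 := (.c8, I16.fn ([.c13],[.c1,.c4,.c8,.c12]) ([.c0],[.c5,.c9,.c12,.c13]) ([.c15],[.c3,.c6,.c10,.c14]) ([.c2],[.c7,.c11,.c14,.c15]) ([.c4,.c12],[]) ([.c5,.c13],[]) ([.c6,.c14],[]) ([.c7,.c15],[]) ([.c8,.c12],[]) ([.c9,.c13],[]) ([.c10,.c14],[]) ([.c11,.c15],[]) ([],[.c13]) ([.c12],[]) ([],[.c15]) ([.c14],[]), ([],[]))
/-- One block. -/
noncomputable def t4_15 : Blk I16 J28 := (.c9, I16.fn ([.c13],[.c1,.c4,.c8,.c12]) ([.c0],[.c5,.c9,.c12,.c13]) ([.c15],[.c3,.c6,.c10,.c14]) ([.c2],[.c7,.c11,.c14,.c15]) ([.c4,.c12],[]) ([.c5,.c13],[]) ([.c6,.c14],[]) ([.c7,.c15],[]) ([.c8,.c12],[]) ([.c9,.c13],[]) ([.c10,.c14],[]) ([.c11,.c15],[]) ([],[.c13]) ([.c12],[]) ([],[.c15]) ([.c14],[]), ([],[]))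
/-- One block. -/
noncomputable def t4_16 : Blk I16 J28 := (.c22, I16.fn ([.c13],[.c1,.c4,.c8,.c12]) ([.c0],[.c5,.c9,.c12,.c13]) ([.c15],[.c3,.c6,.c10,.c14]) ([.c2],[.c7,.c11,.c14,.c15]) ([.c4,.c12],[]) ([.c5,.c13],[]) ([.c6,.c14],[]) ([.c7,.c15],[]) ([.c8,.c12],[]) ([.c9,.c13],[]) ([.c10,.c14],[]) ([.c11,.c15],[]) ([],[.c13]) ([.c12],[]) ([],[.c15]) ([.c14],[]), ([],[]))
/-- One block. -/
noncomputable def t4_17 : Blk I16 J28 := (.c23, I16.fn ([.c13],[.c1,.c4,.c8,.c12]) ([.c0],[.c5,.c9,.c12,.c13]) ([.c15],[.c3,.c6,.c10,.c14]) ([.c2],[.c7,.c11,.c14,.c15]) ([.c4,.c12],[]) ([.c5,.c13],[]) ([.c6,.c14],[]) ([.c7,.c15],[]) ([.c8,.c12],[]) ([.c9,.c13],[]) ([.c10,.c14],[]) ([.c11,.c15],[]) ([],[.c13]) ([.c12],[]) ([],[.c15]) ([.c14],[]), ([],[]))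
/-- One block. -/
noncomputable def t4_18 : Blk I16 J28 := (.c18, I16.fn ([.c13],[.c1,.c4,.c8,.c12]) ([.c0],[.c5,.c9,.c12,.c13]) ([.c15],[.c3,.c6,.c10,.c14]) ([.c2],[.c7,.c11,.c14,.c15]) ([.c4,.c12],[]) ([.c5,.c13],[]) ([.c6,.c14],[]) ([.c7,.c15],[]) ([.c8,.c12],[]) ([.c9,.c13],[]) ([.c10,.c14],[]) ([.c11,.c15],[]) ([],[.c13]) ([.c12],[]) ([],[.c15]) ([.c14],[]), ([],[]))
/-- One block. -/
noncomputable def t4_19 : Blk I16 J28 := (.c19, I16.fn ([.c13],[.c1,.c4,.c8,.c12]) ([.c0],[.c5,.c9,.c12,.c13]) ([.c15],[.c3,.c6,.c10,.c14]) ([.c2],[.c7,.c11,.c14,.c15]) ([.c4,.c12],[]) ([.c5,.c13],[]) ([.c6,.c14],[]) ([.c7,.c15],[]) ([.c8,.c12],[]) ([.c9,.c13],[]) ([.c10,.c14],[]) ([.c11,.c15],[]) ([],[.c13]) ([.c12],[]) ([],[.c15]) ([.c14],[]), ([],[]))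
/-- One block. -/
noncomputable def t4_20 : Blk I16 J28 := (.c20, I16.fn ([.c13],[.c1,.c4,.c8,.c12]) ([.c0],[.c5,.c9,.c12,.c13]) ([.c15],[.c3,.c6,.c10,.c14]) ([.c2],[.c7,.c11,.c14,.c15]) ([.c4,.c12],[]) ([.c5,.c13],[]) ([.c6,.c14],[]) ([.c7,.c15],[]) ([.c8,.c12],[]) ([.c9,.c13],[]) ([.c10,.c14],[]) ([.c11,.c15],[]) ([],[.c13]) ([.c12],[]) ([],[.c15]) ([.c14],[]), ([],[]))
/-- One block. -/
noncomputable def t4_21 : Blk I16 J28 := (.c21, I16.fn ([.c13],[.c1,.c4,.c8,.c12]) ([.c0],[.c5,.c9,.c12,.c13]) ([.c15],[.c3,.c6,.c10,.c14]) ([.c2],[.c7,.c11,.c14,.c15]) ([.c4,.c12],[]) ([.c5,.c13],[]) ([.c6,.c14],[]) ([.c7,.c15],[]) ([.c8,.c12],[]) ([.c9,.c13],[]) ([.c10,.c14],[]) ([.c11,.c15],[]) ([],[.c13]) ([.c12],[]) ([],[.c15]) ([.c14],[]), ([],[]))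
/-- One block. -/
noncomputable def t4_22 : Blk I16 J28 := (.c16, I16.fn ([.c1,.c5,.c9,.c12,.c13],[]) ([.c13],[.c0,.c4,.c8,.c12]) ([.c3,.c7,.c11,.c14,.c15],[]) ([.c15],[.c2,.c6,.c10,.c14]) ([.c4],[.c13]) ([.c5,.c12],[]) ([.c6],[.c15]) ([.c7,.c14],[]) ([.c8],[.c13]) ([.c9,.c12],[]) ([.c10],[.c15]) ([.c11,.c14],[]) ([.c13],[]) ([],[.c12]) ([.c15],[]) ([],[.c14]), ([],[]))
/-- One block. -/
noncomputable def t4_23 : Blk I16 J28 := (.c17, I16.fn ([.c1,.c5,.c9,.c12,.c13],[]) ([.c13],[.c0,.c4,.c8,.c12]) ([.c3,.c7,.c11,.c14,.c15],[]) ([.c15],[.c2,.c6,.c10,.c14]) ([.c4],[.c13]) ([.c5,.c12],[]) ([.c6],[.c15]) ([.c7,.c14],[]) ([.c8],[.c13]) ([.c9,.c12],[]) ([.c10],[.c15]) ([.c11,.c14],[]) ([.c13],[]) ([],[.c12]) ([.c15],[]) ([],[.c14]), ([],[]))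
/-- One block. -/
noncomputable def t4_24 : Blk I16 J28 := (.c24, I16.fn ([.c0,.c4,.c8,.c12],[.c13]) ([.c1,.c5,.c9,.c12,.c13],[]) ([.c2,.c6,.c10,.c14],[.c15]) ([.c3,.c7,.c11,.c14,.c15],[]) ([],[.c5,.c12]) ([.c4],[.c13]) ([],[.c7,.c14]) ([.c6],[.c15]) ([],[.c9,.c12]) ([.c8],[.c13]) ([],[.c11,.c14]) ([.c10],[.c15]) ([.c12],[]) ([.c13],[]) ([.c14],[]) ([.c15],[]), ([],[]))
/-- One block. -/
noncomputable def t4_25 : Blk I16 J28 := (.c25, I16.fn ([.c0,.c4,.c8,.c12],[.c13]) ([.c1,.c5,.c9,.c12,.c13],[]) ([.c2,.c6,.c10,.c14],[.c15]) ([.c3,.c7,.c11,.c14,.c15],[]) ([],[.c5,.c12]) ([.c4],[.c13]) ([],[.c7,.c14]) ([.c6],[.c15]) ([],[.c9,.c12]) ([.c8],[.c13]) ([],[.c11,.c14]) ([.c10],[.c15]) ([.c12],[]) ([.c13],[]) ([.c14],[]) ([.c15],[]), ([],[]))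
/-- One block. -/
noncomputable def t4_26 : Blk I16 J28 := (.c26, I16.fn ([.c0,.c4,.c8,.c12],[.c13]) ([.c1,.c5,.c9,.c12,.c13],[]) ([.c2,.c6,.c10,.c14],[.c15]) ([.c3,.c7,.c11,.c14,.c15],[]) ([],[.c5,.c12]) ([.c4],[.c13]) ([],[.c7,.c14]) ([.c6],[.c15]) ([],[.c9,.c12]) ([.c8],[.c13]) ([],[.c11,.c14]) ([.c10],[.c15]) ([.c12],[]) ([.c13],[]) ([.c14],[]) ([.c15],[]), ([],[]))
/-- One block. -/
noncomputable def t4_27 : Blk I16 J28 := (.c27, I16.fn ([.c0,.c4,.c8,.c12],[.c13]) ([.c1,.c5,.c9,.c12,.c13],[]) ([.c2,.c6,.c10,.c14],[.c15]) ([.c3,.c7,.c11,.c14,.c15],[]) ([],[.c5,.c12]) ([.c4],[.c13]) ([],[.c7,.c14]) ([.c6],[.c15]) ([],[.c9,.c12]) ([.c8],[.c13]) ([],[.c11,.c14]) ([.c10],[.c15]) ([.c12],[]) ([.c13],[]) ([.c14],[]) ([.c15],[]), ([],[]))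
/-- The blocks of a generator. -/
noncomputable def t4 : J28 → Blk I16 J28 := J28.fn t4_0 t4_1 t4_2 t4_3 t4_4 t4_5 t4_6 t4_7 t4_8 t4_9 t4_10 t4_11 t4_12 t4_13 t4_14 t4_15 t4_16 t4_17 t4_18 t4_19 t4_20 t4_21 t4_22 t4_23 t4_24 t4_25 t4_26 t4_27
/-- One block. -/
noncomputable def t5_0 : Blk I16 J28 := (.c0, I16.fn ([.c0],[]) ([.c1],[]) ([.c2],[]) ([.c3],[]) ([.c4],[]) ([.c5],[]) ([.c6],[]) ([.c7],[]) ([],[.c1,.c9]) ([.c0,.c8],[]) ([],[.c3,.c11]) ([.c2,.c10],[]) ([],[.c5,.c13]) ([.c4,.c12],[]) ([],[.c7,.c15]) ([.c6,.c14],[]), ([],[]))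
/-- One block. -/
noncomputable def t5_1 : Blk I16 J28 := (.c1, I16.fn ([.c0],[]) ([.c1],[]) ([.c2],[]) ([.c3],[]) ([.c4],[]) ([.c5],[]) ([.c6],[]) ([.c7],[]) ([],[.c1,.c9]) ([.c0,.c8],[]) ([],[.c3,.c11]) ([.c2,.c10],[]) ([],[.c5,.c13]) ([.c4,.c12],[]) ([],[.c7,.c15]) ([.c6,.c14],[]), ([],[]))
/-- One block. -/
noncomputable def t5_2 : Blk I16 J28 := (.c2, I16.fn ([.c0],[]) ([.c1],[]) ([.c2],[]) ([.c3],[]) ([.c4],[]) ([.c5],[]) ([.c6],[]) ([.c7],[]) ([],[.c1,.c9]) ([.c0,.c8],[]) ([],[.c3,.c11]) ([.c2,.c10],[]) ([],[.c5,.c13]) ([.c4,.c12],[]) ([],[.c7,.c15]) ([.c6,.c14],[]), ([],[]))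
/-- One block. -/
noncomputable def t5_3 : Blk I16 J28 := (.c3, I16.fn ([.c0],[]) ([.c1],[]) ([.c2],[]) ([.c3],[]) ([.c4],[]) ([.c5],[]) ([.c6],[]) ([.c7],[]) ([],[.c1,.c9]) ([.c0,.c8],[]) ([],[.c3,.c11]) ([.c2,.c10],[]) ([],[.c5,.c13]) ([.c4,.c12],[]) ([],[.c7,.c15]) ([.c6,.c14],[]), ([],[]))
/-- One block. -/
noncomputable def t5_4 : Blk I16 J28 := (.c4, I16.fn ([.c0],[]) ([.c1],[]) ([.c2],[]) ([.c3],[]) ([.c4],[]) ([.c5],[]) ([.c6],[]) ([.c7],[]) ([],[.c1,.c9]) ([.c0,.c8],[]) ([],[.c3,.c11]) ([.c2,.c10],[]) ([],[.c5,.c13]) ([.c4,.c12],[]) ([],[.c7,.c15]) ([.c6,.c14],[]), ([],[]))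
/-- One block. -/
noncomputable def t5_5 : Blk I16 J28 := (.c5, I16.fn ([.c0],[]) ([.c1],[]) ([.c2],[]) ([.c3],[]) ([.c4],[]) ([.c5],[]) ([.c6],[]) ([.c7],[]) ([],[.c1,.c9]) ([.c0,.c8],[]) ([],[.c3,.c11]) ([.c2,.c10],[]) ([],[.c5,.c13]) ([.c4,.c12],[]) ([],[.c7,.c15]) ([.c6,.c14],[]), ([],[]))
/-- One block. -/
noncomputable def t5_6 : Blk I16 J28 := (.c6, I16.fn ([.c0],[]) ([.c1],[]) ([.c2],[]) ([.c3],[]) ([.c4],[]) ([.c5],[]) ([.c6],[]) ([.c7],[]) ([],[.c1,.c9]) ([.c0,.c8],[]) ([],[.c3,.c11]) ([.c2,.c10],[]) ([],[.c5,.c13]) ([.c4,.c12],[]) ([],[.c7,.c15]) ([.c6,.c14],[]), ([],[]))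
/-- One block. -/
noncomputable def t5_7 : Blk I16 J28 := (.c7, I16.fn ([.c0],[]) ([.c1],[]) ([.c2],[]) ([.c3],[]) ([.c4],[]) ([.c5],[]) ([.c6],[]) ([.c7],[]) ([],[.c1,.c9]) ([.c0,.c8],[]) ([],[.c3,.c11]) ([.c2,.c10],[]) ([],[.c5,.c13]) ([.c4,.c12],[]) ([],[.c7,.c15]) ([.c6,.c14],[]), ([],[]))
/-- One block. -/
noncomputable def t5_8 : Blk I16 J28 := (.c8, I16.fn ([.c0],[]) ([.c1],[]) ([.c2],[]) ([.c3],[]) ([.c4],[]) ([.c5],[]) ([.c6],[]) ([.c7],[]) ([],[.c1,.c9]) ([.c0,.c8],[]) ([],[.c3,.c11]) ([.c2,.c10],[]) ([],[.c5,.c13]) ([.c4,.c12],[]) ([],[.c7,.c15]) ([.c6,.c14],[]), ([],[]))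
/-- One block. -/
noncomputable def t5_9 : Blk I16 J28 := (.c9, I16.fn ([.c0],[]) ([.c1],[]) ([.c2],[]) ([.c3],[]) ([.c4],[]) ([.c5],[]) ([.c6],[]) ([.c7],[]) ([],[.c1,.c9]) ([.c0,.c8],[]) ([],[.c3,.c11]) ([.c2,.c10],[]) ([],[.c5,.c13]) ([.c4,.c12],[]) ([],[.c7,.c15]) ([.c6,.c14],[]), ([],[]))
/-- One block. -/
noncomputable def t5_10 : Blk I16 J28 := (.c22, I16.fn ([.c1],[]) ([],[.c0]) ([.c3],[]) ([],[.c2]) ([.c5],[]) ([],[.c4]) ([.c7],[]) ([],[.c6]) ([.c0,.c8],[]) ([.c1,.c9],[]) ([.c2,.c10],[]) ([.c3,.c11],[]) ([.c4,.c12],[]) ([.c5,.c13],[]) ([.c6,.c14],[]) ([.c7,.c15],[]), ([],[]))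
/-- One block. -/
noncomputable def t5_11 : Blk I16 J28 := (.c23, I16.fn ([.c1],[]) ([],[.c0]) ([.c3],[]) ([],[.c2]) ([.c5],[]) ([],[.c4]) ([.c7],[]) ([],[.c6]) ([.c0,.c8],[]) ([.c1,.c9],[]) ([.c2,.c10],[]) ([.c3,.c11],[]) ([.c4,.c12],[]) ([.c5,.c13],[]) ([.c6,.c14],[]) ([.c7,.c15],[]), ([],[]))
/-- One block. -/
noncomputable def t5_12 : Blk I16 J28 := (.c24, I16.fn ([.c1],[]) ([],[.c0]) ([.c3],[]) ([],[.c2]) ([.c5],[]) ([],[.c4]) ([.c7],[]) ([],[.c6]) ([.c0,.c8],[]) ([.c1,.c9],[]) ([.c2,.c10],[]) ([.c3,.c11],[]) ([.c4,.c12],[]) ([.c5,.c13],[]) ([.c6,.c14],[]) ([.c7,.c15],[]), ([],[]))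
/-- One block. -/
noncomputable def t5_13 : Blk I16 J28 := (.c25, I16.fn ([.c1],[]) ([],[.c0]) ([.c3],[]) ([],[.c2]) ([.c5],[]) ([],[.c4]) ([.c7],[]) ([],[.c6]) ([.c0,.c8],[]) ([.c1,.c9],[]) ([.c2,.c10],[]) ([.c3,.c11],[]) ([.c4,.c12],[]) ([.c5,.c13],[]) ([.c6,.c14],[]) ([.c7,.c15],[]), ([],[]))
/-- One block. -/
noncomputable def t5_14 : Blk I16 J28 := (.c26, I16.fn ([.c1],[]) ([],[.c0]) ([.c3],[]) ([],[.c2]) ([.c5],[]) ([],[.c4]) ([.c7],[]) ([],[.c6]) ([.c0,.c8],[]) ([.c1,.c9],[]) ([.c2,.c10],[]) ([.c3,.c11],[]) ([.c4,.c12],[]) ([.c5,.c13],[]) ([.c6,.c14],[]) ([.c7,.c15],[]), ([],[]))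
/-- One block. -/
noncomputable def t5_15 : Blk I16 J28 := (.c27, I16.fn ([.c1],[]) ([],[.c0]) ([.c3],[]) ([],[.c2]) ([.c5],[]) ([],[.c4]) ([.c7],[]) ([],[.c6]) ([.c0,.c8],[]) ([.c1,.c9],[]) ([.c2,.c10],[]) ([.c3,.c11],[]) ([.c4,.c12],[]) ([.c5,.c13],[]) ([.c6,.c14],[]) ([.c7,.c15],[]), ([],[]))
/-- One block. -/
noncomputable def t5_16 : Blk I16 J28 := (.c16, I16.fn ([],[.c1]) ([.c0],[]) ([],[.c3]) ([.c2],[]) ([],[.c5]) ([.c4],[]) ([],[.c7]) ([.c6],[]) ([.c1,.c8],[]) ([.c9],[.c0]) ([.c3,.c10],[]) ([.c11],[.c2]) ([.c5,.c12],[]) ([.c13],[.c4]) ([.c7,.c14],[]) ([.c15],[.c6]), ([],[]))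
/-- One block. -/
noncomputable def t5_17 : Blk I16 J28 := (.c17, I16.fn ([],[.c1]) ([.c0],[]) ([],[.c3]) ([.c2],[]) ([],[.c5]) ([.c4],[]) ([],[.c7]) ([.c6],[]) ([.c1,.c8],[]) ([.c9],[.c0]) ([.c3,.c10],[]) ([.c11],[.c2]) ([.c5,.c12],[]) ([.c13],[.c4]) ([.c7,.c14],[]) ([.c15],[.c6]), ([],[]))
/-- One block. -/
noncomputable def t5_18 : Blk I16 J28 := (.c18, I16.fn ([],[.c1]) ([.c0],[]) ([],[.c3]) ([.c2],[]) ([],[.c5]) ([.c4],[]) ([],[.c7]) ([.c6],[]) ([.c1,.c8],[]) ([.c9],[.c0]) ([.c3,.c10],[]) ([.c11],[.c2]) ([.c5,.c12],[]) ([.c13],[.c4]) ([.c7,.c14],[]) ([.c15],[.c6]), ([],[]))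
/-- One block. -/
noncomputable def t5_19 : Blk I16 J28 := (.c19, I16.fn ([],[.c1]) ([.c0],[]) ([],[.c3]) ([.c2],[]) ([],[.c5]) ([.c4],[]) ([],[.c7]) ([.c6],[]) ([.c1,.c8],[]) ([.c9],[.c0]) ([.c3,.c10],[]) ([.c11],[.c2]) ([.c5,.c12],[]) ([.c13],[.c4]) ([.c7,.c14],[]) ([.c15],[.c6]), ([],[]))
/-- One block. -/
noncomputable def t5_20 : Blk I16 J28 := (.c20, I16.fn ([],[.c1]) ([.c0],[]) ([],[.c3]) ([.c2],[]) ([],[.c5]) ([.c4],[]) ([],[.c7]) ([.c6],[]) ([.c1,.c8],[]) ([.c9],[.c0]) ([.c3,.c10],[]) ([.c11],[.c2]) ([.c5,.c12],[]) ([.c13],[.c4]) ([.c7,.c14],[]) ([.c15],[.c6]), ([],[]))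
/-- One block. -/
noncomputable def t5_21 : Blk I16 J28 := (.c21, I16.fn ([],[.c1]) ([.c0],[]) ([],[.c3]) ([.c2],[]) ([],[.c5]) ([.c4],[]) ([],[.c7]) ([.c6],[]) ([.c1,.c8],[]) ([.c9],[.c0]) ([.c3,.c10],[]) ([.c11],[.c2]) ([.c5,.c12],[]) ([.c13],[.c4]) ([.c7,.c14],[]) ([.c15],[.c6]), ([],[]))
/-- One block. -/
noncomputable def t5_22 : Blk I16 J28 := (.c10, I16.fn ([],[.c1]) ([.c0],[]) ([],[.c3]) ([.c2],[]) ([],[.c5]) ([.c4],[]) ([],[.c7]) ([.c6],[]) ([.c1,.c8],[]) ([.c9],[.c0]) ([.c3,.c10],[]) ([.c11],[.c2]) ([.c5,.c12],[]) ([.c13],[.c4]) ([.c7,.c14],[]) ([.c15],[.c6]), ([],[]))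
/-- One block. -/
noncomputable def t5_23 : Blk I16 J28 := (.c11, I16.fn ([],[.c1]) ([.c0],[]) ([],[.c3]) ([.c2],[]) ([],[.c5]) ([.c4],[]) ([],[.c7]) ([.c6],[]) ([.c1,.c8],[]) ([.c9],[.c0]) ([.c3,.c10],[]) ([.c11],[.c2]) ([.c5,.c12],[]) ([.c13],[.c4]) ([.c7,.c14],[]) ([.c15],[.c6]), ([],[]))
/-- One block. -/
noncomputable def t5_24 : Blk I16 J28 := (.c12, I16.fn ([],[.c1]) ([.c0],[]) ([],[.c3]) ([.c2],[]) ([],[.c5]) ([.c4],[]) ([],[.c7]) ([.c6],[]) ([.c1,.c8],[]) ([.c9],[.c0]) ([.c3,.c10],[]) ([.c11],[.c2]) ([.c5,.c12],[]) ([.c13],[.c4]) ([.c7,.c14],[]) ([.c15],[.c6]), ([],[]))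
/-- One block. -/
noncomputable def t5_25 : Blk I16 J28 := (.c13, I16.fn ([],[.c1]) ([.c0],[]) ([],[.c3]) ([.c2],[]) ([],[.c5]) ([.c4],[]) ([],[.c7]) ([.c6],[]) ([.c1,.c8],[]) ([.c9],[.c0]) ([.c3,.c10],[]) ([.c11],[.c2]) ([.c5,.c12],[]) ([.c13],[.c4]) ([.c7,.c14],[]) ([.c15],[.c6]), ([],[]))
/-- One block. -/
noncomputable def t5_26 : Blk I16 J28 := (.c14, I16.fn ([],[.c1]) ([.c0],[]) ([],[.c3]) ([.c2],[]) ([],[.c5]) ([.c4],[]) ([],[.c7]) ([.c6],[]) ([.c1,.c8],[]) ([.c9],[.c0]) ([.c3,.c10],[]) ([.c11],[.c2]) ([.c5,.c12],[]) ([.c13],[.c4]) ([.c7,.c14],[]) ([.c15],[.c6]), ([],[]))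
/-- One block. -/
noncomputable def t5_27 : Blk I16 J28 := (.c15, I16.fn ([],[.c1]) ([.c0],[]) ([],[.c3]) ([.c2],[]) ([],[.c5]) ([.c4],[]) ([],[.c7]) ([.c6],[]) ([.c1,.c8],[]) ([.c9],[.c0]) ([.c3,.c10],[]) ([.c11],[.c2]) ([.c5,.c12],[]) ([.c13],[.c4]) ([.c7,.c14],[]) ([.c15],[.c6]), ([],[]))
/-- The blocks of a generator. -/
noncomputable def t5 : J28 → Blk I16 J28 := J28.fn t5_0 t5_1 t5_2 t5_3 t5_4 t5_5 t5_6 t5_7 t5_8 t5_9 t5_10 t5_11 t5_12 t5_13 t5_14 t5_15 t5_16 t5_17 t5_18 t5_19 t5_20 t5_21 t5_22 t5_23 t5_24 t5_25 t5_26 t5_27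
/-- One block. -/
noncomputable def t6_0 : Blk I16 J28 := (.c4, I16.fn ([.c5],[.c0]) ([],[.c1,.c4]) ([.c7],[.c2]) ([],[.c3,.c6]) ([],[.c5]) ([.c4],[]) ([],[.c7]) ([.c6],[]) ([.c13],[.c8]) ([],[.c9,.c12]) ([.c15],[.c10]) ([],[.c11,.c14]) ([],[.c13]) ([.c12],[]) ([],[.c15]) ([.c14],[]), ([],[]))
/-- One block. -/
noncomputable def t6_1 : Blk I16 J28 := (.c3, I16.fn ([.c0,.c2],[.c3,.c5,.c6,.c7]) ([.c1,.c2,.c3,.c4,.c6],[.c7]) ([.c7],[.c2]) ([],[.c3,.c6]) ([.c5,.c6,.c7],[]) ([.c7],[.c4,.c6]) ([],[.c7]) ([.c6],[]) ([.c8,.c10],[.c11,.c13,.c14,.c15]) ([.c9,.c10,.c11,.c12,.c14],[.c15]) ([.c15],[.c10]) ([],[.c11,.c14]) ([.c13,.c14,.c15],[]) ([.c15],[.c12,.c14]) ([],[.c15]) ([.c14],[]), ([],[]))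
/-- One block. -/
noncomputable def t6_2 : Blk I16 J28 := (.c5, I16.fn ([],[.c1,.c4]) ([.c0],[.c5]) ([.c1,.c3,.c4,.c5,.c6],[.c0]) ([.c5,.c7],[.c0,.c1,.c2,.c4]) ([.c4],[]) ([.c5],[]) ([],[.c4,.c5,.c6]) ([.c4],[.c5,.c7]) ([],[.c9,.c12]) ([.c8],[.c13]) ([.c9,.c11,.c12,.c13,.c14],[.c8]) ([.c13,.c15],[.c8,.c9,.c10,.c12]) ([.c12],[]) ([.c13],[]) ([],[.c12,.c13,.c14]) ([.c12],[.c13,.c15]), ([],[]))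
/-- One block. -/
noncomputable def t6_3 : Blk I16 J28 := (.c1, I16.fn ([.c0,.c2,.c4,.c6],[.c3,.c7]) ([.c1,.c2,.c3,.c5,.c6,.c7],[]) ([],[.c2,.c6]) ([],[.c3,.c7]) ([],[.c5,.c6,.c7]) ([.c4,.c6],[.c7]) ([.c7],[]) ([],[.c6]) ([.c8,.c10,.c12,.c14],[.c11,.c15]) ([.c9,.c10,.c11,.c13,.c14,.c15],[]) ([],[.c10,.c14]) ([],[.c11,.c15]) ([],[.c13,.c14,.c15]) ([.c12,.c14],[.c15]) ([.c15],[]) ([],[.c14]), ([],[]))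
/-- One block. -/
noncomputable def t6_4 : Blk I16 J28 := (.c0, I16.fn ([],[.c0,.c4]) ([],[.c1,.c5]) ([],[.c2,.c6]) ([],[.c3,.c7]) ([.c5],[]) ([],[.c4]) ([.c7],[]) ([],[.c6]) ([],[.c8,.c12]) ([],[.c9,.c13]) ([],[.c10,.c14]) ([],[.c11,.c15]) ([.c13],[]) ([],[.c12]) ([.c15],[]) ([],[.c14]), ([],[]))
/-- One block. -/
noncomputable def t6_5 : Blk I16 J28 := (.c2, I16.fn ([.c1,.c5],[]) ([],[.c0,.c4]) ([.c0,.c4],[.c1,.c3,.c5,.c7]) ([.c0,.c1,.c2,.c4,.c5,.c6],[]) ([.c4],[]) ([.c5],[]) ([],[.c4,.c5,.c6]) ([.c4],[.c5,.c7]) ([.c9,.c13],[]) ([],[.c8,.c12]) ([.c8,.c12],[.c9,.c11,.c13,.c15]) ([.c8,.c9,.c10,.c12,.c13,.c14],[]) ([.c12],[]) ([.c13],[]) ([],[.c12,.c13,.c14]) ([.c12],[.c13,.c15]), ([],[]))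
/-- One block. -/
noncomputable def t6_6 : Blk I16 J28 := (.c6, I16.fn ([.c0,.c4],[]) ([.c1,.c5],[]) ([.c2,.c6],[]) ([.c3,.c7],[]) ([],[.c5]) ([.c4],[]) ([],[.c7]) ([.c6],[]) ([.c8,.c12],[]) ([.c9,.c13],[]) ([.c10,.c14],[]) ([.c11,.c15],[]) ([],[.c13]) ([.c12],[]) ([],[.c15]) ([.c14],[]), ([],[]))
/-- One block. -/
noncomputable def t6_7 : Blk I16 J28 := (.c7, I16.fn ([.c0,.c4],[]) ([.c1,.c5],[]) ([.c2,.c6],[]) ([.c3,.c7],[]) ([],[.c5]) ([.c4],[]) ([],[.c7]) ([.c6],[]) ([.c8,.c12],[]) ([.c9,.c13],[]) ([.c10,.c14],[]) ([.c11,.c15],[]) ([],[.c13]) ([.c12],[]) ([],[.c15]) ([.c14],[]), ([],[]))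
/-- One block. -/
noncomputable def t6_8 : Blk I16 J28 := (.c8, I16.fn ([.c0,.c4],[]) ([.c1,.c5],[]) ([.c2,.c6],[]) ([.c3,.c7],[]) ([],[.c5]) ([.c4],[]) ([],[.c7]) ([.c6],[]) ([.c8,.c12],[]) ([.c9,.c13],[]) ([.c10,.c14],[]) ([.c11,.c15],[]) ([],[.c13]) ([.c12],[]) ([],[.c15]) ([.c14],[]), ([],[]))
/-- One block. -/
noncomputable def t6_9 : Blk I16 J28 := (.c9, I16.fn ([.c0,.c4],[]) ([.c1,.c5],[]) ([.c2,.c6],[]) ([.c3,.c7],[]) ([],[.c5]) ([.c4],[]) ([],[.c7]) ([.c6],[]) ([.c8,.c12],[]) ([.c9,.c13],[]) ([.c10,.c14],[]) ([.c11,.c15],[]) ([],[.c13]) ([.c12],[]) ([],[.c15]) ([.c14],[]), ([],[]))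
/-- One block. -/
noncomputable def t6_10 : Blk I16 J28 := (.c11, I16.fn ([.c1,.c2,.c3,.c5,.c6,.c7,.c8,.c9,.c10,.c10,.c12,.c13,.c14,.c14],[]) ([.c3,.c7,.c9,.c11,.c11,.c13,.c15,.c15],[.c0,.c2,.c4,.c6,.c8,.c12]) ([.c0,.c4],[.c1,.c3,.c5,.c7,.c9,.c9,.c10,.c11,.c13,.c13,.c14,.c15]) ([.c0,.c1,.c2,.c4,.c5,.c6,.c8,.c8,.c10,.c12,.c12,.c14],[.c11,.c15]) ([.c4,.c6,.c12],[.c7,.c13,.c15,.c15]) ([.c5,.c6,.c7,.c12,.c13,.c14,.c14],[]) ([.c15],[.c4,.c5,.c6,.c12,.c12,.c14]) ([.c4],[.c5,.c7,.c13,.c13,.c14,.c15]) ([],[.c9,.c10,.c11,.c13,.c14,.c15]) ([.c8,.c10,.c12,.c14],[.c11,.c15]) ([.c9,.c11,.c13,.c15],[.c8,.c12]) ([],[.c8,.c9,.c10,.c12,.c13,.c14]) ([.c15],[.c12,.c14]) ([],[.c13,.c14,.c15]) ([.c12,.c13,.c14],[]) ([.c13,.c15],[.c12]), ([],[]))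
/-- One block. -/
noncomputable def t6_11 : Blk I16 J28 := (.c10, I16.fn ([.c1,.c2,.c3,.c4,.c6,.c8,.c9,.c10,.c10,.c12],[.c7,.c13,.c15,.c15]) ([.c3,.c5,.c6,.c7,.c9,.c11,.c11,.c12,.c13,.c14,.c14],[.c0,.c2,.c8]) ([.c0,.c15],[.c1,.c3,.c4,.c5,.c6,.c9,.c9,.c10,.c11,.c12,.c12,.c14]) ([.c0,.c1,.c2,.c4,.c8,.c8,.c10],[.c5,.c7,.c11,.c13,.c13,.c14,.c15]) ([.c7,.c13,.c15,.c15],[.c4,.c6,.c12]) ([],[.c5,.c6,.c7,.c12,.c13,.c14,.c14]) ([.c4,.c5,.c6,.c12,.c12,.c14],[.c15]) ([.c5,.c7,.c13,.c13,.c14,.c15],[.c4]) ([.c15],[.c9,.c10,.c11,.c12,.c14]) ([.c8,.c10],[.c11,.c13,.c14,.c15]) ([.c9,.c11,.c12,.c13,.c14],[.c8]) ([.c13,.c15],[.c8,.c9,.c10,.c12]) ([.c12,.c14],[.c15]) ([.c13,.c14,.c15],[]) ([],[.c12,.c13,.c14]) ([.c12],[.c13,.c15]), ([],[]))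
/-- One block. -/
noncomputable def t6_12 : Blk I16 J28 := (.c12, I16.fn ([.c0,.c4],[]) ([.c1,.c5],[]) ([.c2,.c6],[]) ([.c3,.c7],[]) ([],[.c5]) ([.c4],[]) ([],[.c7]) ([.c6],[]) ([.c8,.c12],[]) ([.c9,.c13],[]) ([.c10,.c14],[]) ([.c11,.c15],[]) ([],[.c13]) ([.c12],[]) ([],[.c15]) ([.c14],[]), ([],[]))
/-- One block. -/
noncomputable def t6_13 : Blk I16 J28 := (.c13, I16.fn ([.c0,.c4],[]) ([.c1,.c5],[]) ([.c2,.c6],[]) ([.c3,.c7],[]) ([],[.c5]) ([.c4],[]) ([],[.c7]) ([.c6],[]) ([.c8,.c12],[]) ([.c9,.c13],[]) ([.c10,.c14],[]) ([.c11,.c15],[]) ([],[.c13]) ([.c12],[]) ([],[.c15]) ([.c14],[]), ([],[]))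
/-- One block. -/
noncomputable def t6_14 : Blk I16 J28 := (.c14, I16.fn ([.c0,.c4],[]) ([.c1,.c5],[]) ([.c2,.c6],[]) ([.c3,.c7],[]) ([],[.c5]) ([.c4],[]) ([],[.c7]) ([.c6],[]) ([.c8,.c12],[]) ([.c9,.c13],[]) ([.c10,.c14],[]) ([.c11,.c15],[]) ([],[.c13]) ([.c12],[]) ([],[.c15]) ([.c14],[]), ([],[]))
/-- One block. -/
noncomputable def t6_15 : Blk I16 J28 := (.c15, I16.fn ([.c0,.c4],[]) ([.c1,.c5],[]) ([.c2,.c6],[]) ([.c3,.c7],[]) ([],[.c5]) ([.c4],[]) ([],[.c7]) ([.c6],[]) ([.c8,.c12],[]) ([.c9,.c13],[]) ([.c10,.c14],[]) ([.c11,.c15],[]) ([],[.c13]) ([.c12],[]) ([],[.c15]) ([.c14],[]), ([],[]))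
/-- One block. -/
noncomputable def t6_16 : Blk I16 J28 := (.c17, I16.fn ([.c1,.c2,.c3,.c4,.c6],[.c7]) ([.c3,.c5,.c6,.c7],[.c0,.c2]) ([.c0],[.c1,.c3,.c4,.c5,.c6]) ([.c0,.c1,.c2,.c4],[.c5,.c7]) ([.c7],[.c4,.c6]) ([],[.c5,.c6,.c7]) ([.c4,.c5,.c6],[]) ([.c5,.c7],[.c4]) ([.c0,.c15],[.c1,.c3,.c3,.c4,.c5,.c6,.c6,.c9,.c10,.c11,.c12,.c14]) ([.c0,.c1,.c2,.c2,.c4,.c8,.c10],[.c5,.c7,.c7,.c11,.c13,.c14,.c15]) ([.c3,.c5,.c5,.c6,.c7,.c9,.c11,.c12,.c13,.c14],[.c0,.c0,.c2,.c8]) ([.c7,.c13,.c15],[.c1,.c1,.c2,.c3,.c4,.c4,.c6,.c8,.c9,.c10,.c12]) ([.c4,.c5,.c6,.c6,.c12,.c14],[.c15]) ([.c5,.c7,.c7,.c13,.c14,.c15],[.c4]) ([],[.c5,.c5,.c6,.c7,.c12,.c13,.c14]) ([.c4,.c4,.c6,.c12],[.c7,.c13,.c15]), ([],[]))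
/-- One block. -/
noncomputable def t6_17 : Blk I16 J28 := (.c16, I16.fn ([.c1,.c2,.c3,.c5,.c6,.c7],[]) ([.c3,.c7],[.c0,.c2,.c4,.c6]) ([.c0,.c4],[.c1,.c3,.c5,.c7]) ([.c0,.c1,.c2,.c4,.c5,.c6],[]) ([.c4,.c6],[.c7]) ([.c5,.c6,.c7],[]) ([],[.c4,.c5,.c6]) ([.c4],[.c5,.c7]) ([.c0,.c4],[.c1,.c3,.c3,.c5,.c7,.c7,.c9,.c10,.c11,.c13,.c14,.c15]) ([.c0,.c1,.c2,.c2,.c4,.c5,.c6,.c6,.c8,.c10,.c12,.c14],[.c11,.c15]) ([.c3,.c7,.c9,.c11,.c13,.c15],[.c0,.c0,.c2,.c4,.c4,.c6,.c8,.c12]) ([],[.c1,.c1,.c2,.c3,.c5,.c5,.c6,.c7,.c8,.c9,.c10,.c12,.c13,.c14]) ([.c15],[.c4,.c5,.c6,.c6,.c12,.c14]) ([.c4],[.c5,.c7,.c7,.c13,.c14,.c15]) ([.c5,.c5,.c6,.c7,.c12,.c13,.c14],[]) ([.c7,.c13,.c15],[.c4,.c4,.c6,.c12]), ([],[]))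
/-- One block. -/
noncomputable def t6_18 : Blk I16 J28 := (.c18, I16.fn ([.c0,.c4],[]) ([.c1,.c5],[]) ([.c2,.c6],[]) ([.c3,.c7],[]) ([],[.c5]) ([.c4],[]) ([],[.c7]) ([.c6],[]) ([.c8,.c12],[]) ([.c9,.c13],[]) ([.c10,.c14],[]) ([.c11,.c15],[]) ([],[.c13]) ([.c12],[]) ([],[.c15]) ([.c14],[]), ([],[]))
/-- One block. -/
noncomputable def t6_19 : Blk I16 J28 := (.c19, I16.fn ([.c0,.c4],[]) ([.c1,.c5],[]) ([.c2,.c6],[]) ([.c3,.c7],[]) ([],[.c5]) ([.c4],[]) ([],[.c7]) ([.c6],[]) ([.c8,.c12],[]) ([.c9,.c13],[]) ([.c10,.c14],[]) ([.c11,.c15],[]) ([],[.c13]) ([.c12],[]) ([],[.c15]) ([.c14],[]), ([],[]))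
/-- One block. -/
noncomputable def t6_20 : Blk I16 J28 := (.c20, I16.fn ([.c0,.c4],[]) ([.c1,.c5],[]) ([.c2,.c6],[]) ([.c3,.c7],[]) ([],[.c5]) ([.c4],[]) ([],[.c7]) ([.c6],[]) ([.c8,.c12],[]) ([.c9,.c13],[]) ([.c10,.c14],[]) ([.c11,.c15],[]) ([],[.c13]) ([.c12],[]) ([],[.c15]) ([.c14],[]), ([],[]))
/-- One block. -/
noncomputable def t6_21 : Blk I16 J28 := (.c21, I16.fn ([.c0,.c4],[]) ([.c1,.c5],[]) ([.c2,.c6],[]) ([.c3,.c7],[]) ([],[.c5]) ([.c4],[]) ([],[.c7]) ([.c6],[]) ([.c8,.c12],[]) ([.c9,.c13],[]) ([.c10,.c14],[]) ([.c11,.c15],[]) ([],[.c13]) ([.c12],[]) ([],[.c15]) ([.c14],[]), ([],[]))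
/-- One block. -/
noncomputable def t6_22 : Blk I16 J28 := (.c23, I16.fn ([.c3,.c7,.c9,.c11,.c11,.c13,.c15,.c15],[.c0,.c2,.c4,.c6,.c8,.c12]) ([],[.c1,.c2,.c3,.c5,.c6,.c7,.c8,.c9,.c10,.c10,.c12,.c13,.c14,.c14]) ([.c0,.c1,.c2,.c4,.c5,.c6,.c8,.c8,.c10,.c12,.c12,.c14],[.c11,.c15]) ([.c1,.c3,.c5,.c7,.c9,.c9,.c10,.c11,.c13,.c13,.c14,.c15],[.c0,.c4]) ([.c5,.c6,.c7,.c12,.c13,.c14,.c14],[]) ([.c7,.c13,.c15,.c15],[.c4,.c6,.c12]) ([.c4],[.c5,.c7,.c13,.c13,.c14,.c15]) ([.c4,.c5,.c6,.c12,.c12,.c14],[.c15]) ([.c0,.c1,.c2,.c2,.c4,.c5,.c6,.c6,.c8,.c10,.c12,.c14],[.c11,.c15]) ([.c1,.c3,.c3,.c5,.c7,.c7,.c9,.c10,.c11,.c13,.c14,.c15],[.c0,.c4]) ([],[.c1,.c1,.c2,.c3,.c5,.c5,.c6,.c7,.c8,.c9,.c10,.c12,.c13,.c14]) ([.c0,.c0,.c2,.c4,.c4,.c6,.c8,.c12],[.c3,.c7,.c9,.c11,.c13,.c15]) ([.c4],[.c5,.c7,.c7,.c13,.c14,.c15])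 ([.c4,.c5,.c6,.c6,.c12,.c14],[.c15]) ([.c7,.c13,.c15],[.c4,.c4,.c6,.c12]) ([],[.c5,.c5,.c6,.c7,.c12,.c13,.c14]), ([],[]))
/-- One block. -/
noncomputable def t6_23 : Blk I16 J28 := (.c22, I16.fn ([.c3,.c5,.c6,.c7,.c9,.c11,.c11,.c12,.c13,.c14,.c14],[.c0,.c2,.c8]) ([.c7,.c13,.c15,.c15],[.c1,.c2,.c3,.c4,.c6,.c8,.c9,.c10,.c10,.c12]) ([.c0,.c1,.c2,.c4,.c8,.c8,.c10],[.c5,.c7,.c11,.c13,.c13,.c14,.c15]) ([.c1,.c3,.c4,.c5,.c6,.c9,.c9,.c10,.c11,.c12,.c12,.c14],[.c0,.c15]) ([],[.c5,.c6,.c7,.c12,.c13,.c14,.c14]) ([.c4,.c6,.c12],[.c7,.c13,.c15,.c15]) ([.c5,.c7,.c13,.c13,.c14,.c15],[.c4]) ([.c15],[.c4,.c5,.c6,.c12,.c12,.c14]) ([.c0,.c1,.c2,.c2,.c4,.c8,.c10],[.c5,.c7,.c7,.c11,.c13,.c14,.c15]) ([.c1,.c3,.c3,.c4,.c5,.c6,.c6,.c9,.c10,.c11,.c12,.c14],[.c0,.c15]) ([.c7,.c13,.c15],[.c1,.c1,.c2,.c3,.c4,.c4,.c6,.c8,.c9,.c10,.c12])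 ([.c0,.c0,.c2,.c8],[.c3,.c5,.c5,.c6,.c7,.c9,.c11,.c12,.c13,.c14]) ([.c5,.c7,.c7,.c13,.c14,.c15],[.c4]) ([.c15],[.c4,.c5,.c6,.c6,.c12,.c14]) ([.c4,.c4,.c6,.c12],[.c7,.c13,.c15]) ([.c5,.c5,.c6,.c7,.c12,.c13,.c14],[]), ([],[]))
/-- One block. -/
noncomputable def t6_24 : Blk I16 J28 := (.c24, I16.fn ([.c0,.c4],[]) ([.c1,.c5],[]) ([.c2,.c6],[]) ([.c3,.c7],[]) ([],[.c5]) ([.c4],[]) ([],[.c7]) ([.c6],[]) ([.c8,.c12],[]) ([.c9,.c13],[]) ([.c10,.c14],[]) ([.c11,.c15],[]) ([],[.c13]) ([.c12],[]) ([],[.c15]) ([.c14],[]), ([],[]))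
/-- One block. -/
noncomputable def t6_25 : Blk I16 J28 := (.c25, I16.fn ([.c0,.c4],[]) ([.c1,.c5],[]) ([.c2,.c6],[]) ([.c3,.c7],[]) ([],[.c5]) ([.c4],[]) ([],[.c7]) ([.c6],[]) ([.c8,.c12],[]) ([.c9,.c13],[]) ([.c10,.c14],[]) ([.c11,.c15],[]) ([],[.c13]) ([.c12],[]) ([],[.c15]) ([.c14],[]), ([],[]))
/-- One block. -/
noncomputable def t6_26 : Blk I16 J28 := (.c26, I16.fn ([.c0,.c4],[]) ([.c1,.c5],[]) ([.c2,.c6],[]) ([.c3,.c7],[]) ([],[.c5]) ([.c4],[]) ([],[.c7]) ([.c6],[]) ([.c8,.c12],[]) ([.c9,.c13],[]) ([.c10,.c14],[]) ([.c11,.c15],[]) ([],[.c13]) ([.c12],[]) ([],[.c15]) ([.c14],[]), ([],[]))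
/-- One block. -/
noncomputable def t6_27 : Blk I16 J28 := (.c27, I16.fn ([.c0,.c4],[]) ([.c1,.c5],[]) ([.c2,.c6],[]) ([.c3,.c7],[]) ([],[.c5]) ([.c4],[]) ([],[.c7]) ([.c6],[]) ([.c8,.c12],[]) ([.c9,.c13],[]) ([.c10,.c14],[]) ([.c11,.c15],[]) ([],[.c13]) ([.c12],[]) ([],[.c15]) ([.c14],[]), ([],[]))
/-- The blocks of a generator. -/
noncomputable def t6 : J28 → Blk I16 J28 := J28.fn t6_0 t6_1 t6_2 t6_3 t6_4 t6_5 t6_6 t6_7 t6_8 t6_9 t6_10 t6_11 t6_12 t6_13 t6_14 t6_15 t6_16 t6_17 t6_18 t6_19 t6_20 t6_21 t6_22 t6_23 t6_24 t6_25 t6_26 t6_27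
/-- One block. -/
noncomputable def t7_0 : Blk I16 J28 := (.c1, I16.fn ([],[.c1,.c2]) ([.c0],[.c3]) ([.c2],[]) ([.c3],[]) ([],[.c5,.c6]) ([.c4],[.c7]) ([.c6],[]) ([.c7],[]) ([],[.c9,.c10]) ([.c8],[.c11]) ([.c10],[]) ([.c11],[]) ([],[.c13,.c14]) ([.c12],[.c15]) ([.c14],[]) ([.c15],[]), ([],[]))
/-- One block. -/
noncomputable def t7_1 : Blk I16 J28 := (.c0, I16.fn ([.c1,.c3],[]) ([],[.c0,.c2]) ([.c2],[]) ([.c3],[]) ([.c5,.c7],[]) ([],[.c4,.c6]) ([.c6],[]) ([.c7],[]) ([.c9,.c11],[]) ([],[.c8,.c10]) ([.c10],[]) ([.c11],[]) ([.c13,.c15],[]) ([],[.c12,.c14]) ([.c14],[]) ([.c15],[]), ([],[]))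
/-- One block. -/
noncomputable def t7_2 : Blk I16 J28 := (.c2, I16.fn ([.c0],[.c3]) ([.c1,.c2],[]) ([.c3],[]) ([],[.c2]) ([.c4],[.c7]) ([.c5,.c6],[]) ([.c7],[]) ([],[.c6]) ([.c8],[.c11]) ([.c9,.c10],[]) ([.c11],[]) ([],[.c10]) ([.c12],[.c15]) ([.c13,.c14],[]) ([.c15],[]) ([],[.c14]), ([],[]))
/-- One block. -/
noncomputable def t7_3 : Blk I16 J28 := (.c4, I16.fn ([],[.c1,.c2]) ([.c0],[.c3]) ([.c2],[]) ([.c3],[]) ([],[.c5,.c6]) ([.c4],[.c7]) ([.c6],[]) ([.c7],[]) ([],[.c9,.c10]) ([.c8],[.c11]) ([.c10],[]) ([.c11],[]) ([],[.c13,.c14]) ([.c12],[.c15]) ([.c14],[]) ([.c15],[]), ([],[]))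
/-- One block. -/
noncomputable def t7_4 : Blk I16 J28 := (.c3, I16.fn ([.c1,.c3],[]) ([],[.c0,.c2]) ([.c2],[]) ([.c3],[]) ([.c5,.c7],[]) ([],[.c4,.c6]) ([.c6],[]) ([.c7],[]) ([.c9,.c11],[]) ([],[.c8,.c10]) ([.c10],[]) ([.c11],[]) ([.c13,.c15],[]) ([],[.c12,.c14]) ([.c14],[]) ([.c15],[]), ([],[]))
/-- One block. -/
noncomputable def t7_5 : Blk I16 J28 := (.c5, I16.fn ([.c1,.c3],[]) ([],[.c0,.c2]) ([.c2],[]) ([.c3],[]) ([.c5,.c7],[]) ([],[.c4,.c6]) ([.c6],[]) ([.c7],[]) ([.c9,.c11],[]) ([],[.c8,.c10]) ([.c10],[]) ([.c11],[]) ([.c13,.c15],[]) ([],[.c12,.c14]) ([.c14],[]) ([.c15],[]), ([],[]))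
/-- One block. -/
noncomputable def t7_6 : Blk I16 J28 := (.c7, I16.fn ([],[.c1,.c2]) ([.c0],[.c3]) ([.c2],[]) ([.c3],[]) ([],[.c5,.c6]) ([.c4],[.c7]) ([.c6],[]) ([.c7],[]) ([],[.c9,.c10]) ([.c8],[.c11]) ([.c10],[]) ([.c11],[]) ([],[.c13,.c14]) ([.c12],[.c15]) ([.c14],[]) ([.c15],[]), ([],[]))
/-- One block. -/
noncomputable def t7_7 : Blk I16 J28 := (.c6, I16.fn ([.c1,.c3],[]) ([],[.c0,.c2]) ([.c2],[]) ([.c3],[]) ([.c5,.c7],[]) ([],[.c4,.c6]) ([.c6],[]) ([.c7],[]) ([.c9,.c11],[]) ([],[.c8,.c10]) ([.c10],[]) ([.c11],[]) ([.c13,.c15],[]) ([],[.c12,.c14]) ([.c14],[]) ([.c15],[]), ([],[]))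
/-- One block. -/
noncomputable def t7_8 : Blk I16 J28 := (.c8, I16.fn ([.c0],[.c3]) ([.c1,.c2],[]) ([.c3],[]) ([],[.c2]) ([.c4],[.c7]) ([.c5,.c6],[]) ([.c7],[]) ([],[.c6]) ([.c8],[.c11]) ([.c9,.c10],[]) ([.c11],[]) ([],[.c10]) ([.c12],[.c15]) ([.c13,.c14],[]) ([.c15],[]) ([],[.c14]), ([],[]))
/-- One block. -/
noncomputable def t7_9 : Blk I16 J28 := (.c9, I16.fn ([.c0],[.c3]) ([.c1,.c2],[]) ([.c3],[]) ([],[.c2]) ([.c4],[.c7]) ([.c5,.c6],[]) ([.c7],[]) ([],[.c6]) ([.c8],[.c11]) ([.c9,.c10],[]) ([.c11],[]) ([],[.c10]) ([.c12],[.c15]) ([.c13,.c14],[]) ([.c15],[]) ([],[.c14]), ([],[]))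
/-- One block. -/
noncomputable def t7_10 : Blk I16 J28 := (.c10, I16.fn ([.c1,.c3],[]) ([],[.c0,.c2]) ([.c2],[]) ([.c3],[]) ([.c5,.c7],[]) ([],[.c4,.c6]) ([.c6],[]) ([.c7],[]) ([.c9,.c11],[]) ([],[.c8,.c10]) ([.c10],[]) ([.c11],[]) ([.c13,.c15],[]) ([],[.c12,.c14]) ([.c14],[]) ([.c15],[]), ([],[]))
/-- One block. -/
noncomputable def t7_11 : Blk I16 J28 := (.c11, I16.fn ([.c0],[.c3]) ([.c1,.c2],[]) ([.c3],[]) ([],[.c2]) ([.c4],[.c7]) ([.c5,.c6],[]) ([.c7],[]) ([],[.c6]) ([.c8],[.c11]) ([.c9,.c10],[]) ([.c11],[]) ([],[.c10]) ([.c12],[.c15]) ([.c13,.c14],[]) ([.c15],[]) ([],[.c14]), ([],[]))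
/-- One block. -/
noncomputable def t7_12 : Blk I16 J28 := (.c13, I16.fn ([],[.c1,.c2]) ([.c0],[.c3]) ([.c2],[]) ([.c3],[]) ([],[.c5,.c6]) ([.c4],[.c7]) ([.c6],[]) ([.c7],[]) ([],[.c9,.c10]) ([.c8],[.c11]) ([.c10],[]) ([.c11],[]) ([],[.c13,.c14]) ([.c12],[.c15]) ([.c14],[]) ([.c15],[]), ([],[]))
/-- One block. -/
noncomputable def t7_13 : Blk I16 J28 := (.c12, I16.fn ([.c1,.c3],[]) ([],[.c0,.c2]) ([.c2],[]) ([.c3],[]) ([.c5,.c7],[]) ([],[.c4,.c6]) ([.c6],[]) ([.c7],[]) ([.c9,.c11],[]) ([],[.c8,.c10]) ([.c10],[]) ([.c11],[]) ([.c13,.c15],[]) ([],[.c12,.c14]) ([.c14],[]) ([.c15],[]), ([],[]))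
/-- One block. -/
noncomputable def t7_14 : Blk I16 J28 := (.c14, I16.fn ([.c0],[.c3]) ([.c1,.c2],[]) ([.c3],[]) ([],[.c2]) ([.c4],[.c7]) ([.c5,.c6],[]) ([.c7],[]) ([],[.c6]) ([.c8],[.c11]) ([.c9,.c10],[]) ([.c11],[]) ([],[.c10]) ([.c12],[.c15]) ([.c13,.c14],[]) ([.c15],[]) ([],[.c14]), ([],[]))
/-- One block. -/
noncomputable def t7_15 : Blk I16 J28 := (.c15, I16.fn ([.c0],[.c3]) ([.c1,.c2],[]) ([.c3],[]) ([],[.c2]) ([.c4],[.c7]) ([.c5,.c6],[]) ([.c7],[]) ([],[.c6]) ([.c8],[.c11]) ([.c9,.c10],[]) ([.c11],[]) ([],[.c10]) ([.c12],[.c15]) ([.c13,.c14],[]) ([.c15],[]) ([],[.c14]), ([],[]))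
/-- One block. -/
noncomputable def t7_16 : Blk I16 J28 := (.c16, I16.fn ([.c1,.c3],[]) ([],[.c0,.c2]) ([.c2],[]) ([.c3],[]) ([.c5,.c7],[]) ([],[.c4,.c6]) ([.c6],[]) ([.c7],[]) ([.c9,.c11],[]) ([],[.c8,.c10]) ([.c10],[]) ([.c11],[]) ([.c13,.c15],[]) ([],[.c12,.c14]) ([.c14],[]) ([.c15],[]), ([],[]))
/-- One block. -/
noncomputable def t7_17 : Blk I16 J28 := (.c17, I16.fn ([.c0],[.c3]) ([.c1,.c2],[]) ([.c3],[]) ([],[.c2]) ([.c4],[.c7]) ([.c5,.c6],[]) ([.c7],[]) ([],[.c6]) ([.c8],[.c11]) ([.c9,.c10],[]) ([.c11],[]) ([],[.c10]) ([.c12],[.c15]) ([.c13,.c14],[]) ([.c15],[]) ([],[.c14]), ([],[]))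
/-- One block. -/
noncomputable def t7_18 : Blk I16 J28 := (.c18, I16.fn ([.c1,.c3],[]) ([],[.c0,.c2]) ([.c2],[]) ([.c3],[]) ([.c5,.c7],[]) ([],[.c4,.c6]) ([.c6],[]) ([.c7],[]) ([.c9,.c11],[]) ([],[.c8,.c10]) ([.c10],[]) ([.c11],[]) ([.c13,.c15],[]) ([],[.c12,.c14]) ([.c14],[]) ([.c15],[]), ([],[]))
/-- One block. -/
noncomputable def t7_19 : Blk I16 J28 := (.c20, I16.fn ([],[.c1,.c2]) ([.c0],[.c3]) ([.c2],[]) ([.c3],[]) ([],[.c5,.c6]) ([.c4],[.c7]) ([.c6],[]) ([.c7],[]) ([],[.c9,.c10]) ([.c8],[.c11]) ([.c10],[]) ([.c11],[]) ([],[.c13,.c14]) ([.c12],[.c15]) ([.c14],[]) ([.c15],[]), ([],[]))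
/-- One block. -/
noncomputable def t7_20 : Blk I16 J28 := (.c19, I16.fn ([.c1,.c3],[]) ([],[.c0,.c2]) ([.c2],[]) ([.c3],[]) ([.c5,.c7],[]) ([],[.c4,.c6]) ([.c6],[]) ([.c7],[]) ([.c9,.c11],[]) ([],[.c8,.c10]) ([.c10],[]) ([.c11],[]) ([.c13,.c15],[]) ([],[.c12,.c14]) ([.c14],[]) ([.c15],[]), ([],[]))
/-- One block. -/
noncomputable def t7_21 : Blk I16 J28 := (.c21, I16.fn ([.c1,.c3],[]) ([],[.c0,.c2]) ([.c2],[]) ([.c3],[]) ([.c5,.c7],[]) ([],[.c4,.c6]) ([.c6],[]) ([.c7],[]) ([.c9,.c11],[]) ([],[.c8,.c10]) ([.c10],[]) ([.c11],[]) ([.c13,.c15],[]) ([],[.c12,.c14]) ([.c14],[]) ([.c15],[]), ([],[]))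
/-- One block. -/
noncomputable def t7_22 : Blk I16 J28 := (.c22, I16.fn ([.c1,.c3],[]) ([],[.c0,.c2]) ([.c2],[]) ([.c3],[]) ([.c5,.c7],[]) ([],[.c4,.c6]) ([.c6],[]) ([.c7],[]) ([.c9,.c11],[]) ([],[.c8,.c10]) ([.c10],[]) ([.c11],[]) ([.c13,.c15],[]) ([],[.c12,.c14]) ([.c14],[]) ([.c15],[]), ([],[]))
/-- One block. -/
noncomputable def t7_23 : Blk I16 J28 := (.c23, I16.fn ([.c0],[.c3]) ([.c1,.c2],[]) ([.c3],[]) ([],[.c2]) ([.c4],[.c7]) ([.c5,.c6],[]) ([.c7],[]) ([],[.c6]) ([.c8],[.c11]) ([.c9,.c10],[]) ([.c11],[]) ([],[.c10]) ([.c12],[.c15]) ([.c13,.c14],[]) ([.c15],[]) ([],[.c14]), ([],[]))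
/-- One block. -/
noncomputable def t7_24 : Blk I16 J28 := (.c25, I16.fn ([],[.c1,.c2]) ([.c0],[.c3]) ([.c2],[]) ([.c3],[]) ([],[.c5,.c6]) ([.c4],[.c7]) ([.c6],[]) ([.c7],[]) ([],[.c9,.c10]) ([.c8],[.c11]) ([.c10],[]) ([.c11],[]) ([],[.c13,.c14]) ([.c12],[.c15]) ([.c14],[]) ([.c15],[]), ([],[]))
/-- One block. -/
noncomputable def t7_25 : Blk I16 J28 := (.c24, I16.fn ([.c1,.c3],[]) ([],[.c0,.c2]) ([.c2],[]) ([.c3],[]) ([.c5,.c7],[]) ([],[.c4,.c6]) ([.c6],[]) ([.c7],[]) ([.c9,.c11],[]) ([],[.c8,.c10]) ([.c10],[]) ([.c11],[]) ([.c13,.c15],[]) ([],[.c12,.c14]) ([.c14],[]) ([.c15],[]), ([],[]))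
/-- One block. -/
noncomputable def t7_26 : Blk I16 J28 := (.c26, I16.fn ([.c0],[.c3]) ([.c1,.c2],[]) ([.c3],[]) ([],[.c2]) ([.c4],[.c7]) ([.c5,.c6],[]) ([.c7],[]) ([],[.c6]) ([.c8],[.c11]) ([.c9,.c10],[]) ([.c11],[]) ([],[.c10]) ([.c12],[.c15]) ([.c13,.c14],[]) ([.c15],[]) ([],[.c14]), ([],[]))
/-- One block. -/
noncomputable def t7_27 : Blk I16 J28 := (.c27, I16.fn ([.c0],[.c3]) ([.c1,.c2],[]) ([.c3],[]) ([],[.c2]) ([.c4],[.c7]) ([.c5,.c6],[]) ([.c7],[]) ([],[.c6]) ([.c8],[.c11]) ([.c9,.c10],[]) ([.c11],[]) ([],[.c10]) ([.c12],[.c15]) ([.c13,.c14],[]) ([.c15],[]) ([],[.c14]), ([],[]))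
/-- The blocks of a generator. -/
noncomputable def t7 : J28 → Blk I16 J28 := J28.fn t7_0 t7_1 t7_2 t7_3 t7_4 t7_5 t7_6 t7_7 t7_8 t7_9 t7_10 t7_11 t7_12 t7_13 t7_14 t7_15 t7_16 t7_17 t7_18 t7_19 t7_20 t7_21 t7_22 t7_23 t7_24 t7_25 t7_26 t7_27
/-- One block. -/
noncomputable def t8_0 : Blk I16 J28 := (.c2, I16.fn ([],[.c1]) ([.c0],[]) ([.c1,.c2],[]) ([.c3],[.c0]) ([],[.c5]) ([.c4],[]) ([.c5,.c6],[]) ([.c7],[.c4]) ([],[.c9]) ([.c8],[]) ([.c9,.c10],[]) ([.c11],[.c8]) ([],[.c13]) ([.c12],[]) ([.c13,.c14],[]) ([.c15],[.c12]), ([],[]))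
/-- One block. -/
noncomputable def t8_1 : Blk I16 J28 := (.c1, I16.fn ([.c1],[]) ([],[.c0]) ([.c0,.c2],[]) ([.c1,.c3],[]) ([.c5],[]) ([],[.c4]) ([.c4,.c6],[]) ([.c5,.c7],[]) ([.c9],[]) ([],[.c8]) ([.c8,.c10],[]) ([.c9,.c11],[]) ([.c13],[]) ([],[.c12]) ([.c12,.c14],[]) ([.c13,.c15],[]), ([],[]))
/-- One block. -/
noncomputable def t8_2 : Blk I16 J28 := (.c0, I16.fn ([.c1],[]) ([],[.c0]) ([.c0,.c2],[]) ([.c1,.c3],[]) ([.c5],[]) ([],[.c4]) ([.c4,.c6],[]) ([.c5,.c7],[]) ([.c9],[]) ([],[.c8]) ([.c8,.c10],[]) ([.c9,.c11],[]) ([.c13],[]) ([],[.c12]) ([.c12,.c14],[]) ([.c13,.c15],[]), ([],[]))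
/-- One block. -/
noncomputable def t8_3 : Blk I16 J28 := (.c3, I16.fn ([.c0],[]) ([.c1],[]) ([.c3],[.c0]) ([],[.c1,.c2]) ([.c4],[]) ([.c5],[]) ([.c7],[.c4]) ([],[.c5,.c6]) ([.c8],[]) ([.c9],[]) ([.c11],[.c8]) ([],[.c9,.c10]) ([.c12],[]) ([.c13],[]) ([.c15],[.c12]) ([],[.c13,.c14]), ([],[]))
/-- One block. -/
noncomputable def t8_4 : Blk I16 J28 := (.c5, I16.fn ([.c0],[]) ([.c1],[]) ([],[.c1,.c3]) ([.c0,.c2],[]) ([.c4],[]) ([.c5],[]) ([],[.c5,.c7]) ([.c4,.c6],[]) ([.c8],[]) ([.c9],[]) ([],[.c9,.c11]) ([.c8,.c10],[]) ([.c12],[]) ([.c13],[]) ([],[.c13,.c15]) ([.c12,.c14],[]), ([],[]))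
/-- One block. -/
noncomputable def t8_5 : Blk I16 J28 := (.c4, I16.fn ([.c0],[]) ([.c1],[]) ([.c3],[.c0]) ([],[.c1,.c2]) ([.c4],[]) ([.c5],[]) ([.c7],[.c4]) ([],[.c5,.c6]) ([.c8],[]) ([.c9],[]) ([.c11],[.c8]) ([],[.c9,.c10]) ([.c12],[]) ([.c13],[]) ([.c15],[.c12]) ([],[.c13,.c14]), ([],[]))
/-- One block. -/
noncomputable def t8_6 : Blk I16 J28 := (.c8, I16.fn ([],[.c1]) ([.c0],[]) ([.c1,.c2],[]) ([.c3],[.c0]) ([],[.c5]) ([.c4],[]) ([.c5,.c6],[]) ([.c7],[.c4]) ([],[.c9]) ([.c8],[]) ([.c9,.c10],[]) ([.c11],[.c8]) ([],[.c13]) ([.c12],[]) ([.c13,.c14],[]) ([.c15],[.c12]), ([],[]))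
/-- One block. -/
noncomputable def t8_7 : Blk I16 J28 := (.c7, I16.fn ([.c1],[]) ([],[.c0]) ([.c0,.c2],[]) ([.c1,.c3],[]) ([.c5],[]) ([],[.c4]) ([.c4,.c6],[]) ([.c5,.c7],[]) ([.c9],[]) ([],[.c8]) ([.c8,.c10],[]) ([.c9,.c11],[]) ([.c13],[]) ([],[.c12]) ([.c12,.c14],[]) ([.c13,.c15],[]), ([],[]))
/-- One block. -/
noncomputable def t8_8 : Blk I16 J28 := (.c6, I16.fn ([.c1],[]) ([],[.c0]) ([.c0,.c2],[]) ([.c1,.c3],[]) ([.c5],[]) ([],[.c4]) ([.c4,.c6],[]) ([.c5,.c7],[]) ([.c9],[]) ([],[.c8]) ([.c8,.c10],[]) ([.c9,.c11],[]) ([.c13],[]) ([],[.c12]) ([.c12,.c14],[]) ([.c13,.c15],[]), ([],[]))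
/-- One block. -/
noncomputable def t8_9 : Blk I16 J28 := (.c9, I16.fn ([.c1],[]) ([],[.c0]) ([.c0,.c2],[]) ([.c1,.c3],[]) ([.c5],[]) ([],[.c4]) ([.c4,.c6],[]) ([.c5,.c7],[]) ([.c9],[]) ([],[.c8]) ([.c8,.c10],[]) ([.c9,.c11],[]) ([.c13],[]) ([],[.c12]) ([.c12,.c14],[]) ([.c13,.c15],[]), ([],[]))
/-- One block. -/
noncomputable def t8_10 : Blk I16 J28 := (.c10, I16.fn ([.c0],[]) ([.c1],[]) ([.c3],[.c0]) ([],[.c1,.c2]) ([.c4],[]) ([.c5],[]) ([.c7],[.c4]) ([],[.c5,.c6]) ([.c8],[]) ([.c9],[]) ([.c11],[.c8]) ([],[.c9,.c10]) ([.c12],[]) ([.c13],[]) ([.c15],[.c12]) ([],[.c13,.c14]), ([],[]))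
/-- One block. -/
noncomputable def t8_11 : Blk I16 J28 := (.c11, I16.fn ([.c1],[]) ([],[.c0]) ([.c0,.c2],[]) ([.c1,.c3],[]) ([.c5],[]) ([],[.c4]) ([.c4,.c6],[]) ([.c5,.c7],[]) ([.c9],[]) ([],[.c8]) ([.c8,.c10],[]) ([.c9,.c11],[]) ([.c13],[]) ([],[.c12]) ([.c12,.c14],[]) ([.c13,.c15],[]), ([],[]))
/-- One block. -/
noncomputable def t8_12 : Blk I16 J28 := (.c14, I16.fn ([],[.c1]) ([.c0],[]) ([.c1,.c2],[]) ([.c3],[.c0]) ([],[.c5]) ([.c4],[]) ([.c5,.c6],[]) ([.c7],[.c4]) ([],[.c9]) ([.c8],[]) ([.c9,.c10],[]) ([.c11],[.c8]) ([],[.c13]) ([.c12],[]) ([.c13,.c14],[]) ([.c15],[.c12]), ([],[]))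
/-- One block. -/
noncomputable def t8_13 : Blk I16 J28 := (.c13, I16.fn ([.c1],[]) ([],[.c0]) ([.c0,.c2],[]) ([.c1,.c3],[]) ([.c5],[]) ([],[.c4]) ([.c4,.c6],[]) ([.c5,.c7],[]) ([.c9],[]) ([],[.c8]) ([.c8,.c10],[]) ([.c9,.c11],[]) ([.c13],[]) ([],[.c12]) ([.c12,.c14],[]) ([.c13,.c15],[]), ([],[]))
/-- One block. -/
noncomputable def t8_14 : Blk I16 J28 := (.c12, I16.fn ([.c1],[]) ([],[.c0]) ([.c0,.c2],[]) ([.c1,.c3],[]) ([.c5],[]) ([],[.c4]) ([.c4,.c6],[]) ([.c5,.c7],[]) ([.c9],[]) ([],[.c8]) ([.c8,.c10],[]) ([.c9,.c11],[]) ([.c13],[]) ([],[.c12]) ([.c12,.c14],[]) ([.c13,.c15],[]), ([],[]))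
/-- One block. -/
noncomputable def t8_15 : Blk I16 J28 := (.c15, I16.fn ([.c1],[]) ([],[.c0]) ([.c0,.c2],[]) ([.c1,.c3],[]) ([.c5],[]) ([],[.c4]) ([.c4,.c6],[]) ([.c5,.c7],[]) ([.c9],[]) ([],[.c8]) ([.c8,.c10],[]) ([.c9,.c11],[]) ([.c13],[]) ([],[.c12]) ([.c12,.c14],[]) ([.c13,.c15],[]), ([],[]))
/-- One block. -/
noncomputable def t8_16 : Blk I16 J28 := (.c16, I16.fn ([.c0],[]) ([.c1],[]) ([.c3],[.c0]) ([],[.c1,.c2]) ([.c4],[]) ([.c5],[]) ([.c7],[.c4]) ([],[.c5,.c6]) ([.c8],[]) ([.c9],[]) ([.c11],[.c8]) ([],[.c9,.c10]) ([.c12],[]) ([.c13],[]) ([.c15],[.c12]) ([],[.c13,.c14]), ([],[]))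
/-- One block. -/
noncomputable def t8_17 : Blk I16 J28 := (.c17, I16.fn ([.c1],[]) ([],[.c0]) ([.c0,.c2],[]) ([.c1,.c3],[]) ([.c5],[]) ([],[.c4]) ([.c4,.c6],[]) ([.c5,.c7],[]) ([.c9],[]) ([],[.c8]) ([.c8,.c10],[]) ([.c9,.c11],[]) ([.c13],[]) ([],[.c12]) ([.c12,.c14],[]) ([.c13,.c15],[]), ([],[]))
/-- One block. -/
noncomputable def t8_18 : Blk I16 J28 := (.c18, I16.fn ([.c0],[]) ([.c1],[]) ([.c3],[.c0]) ([],[.c1,.c2]) ([.c4],[]) ([.c5],[]) ([.c7],[.c4]) ([],[.c5,.c6]) ([.c8],[]) ([.c9],[]) ([.c11],[.c8]) ([],[.c9,.c10]) ([.c12],[]) ([.c13],[]) ([.c15],[.c12]) ([],[.c13,.c14]), ([],[]))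
/-- One block. -/
noncomputable def t8_19 : Blk I16 J28 := (.c19, I16.fn ([.c0],[]) ([.c1],[]) ([.c3],[.c0]) ([],[.c1,.c2]) ([.c4],[]) ([.c5],[]) ([.c7],[.c4]) ([],[.c5,.c6]) ([.c8],[]) ([.c9],[]) ([.c11],[.c8]) ([],[.c9,.c10]) ([.c12],[]) ([.c13],[]) ([.c15],[.c12]) ([],[.c13,.c14]), ([],[]))
/-- One block. -/
noncomputable def t8_20 : Blk I16 J28 := (.c21, I16.fn ([.c0],[]) ([.c1],[]) ([],[.c1,.c3]) ([.c0,.c2],[]) ([.c4],[]) ([.c5],[]) ([],[.c5,.c7]) ([.c4,.c6],[]) ([.c8],[]) ([.c9],[]) ([],[.c9,.c11]) ([.c8,.c10],[]) ([.c12],[]) ([.c13],[]) ([],[.c13,.c15]) ([.c12,.c14],[]), ([],[]))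
/-- One block. -/
noncomputable def t8_21 : Blk I16 J28 := (.c20, I16.fn ([.c0],[]) ([.c1],[]) ([.c3],[.c0]) ([],[.c1,.c2]) ([.c4],[]) ([.c5],[]) ([.c7],[.c4]) ([],[.c5,.c6]) ([.c8],[]) ([.c9],[]) ([.c11],[.c8]) ([],[.c9,.c10]) ([.c12],[]) ([.c13],[]) ([.c15],[.c12]) ([],[.c13,.c14]), ([],[]))
/-- One block. -/
noncomputable def t8_22 : Blk I16 J28 := (.c22, I16.fn ([.c0],[]) ([.c1],[]) ([.c3],[.c0]) ([],[.c1,.c2]) ([.c4],[]) ([.c5],[]) ([.c7],[.c4]) ([],[.c5,.c6]) ([.c8],[]) ([.c9],[]) ([.c11],[.c8]) ([],[.c9,.c10]) ([.c12],[]) ([.c13],[]) ([.c15],[.c12]) ([],[.c13,.c14]), ([],[]))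
/-- One block. -/
noncomputable def t8_23 : Blk I16 J28 := (.c23, I16.fn ([.c1],[]) ([],[.c0]) ([.c0,.c2],[]) ([.c1,.c3],[]) ([.c5],[]) ([],[.c4]) ([.c4,.c6],[]) ([.c5,.c7],[]) ([.c9],[]) ([],[.c8]) ([.c8,.c10],[]) ([.c9,.c11],[]) ([.c13],[]) ([],[.c12]) ([.c12,.c14],[]) ([.c13,.c15],[]), ([],[]))
/-- One block. -/
noncomputable def t8_24 : Blk I16 J28 := (.c26, I16.fn ([],[.c1]) ([.c0],[]) ([.c1,.c2],[]) ([.c3],[.c0]) ([],[.c5]) ([.c4],[]) ([.c5,.c6],[]) ([.c7],[.c4]) ([],[.c9]) ([.c8],[]) ([.c9,.c10],[]) ([.c11],[.c8]) ([],[.c13]) ([.c12],[]) ([.c13,.c14],[]) ([.c15],[.c12]), ([],[]))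
/-- One block. -/
noncomputable def t8_25 : Blk I16 J28 := (.c25, I16.fn ([.c1],[]) ([],[.c0]) ([.c0,.c2],[]) ([.c1,.c3],[]) ([.c5],[]) ([],[.c4]) ([.c4,.c6],[]) ([.c5,.c7],[]) ([.c9],[]) ([],[.c8]) ([.c8,.c10],[]) ([.c9,.c11],[]) ([.c13],[]) ([],[.c12]) ([.c12,.c14],[]) ([.c13,.c15],[]), ([],[]))
/-- One block. -/
noncomputable def t8_26 : Blk I16 J28 := (.c24, I16.fn ([.c1],[]) ([],[.c0]) ([.c0,.c2],[]) ([.c1,.c3],[]) ([.c5],[]) ([],[.c4]) ([.c4,.c6],[]) ([.c5,.c7],[]) ([.c9],[]) ([],[.c8]) ([.c8,.c10],[]) ([.c9,.c11],[]) ([.c13],[]) ([],[.c12]) ([.c12,.c14],[]) ([.c13,.c15],[]), ([],[]))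
/-- One block. -/
noncomputable def t8_27 : Blk I16 J28 := (.c27, I16.fn ([.c1],[]) ([],[.c0]) ([.c0,.c2],[]) ([.c1,.c3],[]) ([.c5],[]) ([],[.c4]) ([.c4,.c6],[]) ([.c5,.c7],[]) ([.c9],[]) ([],[.c8]) ([.c8,.c10],[]) ([.c9,.c11],[]) ([.c13],[]) ([],[.c12]) ([.c12,.c14],[]) ([.c13,.c15],[]), ([],[]))
/-- The blocks of a generator. -/
noncomputable def t8 : J28 → Blk I16 J28 := J28.fn t8_0 t8_1 t8_2 t8_3 t8_4 t8_5 t8_6 t8_7 t8_8 t8_9 t8_10 t8_11 t8_12 t8_13 t8_14 t8_15 t8_16 t8_17 t8_18 t8_19 t8_20 t8_21 t8_22 t8_23 t8_24 t8_25 t8_26 t8_27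
/-- One block. -/
noncomputable def t9_0 : Blk I16 J28 := (.c3, I16.fn ([.c7],[.c1,.c2,.c4,.c6]) ([.c0],[.c3,.c5,.c6,.c7]) ([.c2,.c6],[]) ([.c3,.c7],[]) ([.c4,.c6],[]) ([.c5,.c7],[]) ([],[.c7]) ([.c6],[]) ([.c15],[.c9,.c10,.c12,.c14]) ([.c8],[.c11,.c13,.c14,.c15]) ([.c10,.c14],[]) ([.c11,.c15],[]) ([.c12,.c14],[]) ([.c13,.c15],[]) ([],[.c15]) ([.c14],[]), ([],[]))
/-- One block. -/
noncomputable def t9_1 : Blk I16 J28 := (.c4, I16.fn ([.c7],[.c1,.c2,.c4,.c6]) ([.c0],[.c3,.c5,.c6,.c7]) ([.c2,.c6],[]) ([.c3,.c7],[]) ([.c4,.c6],[]) ([.c5,.c7],[]) ([],[.c7]) ([.c6],[]) ([.c15],[.c9,.c10,.c12,.c14]) ([.c8],[.c11,.c13,.c14,.c15]) ([.c10,.c14],[]) ([.c11,.c15],[]) ([.c12,.c14],[]) ([.c13,.c15],[]) ([],[.c15]) ([.c14],[]), ([],[]))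
/-- One block. -/
noncomputable def t9_2 : Blk I16 J28 := (.c2, I16.fn ([.c1,.c3,.c5,.c6,.c7],[]) ([.c7],[.c0,.c2,.c4,.c6]) ([.c2],[.c7]) ([.c3,.c6],[]) ([.c4],[.c7]) ([.c5,.c6],[]) ([.c7],[]) ([],[.c6]) ([.c9,.c11,.c13,.c14,.c15],[]) ([.c15],[.c8,.c10,.c12,.c14]) ([.c10],[.c15]) ([.c11,.c14],[]) ([.c12],[.c15]) ([.c13,.c14],[]) ([.c15],[]) ([],[.c14]), ([],[]))
/-- One block. -/
noncomputable def t9_3 : Blk I16 J28 := (.c0, I16.fn ([.c1,.c3,.c5,.c6,.c7],[]) ([.c7],[.c0,.c2,.c4,.c6]) ([.c2],[.c7]) ([.c3,.c6],[]) ([.c4],[.c7]) ([.c5,.c6],[]) ([.c7],[]) ([],[.c6]) ([.c9,.c11,.c13,.c14,.c15],[]) ([.c15],[.c8,.c10,.c12,.c14]) ([.c10],[.c15]) ([.c11,.c14],[]) ([.c12],[.c15]) ([.c13,.c14],[]) ([.c15],[]) ([],[.c14]), ([],[]))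
/-- One block. -/
noncomputable def t9_4 : Blk I16 J28 := (.c1, I16.fn ([.c1,.c3,.c5,.c6,.c7],[]) ([.c7],[.c0,.c2,.c4,.c6]) ([.c2],[.c7]) ([.c3,.c6],[]) ([.c4],[.c7]) ([.c5,.c6],[]) ([.c7],[]) ([],[.c6]) ([.c9,.c11,.c13,.c14,.c15],[]) ([.c15],[.c8,.c10,.c12,.c14]) ([.c10],[.c15]) ([.c11,.c14],[]) ([.c12],[.c15]) ([.c13,.c14],[]) ([.c15],[]) ([],[.c14]), ([],[]))
/-- One block. -/
noncomputable def t9_5 : Blk I16 J28 := (.c5, I16.fn ([.c0],[.c3,.c5,.c6,.c7]) ([.c1,.c2,.c4,.c6],[.c7]) ([.c3,.c7],[]) ([],[.c2,.c6]) ([.c5,.c7],[]) ([],[.c4,.c6]) ([.c6],[]) ([.c7],[]) ([.c8],[.c11,.c13,.c14,.c15]) ([.c9,.c10,.c12,.c14],[.c15]) ([.c11,.c15],[]) ([],[.c10,.c14]) ([.c13,.c15],[]) ([],[.c12,.c14]) ([.c14],[]) ([.c15],[]), ([],[]))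
/-- One block. -/
noncomputable def t9_6 : Blk I16 J28 := (.c6, I16.fn ([.c0],[.c3,.c5,.c6,.c7]) ([.c1,.c2,.c4,.c6],[.c7]) ([.c3,.c7],[]) ([],[.c2,.c6]) ([.c5,.c7],[]) ([],[.c4,.c6]) ([.c6],[]) ([.c7],[]) ([.c8],[.c11,.c13,.c14,.c15]) ([.c9,.c10,.c12,.c14],[.c15]) ([.c11,.c15],[]) ([],[.c10,.c14]) ([.c13,.c15],[]) ([],[.c12,.c14]) ([.c14],[]) ([.c15],[]), ([],[]))
/-- One block. -/
noncomputable def t9_7 : Blk I16 J28 := (.c7, I16.fn ([.c0],[.c3,.c5,.c6,.c7]) ([.c1,.c2,.c4,.c6],[.c7]) ([.c3,.c7],[]) ([],[.c2,.c6]) ([.c5,.c7],[]) ([],[.c4,.c6]) ([.c6],[]) ([.c7],[]) ([.c8],[.c11,.c13,.c14,.c15]) ([.c9,.c10,.c12,.c14],[.c15]) ([.c11,.c15],[]) ([],[.c10,.c14]) ([.c13,.c15],[]) ([],[.c12,.c14]) ([.c14],[]) ([.c15],[]), ([],[]))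
/-- One block. -/
noncomputable def t9_8 : Blk I16 J28 := (.c9, I16.fn ([.c0,.c2,.c4,.c6],[.c7]) ([.c1,.c3,.c5,.c6,.c7],[]) ([],[.c3,.c6]) ([.c2],[.c7]) ([],[.c5,.c6]) ([.c4],[.c7]) ([.c6],[]) ([.c7],[]) ([.c8,.c10,.c12,.c14],[.c15]) ([.c9,.c11,.c13,.c14,.c15],[]) ([],[.c11,.c14]) ([.c10],[.c15]) ([],[.c13,.c14]) ([.c12],[.c15]) ([.c14],[]) ([.c15],[]), ([],[]))
/-- One block. -/
noncomputable def t9_9 : Blk I16 J28 := (.c8, I16.fn ([.c0],[.c3,.c5,.c6,.c7]) ([.c1,.c2,.c4,.c6],[.c7]) ([.c3,.c7],[]) ([],[.c2,.c6]) ([.c5,.c7],[]) ([],[.c4,.c6]) ([.c6],[]) ([.c7],[]) ([.c8],[.c11,.c13,.c14,.c15]) ([.c9,.c10,.c12,.c14],[.c15]) ([.c11,.c15],[]) ([],[.c10,.c14]) ([.c13,.c15],[]) ([],[.c12,.c14]) ([.c14],[]) ([.c15],[]), ([],[]))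
/-- One block. -/
noncomputable def t9_10 : Blk I16 J28 := (.c10, I16.fn ([.c1,.c3,.c5,.c6,.c7],[]) ([.c7],[.c0,.c2,.c4,.c6]) ([.c2],[.c7]) ([.c3,.c6],[]) ([.c4],[.c7]) ([.c5,.c6],[]) ([.c7],[]) ([],[.c6]) ([.c9,.c11,.c13,.c14,.c15],[]) ([.c15],[.c8,.c10,.c12,.c14]) ([.c10],[.c15]) ([.c11,.c14],[]) ([.c12],[.c15]) ([.c13,.c14],[]) ([.c15],[]) ([],[.c14]), ([.c6,.c7,.c14],[]))
/-- One block. -/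
noncomputable def t9_11 : Blk I16 J28 := (.c11, I16.fn ([.c0],[.c3,.c5,.c6,.c7]) ([.c1,.c2,.c4,.c6],[.c7]) ([.c3,.c7],[]) ([],[.c2,.c6]) ([.c5,.c7],[]) ([],[.c4,.c6]) ([.c6],[]) ([.c7],[]) ([.c8],[.c11,.c13,.c14,.c15]) ([.c9,.c10,.c12,.c14],[.c15]) ([.c11,.c15],[]) ([],[.c10,.c14]) ([.c13,.c15],[]) ([],[.c12,.c14]) ([.c14],[]) ([.c15],[]), ([.c5,.c5,.c6,.c7,.c12,.c13,.c14],[]))
/-- One block. -/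
noncomputable def t9_12 : Blk I16 J28 := (.c12, I16.fn ([.c0],[.c3,.c5,.c6,.c7]) ([.c1,.c2,.c4,.c6],[.c7]) ([.c3,.c7],[]) ([],[.c2,.c6]) ([.c5,.c7],[]) ([],[.c4,.c6]) ([.c6],[]) ([.c7],[]) ([.c8],[.c11,.c13,.c14,.c15]) ([.c9,.c10,.c12,.c14],[.c15]) ([.c11,.c15],[]) ([],[.c10,.c14]) ([.c13,.c15],[]) ([],[.c12,.c14]) ([.c14],[]) ([.c15],[]), ([],[]))
/-- One block. -/
noncomputable def t9_13 : Blk I16 J28 := (.c13, I16.fn ([.c0],[.c3,.c5,.c6,.c7]) ([.c1,.c2,.c4,.c6],[.c7]) ([.c3,.c7],[]) ([],[.c2,.c6]) ([.c5,.c7],[]) ([],[.c4,.c6]) ([.c6],[]) ([.c7],[]) ([.c8],[.c11,.c13,.c14,.c15]) ([.c9,.c10,.c12,.c14],[.c15]) ([.c11,.c15],[]) ([],[.c10,.c14]) ([.c13,.c15],[]) ([],[.c12,.c14]) ([.c14],[]) ([.c15],[]), ([],[]))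
/-- One block. -/
noncomputable def t9_14 : Blk I16 J28 := (.c15, I16.fn ([.c0,.c2,.c4,.c6],[.c7]) ([.c1,.c3,.c5,.c6,.c7],[]) ([],[.c3,.c6]) ([.c2],[.c7]) ([],[.c5,.c6]) ([.c4],[.c7]) ([.c6],[]) ([.c7],[]) ([.c8,.c10,.c12,.c14],[.c15]) ([.c9,.c11,.c13,.c14,.c15],[]) ([],[.c11,.c14]) ([.c10],[.c15]) ([],[.c13,.c14]) ([.c12],[.c15]) ([.c14],[]) ([.c15],[]), ([],[]))
/-- One block. -/
noncomputable def t9_15 : Blk I16 J28 := (.c14, I16.fn ([.c0],[.c3,.c5,.c6,.c7]) ([.c1,.c2,.c4,.c6],[.c7]) ([.c3,.c7],[]) ([],[.c2,.c6]) ([.c5,.c7],[]) ([],[.c4,.c6]) ([.c6],[]) ([.c7],[]) ([.c8],[.c11,.c13,.c14,.c15]) ([.c9,.c10,.c12,.c14],[.c15]) ([.c11,.c15],[]) ([],[.c10,.c14]) ([.c13,.c15],[]) ([],[.c12,.c14]) ([.c14],[]) ([.c15],[]), ([],[]))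
/-- One block. -/
noncomputable def t9_16 : Blk I16 J28 := (.c16, I16.fn ([.c1,.c3,.c5,.c6,.c7],[]) ([.c7],[.c0,.c2,.c4,.c6]) ([.c2],[.c7]) ([.c3,.c6],[]) ([.c4],[.c7]) ([.c5,.c6],[]) ([.c7],[]) ([],[.c6]) ([.c9,.c11,.c13,.c14,.c15],[]) ([.c15],[.c8,.c10,.c12,.c14]) ([.c10],[.c15]) ([.c11,.c14],[]) ([.c12],[.c15]) ([.c13,.c14],[]) ([.c15],[]) ([],[.c14]), ([.c6,.c14],[.c15]))
/-- One block. -/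
noncomputable def t9_17 : Blk I16 J28 := (.c17, I16.fn ([.c0],[.c3,.c5,.c6,.c7]) ([.c1,.c2,.c4,.c6],[.c7]) ([.c3,.c7],[]) ([],[.c2,.c6]) ([.c5,.c7],[]) ([],[.c4,.c6]) ([.c6],[]) ([.c7],[]) ([.c8],[.c11,.c13,.c14,.c15]) ([.c9,.c10,.c12,.c14],[.c15]) ([.c11,.c15],[]) ([],[.c10,.c14]) ([.c13,.c15],[]) ([],[.c12,.c14]) ([.c14],[]) ([.c15],[]), ([.c4,.c5,.c6,.c12,.c12,.c14],[.c15]))
/-- One block. -/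
noncomputable def t9_18 : Blk I16 J28 := (.c21, I16.fn ([.c0,.c2,.c4,.c6],[.c7]) ([.c1,.c3,.c5,.c6,.c7],[]) ([],[.c3,.c6]) ([.c2],[.c7]) ([],[.c5,.c6]) ([.c4],[.c7]) ([.c6],[]) ([.c7],[]) ([.c8,.c10,.c12,.c14],[.c15]) ([.c9,.c11,.c13,.c14,.c15],[]) ([],[.c11,.c14]) ([.c10],[.c15]) ([],[.c13,.c14]) ([.c12],[.c15]) ([.c14],[]) ([.c15],[]), ([],[]))
/-- One block. -/
noncomputable def t9_19 : Blk I16 J28 := (.c19, I16.fn ([.c1,.c3,.c5,.c6,.c7],[]) ([.c7],[.c0,.c2,.c4,.c6]) ([.c2],[.c7]) ([.c3,.c6],[]) ([.c4],[.c7]) ([.c5,.c6],[]) ([.c7],[]) ([],[.c6]) ([.c9,.c11,.c13,.c14,.c15],[]) ([.c15],[.c8,.c10,.c12,.c14]) ([.c10],[.c15]) ([.c11,.c14],[]) ([.c12],[.c15]) ([.c13,.c14],[]) ([.c15],[]) ([],[.c14]), ([],[]))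
/-- One block. -/
noncomputable def t9_20 : Blk I16 J28 := (.c20, I16.fn ([.c1,.c3,.c5,.c6,.c7],[]) ([.c7],[.c0,.c2,.c4,.c6]) ([.c2],[.c7]) ([.c3,.c6],[]) ([.c4],[.c7]) ([.c5,.c6],[]) ([.c7],[]) ([],[.c6]) ([.c9,.c11,.c13,.c14,.c15],[]) ([.c15],[.c8,.c10,.c12,.c14]) ([.c10],[.c15]) ([.c11,.c14],[]) ([.c12],[.c15]) ([.c13,.c14],[]) ([.c15],[]) ([],[.c14]), ([],[]))
/-- One block. -/
noncomputable def t9_21 : Blk I16 J28 := (.c18, I16.fn ([.c0],[.c3,.c5,.c6,.c7]) ([.c1,.c2,.c4,.c6],[.c7]) ([.c3,.c7],[]) ([],[.c2,.c6]) ([.c5,.c7],[]) ([],[.c4,.c6]) ([.c6],[]) ([.c7],[]) ([.c8],[.c11,.c13,.c14,.c15]) ([.c9,.c10,.c12,.c14],[.c15]) ([.c11,.c15],[]) ([],[.c10,.c14]) ([.c13,.c15],[]) ([],[.c12,.c14]) ([.c14],[]) ([.c15],[]), ([],[]))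
/-- One block. -/
noncomputable def t9_22 : Blk I16 J28 := (.c22, I16.fn ([.c1,.c3,.c5,.c6,.c7],[]) ([.c7],[.c0,.c2,.c4,.c6]) ([.c2],[.c7]) ([.c3,.c6],[]) ([.c4],[.c7]) ([.c5,.c6],[]) ([.c7],[]) ([],[.c6]) ([.c9,.c11,.c13,.c14,.c15],[]) ([.c15],[.c8,.c10,.c12,.c14]) ([.c10],[.c15]) ([.c11,.c14],[]) ([.c12],[.c15]) ([.c13,.c14],[]) ([.c15],[]) ([],[.c14]), ([.c6,.c14],[]))
/-- One block. -/
noncomputable def t9_23 : Blk I16 J28 := (.c23, I16.fn ([.c0],[.c3,.c5,.c6,.c7]) ([.c1,.c2,.c4,.c6],[.c7]) ([.c3,.c7],[]) ([],[.c2,.c6]) ([.c5,.c7],[]) ([],[.c4,.c6]) ([.c6],[]) ([.c7],[]) ([.c8],[.c11,.c13,.c14,.c15]) ([.c9,.c10,.c12,.c14],[.c15]) ([.c11,.c15],[]) ([],[.c10,.c14]) ([.c13,.c15],[]) ([],[.c12,.c14]) ([.c14],[]) ([.c15],[]), ([.c4,.c5,.c6,.c12,.c13,.c14],[]))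
/-- One block. -/
noncomputable def t9_24 : Blk I16 J28 := (.c24, I16.fn ([.c0],[.c3,.c5,.c6,.c7]) ([.c1,.c2,.c4,.c6],[.c7]) ([.c3,.c7],[]) ([],[.c2,.c6]) ([.c5,.c7],[]) ([],[.c4,.c6]) ([.c6],[]) ([.c7],[]) ([.c8],[.c11,.c13,.c14,.c15]) ([.c9,.c10,.c12,.c14],[.c15]) ([.c11,.c15],[]) ([],[.c10,.c14]) ([.c13,.c15],[]) ([],[.c12,.c14]) ([.c14],[]) ([.c15],[]), ([],[]))
/-- One block. -/
noncomputable def t9_25 : Blk I16 J28 := (.c25, I16.fn ([.c0],[.c3,.c5,.c6,.c7]) ([.c1,.c2,.c4,.c6],[.c7]) ([.c3,.c7],[]) ([],[.c2,.c6]) ([.c5,.c7],[]) ([],[.c4,.c6]) ([.c6],[]) ([.c7],[]) ([.c8],[.c11,.c13,.c14,.c15]) ([.c9,.c10,.c12,.c14],[.c15]) ([.c11,.c15],[]) ([],[.c10,.c14]) ([.c13,.c15],[]) ([],[.c12,.c14]) ([.c14],[]) ([.c15],[]), ([],[]))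
/-- One block. -/
noncomputable def t9_26 : Blk I16 J28 := (.c27, I16.fn ([.c0,.c2,.c4,.c6],[.c7]) ([.c1,.c3,.c5,.c6,.c7],[]) ([],[.c3,.c6]) ([.c2],[.c7]) ([],[.c5,.c6]) ([.c4],[.c7]) ([.c6],[]) ([.c7],[]) ([.c8,.c10,.c12,.c14],[.c15]) ([.c9,.c11,.c13,.c14,.c15],[]) ([],[.c11,.c14]) ([.c10],[.c15]) ([],[.c13,.c14]) ([.c12],[.c15]) ([.c14],[]) ([.c15],[]), ([],[]))
/-- One block. -/
noncomputable def t9_27 : Blk I16 J28 := (.c26, I16.fn ([.c0],[.c3,.c5,.c6,.c7]) ([.c1,.c2,.c4,.c6],[.c7]) ([.c3,.c7],[]) ([],[.c2,.c6]) ([.c5,.c7],[]) ([],[.c4,.c6]) ([.c6],[]) ([.c7],[]) ([.c8],[.c11,.c13,.c14,.c15]) ([.c9,.c10,.c12,.c14],[.c15]) ([.c11,.c15],[]) ([],[.c10,.c14]) ([.c13,.c15],[]) ([],[.c12,.c14]) ([.c14],[]) ([.c15],[]), ([],[]))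
/-- The blocks of a generator. -/
noncomputable def t9 : J28 → Blk I16 J28 := J28.fn t9_0 t9_1 t9_2 t9_3 t9_4 t9_5 t9_6 t9_7 t9_8 t9_9 t9_10 t9_11 t9_12 t9_13 t9_14 t9_15 t9_16 t9_17 t9_18 t9_19 t9_20 t9_21 t9_22 t9_23 t9_24 t9_25 t9_26 t9_27
/-- One block. -/
noncomputable def t10_0 : Blk I16 J28 := (.c6, I16.fn ([],[.c1]) ([.c0],[]) ([],[.c3]) ([.c2],[]) ([.c1,.c4],[]) ([.c5],[.c0]) ([.c3,.c6],[]) ([.c7],[.c2]) ([],[.c9]) ([.c8],[]) ([],[.c11]) ([.c10],[]) ([.c9,.c12],[]) ([.c13],[.c8]) ([.c11,.c14],[]) ([.c15],[.c10]), ([],[.c4,.c6]))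
/-- One block. -/
noncomputable def t10_1 : Blk I16 J28 := (.c7, I16.fn ([],[.c1]) ([.c0],[]) ([],[.c3]) ([.c2],[]) ([.c1,.c4],[]) ([.c5],[.c0]) ([.c3,.c6],[]) ([.c7],[.c2]) ([],[.c9]) ([.c8],[]) ([],[.c11]) ([.c10],[]) ([.c9,.c12],[]) ([.c13],[.c8]) ([.c11,.c14],[]) ([.c15],[.c10]), ([],[.c5,.c6,.c7]))
/-- One block. -/
noncomputable def t10_2 : Blk I16 J28 := (.c8, I16.fn ([],[.c1]) ([.c0],[]) ([],[.c3]) ([.c2],[]) ([.c1,.c4],[]) ([.c5],[.c0]) ([.c3,.c6],[]) ([.c7],[.c2]) ([],[.c9]) ([.c8],[]) ([],[.c11]) ([.c10],[]) ([.c9,.c12],[]) ([.c13],[.c8]) ([.c11,.c14],[]) ([.c15],[.c10]), ([],[.c4,.c5,.c6]))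
/-- One block. -/
noncomputable def t10_3 : Blk I16 J28 := (.c3, I16.fn ([.c1],[]) ([],[.c0]) ([.c3],[]) ([],[.c2]) ([.c0,.c4],[]) ([.c1,.c5],[]) ([.c2,.c6],[]) ([.c3,.c7],[]) ([.c9],[]) ([],[.c8]) ([.c11],[]) ([],[.c10]) ([.c8,.c12],[]) ([.c9,.c13],[]) ([.c10,.c14],[]) ([.c11,.c15],[]), ([.c0],[]))
/-- One block. -/
noncomputable def t10_4 : Blk I16 J28 := (.c4, I16.fn ([.c1],[]) ([],[.c0]) ([.c3],[]) ([],[.c2]) ([.c0,.c4],[]) ([.c1,.c5],[]) ([.c2,.c6],[]) ([.c3,.c7],[]) ([.c9],[]) ([],[.c8]) ([.c11],[]) ([],[.c10]) ([.c8,.c12],[]) ([.c9,.c13],[]) ([.c10,.c14],[]) ([.c11,.c15],[]), ([.c1,.c3],[]))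
/-- One block. -/
noncomputable def t10_5 : Blk I16 J28 := (.c5, I16.fn ([.c1],[]) ([],[.c0]) ([.c3],[]) ([],[.c2]) ([.c0,.c4],[]) ([.c1,.c5],[]) ([.c2,.c6],[]) ([.c3,.c7],[]) ([.c9],[]) ([],[.c8]) ([.c11],[]) ([],[.c10]) ([.c8,.c12],[]) ([.c9,.c13],[]) ([.c10,.c14],[]) ([.c11,.c15],[]), ([],[.c2]))
/-- One block. -/
noncomputable def t10_6 : Blk I16 J28 := (.c0, I16.fn ([.c1],[]) ([],[.c0]) ([.c3],[]) ([],[.c2]) ([.c0,.c4],[]) ([.c1,.c5],[]) ([.c2,.c6],[]) ([.c3,.c7],[]) ([.c9],[]) ([],[.c8]) ([.c11],[]) ([],[.c10]) ([.c8,.c12],[]) ([.c9,.c13],[]) ([.c10,.c14],[]) ([.c11,.c15],[]), ([.c0,.c2,.c4,.c6],[]))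
/-- One block. -/
noncomputable def t10_7 : Blk I16 J28 := (.c1, I16.fn ([.c1],[]) ([],[.c0]) ([.c3],[]) ([],[.c2]) ([.c0,.c4],[]) ([.c1,.c5],[]) ([.c2,.c6],[]) ([.c3,.c7],[]) ([.c9],[]) ([],[.c8]) ([.c11],[]) ([],[.c10]) ([.c8,.c12],[]) ([.c9,.c13],[]) ([.c10,.c14],[]) ([.c11,.c15],[]), ([.c1,.c2,.c3,.c5,.c6,.c7],[]))
/-- One block. -/
noncomputable def t10_8 : Blk I16 J28 := (.c2, I16.fn ([.c1],[]) ([],[.c0]) ([.c3],[]) ([],[.c2]) ([.c0,.c4],[]) ([.c1,.c5],[]) ([.c2,.c6],[]) ([.c3,.c7],[]) ([.c9],[]) ([],[.c8]) ([.c11],[]) ([],[.c10]) ([.c8,.c12],[]) ([.c9,.c13],[]) ([.c10,.c14],[]) ([.c11,.c15],[]), ([.c0,.c1,.c2,.c4,.c5,.c6],[]))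
/-- One block. -/
noncomputable def t10_9 : Blk I16 J28 := (.c9, I16.fn ([.c0],[]) ([.c1],[]) ([.c2],[]) ([.c3],[]) ([.c5],[.c0]) ([],[.c1,.c4]) ([.c7],[.c2]) ([],[.c3,.c6]) ([.c8],[]) ([.c9],[]) ([.c10],[]) ([.c11],[]) ([.c13],[.c8]) ([],[.c9,.c12]) ([.c15],[.c10]) ([],[.c11,.c14]), ([],[]))
/-- One block. -/
noncomputable def t10_10 : Blk I16 J28 := (.c10, I16.fn ([.c0],[]) ([.c1],[]) ([.c2],[]) ([.c3],[]) ([.c5],[.c0]) ([],[.c1,.c4]) ([.c7],[.c2]) ([],[.c3,.c6]) ([.c8],[]) ([.c9],[]) ([.c10],[]) ([.c11],[]) ([.c13],[.c8]) ([],[.c9,.c12]) ([.c15],[.c10]) ([],[.c11,.c14]), ([],[]))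
/-- One block. -/
noncomputable def t10_11 : Blk I16 J28 := (.c15, I16.fn ([.c0],[]) ([.c1],[]) ([.c2],[]) ([.c3],[]) ([],[.c1,.c5]) ([.c0,.c4],[]) ([],[.c3,.c7]) ([.c2,.c6],[]) ([.c8],[]) ([.c9],[]) ([.c10],[]) ([.c11],[]) ([],[.c9,.c13]) ([.c8,.c12],[]) ([],[.c11,.c15]) ([.c10,.c14],[]), ([],[]))
/-- One block. -/
noncomputable def t10_12 : Blk I16 J28 := (.c12, I16.fn ([.c1],[]) ([],[.c0]) ([.c3],[]) ([],[.c2]) ([.c0,.c4],[]) ([.c1,.c5],[]) ([.c2,.c6],[]) ([.c3,.c7],[]) ([.c9],[]) ([],[.c8]) ([.c11],[]) ([],[.c10]) ([.c8,.c12],[]) ([.c9,.c13],[]) ([.c10,.c14],[]) ([.c11,.c15],[]), ([],[.c0,.c1,.c2,.c3,.c8,.c10]))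
/-- One block. -/
noncomputable def t10_13 : Blk I16 J28 := (.c13, I16.fn ([.c1],[]) ([],[.c0]) ([.c3],[]) ([],[.c2]) ([.c0,.c4],[]) ([.c1,.c5],[]) ([.c2,.c6],[]) ([.c3,.c7],[]) ([.c9],[]) ([],[.c8]) ([.c11],[]) ([],[.c10]) ([.c8,.c12],[]) ([.c9,.c13],[]) ([.c10,.c14],[]) ([.c11,.c15],[]), ([.c0],[.c1,.c3,.c3,.c9,.c10,.c11]))
/-- One block. -/
noncomputable def t10_14 : Blk I16 J28 := (.c14, I16.fn ([.c1],[]) ([],[.c0]) ([.c3],[]) ([],[.c2]) ([.c0,.c4],[]) ([.c1,.c5],[]) ([.c2,.c6],[]) ([.c3,.c7],[]) ([.c9],[]) ([],[.c8]) ([.c11],[]) ([],[.c10]) ([.c8,.c12],[]) ([.c9,.c13],[]) ([.c10,.c14],[]) ([.c11,.c15],[]), ([],[.c1,.c1,.c2,.c3,.c8,.c9,.c10]))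
/-- One block. -/
noncomputable def t10_15 : Blk I16 J28 := (.c11, I16.fn ([.c0],[]) ([.c1],[]) ([.c2],[]) ([.c3],[]) ([.c5],[.c0]) ([],[.c1,.c4]) ([.c7],[.c2]) ([],[.c3,.c6]) ([.c8],[]) ([.c9],[]) ([.c10],[]) ([.c11],[]) ([.c13],[.c8]) ([],[.c9,.c12]) ([.c15],[.c10]) ([],[.c11,.c14]), ([],[]))
/-- One block. -/
noncomputable def t10_16 : Blk I16 J28 := (.c18, I16.fn ([],[.c1]) ([.c0],[]) ([],[.c3]) ([.c2],[]) ([.c1,.c4],[]) ([.c5],[.c0]) ([.c3,.c6],[]) ([.c7],[.c2]) ([],[.c9]) ([.c8],[]) ([],[.c11]) ([.c10],[]) ([.c9,.c12],[]) ([.c13],[.c8]) ([.c11,.c14],[]) ([.c15],[.c10]), ([],[]))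
/-- One block. -/
noncomputable def t10_17 : Blk I16 J28 := (.c17, I16.fn ([.c1],[]) ([],[.c0]) ([.c3],[]) ([],[.c2]) ([.c0,.c4],[]) ([.c1,.c5],[]) ([.c2,.c6],[]) ([.c3,.c7],[]) ([.c9],[]) ([],[.c8]) ([.c11],[]) ([],[.c10]) ([.c8,.c12],[]) ([.c9,.c13],[]) ([.c10,.c14],[]) ([.c11,.c15],[]), ([],[]))
/-- One block. -/
noncomputable def t10_18 : Blk I16 J28 := (.c16, I16.fn ([.c1],[]) ([],[.c0]) ([.c3],[]) ([],[.c2]) ([.c0,.c4],[]) ([.c1,.c5],[]) ([.c2,.c6],[]) ([.c3,.c7],[]) ([.c9],[]) ([],[.c8]) ([.c11],[]) ([],[.c10]) ([.c8,.c12],[]) ([.c9,.c13],[]) ([.c10,.c14],[]) ([.c11,.c15],[]), ([],[]))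
/-- One block. -/
noncomputable def t10_19 : Blk I16 J28 := (.c19, I16.fn ([.c0],[]) ([.c1],[]) ([.c2],[]) ([.c3],[]) ([.c5],[.c0]) ([],[.c1,.c4]) ([.c7],[.c2]) ([],[.c3,.c6]) ([.c8],[]) ([.c9],[]) ([.c10],[]) ([.c11],[]) ([.c13],[.c8]) ([],[.c9,.c12]) ([.c15],[.c10]) ([],[.c11,.c14]), ([],[.c1,.c4,.c5,.c8,.c9,.c12,.c12]))
/-- One block. -/
noncomputable def t10_20 : Blk I16 J28 := (.c20, I16.fn ([.c0],[]) ([.c1],[]) ([.c2],[]) ([.c3],[]) ([.c5],[.c0]) ([],[.c1,.c4]) ([.c7],[.c2]) ([],[.c3,.c6]) ([.c8],[]) ([.c9],[]) ([.c10],[]) ([.c11],[]) ([.c13],[.c8]) ([],[.c9,.c12]) ([.c15],[.c10]) ([],[.c11,.c14]), ([.c0,.c2,.c4,.c6,.c8,.c10],[.c5,.c7,.c9,.c11,.c13,.c13,.c15,.c15]))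
/-- One block. -/
noncomputable def t10_21 : Blk I16 J28 := (.c21, I16.fn ([.c0],[]) ([.c1],[]) ([.c2],[]) ([.c3],[]) ([.c5],[.c0]) ([],[.c1,.c4]) ([.c7],[.c2]) ([],[.c3,.c6]) ([.c8],[]) ([.c9],[]) ([.c10],[]) ([.c11],[]) ([.c13],[.c8]) ([],[.c9,.c12]) ([.c15],[.c10]) ([],[.c11,.c14]), ([.c3,.c6,.c7,.c10,.c11,.c14,.c14],[]))
/-- One block. -/
noncomputable def t10_22 : Blk I16 J28 := (.c22, I16.fn ([.c0],[]) ([.c1],[]) ([.c2],[]) ([.c3],[]) ([.c5],[.c0]) ([],[.c1,.c4]) ([.c7],[.c2]) ([],[.c3,.c6]) ([.c8],[]) ([.c9],[]) ([.c10],[]) ([.c11],[]) ([.c13],[.c8]) ([],[.c9,.c12]) ([.c15],[.c10]) ([],[.c11,.c14]), ([],[]))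
/-- One block. -/
noncomputable def t10_23 : Blk I16 J28 := (.c27, I16.fn ([.c0],[]) ([.c1],[]) ([.c2],[]) ([.c3],[]) ([],[.c1,.c5]) ([.c0,.c4],[]) ([],[.c3,.c7]) ([.c2,.c6],[]) ([.c8],[]) ([.c9],[]) ([.c10],[]) ([.c11],[]) ([],[.c9,.c13]) ([.c8,.c12],[]) ([],[.c11,.c15]) ([.c10,.c14],[]), ([],[]))
/-- One block. -/
noncomputable def t10_24 : Blk I16 J28 := (.c24, I16.fn ([.c1],[]) ([],[.c0]) ([.c3],[]) ([],[.c2]) ([.c0,.c4],[]) ([.c1,.c5],[]) ([.c2,.c6],[]) ([.c3,.c7],[]) ([.c9],[]) ([],[.c8]) ([.c11],[]) ([],[.c10]) ([.c8,.c12],[]) ([.c9,.c13],[]) ([.c10,.c14],[]) ([.c11,.c15],[]), ([],[.c0,.c2,.c8,.c10]))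
/-- One block. -/
noncomputable def t10_25 : Blk I16 J28 := (.c25, I16.fn ([.c1],[]) ([],[.c0]) ([.c3],[]) ([],[.c2]) ([.c0,.c4],[]) ([.c1,.c5],[]) ([.c2,.c6],[]) ([.c3,.c7],[]) ([.c9],[]) ([],[.c8]) ([.c11],[]) ([],[.c10]) ([.c8,.c12],[]) ([.c9,.c13],[]) ([.c10,.c14],[]) ([.c11,.c15],[]), ([],[.c1,.c2,.c3,.c9,.c10,.c11]))
/-- One block. -/
noncomputable def t10_26 : Blk I16 J28 := (.c26, I16.fn ([.c1],[]) ([],[.c0]) ([.c3],[]) ([],[.c2]) ([.c0,.c4],[]) ([.c1,.c5],[]) ([.c2,.c6],[]) ([.c3,.c7],[]) ([.c9],[]) ([],[.c8]) ([.c11],[]) ([],[.c10]) ([.c8,.c12],[]) ([.c9,.c13],[]) ([.c10,.c14],[]) ([.c11,.c15],[]), ([],[.c0,.c1,.c2,.c8,.c9,.c10]))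
/-- One block. -/
noncomputable def t10_27 : Blk I16 J28 := (.c23, I16.fn ([.c0],[]) ([.c1],[]) ([.c2],[]) ([.c3],[]) ([.c5],[.c0]) ([],[.c1,.c4]) ([.c7],[.c2]) ([],[.c3,.c6]) ([.c8],[]) ([.c9],[]) ([.c10],[]) ([.c11],[]) ([.c13],[.c8]) ([],[.c9,.c12]) ([.c15],[.c10]) ([],[.c11,.c14]), ([],[]))
/-- The blocks of a generator. -/
noncomputable def t10 : J28 → Blk I16 J28 := J28.fn t10_0 t10_1 t10_2 t10_3 t10_4 t10_5 t10_6 t10_7 t10_8 t10_9 t10_10 t10_11 t10_12 t10_13 t10_14 t10_15 t10_16 t10_17 t10_18 t10_19 t10_20 t10_21 t10_22 t10_23 t10_24 t10_25 t10_26 t10_27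
/-- One block. -/
noncomputable def t11_0 : Blk I16 J28 := (.c0, I16.fn ([.c0],[.c5,.c9,.c12,.c13]) ([.c1,.c4,.c8,.c12],[.c13]) ([.c2],[.c7,.c11,.c14,.c15]) ([.c3,.c6,.c10,.c14],[.c15]) ([.c5,.c13],[]) ([],[.c4,.c12]) ([.c7,.c15],[]) ([],[.c6,.c14]) ([.c9,.c13],[]) ([],[.c8,.c12]) ([.c11,.c15],[]) ([],[.c10,.c14]) ([.c12],[]) ([.c13],[]) ([.c14],[]) ([.c15],[]), ([],[]))
/-- One block. -/
noncomputable def t11_1 : Blk I16 J28 := (.c1, I16.fn ([.c0],[.c5,.c9,.c12,.c13]) ([.c1,.c4,.c8,.c12],[.c13]) ([.c2],[.c7,.c11,.c14,.c15]) ([.c3,.c6,.c10,.c14],[.c15]) ([.c5,.c13],[]) ([],[.c4,.c12]) ([.c7,.c15],[]) ([],[.c6,.c14]) ([.c9,.c13],[]) ([],[.c8,.c12]) ([.c11,.c15],[]) ([],[.c10,.c14]) ([.c12],[]) ([.c13],[]) ([.c14],[]) ([.c15],[]), ([],[]))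
/-- One block. -/
noncomputable def t11_2 : Blk I16 J28 := (.c2, I16.fn ([.c0],[.c5,.c9,.c12,.c13]) ([.c1,.c4,.c8,.c12],[.c13]) ([.c2],[.c7,.c11,.c14,.c15]) ([.c3,.c6,.c10,.c14],[.c15]) ([.c5,.c13],[]) ([],[.c4,.c12]) ([.c7,.c15],[]) ([],[.c6,.c14]) ([.c9,.c13],[]) ([],[.c8,.c12]) ([.c11,.c15],[]) ([],[.c10,.c14]) ([.c12],[]) ([.c13],[]) ([.c14],[]) ([.c15],[]), ([],[]))
/-- One block. -/
noncomputable def t11_3 : Blk I16 J28 := (.c3, I16.fn ([.c0],[.c5,.c9,.c12,.c13]) ([.c1,.c4,.c8,.c12],[.c13]) ([.c2],[.c7,.c11,.c14,.c15]) ([.c3,.c6,.c10,.c14],[.c15]) ([.c5,.c13],[]) ([],[.c4,.c12]) ([.c7,.c15],[]) ([],[.c6,.c14]) ([.c9,.c13],[]) ([],[.c8,.c12]) ([.c11,.c15],[]) ([],[.c10,.c14]) ([.c12],[]) ([.c13],[]) ([.c14],[]) ([.c15],[]), ([],[]))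
/-- One block. -/
noncomputable def t11_4 : Blk I16 J28 := (.c4, I16.fn ([.c0],[.c5,.c9,.c12,.c13]) ([.c1,.c4,.c8,.c12],[.c13]) ([.c2],[.c7,.c11,.c14,.c15]) ([.c3,.c6,.c10,.c14],[.c15]) ([.c5,.c13],[]) ([],[.c4,.c12]) ([.c7,.c15],[]) ([],[.c6,.c14]) ([.c9,.c13],[]) ([],[.c8,.c12]) ([.c11,.c15],[]) ([],[.c10,.c14]) ([.c12],[]) ([.c13],[]) ([.c14],[]) ([.c15],[]), ([],[]))
/-- One block. -/
noncomputable def t11_5 : Blk I16 J28 := (.c5, I16.fn ([.c0],[.c5,.c9,.c12,.c13]) ([.c1,.c4,.c8,.c12],[.c13]) ([.c2],[.c7,.c11,.c14,.c15]) ([.c3,.c6,.c10,.c14],[.c15]) ([.c5,.c13],[]) ([],[.c4,.c12]) ([.c7,.c15],[]) ([],[.c6,.c14]) ([.c9,.c13],[]) ([],[.c8,.c12]) ([.c11,.c15],[]) ([],[.c10,.c14]) ([.c12],[]) ([.c13],[]) ([.c14],[]) ([.c15],[]), ([],[]))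
/-- One block. -/
noncomputable def t11_6 : Blk I16 J28 := (.c12, I16.fn ([.c1,.c5,.c9,.c12,.c13],[]) ([.c13],[.c0,.c4,.c8,.c12]) ([.c3,.c7,.c11,.c14,.c15],[]) ([.c15],[.c2,.c6,.c10,.c14]) ([.c4],[.c13]) ([.c5,.c12],[]) ([.c6],[.c15]) ([.c7,.c14],[]) ([.c8],[.c13]) ([.c9,.c12],[]) ([.c10],[.c15]) ([.c11,.c14],[]) ([.c13],[]) ([],[.c12]) ([.c15],[]) ([],[.c14]), ([],[]))
/-- One block. -/
noncomputable def t11_7 : Blk I16 J28 := (.c13, I16.fn ([.c1,.c5,.c9,.c12,.c13],[]) ([.c13],[.c0,.c4,.c8,.c12]) ([.c3,.c7,.c11,.c14,.c15],[]) ([.c15],[.c2,.c6,.c10,.c14]) ([.c4],[.c13]) ([.c5,.c12],[]) ([.c6],[.c15]) ([.c7,.c14],[]) ([.c8],[.c13]) ([.c9,.c12],[]) ([.c10],[.c15]) ([.c11,.c14],[]) ([.c13],[]) ([],[.c12]) ([.c15],[]) ([],[.c14]), ([],[]))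
/-- One block. -/
noncomputable def t11_8 : Blk I16 J28 := (.c14, I16.fn ([.c1,.c5,.c9,.c12,.c13],[]) ([.c13],[.c0,.c4,.c8,.c12]) ([.c3,.c7,.c11,.c14,.c15],[]) ([.c15],[.c2,.c6,.c10,.c14]) ([.c4],[.c13]) ([.c5,.c12],[]) ([.c6],[.c15]) ([.c7,.c14],[]) ([.c8],[.c13]) ([.c9,.c12],[]) ([.c10],[.c15]) ([.c11,.c14],[]) ([.c13],[]) ([],[.c12]) ([.c15],[]) ([],[.c14]), ([],[]))
/-- One block. -/
noncomputable def t11_9 : Blk I16 J28 := (.c15, I16.fn ([.c1,.c5,.c9,.c12,.c13],[]) ([.c13],[.c0,.c4,.c8,.c12]) ([.c3,.c7,.c11,.c14,.c15],[]) ([.c15],[.c2,.c6,.c10,.c14]) ([.c4],[.c13]) ([.c5,.c12],[]) ([.c6],[.c15]) ([.c7,.c14],[]) ([.c8],[.c13]) ([.c9,.c12],[]) ([.c10],[.c15]) ([.c11,.c14],[]) ([.c13],[]) ([],[.c12]) ([.c15],[]) ([],[.c14]), ([],[]))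
/-- One block. -/
noncomputable def t11_10 : Blk I16 J28 := (.c10, I16.fn ([.c1,.c5,.c9,.c12,.c13],[]) ([.c13],[.c0,.c4,.c8,.c12]) ([.c3,.c7,.c11,.c14,.c15],[]) ([.c15],[.c2,.c6,.c10,.c14]) ([.c4],[.c13]) ([.c5,.c12],[]) ([.c6],[.c15]) ([.c7,.c14],[]) ([.c8],[.c13]) ([.c9,.c12],[]) ([.c10],[.c15]) ([.c11,.c14],[]) ([.c13],[]) ([],[.c12]) ([.c15],[]) ([],[.c14]), ([],[]))
/-- One block. -/
noncomputable def t11_11 : Blk I16 J28 := (.c11, I16.fn ([.c1,.c5,.c9,.c12,.c13],[]) ([.c13],[.c0,.c4,.c8,.c12]) ([.c3,.c7,.c11,.c14,.c15],[]) ([.c15],[.c2,.c6,.c10,.c14]) ([.c4],[.c13]) ([.c5,.c12],[]) ([.c6],[.c15]) ([.c7,.c14],[]) ([.c8],[.c13]) ([.c9,.c12],[]) ([.c10],[.c15]) ([.c11,.c14],[]) ([.c13],[]) ([],[.c12]) ([.c15],[]) ([],[.c14]), ([],[]))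
/-- One block. -/
noncomputable def t11_12 : Blk I16 J28 := (.c6, I16.fn ([.c13],[.c1,.c4,.c8,.c12]) ([.c0],[.c5,.c9,.c12,.c13]) ([.c15],[.c3,.c6,.c10,.c14]) ([.c2],[.c7,.c11,.c14,.c15]) ([.c4,.c12],[]) ([.c5,.c13],[]) ([.c6,.c14],[]) ([.c7,.c15],[]) ([.c8,.c12],[]) ([.c9,.c13],[]) ([.c10,.c14],[]) ([.c11,.c15],[]) ([],[.c13]) ([.c12],[]) ([],[.c15]) ([.c14],[]), ([],[]))
/-- One block. -/
noncomputable def t11_13 : Blk I16 J28 := (.c7, I16.fn ([.c13],[.c1,.c4,.c8,.c12]) ([.c0],[.c5,.c9,.c12,.c13]) ([.c15],[.c3,.c6,.c10,.c14]) ([.c2],[.c7,.c11,.c14,.c15]) ([.c4,.c12],[]) ([.c5,.c13],[]) ([.c6,.c14],[]) ([.c7,.c15],[]) ([.c8,.c12],[]) ([.c9,.c13],[]) ([.c10,.c14],[]) ([.c11,.c15],[]) ([],[.c13]) ([.c12],[]) ([],[.c15]) ([.c14],[]), ([],[]))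
/-- One block. -/
noncomputable def t11_14 : Blk I16 J28 := (.c8, I16.fn ([.c13],[.c1,.c4,.c8,.c12]) ([.c0],[.c5,.c9,.c12,.c13]) ([.c15],[.c3,.c6,.c10,.c14]) ([.c2],[.c7,.c11,.c14,.c15]) ([.c4,.c12],[]) ([.c5,.c13],[]) ([.c6,.c14],[]) ([.c7,.c15],[]) ([.c8,.c12],[]) ([.c9,.c13],[]) ([.c10,.c14],[]) ([.c11,.c15],[]) ([],[.c13]) ([.c12],[]) ([],[.c15]) ([.c14],[]), ([],[]))
/-- One block. -/
noncomputable def t11_15 : Blk I16 J28 := (.c9, I16.fn ([.c13],[.c1,.c4,.c8,.c12]) ([.c0],[.c5,.c9,.c12,.c13]) ([.c15],[.c3,.c6,.c10,.c14]) ([.c2],[.c7,.c11,.c14,.c15]) ([.c4,.c12],[]) ([.c5,.c13],[]) ([.c6,.c14],[]) ([.c7,.c15],[]) ([.c8,.c12],[]) ([.c9,.c13],[]) ([.c10,.c14],[]) ([.c11,.c15],[]) ([],[.c13]) ([.c12],[]) ([],[.c15]) ([.c14],[]), ([],[]))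
/-- One block. -/
noncomputable def t11_16 : Blk I16 J28 := (.c22, I16.fn ([.c13],[.c1,.c4,.c8,.c12]) ([.c0],[.c5,.c9,.c12,.c13]) ([.c15],[.c3,.c6,.c10,.c14]) ([.c2],[.c7,.c11,.c14,.c15]) ([.c4,.c12],[]) ([.c5,.c13],[]) ([.c6,.c14],[]) ([.c7,.c15],[]) ([.c8,.c12],[]) ([.c9,.c13],[]) ([.c10,.c14],[]) ([.c11,.c15],[]) ([],[.c13]) ([.c12],[]) ([],[.c15]) ([.c14],[]), ([],[]))
/-- One block. -/
noncomputable def t11_17 : Blk I16 J28 := (.c23, I16.fn ([.c13],[.c1,.c4,.c8,.c12]) ([.c0],[.c5,.c9,.c12,.c13]) ([.c15],[.c3,.c6,.c10,.c14]) ([.c2],[.c7,.c11,.c14,.c15]) ([.c4,.c12],[]) ([.c5,.c13],[]) ([.c6,.c14],[]) ([.c7,.c15],[]) ([.c8,.c12],[]) ([.c9,.c13],[]) ([.c10,.c14],[]) ([.c11,.c15],[]) ([],[.c13]) ([.c12],[]) ([],[.c15]) ([.c14],[]), ([],[]))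
/-- One block. -/
noncomputable def t11_18 : Blk I16 J28 := (.c18, I16.fn ([.c1,.c5,.c9,.c12,.c13],[]) ([.c13],[.c0,.c4,.c8,.c12]) ([.c3,.c7,.c11,.c14,.c15],[]) ([.c15],[.c2,.c6,.c10,.c14]) ([.c4],[.c13]) ([.c5,.c12],[]) ([.c6],[.c15]) ([.c7,.c14],[]) ([.c8],[.c13]) ([.c9,.c12],[]) ([.c10],[.c15]) ([.c11,.c14],[]) ([.c13],[]) ([],[.c12]) ([.c15],[]) ([],[.c14]), ([],[]))
/-- One block. -/
noncomputable def t11_19 : Blk I16 J28 := (.c19, I16.fn ([.c1,.c5,.c9,.c12,.c13],[]) ([.c13],[.c0,.c4,.c8,.c12]) ([.c3,.c7,.c11,.c14,.c15],[]) ([.c15],[.c2,.c6,.c10,.c14]) ([.c4],[.c13]) ([.c5,.c12],[]) ([.c6],[.c15]) ([.c7,.c14],[]) ([.c8],[.c13]) ([.c9,.c12],[]) ([.c10],[.c15]) ([.c11,.c14],[]) ([.c13],[]) ([],[.c12]) ([.c15],[]) ([],[.c14]), ([],[]))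
/-- One block. -/
noncomputable def t11_20 : Blk I16 J28 := (.c20, I16.fn ([.c1,.c5,.c9,.c12,.c13],[]) ([.c13],[.c0,.c4,.c8,.c12]) ([.c3,.c7,.c11,.c14,.c15],[]) ([.c15],[.c2,.c6,.c10,.c14]) ([.c4],[.c13]) ([.c5,.c12],[]) ([.c6],[.c15]) ([.c7,.c14],[]) ([.c8],[.c13]) ([.c9,.c12],[]) ([.c10],[.c15]) ([.c11,.c14],[]) ([.c13],[]) ([],[.c12]) ([.c15],[]) ([],[.c14]), ([],[]))
/-- One block. -/
noncomputable def t11_21 : Blk I16 J28 := (.c21, I16.fn ([.c1,.c5,.c9,.c12,.c13],[]) ([.c13],[.c0,.c4,.c8,.c12]) ([.c3,.c7,.c11,.c14,.c15],[]) ([.c15],[.c2,.c6,.c10,.c14]) ([.c4],[.c13]) ([.c5,.c12],[]) ([.c6],[.c15]) ([.c7,.c14],[]) ([.c8],[.c13]) ([.c9,.c12],[]) ([.c10],[.c15]) ([.c11,.c14],[]) ([.c13],[]) ([],[.c12]) ([.c15],[]) ([],[.c14]), ([],[]))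
/-- One block. -/
noncomputable def t11_22 : Blk I16 J28 := (.c16, I16.fn ([.c1,.c5,.c9,.c12,.c13],[]) ([.c13],[.c0,.c4,.c8,.c12]) ([.c3,.c7,.c11,.c14,.c15],[]) ([.c15],[.c2,.c6,.c10,.c14]) ([.c4],[.c13]) ([.c5,.c12],[]) ([.c6],[.c15]) ([.c7,.c14],[]) ([.c8],[.c13]) ([.c9,.c12],[]) ([.c10],[.c15]) ([.c11,.c14],[]) ([.c13],[]) ([],[.c12]) ([.c15],[]) ([],[.c14]), ([],[]))
/-- One block. -/
noncomputable def t11_23 : Blk I16 J28 := (.c17, I16.fn ([.c1,.c5,.c9,.c12,.c13],[]) ([.c13],[.c0,.c4,.c8,.c12]) ([.c3,.c7,.c11,.c14,.c15],[]) ([.c15],[.c2,.c6,.c10,.c14]) ([.c4],[.c13]) ([.c5,.c12],[]) ([.c6],[.c15]) ([.c7,.c14],[]) ([.c8],[.c13]) ([.c9,.c12],[]) ([.c10],[.c15]) ([.c11,.c14],[]) ([.c13],[]) ([],[.c12]) ([.c15],[]) ([],[.c14]), ([],[]))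
/-- One block. -/
noncomputable def t11_24 : Blk I16 J28 := (.c24, I16.fn ([.c0],[.c5,.c9,.c12,.c13]) ([.c1,.c4,.c8,.c12],[.c13]) ([.c2],[.c7,.c11,.c14,.c15]) ([.c3,.c6,.c10,.c14],[.c15]) ([.c5,.c13],[]) ([],[.c4,.c12]) ([.c7,.c15],[]) ([],[.c6,.c14]) ([.c9,.c13],[]) ([],[.c8,.c12]) ([.c11,.c15],[]) ([],[.c10,.c14]) ([.c12],[]) ([.c13],[]) ([.c14],[]) ([.c15],[]), ([],[]))
/-- One block. -/
noncomputable def t11_25 : Blk I16 J28 := (.c25, I16.fn ([.c0],[.c5,.c9,.c12,.c13]) ([.c1,.c4,.c8,.c12],[.c13]) ([.c2],[.c7,.c11,.c14,.c15]) ([.c3,.c6,.c10,.c14],[.c15]) ([.c5,.c13],[]) ([],[.c4,.c12]) ([.c7,.c15],[]) ([],[.c6,.c14]) ([.c9,.c13],[]) ([],[.c8,.c12]) ([.c11,.c15],[]) ([],[.c10,.c14]) ([.c12],[]) ([.c13],[]) ([.c14],[]) ([.c15],[]), ([],[]))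
/-- One block. -/
noncomputable def t11_26 : Blk I16 J28 := (.c26, I16.fn ([.c0],[.c5,.c9,.c12,.c13]) ([.c1,.c4,.c8,.c12],[.c13]) ([.c2],[.c7,.c11,.c14,.c15]) ([.c3,.c6,.c10,.c14],[.c15]) ([.c5,.c13],[]) ([],[.c4,.c12]) ([.c7,.c15],[]) ([],[.c6,.c14]) ([.c9,.c13],[]) ([],[.c8,.c12]) ([.c11,.c15],[]) ([],[.c10,.c14]) ([.c12],[]) ([.c13],[]) ([.c14],[]) ([.c15],[]), ([],[]))
/-- One block. -/
noncomputable def t11_27 : Blk I16 J28 := (.c27, I16.fn ([.c0],[.c5,.c9,.c12,.c13]) ([.c1,.c4,.c8,.c12],[.c13]) ([.c2],[.c7,.c11,.c14,.c15]) ([.c3,.c6,.c10,.c14],[.c15]) ([.c5,.c13],[]) ([],[.c4,.c12]) ([.c7,.c15],[]) ([],[.c6,.c14]) ([.c9,.c13],[]) ([],[.c8,.c12]) ([.c11,.c15],[]) ([],[.c10,.c14]) ([.c12],[]) ([.c13],[]) ([.c14],[]) ([.c15],[]), ([],[]))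
/-- The blocks of a generator. -/
noncomputable def t11 : J28 → Blk I16 J28 := J28.fn t11_0 t11_1 t11_2 t11_3 t11_4 t11_5 t11_6 t11_7 t11_8 t11_9 t11_10 t11_11 t11_12 t11_13 t11_14 t11_15 t11_16 t11_17 t11_18 t11_19 t11_20 t11_21 t11_22 t11_23 t11_24 t11_25 t11_26 t11_27
/-- One block. -/
noncomputable def t12_0 : Blk I16 J28 := (.c0, I16.fn ([.c0],[]) ([.c1],[]) ([.c2],[]) ([.c3],[]) ([.c4],[]) ([.c5],[]) ([.c6],[]) ([.c7],[]) ([.c9],[.c0]) ([],[.c1,.c8]) ([.c11],[.c2]) ([],[.c3,.c10]) ([.c13],[.c4]) ([],[.c5,.c12]) ([.c15],[.c6]) ([],[.c7,.c14]), ([],[]))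
/-- One block. -/
noncomputable def t12_1 : Blk I16 J28 := (.c1, I16.fn ([.c0],[]) ([.c1],[]) ([.c2],[]) ([.c3],[]) ([.c4],[]) ([.c5],[]) ([.c6],[]) ([.c7],[]) ([.c9],[.c0]) ([],[.c1,.c8]) ([.c11],[.c2]) ([],[.c3,.c10]) ([.c13],[.c4]) ([],[.c5,.c12]) ([.c15],[.c6]) ([],[.c7,.c14]), ([],[]))
/-- One block. -/
noncomputable def t12_2 : Blk I16 J28 := (.c2, I16.fn ([.c0],[]) ([.c1],[]) ([.c2],[]) ([.c3],[]) ([.c4],[]) ([.c5],[]) ([.c6],[]) ([.c7],[]) ([.c9],[.c0]) ([],[.c1,.c8]) ([.c11],[.c2]) ([],[.c3,.c10]) ([.c13],[.c4]) ([],[.c5,.c12]) ([.c15],[.c6]) ([],[.c7,.c14]), ([],[]))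
/-- One block. -/
noncomputable def t12_3 : Blk I16 J28 := (.c3, I16.fn ([.c0],[]) ([.c1],[]) ([.c2],[]) ([.c3],[]) ([.c4],[]) ([.c5],[]) ([.c6],[]) ([.c7],[]) ([.c9],[.c0]) ([],[.c1,.c8]) ([.c11],[.c2]) ([],[.c3,.c10]) ([.c13],[.c4]) ([],[.c5,.c12]) ([.c15],[.c6]) ([],[.c7,.c14]), ([],[]))
/-- One block. -/
noncomputable def t12_4 : Blk I16 J28 := (.c4, I16.fn ([.c0],[]) ([.c1],[]) ([.c2],[]) ([.c3],[]) ([.c4],[]) ([.c5],[]) ([.c6],[]) ([.c7],[]) ([.c9],[.c0]) ([],[.c1,.c8]) ([.c11],[.c2]) ([],[.c3,.c10]) ([.c13],[.c4]) ([],[.c5,.c12]) ([.c15],[.c6]) ([],[.c7,.c14]), ([],[]))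
/-- One block. -/
noncomputable def t12_5 : Blk I16 J28 := (.c5, I16.fn ([.c0],[]) ([.c1],[]) ([.c2],[]) ([.c3],[]) ([.c4],[]) ([.c5],[]) ([.c6],[]) ([.c7],[]) ([.c9],[.c0]) ([],[.c1,.c8]) ([.c11],[.c2]) ([],[.c3,.c10]) ([.c13],[.c4]) ([],[.c5,.c12]) ([.c15],[.c6]) ([],[.c7,.c14]), ([],[]))
/-- One block. -/
noncomputable def t12_6 : Blk I16 J28 := (.c6, I16.fn ([.c0],[]) ([.c1],[]) ([.c2],[]) ([.c3],[]) ([.c4],[]) ([.c5],[]) ([.c6],[]) ([.c7],[]) ([.c9],[.c0]) ([],[.c1,.c8]) ([.c11],[.c2]) ([],[.c3,.c10]) ([.c13],[.c4]) ([],[.c5,.c12]) ([.c15],[.c6]) ([],[.c7,.c14]), ([],[]))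
/-- One block. -/
noncomputable def t12_7 : Blk I16 J28 := (.c7, I16.fn ([.c0],[]) ([.c1],[]) ([.c2],[]) ([.c3],[]) ([.c4],[]) ([.c5],[]) ([.c6],[]) ([.c7],[]) ([.c9],[.c0]) ([],[.c1,.c8]) ([.c11],[.c2]) ([],[.c3,.c10]) ([.c13],[.c4]) ([],[.c5,.c12]) ([.c15],[.c6]) ([],[.c7,.c14]), ([],[]))
/-- One block. -/
noncomputable def t12_8 : Blk I16 J28 := (.c8, I16.fn ([.c0],[]) ([.c1],[]) ([.c2],[]) ([.c3],[]) ([.c4],[]) ([.c5],[]) ([.c6],[]) ([.c7],[]) ([.c9],[.c0]) ([],[.c1,.c8]) ([.c11],[.c2]) ([],[.c3,.c10]) ([.c13],[.c4]) ([],[.c5,.c12]) ([.c15],[.c6]) ([],[.c7,.c14]), ([],[]))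
/-- One block. -/
noncomputable def t12_9 : Blk I16 J28 := (.c9, I16.fn ([.c0],[]) ([.c1],[]) ([.c2],[]) ([.c3],[]) ([.c4],[]) ([.c5],[]) ([.c6],[]) ([.c7],[]) ([.c9],[.c0]) ([],[.c1,.c8]) ([.c11],[.c2]) ([],[.c3,.c10]) ([.c13],[.c4]) ([],[.c5,.c12]) ([.c15],[.c6]) ([],[.c7,.c14]), ([],[]))
/-- One block. -/
noncomputable def t12_10 : Blk I16 J28 := (.c22, I16.fn ([.c1],[]) ([],[.c0]) ([.c3],[]) ([],[.c2]) ([.c5],[]) ([],[.c4]) ([.c7],[]) ([],[.c6]) ([.c0,.c8],[]) ([.c1,.c9],[]) ([.c2,.c10],[]) ([.c3,.c11],[]) ([.c4,.c12],[]) ([.c5,.c13],[]) ([.c6,.c14],[]) ([.c7,.c15],[]), ([],[]))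
/-- One block. -/
noncomputable def t12_11 : Blk I16 J28 := (.c23, I16.fn ([.c1],[]) ([],[.c0]) ([.c3],[]) ([],[.c2]) ([.c5],[]) ([],[.c4]) ([.c7],[]) ([],[.c6]) ([.c0,.c8],[]) ([.c1,.c9],[]) ([.c2,.c10],[]) ([.c3,.c11],[]) ([.c4,.c12],[]) ([.c5,.c13],[]) ([.c6,.c14],[]) ([.c7,.c15],[]), ([],[]))
/-- One block. -/
noncomputable def t12_12 : Blk I16 J28 := (.c24, I16.fn ([.c1],[]) ([],[.c0]) ([.c3],[]) ([],[.c2]) ([.c5],[]) ([],[.c4]) ([.c7],[]) ([],[.c6]) ([.c0,.c8],[]) ([.c1,.c9],[]) ([.c2,.c10],[]) ([.c3,.c11],[]) ([.c4,.c12],[]) ([.c5,.c13],[]) ([.c6,.c14],[]) ([.c7,.c15],[]), ([],[]))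
/-- One block. -/
noncomputable def t12_13 : Blk I16 J28 := (.c25, I16.fn ([.c1],[]) ([],[.c0]) ([.c3],[]) ([],[.c2]) ([.c5],[]) ([],[.c4]) ([.c7],[]) ([],[.c6]) ([.c0,.c8],[]) ([.c1,.c9],[]) ([.c2,.c10],[]) ([.c3,.c11],[]) ([.c4,.c12],[]) ([.c5,.c13],[]) ([.c6,.c14],[]) ([.c7,.c15],[]), ([],[]))
/-- One block. -/
noncomputable def t12_14 : Blk I16 J28 := (.c26, I16.fn ([.c1],[]) ([],[.c0]) ([.c3],[]) ([],[.c2]) ([.c5],[]) ([],[.c4]) ([.c7],[]) ([],[.c6]) ([.c0,.c8],[]) ([.c1,.c9],[]) ([.c2,.c10],[]) ([.c3,.c11],[]) ([.c4,.c12],[]) ([.c5,.c13],[]) ([.c6,.c14],[]) ([.c7,.c15],[]), ([],[]))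
/-- One block. -/
noncomputable def t12_15 : Blk I16 J28 := (.c27, I16.fn ([.c1],[]) ([],[.c0]) ([.c3],[]) ([],[.c2]) ([.c5],[]) ([],[.c4]) ([.c7],[]) ([],[.c6]) ([.c0,.c8],[]) ([.c1,.c9],[]) ([.c2,.c10],[]) ([.c3,.c11],[]) ([.c4,.c12],[]) ([.c5,.c13],[]) ([.c6,.c14],[]) ([.c7,.c15],[]), ([],[]))
/-- One block. -/
noncomputable def t12_16 : Blk I16 J28 := (.c16, I16.fn ([.c1],[]) ([],[.c0]) ([.c3],[]) ([],[.c2]) ([.c5],[]) ([],[.c4]) ([.c7],[]) ([],[.c6]) ([.c0,.c8],[]) ([.c1,.c9],[]) ([.c2,.c10],[]) ([.c3,.c11],[]) ([.c4,.c12],[]) ([.c5,.c13],[]) ([.c6,.c14],[]) ([.c7,.c15],[]), ([],[]))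
/-- One block. -/
noncomputable def t12_17 : Blk I16 J28 := (.c17, I16.fn ([.c1],[]) ([],[.c0]) ([.c3],[]) ([],[.c2]) ([.c5],[]) ([],[.c4]) ([.c7],[]) ([],[.c6]) ([.c0,.c8],[]) ([.c1,.c9],[]) ([.c2,.c10],[]) ([.c3,.c11],[]) ([.c4,.c12],[]) ([.c5,.c13],[]) ([.c6,.c14],[]) ([.c7,.c15],[]), ([],[]))
/-- One block. -/
noncomputable def t12_18 : Blk I16 J28 := (.c18, I16.fn ([.c1],[]) ([],[.c0]) ([.c3],[]) ([],[.c2]) ([.c5],[]) ([],[.c4]) ([.c7],[]) ([],[.c6]) ([.c0,.c8],[]) ([.c1,.c9],[]) ([.c2,.c10],[]) ([.c3,.c11],[]) ([.c4,.c12],[]) ([.c5,.c13],[]) ([.c6,.c14],[]) ([.c7,.c15],[]), ([],[]))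
/-- One block. -/
noncomputable def t12_19 : Blk I16 J28 := (.c19, I16.fn ([.c1],[]) ([],[.c0]) ([.c3],[]) ([],[.c2]) ([.c5],[]) ([],[.c4]) ([.c7],[]) ([],[.c6]) ([.c0,.c8],[]) ([.c1,.c9],[]) ([.c2,.c10],[]) ([.c3,.c11],[]) ([.c4,.c12],[]) ([.c5,.c13],[]) ([.c6,.c14],[]) ([.c7,.c15],[]), ([],[]))
/-- One block. -/
noncomputable def t12_20 : Blk I16 J28 := (.c20, I16.fn ([.c1],[]) ([],[.c0]) ([.c3],[]) ([],[.c2]) ([.c5],[]) ([],[.c4]) ([.c7],[]) ([],[.c6]) ([.c0,.c8],[]) ([.c1,.c9],[]) ([.c2,.c10],[]) ([.c3,.c11],[]) ([.c4,.c12],[]) ([.c5,.c13],[]) ([.c6,.c14],[]) ([.c7,.c15],[]), ([],[]))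
/-- One block. -/
noncomputable def t12_21 : Blk I16 J28 := (.c21, I16.fn ([.c1],[]) ([],[.c0]) ([.c3],[]) ([],[.c2]) ([.c5],[]) ([],[.c4]) ([.c7],[]) ([],[.c6]) ([.c0,.c8],[]) ([.c1,.c9],[]) ([.c2,.c10],[]) ([.c3,.c11],[]) ([.c4,.c12],[]) ([.c5,.c13],[]) ([.c6,.c14],[]) ([.c7,.c15],[]), ([],[]))
/-- One block. -/
noncomputable def t12_22 : Blk I16 J28 := (.c10, I16.fn ([],[.c1]) ([.c0],[]) ([],[.c3]) ([.c2],[]) ([],[.c5]) ([.c4],[]) ([],[.c7]) ([.c6],[]) ([.c1,.c8],[]) ([.c9],[.c0]) ([.c3,.c10],[]) ([.c11],[.c2]) ([.c5,.c12],[]) ([.c13],[.c4]) ([.c7,.c14],[]) ([.c15],[.c6]), ([],[]))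
/-- One block. -/
noncomputable def t12_23 : Blk I16 J28 := (.c11, I16.fn ([],[.c1]) ([.c0],[]) ([],[.c3]) ([.c2],[]) ([],[.c5]) ([.c4],[]) ([],[.c7]) ([.c6],[]) ([.c1,.c8],[]) ([.c9],[.c0]) ([.c3,.c10],[]) ([.c11],[.c2]) ([.c5,.c12],[]) ([.c13],[.c4]) ([.c7,.c14],[]) ([.c15],[.c6]), ([],[]))
/-- One block. -/
noncomputable def t12_24 : Blk I16 J28 := (.c12, I16.fn ([],[.c1]) ([.c0],[]) ([],[.c3]) ([.c2],[]) ([],[.c5]) ([.c4],[]) ([],[.c7]) ([.c6],[]) ([.c1,.c8],[]) ([.c9],[.c0]) ([.c3,.c10],[]) ([.c11],[.c2]) ([.c5,.c12],[]) ([.c13],[.c4]) ([.c7,.c14],[]) ([.c15],[.c6]), ([],[]))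
/-- One block. -/
noncomputable def t12_25 : Blk I16 J28 := (.c13, I16.fn ([],[.c1]) ([.c0],[]) ([],[.c3]) ([.c2],[]) ([],[.c5]) ([.c4],[]) ([],[.c7]) ([.c6],[]) ([.c1,.c8],[]) ([.c9],[.c0]) ([.c3,.c10],[]) ([.c11],[.c2]) ([.c5,.c12],[]) ([.c13],[.c4]) ([.c7,.c14],[]) ([.c15],[.c6]), ([],[]))
/-- One block. -/
noncomputable def t12_26 : Blk I16 J28 := (.c14, I16.fn ([],[.c1]) ([.c0],[]) ([],[.c3]) ([.c2],[]) ([],[.c5]) ([.c4],[]) ([],[.c7]) ([.c6],[]) ([.c1,.c8],[]) ([.c9],[.c0]) ([.c3,.c10],[]) ([.c11],[.c2]) ([.c5,.c12],[]) ([.c13],[.c4]) ([.c7,.c14],[]) ([.c15],[.c6]), ([],[]))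
/-- One block. -/
noncomputable def t12_27 : Blk I16 J28 := (.c15, I16.fn ([],[.c1]) ([.c0],[]) ([],[.c3]) ([.c2],[]) ([],[.c5]) ([.c4],[]) ([],[.c7]) ([.c6],[]) ([.c1,.c8],[]) ([.c9],[.c0]) ([.c3,.c10],[]) ([.c11],[.c2]) ([.c5,.c12],[]) ([.c13],[.c4]) ([.c7,.c14],[]) ([.c15],[.c6]), ([],[]))
/-- The blocks of a generator. -/
noncomputable def t12 : J28 → Blk I16 J28 := J28.fn t12_0 t12_1 t12_2 t12_3 t12_4 t12_5 t12_6 t12_7 t12_8 t12_9 t12_10 t12_11 t12_12 t12_13 t12_14 t12_15 t12_16 t12_17 t12_18 t12_19 t12_20 t12_21 t12_22 t12_23 t12_24 t12_25 t12_26 t12_27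
/-- One block. -/
noncomputable def t13_0 : Blk I16 J28 := (.c4, I16.fn ([.c5],[.c0]) ([],[.c1,.c4]) ([.c7],[.c2]) ([],[.c3,.c6]) ([],[.c5]) ([.c4],[]) ([],[.c7]) ([.c6],[]) ([.c13],[.c8]) ([],[.c9,.c12]) ([.c15],[.c10]) ([],[.c11,.c14]) ([],[.c13]) ([.c12],[]) ([],[.c15]) ([.c14],[]), ([],[]))
/-- One block. -/
noncomputable def t13_1 : Blk I16 J28 := (.c3, I16.fn ([.c0,.c2],[.c3,.c5,.c6,.c7]) ([.c1,.c2,.c3,.c4,.c6],[.c7]) ([.c7],[.c2]) ([],[.c3,.c6]) ([.c5,.c6,.c7],[]) ([.c7],[.c4,.c6]) ([],[.c7]) ([.c6],[]) ([.c8,.c10],[.c11,.c13,.c14,.c15]) ([.c9,.c10,.c11,.c12,.c14],[.c15]) ([.c15],[.c10]) ([],[.c11,.c14]) ([.c13,.c14,.c15],[]) ([.c15],[.c12,.c14]) ([],[.c15]) ([.c14],[]), ([],[]))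
/-- One block. -/
noncomputable def t13_2 : Blk I16 J28 := (.c5, I16.fn ([],[.c1,.c4]) ([.c0],[.c5]) ([.c1,.c3,.c4,.c5,.c6],[.c0]) ([.c5,.c7],[.c0,.c1,.c2,.c4]) ([.c4],[]) ([.c5],[]) ([],[.c4,.c5,.c6]) ([.c4],[.c5,.c7]) ([],[.c9,.c12]) ([.c8],[.c13]) ([.c9,.c11,.c12,.c13,.c14],[.c8]) ([.c13,.c15],[.c8,.c9,.c10,.c12]) ([.c12],[]) ([.c13],[]) ([],[.c12,.c13,.c14]) ([.c12],[.c13,.c15]), ([],[]))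
/-- One block. -/
noncomputable def t13_3 : Blk I16 J28 := (.c1, I16.fn ([.c0,.c2,.c4,.c6],[.c3,.c7]) ([.c1,.c2,.c3,.c5,.c6,.c7],[]) ([],[.c2,.c6]) ([],[.c3,.c7]) ([],[.c5,.c6,.c7]) ([.c4,.c6],[.c7]) ([.c7],[]) ([],[.c6]) ([.c8,.c10,.c12,.c14],[.c11,.c15]) ([.c9,.c10,.c11,.c13,.c14,.c15],[]) ([],[.c10,.c14]) ([],[.c11,.c15]) ([],[.c13,.c14,.c15]) ([.c12,.c14],[.c15]) ([.c15],[]) ([],[.c14]), ([],[]))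
/-- One block. -/
noncomputable def t13_4 : Blk I16 J28 := (.c0, I16.fn ([],[.c0,.c4]) ([],[.c1,.c5]) ([],[.c2,.c6]) ([],[.c3,.c7]) ([.c5],[]) ([],[.c4]) ([.c7],[]) ([],[.c6]) ([],[.c8,.c12]) ([],[.c9,.c13]) ([],[.c10,.c14]) ([],[.c11,.c15]) ([.c13],[]) ([],[.c12]) ([.c15],[]) ([],[.c14]), ([],[]))
/-- One block. -/
noncomputable def t13_5 : Blk I16 J28 := (.c2, I16.fn ([.c1,.c5],[]) ([],[.c0,.c4]) ([.c0,.c4],[.c1,.c3,.c5,.c7]) ([.c0,.c1,.c2,.c4,.c5,.c6],[]) ([.c4],[]) ([.c5],[]) ([],[.c4,.c5,.c6]) ([.c4],[.c5,.c7]) ([.c9,.c13],[]) ([],[.c8,.c12]) ([.c8,.c12],[.c9,.c11,.c13,.c15]) ([.c8,.c9,.c10,.c12,.c13,.c14],[]) ([.c12],[]) ([.c13],[]) ([],[.c12,.c13,.c14]) ([.c12],[.c13,.c15]), ([],[]))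
/-- One block. -/
noncomputable def t13_6 : Blk I16 J28 := (.c6, I16.fn ([.c0],[.c5]) ([.c1,.c4],[]) ([.c2],[.c7]) ([.c3,.c6],[]) ([.c5],[]) ([],[.c4]) ([.c7],[]) ([],[.c6]) ([.c8],[.c13]) ([.c9,.c12],[]) ([.c10],[.c15]) ([.c11,.c14],[]) ([.c13],[]) ([],[.c12]) ([.c15],[]) ([],[.c14]), ([],[]))
/-- One block. -/
noncomputable def t13_7 : Blk I16 J28 := (.c7, I16.fn ([.c0],[.c5]) ([.c1,.c4],[]) ([.c2],[.c7]) ([.c3,.c6],[]) ([.c5],[]) ([],[.c4]) ([.c7],[]) ([],[.c6]) ([.c8],[.c13]) ([.c9,.c12],[]) ([.c10],[.c15]) ([.c11,.c14],[]) ([.c13],[]) ([],[.c12]) ([.c15],[]) ([],[.c14]), ([],[]))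
/-- One block. -/
noncomputable def t13_8 : Blk I16 J28 := (.c8, I16.fn ([.c0],[.c5]) ([.c1,.c4],[]) ([.c2],[.c7]) ([.c3,.c6],[]) ([.c5],[]) ([],[.c4]) ([.c7],[]) ([],[.c6]) ([.c8],[.c13]) ([.c9,.c12],[]) ([.c10],[.c15]) ([.c11,.c14],[]) ([.c13],[]) ([],[.c12]) ([.c15],[]) ([],[.c14]), ([],[]))
/-- One block. -/
noncomputable def t13_9 : Blk I16 J28 := (.c9, I16.fn ([.c0],[.c5]) ([.c1,.c4],[]) ([.c2],[.c7]) ([.c3,.c6],[]) ([.c5],[]) ([],[.c4]) ([.c7],[]) ([],[.c6]) ([.c8],[.c13]) ([.c9,.c12],[]) ([.c10],[.c15]) ([.c11,.c14],[]) ([.c13],[]) ([],[.c12]) ([.c15],[]) ([],[.c14]), ([],[]))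
/-- One block. -/
noncomputable def t13_10 : Blk I16 J28 := (.c11, I16.fn ([.c1,.c2,.c3,.c5,.c6,.c7,.c8,.c9,.c10,.c10,.c12,.c13,.c14,.c14],[]) ([.c3,.c7,.c9,.c11,.c11,.c13,.c15,.c15],[.c0,.c2,.c4,.c6,.c8,.c12]) ([.c0,.c4],[.c1,.c3,.c5,.c7,.c9,.c9,.c10,.c11,.c13,.c13,.c14,.c15]) ([.c0,.c1,.c2,.c4,.c5,.c6,.c8,.c8,.c10,.c12,.c12,.c14],[.c11,.c15]) ([.c4,.c6,.c12],[.c7,.c13,.c15,.c15]) ([.c5,.c6,.c7,.c12,.c13,.c14,.c14],[]) ([.c15],[.c4,.c5,.c6,.c12,.c12,.c14]) ([.c4],[.c5,.c7,.c13,.c13,.c14,.c15]) ([],[.c9,.c10,.c11,.c13,.c14,.c15]) ([.c8,.c10,.c12,.c14],[.c11,.c15]) ([.c9,.c11,.c13,.c15],[.c8,.c12]) ([],[.c8,.c9,.c10,.c12,.c13,.c14]) ([.c15],[.c12,.c14]) ([],[.c13,.c14,.c15]) ([.c12,.c13,.c14],[]) ([.c13,.c15],[.c12]), ([],[]))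
/-- One block. -/
noncomputable def t13_11 : Blk I16 J28 := (.c10, I16.fn ([.c1,.c2,.c3,.c4,.c6,.c8,.c9,.c10,.c10,.c12],[.c7,.c13,.c15,.c15]) ([.c3,.c5,.c6,.c7,.c9,.c11,.c11,.c12,.c13,.c14,.c14],[.c0,.c2,.c8]) ([.c0,.c15],[.c1,.c3,.c4,.c5,.c6,.c9,.c9,.c10,.c11,.c12,.c12,.c14]) ([.c0,.c1,.c2,.c4,.c8,.c8,.c10],[.c5,.c7,.c11,.c13,.c13,.c14,.c15]) ([.c7,.c13,.c15,.c15],[.c4,.c6,.c12]) ([],[.c5,.c6,.c7,.c12,.c13,.c14,.c14]) ([.c4,.c5,.c6,.c12,.c12,.c14],[.c15]) ([.c5,.c7,.c13,.c13,.c14,.c15],[.c4]) ([.c15],[.c9,.c10,.c11,.c12,.c14]) ([.c8,.c10],[.c11,.c13,.c14,.c15]) ([.c9,.c11,.c12,.c13,.c14],[.c8]) ([.c13,.c15],[.c8,.c9,.c10,.c12]) ([.c12,.c14],[.c15]) ([.c13,.c14,.c15],[]) ([],[.c12,.c13,.c14]) ([.c12],[.c13,.c15]), ([],[]))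
/-- One block. -/
noncomputable def t13_12 : Blk I16 J28 := (.c12, I16.fn ([.c0],[.c5]) ([.c1,.c4],[]) ([.c2],[.c7]) ([.c3,.c6],[]) ([.c5],[]) ([],[.c4]) ([.c7],[]) ([],[.c6]) ([.c8],[.c13]) ([.c9,.c12],[]) ([.c10],[.c15]) ([.c11,.c14],[]) ([.c13],[]) ([],[.c12]) ([.c15],[]) ([],[.c14]), ([],[]))
/-- One block. -/
noncomputable def t13_13 : Blk I16 J28 := (.c13, I16.fn ([.c0],[.c5]) ([.c1,.c4],[]) ([.c2],[.c7]) ([.c3,.c6],[]) ([.c5],[]) ([],[.c4]) ([.c7],[]) ([],[.c6]) ([.c8],[.c13]) ([.c9,.c12],[]) ([.c10],[.c15]) ([.c11,.c14],[]) ([.c13],[]) ([],[.c12]) ([.c15],[]) ([],[.c14]), ([],[]))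
/-- One block. -/
noncomputable def t13_14 : Blk I16 J28 := (.c14, I16.fn ([.c0],[.c5]) ([.c1,.c4],[]) ([.c2],[.c7]) ([.c3,.c6],[]) ([.c5],[]) ([],[.c4]) ([.c7],[]) ([],[.c6]) ([.c8],[.c13]) ([.c9,.c12],[]) ([.c10],[.c15]) ([.c11,.c14],[]) ([.c13],[]) ([],[.c12]) ([.c15],[]) ([],[.c14]), ([],[]))
/-- One block. -/
noncomputable def t13_15 : Blk I16 J28 := (.c15, I16.fn ([.c0],[.c5]) ([.c1,.c4],[]) ([.c2],[.c7]) ([.c3,.c6],[]) ([.c5],[]) ([],[.c4]) ([.c7],[]) ([],[.c6]) ([.c8],[.c13]) ([.c9,.c12],[]) ([.c10],[.c15]) ([.c11,.c14],[]) ([.c13],[]) ([],[.c12]) ([.c15],[]) ([],[.c14]), ([],[]))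
/-- One block. -/
noncomputable def t13_16 : Blk I16 J28 := (.c17, I16.fn ([.c1,.c2,.c3,.c4,.c6],[.c7]) ([.c3,.c5,.c6,.c7],[.c0,.c2]) ([.c0],[.c1,.c3,.c4,.c5,.c6]) ([.c0,.c1,.c2,.c4],[.c5,.c7]) ([.c7],[.c4,.c6]) ([],[.c5,.c6,.c7]) ([.c4,.c5,.c6],[]) ([.c5,.c7],[.c4]) ([.c0,.c15],[.c1,.c3,.c3,.c4,.c5,.c6,.c6,.c9,.c10,.c11,.c12,.c14]) ([.c0,.c1,.c2,.c2,.c4,.c8,.c10],[.c5,.c7,.c7,.c11,.c13,.c14,.c15]) ([.c3,.c5,.c5,.c6,.c7,.c9,.c11,.c12,.c13,.c14],[.c0,.c0,.c2,.c8]) ([.c7,.c13,.c15],[.c1,.c1,.c2,.c3,.c4,.c4,.c6,.c8,.c9,.c10,.c12]) ([.c4,.c5,.c6,.c6,.c12,.c14],[.c15]) ([.c5,.c7,.c7,.c13,.c14,.c15],[.c4]) ([],[.c5,.c5,.c6,.c7,.c12,.c13,.c14]) ([.c4,.c4,.c6,.c12],[.c7,.c13,.c15]), ([],[]))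
/-- One block. -/
noncomputable def t13_17 : Blk I16 J28 := (.c16, I16.fn ([.c1,.c2,.c3,.c5,.c6,.c7],[]) ([.c3,.c7],[.c0,.c2,.c4,.c6]) ([.c0,.c4],[.c1,.c3,.c5,.c7]) ([.c0,.c1,.c2,.c4,.c5,.c6],[]) ([.c4,.c6],[.c7]) ([.c5,.c6,.c7],[]) ([],[.c4,.c5,.c6]) ([.c4],[.c5,.c7]) ([.c0,.c4],[.c1,.c3,.c3,.c5,.c7,.c7,.c9,.c10,.c11,.c13,.c14,.c15]) ([.c0,.c1,.c2,.c2,.c4,.c5,.c6,.c6,.c8,.c10,.c12,.c14],[.c11,.c15]) ([.c3,.c7,.c9,.c11,.c13,.c15],[.c0,.c0,.c2,.c4,.c4,.c6,.c8,.c12]) ([],[.c1,.c1,.c2,.c3,.c5,.c5,.c6,.c7,.c8,.c9,.c10,.c12,.c13,.c14]) ([.c15],[.c4,.c5,.c6,.c6,.c12,.c14]) ([.c4],[.c5,.c7,.c7,.c13,.c14,.c15]) ([.c5,.c5,.c6,.c7,.c12,.c13,.c14],[]) ([.c7,.c13,.c15],[.c4,.c4,.c6,.c12]), ([],[]))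
/-- One block. -/
noncomputable def t13_18 : Blk I16 J28 := (.c18, I16.fn ([.c0],[.c5]) ([.c1,.c4],[]) ([.c2],[.c7]) ([.c3,.c6],[]) ([.c5],[]) ([],[.c4]) ([.c7],[]) ([],[.c6]) ([.c8],[.c13]) ([.c9,.c12],[]) ([.c10],[.c15]) ([.c11,.c14],[]) ([.c13],[]) ([],[.c12]) ([.c15],[]) ([],[.c14]), ([],[]))
/-- One block. -/
noncomputable def t13_19 : Blk I16 J28 := (.c19, I16.fn ([.c0],[.c5]) ([.c1,.c4],[]) ([.c2],[.c7]) ([.c3,.c6],[]) ([.c5],[]) ([],[.c4]) ([.c7],[]) ([],[.c6]) ([.c8],[.c13]) ([.c9,.c12],[]) ([.c10],[.c15]) ([.c11,.c14],[]) ([.c13],[]) ([],[.c12]) ([.c15],[]) ([],[.c14]), ([],[]))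
/-- One block. -/
noncomputable def t13_20 : Blk I16 J28 := (.c20, I16.fn ([.c0],[.c5]) ([.c1,.c4],[]) ([.c2],[.c7]) ([.c3,.c6],[]) ([.c5],[]) ([],[.c4]) ([.c7],[]) ([],[.c6]) ([.c8],[.c13]) ([.c9,.c12],[]) ([.c10],[.c15]) ([.c11,.c14],[]) ([.c13],[]) ([],[.c12]) ([.c15],[]) ([],[.c14]), ([],[]))
/-- One block. -/
noncomputable def t13_21 : Blk I16 J28 := (.c21, I16.fn ([.c0],[.c5]) ([.c1,.c4],[]) ([.c2],[.c7]) ([.c3,.c6],[]) ([.c5],[]) ([],[.c4]) ([.c7],[]) ([],[.c6]) ([.c8],[.c13]) ([.c9,.c12],[]) ([.c10],[.c15]) ([.c11,.c14],[]) ([.c13],[]) ([],[.c12]) ([.c15],[]) ([],[.c14]), ([],[]))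
/-- One block. -/
noncomputable def t13_22 : Blk I16 J28 := (.c23, I16.fn ([.c3,.c7,.c9,.c11,.c11,.c13,.c15,.c15],[.c0,.c2,.c4,.c6,.c8,.c12]) ([],[.c1,.c2,.c3,.c5,.c6,.c7,.c8,.c9,.c10,.c10,.c12,.c13,.c14,.c14]) ([.c0,.c1,.c2,.c4,.c5,.c6,.c8,.c8,.c10,.c12,.c12,.c14],[.c11,.c15]) ([.c1,.c3,.c5,.c7,.c9,.c9,.c10,.c11,.c13,.c13,.c14,.c15],[.c0,.c4]) ([.c5,.c6,.c7,.c12,.c13,.c14,.c14],[]) ([.c7,.c13,.c15,.c15],[.c4,.c6,.c12]) ([.c4],[.c5,.c7,.c13,.c13,.c14,.c15]) ([.c4,.c5,.c6,.c12,.c12,.c14],[.c15]) ([.c0,.c1,.c2,.c2,.c4,.c5,.c6,.c6,.c8,.c10,.c12,.c14],[.c11,.c15]) ([.c1,.c3,.c3,.c5,.c7,.c7,.c9,.c10,.c11,.c13,.c14,.c15],[.c0,.c4]) ([],[.c1,.c1,.c2,.c3,.c5,.c5,.c6,.c7,.c8,.c9,.c10,.c12,.c13,.c14]) ([.c0,.c0,.c2,.c4,.c4,.c6,.c8,.c12],[.c3,.c7,.c9,.c11,.c13,.c15]) ([.c4],[.c5,.c7,.c7,.c13,.c14,.c15])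 ([.c4,.c5,.c6,.c6,.c12,.c14],[.c15]) ([.c7,.c13,.c15],[.c4,.c4,.c6,.c12]) ([],[.c5,.c5,.c6,.c7,.c12,.c13,.c14]), ([],[]))
/-- One block. -/
noncomputable def t13_23 : Blk I16 J28 := (.c22, I16.fn ([.c3,.c5,.c6,.c7,.c9,.c11,.c11,.c12,.c13,.c14,.c14],[.c0,.c2,.c8]) ([.c7,.c13,.c15,.c15],[.c1,.c2,.c3,.c4,.c6,.c8,.c9,.c10,.c10,.c12]) ([.c0,.c1,.c2,.c4,.c8,.c8,.c10],[.c5,.c7,.c11,.c13,.c13,.c14,.c15]) ([.c1,.c3,.c4,.c5,.c6,.c9,.c9,.c10,.c11,.c12,.c12,.c14],[.c0,.c15]) ([],[.c5,.c6,.c7,.c12,.c13,.c14,.c14]) ([.c4,.c6,.c12],[.c7,.c13,.c15,.c15]) ([.c5,.c7,.c13,.c13,.c14,.c15],[.c4]) ([.c15],[.c4,.c5,.c6,.c12,.c12,.c14]) ([.c0,.c1,.c2,.c2,.c4,.c8,.c10],[.c5,.c7,.c7,.c11,.c13,.c14,.c15]) ([.c1,.c3,.c3,.c4,.c5,.c6,.c6,.c9,.c10,.c11,.c12,.c14],[.c0,.c15]) ([.c7,.c13,.c15],[.c1,.c1,.c2,.c3,.c4,.c4,.c6,.c8,.c9,.c10,.c12])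 ([.c0,.c0,.c2,.c8],[.c3,.c5,.c5,.c6,.c7,.c9,.c11,.c12,.c13,.c14]) ([.c5,.c7,.c7,.c13,.c14,.c15],[.c4]) ([.c15],[.c4,.c5,.c6,.c6,.c12,.c14]) ([.c4,.c4,.c6,.c12],[.c7,.c13,.c15]) ([.c5,.c5,.c6,.c7,.c12,.c13,.c14],[]), ([],[]))
/-- One block. -/
noncomputable def t13_24 : Blk I16 J28 := (.c24, I16.fn ([.c0],[.c5]) ([.c1,.c4],[]) ([.c2],[.c7]) ([.c3,.c6],[]) ([.c5],[]) ([],[.c4]) ([.c7],[]) ([],[.c6]) ([.c8],[.c13]) ([.c9,.c12],[]) ([.c10],[.c15]) ([.c11,.c14],[]) ([.c13],[]) ([],[.c12]) ([.c15],[]) ([],[.c14]), ([],[]))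
/-- One block. -/
noncomputable def t13_25 : Blk I16 J28 := (.c25, I16.fn ([.c0],[.c5]) ([.c1,.c4],[]) ([.c2],[.c7]) ([.c3,.c6],[]) ([.c5],[]) ([],[.c4]) ([.c7],[]) ([],[.c6]) ([.c8],[.c13]) ([.c9,.c12],[]) ([.c10],[.c15]) ([.c11,.c14],[]) ([.c13],[]) ([],[.c12]) ([.c15],[]) ([],[.c14]), ([],[]))
/-- One block. -/
noncomputable def t13_26 : Blk I16 J28 := (.c26, I16.fn ([.c0],[.c5]) ([.c1,.c4],[]) ([.c2],[.c7]) ([.c3,.c6],[]) ([.c5],[]) ([],[.c4]) ([.c7],[]) ([],[.c6]) ([.c8],[.c13]) ([.c9,.c12],[]) ([.c10],[.c15]) ([.c11,.c14],[]) ([.c13],[]) ([],[.c12]) ([.c15],[]) ([],[.c14]), ([],[]))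
/-- One block. -/
noncomputable def t13_27 : Blk I16 J28 := (.c27, I16.fn ([.c0],[.c5]) ([.c1,.c4],[]) ([.c2],[.c7]) ([.c3,.c6],[]) ([.c5],[]) ([],[.c4]) ([.c7],[]) ([],[.c6]) ([.c8],[.c13]) ([.c9,.c12],[]) ([.c10],[.c15]) ([.c11,.c14],[]) ([.c13],[]) ([],[.c12]) ([.c15],[]) ([],[.c14]), ([],[]))
/-- The blocks of a generator. -/
noncomputable def t13 : J28 → Blk I16 J28 := J28.fn t13_0 t13_1 t13_2 t13_3 t13_4 t13_5 t13_6 t13_7 t13_8 t13_9 t13_10 t13_11 t13_12 t13_13 t13_14 t13_15 t13_16 t13_17 t13_18 t13_19 t13_20 t13_21 t13_22 t13_23 t13_24 t13_25 t13_26 t13_27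

end Pool.Agent.Lib.MP_c86c76_al.Eng
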