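import Pool.Agent.Lib.MP_c86c76_al.Eng.Sys3

/-!
Tables for the third meridian.
-/

set_option autoImplicit false

namespace Pool.Agent.Lib.MP_c86c76_al.Eng

/-- One block. -/
noncomputable def t14_0 : Blk I16 J28 := (.c0, I16.fn ([.c0,.c8],[]) ([.c1,.c9],[]) ([.c2,.c10],[]) ([.c3,.c11],[]) ([.c4,.c12],[]) ([.c5,.c13],[]) ([.c6,.c14],[]) ([.c7,.c15],[]) ([],[.c9]) ([.c8],[]) ([],[.c11]) ([.c10],[]) ([],[.c13]) ([.c12],[]) ([],[.c15]) ([.c14],[]), ([.c12,.c14],[]))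
/-- One block. -/
noncomputable def t14_1 : Blk I16 J28 := (.c1, I16.fn ([.c0,.c8],[]) ([.c1,.c9],[]) ([.c2,.c10],[]) ([.c3,.c11],[]) ([.c4,.c12],[]) ([.c5,.c13],[]) ([.c6,.c14],[]) ([.c7,.c15],[]) ([],[.c9]) ([.c8],[]) ([],[.c11]) ([.c10],[]) ([],[.c13]) ([.c12],[]) ([],[.c15]) ([.c14],[]), ([.c13,.c14,.c15],[]))
/-- One block. -/
noncomputable def t14_2 : Blk I16 J28 := (.c2, I16.fn ([.c0,.c8],[]) ([.c1,.c9],[]) ([.c2,.c10],[]) ([.c3,.c11],[]) ([.c4,.c12],[]) ([.c5,.c13],[]) ([.c6,.c14],[]) ([.c7,.c15],[]) ([],[.c9]) ([.c8],[]) ([],[.c11]) ([.c10],[]) ([],[.c13]) ([.c12],[]) ([],[.c15]) ([.c14],[]), ([.c12,.c13,.c14],[]))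
/-- One block. -/
noncomputable def t14_3 : Blk I16 J28 := (.c3, I16.fn ([.c0,.c8],[]) ([.c1,.c9],[]) ([.c2,.c10],[]) ([.c3,.c11],[]) ([.c4,.c12],[]) ([.c5,.c13],[]) ([.c6,.c14],[]) ([.c7,.c15],[]) ([],[.c9]) ([.c8],[]) ([],[.c11]) ([.c10],[]) ([],[.c13]) ([.c12],[]) ([],[.c15]) ([.c14],[]), ([.c12],[]))
/-- One block. -/
noncomputable def t14_4 : Blk I16 J28 := (.c4, I16.fn ([.c0,.c8],[]) ([.c1,.c9],[]) ([.c2,.c10],[]) ([.c3,.c11],[]) ([.c4,.c12],[]) ([.c5,.c13],[]) ([.c6,.c14],[]) ([.c7,.c15],[]) ([],[.c9]) ([.c8],[]) ([],[.c11]) ([.c10],[]) ([],[.c13]) ([.c12],[]) ([],[.c15]) ([.c14],[]), ([.c13,.c15],[]))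
/-- One block. -/
noncomputable def t14_5 : Blk I16 J28 := (.c5, I16.fn ([.c0,.c8],[]) ([.c1,.c9],[]) ([.c2,.c10],[]) ([.c3,.c11],[]) ([.c4,.c12],[]) ([.c5,.c13],[]) ([.c6,.c14],[]) ([.c7,.c15],[]) ([],[.c9]) ([.c8],[]) ([],[.c11]) ([.c10],[]) ([],[.c13]) ([.c12],[]) ([],[.c15]) ([.c14],[]), ([],[.c14]))
/-- One block. -/
noncomputable def t14_6 : Blk I16 J28 := (.c6, I16.fn ([.c0,.c8],[]) ([.c1,.c9],[]) ([.c2,.c10],[]) ([.c3,.c11],[]) ([.c4,.c12],[]) ([.c5,.c13],[]) ([.c6,.c14],[]) ([.c7,.c15],[]) ([],[.c9]) ([.c8],[]) ([],[.c11]) ([.c10],[]) ([],[.c13]) ([.c12],[]) ([],[.c15]) ([.c14],[]), ([],[]))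
/-- One block. -/
noncomputable def t14_7 : Blk I16 J28 := (.c7, I16.fn ([.c0,.c8],[]) ([.c1,.c9],[]) ([.c2,.c10],[]) ([.c3,.c11],[]) ([.c4,.c12],[]) ([.c5,.c13],[]) ([.c6,.c14],[]) ([.c7,.c15],[]) ([],[.c9]) ([.c8],[]) ([],[.c11]) ([.c10],[]) ([],[.c13]) ([.c12],[]) ([],[.c15]) ([.c14],[]), ([],[]))
/-- One block. -/
noncomputable def t14_8 : Blk I16 J28 := (.c8, I16.fn ([.c0,.c8],[]) ([.c1,.c9],[]) ([.c2,.c10],[]) ([.c3,.c11],[]) ([.c4,.c12],[]) ([.c5,.c13],[]) ([.c6,.c14],[]) ([.c7,.c15],[]) ([],[.c9]) ([.c8],[]) ([],[.c11]) ([.c10],[]) ([],[.c13]) ([.c12],[]) ([],[.c15]) ([.c14],[]), ([],[]))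
/-- One block. -/
noncomputable def t14_9 : Blk I16 J28 := (.c9, I16.fn ([.c0,.c8],[]) ([.c1,.c9],[]) ([.c2,.c10],[]) ([.c3,.c11],[]) ([.c4,.c12],[]) ([.c5,.c13],[]) ([.c6,.c14],[]) ([.c7,.c15],[]) ([],[.c9]) ([.c8],[]) ([],[.c11]) ([.c10],[]) ([],[.c13]) ([.c12],[]) ([],[.c15]) ([.c14],[]), ([],[]))
/-- One block. -/
noncomputable def t14_10 : Blk I16 J28 := (.c10, I16.fn ([.c0,.c8],[]) ([.c1,.c9],[]) ([.c2,.c10],[]) ([.c3,.c11],[]) ([.c4,.c12],[]) ([.c5,.c13],[]) ([.c6,.c14],[]) ([.c7,.c15],[]) ([],[.c9]) ([.c8],[]) ([],[.c11]) ([.c10],[]) ([],[.c13]) ([.c12],[]) ([],[.c15]) ([.c14],[]), ([],[]))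
/-- One block. -/
noncomputable def t14_11 : Blk I16 J28 := (.c11, I16.fn ([.c0,.c8],[]) ([.c1,.c9],[]) ([.c2,.c10],[]) ([.c3,.c11],[]) ([.c4,.c12],[]) ([.c5,.c13],[]) ([.c6,.c14],[]) ([.c7,.c15],[]) ([],[.c9]) ([.c8],[]) ([],[.c11]) ([.c10],[]) ([],[.c13]) ([.c12],[]) ([],[.c15]) ([.c14],[]), ([],[]))
/-- One block. -/
noncomputable def t14_12 : Blk I16 J28 := (.c12, I16.fn ([.c0,.c8],[]) ([.c1,.c9],[]) ([.c2,.c10],[]) ([.c3,.c11],[]) ([.c4,.c12],[]) ([.c5,.c13],[]) ([.c6,.c14],[]) ([.c7,.c15],[]) ([],[.c9]) ([.c8],[]) ([],[.c11]) ([.c10],[]) ([],[.c13]) ([.c12],[]) ([],[.c15]) ([.c14],[]), ([],[]))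
/-- One block. -/
noncomputable def t14_13 : Blk I16 J28 := (.c13, I16.fn ([.c0,.c8],[]) ([.c1,.c9],[]) ([.c2,.c10],[]) ([.c3,.c11],[]) ([.c4,.c12],[]) ([.c5,.c13],[]) ([.c6,.c14],[]) ([.c7,.c15],[]) ([],[.c9]) ([.c8],[]) ([],[.c11]) ([.c10],[]) ([],[.c13]) ([.c12],[]) ([],[.c15]) ([.c14],[]), ([],[]))
/-- One block. -/
noncomputable def t14_14 : Blk I16 J28 := (.c14, I16.fn ([.c0,.c8],[]) ([.c1,.c9],[]) ([.c2,.c10],[]) ([.c3,.c11],[]) ([.c4,.c12],[]) ([.c5,.c13],[]) ([.c6,.c14],[]) ([.c7,.c15],[]) ([],[.c9]) ([.c8],[]) ([],[.c11]) ([.c10],[]) ([],[.c13]) ([.c12],[]) ([],[.c15]) ([.c14],[]), ([],[]))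
/-- One block. -/
noncomputable def t14_15 : Blk I16 J28 := (.c15, I16.fn ([.c0,.c8],[]) ([.c1,.c9],[]) ([.c2,.c10],[]) ([.c3,.c11],[]) ([.c4,.c12],[]) ([.c5,.c13],[]) ([.c6,.c14],[]) ([.c7,.c15],[]) ([],[.c9]) ([.c8],[]) ([],[.c11]) ([.c10],[]) ([],[.c13]) ([.c12],[]) ([],[.c15]) ([.c14],[]), ([],[]))
/-- One block. -/
noncomputable def t14_16 : Blk I16 J28 := (.c23, I16.fn ([.c11,.c13,.c15,.c15],[.c1,.c2,.c3,.c4,.c5,.c6,.c6,.c8,.c10,.c12]) ([.c0,.c2,.c4],[.c3,.c5,.c7,.c7,.c9,.c10,.c11,.c12,.c13,.c14,.c14]) ([.c1,.c3,.c5,.c5,.c6,.c7,.c8,.c9,.c10,.c12,.c12,.c14],[.c0,.c15]) ([.c7,.c9,.c11,.c13,.c13,.c14,.c15],[.c0,.c1,.c2,.c4,.c4,.c6,.c8]) ([.c5,.c6,.c7,.c12,.c14],[.c15]) ([.c7,.c13,.c14,.c15],[.c4,.c6]) ([.c4],[.c5,.c7,.c12,.c13,.c14])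 ([.c4,.c5,.c6,.c12],[.c13,.c15]) ([.c1,.c3,.c3,.c5,.c5,.c6,.c6,.c7,.c7,.c9,.c10,.c11,.c12,.c13,.c14,.c14],[.c0]) ([.c7,.c7,.c11,.c13,.c15,.c15],[.c0,.c1,.c2,.c2,.c4,.c4,.c6,.c6,.c8,.c10,.c12]) ([.c0,.c0,.c2,.c4,.c4,.c8],[.c3,.c5,.c5,.c7,.c7,.c9,.c11,.c13,.c13,.c14,.c15]) ([.c1,.c1,.c2,.c3,.c4,.c4,.c5,.c5,.c6,.c6,.c8,.c9,.c10,.c12,.c12,.c14],[.c15]) ([.c4],[.c5,.c7,.c7,.c13,.c14,.c15]) ([.c4,.c5,.c6,.c6,.c12,.c14],[.c15]) ([.c7,.c13,.c15],[.c4,.c4,.c6,.c12]) ([],[.c5,.c5,.c6,.c7,.c12,.c13,.c14]), ([],[]))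
/-- One block. -/
noncomputable def t14_17 : Blk I16 J28 := (.c22, I16.fn ([.c1,.c2,.c3,.c4,.c5,.c6,.c6,.c8,.c10,.c12],[.c11,.c13,.c15,.c15]) ([.c3,.c5,.c7,.c7,.c9,.c10,.c11,.c12,.c13,.c14,.c14],[.c0,.c2,.c4]) ([.c0,.c15],[.c1,.c3,.c5,.c5,.c6,.c7,.c8,.c9,.c10,.c12,.c12,.c14]) ([.c0,.c1,.c2,.c4,.c4,.c6,.c8],[.c7,.c9,.c11,.c13,.c13,.c14,.c15]) ([.c15],[.c5,.c6,.c7,.c12,.c14]) ([.c4,.c6],[.c7,.c13,.c14,.c15]) ([.c5,.c7,.c12,.c13,.c14],[.c4]) ([.c13,.c15],[.c4,.c5,.c6,.c12]) ([.c0],[.c1,.c3,.c3,.c5,.c5,.c6,.c6,.c7,.c7,.c9,.c10,.c11,.c12,.c13,.c14,.c14]) ([.c0,.c1,.c2,.c2,.c4,.c4,.c6,.c6,.c8,.c10,.c12],[.c7,.c7,.c11,.c13,.c15,.c15]) ([.c3,.c5,.c5,.c7,.c7,.c9,.c11,.c13,.c13,.c14,.c15],[.c0,.c0,.c2,.c4,.c4,.c8]) ([.c15],[.c1,.c1,.c2,.c3,.c4,.c4,.c5,.c5,.c6,.c6,.c8,.c9,.c10,.c12,.c12,.c14])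 ([.c5,.c7,.c7,.c13,.c14,.c15],[.c4]) ([.c15],[.c4,.c5,.c6,.c6,.c12,.c14]) ([.c4,.c4,.c6,.c12],[.c7,.c13,.c15]) ([.c5,.c5,.c6,.c7,.c12,.c13,.c14],[]), ([],[]))
/-- One block. -/
noncomputable def t14_18 : Blk I16 J28 := (.c27, I16.fn ([.c11,.c13,.c15,.c15],[.c1,.c2,.c3,.c4,.c5,.c6,.c6,.c8,.c10,.c12]) ([.c0,.c2,.c4],[.c3,.c5,.c7,.c7,.c9,.c10,.c11,.c12,.c13,.c14,.c14]) ([.c1,.c3,.c5,.c5,.c6,.c7,.c8,.c9,.c10,.c12,.c12,.c14],[.c0,.c15]) ([.c7,.c9,.c11,.c13,.c13,.c14,.c15],[.c0,.c1,.c2,.c4,.c4,.c6,.c8]) ([.c5,.c6,.c7,.c12,.c14],[.c15]) ([.c7,.c13,.c14,.c15],[.c4,.c6]) ([.c4],[.c5,.c7,.c12,.c13,.c14]) ([.c4,.c5,.c6,.c12],[.c13,.c15]) ([.c1,.c3,.c3,.c5,.c5,.c6,.c6,.c7,.c7,.c9,.c10,.c11,.c12,.c13,.c14,.c14],[.c0]) ([.c7,.c7,.c11,.c13,.c15,.c15],[.c0,.c1,.c2,.c2,.c4,.c4,.c6,.c6,.c8,.c10,.c12])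 ([.c0,.c0,.c2,.c4,.c4,.c8],[.c3,.c5,.c5,.c7,.c7,.c9,.c11,.c13,.c13,.c14,.c15]) ([.c1,.c1,.c2,.c3,.c4,.c4,.c5,.c5,.c6,.c6,.c8,.c9,.c10,.c12,.c12,.c14],[.c15]) ([.c4],[.c5,.c7,.c7,.c13,.c14,.c15]) ([.c4,.c5,.c6,.c6,.c12,.c14],[.c15]) ([.c7,.c13,.c15],[.c4,.c4,.c6,.c12]) ([],[.c5,.c5,.c6,.c7,.c12,.c13,.c14]), ([],[]))
/-- One block. -/
noncomputable def t14_19 : Blk I16 J28 := (.c25, I16.fn ([.c11,.c13,.c15,.c15],[.c1,.c2,.c3,.c4,.c5,.c6,.c6,.c8,.c10,.c12]) ([.c0,.c2,.c4],[.c3,.c5,.c7,.c7,.c9,.c10,.c11,.c12,.c13,.c14,.c14]) ([.c1,.c3,.c5,.c5,.c6,.c7,.c8,.c9,.c10,.c12,.c12,.c14],[.c0,.c15]) ([.c7,.c9,.c11,.c13,.c13,.c14,.c15],[.c0,.c1,.c2,.c4,.c4,.c6,.c8]) ([.c5,.c6,.c7,.c12,.c14],[.c15]) ([.c7,.c13,.c14,.c15],[.c4,.c6]) ([.c4],[.c5,.c7,.c12,.c13,.c14])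 ([.c4,.c5,.c6,.c12],[.c13,.c15]) ([.c1,.c3,.c3,.c5,.c5,.c6,.c6,.c7,.c7,.c9,.c10,.c11,.c12,.c13,.c14,.c14],[.c0]) ([.c7,.c7,.c11,.c13,.c15,.c15],[.c0,.c1,.c2,.c2,.c4,.c4,.c6,.c6,.c8,.c10,.c12]) ([.c0,.c0,.c2,.c4,.c4,.c8],[.c3,.c5,.c5,.c7,.c7,.c9,.c11,.c13,.c13,.c14,.c15]) ([.c1,.c1,.c2,.c3,.c4,.c4,.c5,.c5,.c6,.c6,.c8,.c9,.c10,.c12,.c12,.c14],[.c15]) ([.c4],[.c5,.c7,.c7,.c13,.c14,.c15]) ([.c4,.c5,.c6,.c6,.c12,.c14],[.c15]) ([.c7,.c13,.c15],[.c4,.c4,.c6,.c12]) ([],[.c5,.c5,.c6,.c7,.c12,.c13,.c14]), ([],[]))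
/-- One block. -/
noncomputable def t14_20 : Blk I16 J28 := (.c24, I16.fn ([.c0,.c2,.c4],[.c3,.c5,.c7,.c7,.c9,.c10,.c11,.c12,.c13,.c14,.c14]) ([.c1,.c2,.c3,.c4,.c5,.c6,.c6,.c8,.c10,.c12],[.c11,.c13,.c15,.c15]) ([.c7,.c9,.c11,.c13,.c13,.c14,.c15],[.c0,.c1,.c2,.c4,.c4,.c6,.c8]) ([.c0,.c15],[.c1,.c3,.c5,.c5,.c6,.c7,.c8,.c9,.c10,.c12,.c12,.c14]) ([.c7,.c13,.c14,.c15],[.c4,.c6]) ([.c15],[.c5,.c6,.c7,.c12,.c14]) ([.c4,.c5,.c6,.c12],[.c13,.c15]) ([.c5,.c7,.c12,.c13,.c14],[.c4]) ([.c7,.c7,.c11,.c13,.c15,.c15],[.c0,.c1,.c2,.c2,.c4,.c4,.c6,.c6,.c8,.c10,.c12]) ([.c0],[.c1,.c3,.c3,.c5,.c5,.c6,.c6,.c7,.c7,.c9,.c10,.c11,.c12,.c13,.c14,.c14]) ([.c1,.c1,.c2,.c3,.c4,.c4,.c5,.c5,.c6,.c6,.c8,.c9,.c10,.c12,.c12,.c14],[.c15]) ([.c3,.c5,.c5,.c7,.c7,.c9,.c11,.c13,.c13,.c14,.c15],[.c0,.c0,.c2,.c4,.c4,.c8])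 ([.c4,.c5,.c6,.c6,.c12,.c14],[.c15]) ([.c5,.c7,.c7,.c13,.c14,.c15],[.c4]) ([],[.c5,.c5,.c6,.c7,.c12,.c13,.c14]) ([.c4,.c4,.c6,.c12],[.c7,.c13,.c15]), ([],[]))
/-- One block. -/
noncomputable def t14_21 : Blk I16 J28 := (.c26, I16.fn ([.c0,.c2,.c4],[.c3,.c5,.c7,.c7,.c9,.c10,.c11,.c12,.c13,.c14,.c14]) ([.c1,.c2,.c3,.c4,.c5,.c6,.c6,.c8,.c10,.c12],[.c11,.c13,.c15,.c15]) ([.c7,.c9,.c11,.c13,.c13,.c14,.c15],[.c0,.c1,.c2,.c4,.c4,.c6,.c8]) ([.c0,.c15],[.c1,.c3,.c5,.c5,.c6,.c7,.c8,.c9,.c10,.c12,.c12,.c14]) ([.c7,.c13,.c14,.c15],[.c4,.c6]) ([.c15],[.c5,.c6,.c7,.c12,.c14]) ([.c4,.c5,.c6,.c12],[.c13,.c15]) ([.c5,.c7,.c12,.c13,.c14],[.c4]) ([.c7,.c7,.c11,.c13,.c15,.c15],[.c0,.c1,.c2,.c2,.c4,.c4,.c6,.c6,.c8,.c10,.c12]) ([.c0],[.c1,.c3,.c3,.c5,.c5,.c6,.c6,.c7,.c7,.c9,.c10,.c11,.c12,.c13,.c14,.c14])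 ([.c1,.c1,.c2,.c3,.c4,.c4,.c5,.c5,.c6,.c6,.c8,.c9,.c10,.c12,.c12,.c14],[.c15]) ([.c3,.c5,.c5,.c7,.c7,.c9,.c11,.c13,.c13,.c14,.c15],[.c0,.c0,.c2,.c4,.c4,.c8]) ([.c4,.c5,.c6,.c6,.c12,.c14],[.c15]) ([.c5,.c7,.c7,.c13,.c14,.c15],[.c4]) ([],[.c5,.c5,.c6,.c7,.c12,.c13,.c14]) ([.c4,.c4,.c6,.c12],[.c7,.c13,.c15]), ([],[]))
/-- One block. -/
noncomputable def t14_22 : Blk I16 J28 := (.c17, I16.fn ([.c0,.c2,.c4],[.c3,.c5,.c7,.c7,.c9,.c10,.c11,.c12,.c13,.c14,.c14]) ([.c1,.c2,.c3,.c4,.c5,.c6,.c6,.c8,.c10,.c12],[.c11,.c13,.c15,.c15]) ([.c7,.c9,.c11,.c13,.c13,.c14,.c15],[.c0,.c1,.c2,.c4,.c4,.c6,.c8]) ([.c0,.c15],[.c1,.c3,.c5,.c5,.c6,.c7,.c8,.c9,.c10,.c12,.c12,.c14]) ([.c7,.c13,.c14,.c15],[.c4,.c6]) ([.c15],[.c5,.c6,.c7,.c12,.c14]) ([.c4,.c5,.c6,.c12],[.c13,.c15])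 ([.c5,.c7,.c12,.c13,.c14],[.c4]) ([.c7,.c7,.c11,.c13,.c15,.c15],[.c0,.c1,.c2,.c2,.c4,.c4,.c6,.c6,.c8,.c10,.c12]) ([.c0],[.c1,.c3,.c3,.c5,.c5,.c6,.c6,.c7,.c7,.c9,.c10,.c11,.c12,.c13,.c14,.c14]) ([.c1,.c1,.c2,.c3,.c4,.c4,.c5,.c5,.c6,.c6,.c8,.c9,.c10,.c12,.c12,.c14],[.c15]) ([.c3,.c5,.c5,.c7,.c7,.c9,.c11,.c13,.c13,.c14,.c15],[.c0,.c0,.c2,.c4,.c4,.c8]) ([.c4,.c5,.c6,.c6,.c12,.c14],[.c15]) ([.c5,.c7,.c7,.c13,.c14,.c15],[.c4]) ([],[.c5,.c5,.c6,.c7,.c12,.c13,.c14]) ([.c4,.c4,.c6,.c12],[.c7,.c13,.c15]), ([],[]))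
/-- One block. -/
noncomputable def t14_23 : Blk I16 J28 := (.c16, I16.fn ([.c3,.c5,.c7,.c7,.c9,.c10,.c11,.c12,.c13,.c14,.c14],[.c0,.c2,.c4]) ([.c11,.c13,.c15,.c15],[.c1,.c2,.c3,.c4,.c5,.c6,.c6,.c8,.c10,.c12]) ([.c0,.c1,.c2,.c4,.c4,.c6,.c8],[.c7,.c9,.c11,.c13,.c13,.c14,.c15]) ([.c1,.c3,.c5,.c5,.c6,.c7,.c8,.c9,.c10,.c12,.c12,.c14],[.c0,.c15]) ([.c4,.c6],[.c7,.c13,.c14,.c15]) ([.c5,.c6,.c7,.c12,.c14],[.c15]) ([.c13,.c15],[.c4,.c5,.c6,.c12]) ([.c4],[.c5,.c7,.c12,.c13,.c14]) ([.c0,.c1,.c2,.c2,.c4,.c4,.c6,.c6,.c8,.c10,.c12],[.c7,.c7,.c11,.c13,.c15,.c15]) ([.c1,.c3,.c3,.c5,.c5,.c6,.c6,.c7,.c7,.c9,.c10,.c11,.c12,.c13,.c14,.c14],[.c0]) ([.c15],[.c1,.c1,.c2,.c3,.c4,.c4,.c5,.c5,.c6,.c6,.c8,.c9,.c10,.c12,.c12,.c14]) ([.c0,.c0,.c2,.c4,.c4,.c8],[.c3,.c5,.c5,.c7,.c7,.c9,.c11,.c13,.c13,.c14,.c15])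 ([.c15],[.c4,.c5,.c6,.c6,.c12,.c14]) ([.c4],[.c5,.c7,.c7,.c13,.c14,.c15]) ([.c5,.c5,.c6,.c7,.c12,.c13,.c14],[]) ([.c7,.c13,.c15],[.c4,.c4,.c6,.c12]), ([],[]))
/-- One block. -/
noncomputable def t14_24 : Blk I16 J28 := (.c20, I16.fn ([.c1,.c2,.c3,.c4,.c5,.c6,.c6,.c8,.c10,.c12],[.c11,.c13,.c15,.c15]) ([.c3,.c5,.c7,.c7,.c9,.c10,.c11,.c12,.c13,.c14,.c14],[.c0,.c2,.c4]) ([.c0,.c15],[.c1,.c3,.c5,.c5,.c6,.c7,.c8,.c9,.c10,.c12,.c12,.c14]) ([.c0,.c1,.c2,.c4,.c4,.c6,.c8],[.c7,.c9,.c11,.c13,.c13,.c14,.c15]) ([.c15],[.c5,.c6,.c7,.c12,.c14]) ([.c4,.c6],[.c7,.c13,.c14,.c15]) ([.c5,.c7,.c12,.c13,.c14],[.c4]) ([.c13,.c15],[.c4,.c5,.c6,.c12]) ([.c0],[.c1,.c3,.c3,.c5,.c5,.c6,.c6,.c7,.c7,.c9,.c10,.c11,.c12,.c13,.c14,.c14]) ([.c0,.c1,.c2,.c2,.c4,.c4,.c6,.c6,.c8,.c10,.c12],[.c7,.c7,.c11,.c13,.c15,.c15])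 ([.c3,.c5,.c5,.c7,.c7,.c9,.c11,.c13,.c13,.c14,.c15],[.c0,.c0,.c2,.c4,.c4,.c8]) ([.c15],[.c1,.c1,.c2,.c3,.c4,.c4,.c5,.c5,.c6,.c6,.c8,.c9,.c10,.c12,.c12,.c14]) ([.c5,.c7,.c7,.c13,.c14,.c15],[.c4]) ([.c15],[.c4,.c5,.c6,.c6,.c12,.c14]) ([.c4,.c4,.c6,.c12],[.c7,.c13,.c15]) ([.c5,.c5,.c6,.c7,.c12,.c13,.c14],[]), ([],[]))
/-- One block. -/
noncomputable def t14_25 : Blk I16 J28 := (.c19, I16.fn ([.c3,.c5,.c7,.c7,.c9,.c10,.c11,.c12,.c13,.c14,.c14],[.c0,.c2,.c4]) ([.c11,.c13,.c15,.c15],[.c1,.c2,.c3,.c4,.c5,.c6,.c6,.c8,.c10,.c12]) ([.c0,.c1,.c2,.c4,.c4,.c6,.c8],[.c7,.c9,.c11,.c13,.c13,.c14,.c15]) ([.c1,.c3,.c5,.c5,.c6,.c7,.c8,.c9,.c10,.c12,.c12,.c14],[.c0,.c15]) ([.c4,.c6],[.c7,.c13,.c14,.c15]) ([.c5,.c6,.c7,.c12,.c14],[.c15]) ([.c13,.c15],[.c4,.c5,.c6,.c12])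 ([.c4],[.c5,.c7,.c12,.c13,.c14]) ([.c0,.c1,.c2,.c2,.c4,.c4,.c6,.c6,.c8,.c10,.c12],[.c7,.c7,.c11,.c13,.c15,.c15]) ([.c1,.c3,.c3,.c5,.c5,.c6,.c6,.c7,.c7,.c9,.c10,.c11,.c12,.c13,.c14,.c14],[.c0]) ([.c15],[.c1,.c1,.c2,.c3,.c4,.c4,.c5,.c5,.c6,.c6,.c8,.c9,.c10,.c12,.c12,.c14]) ([.c0,.c0,.c2,.c4,.c4,.c8],[.c3,.c5,.c5,.c7,.c7,.c9,.c11,.c13,.c13,.c14,.c15]) ([.c15],[.c4,.c5,.c6,.c6,.c12,.c14]) ([.c4],[.c5,.c7,.c7,.c13,.c14,.c15]) ([.c5,.c5,.c6,.c7,.c12,.c13,.c14],[]) ([.c7,.c13,.c15],[.c4,.c4,.c6,.c12]), ([],[]))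
/-- One block. -/
noncomputable def t14_26 : Blk I16 J28 := (.c21, I16.fn ([.c1,.c2,.c3,.c4,.c5,.c6,.c6,.c8,.c10,.c12],[.c11,.c13,.c15,.c15]) ([.c3,.c5,.c7,.c7,.c9,.c10,.c11,.c12,.c13,.c14,.c14],[.c0,.c2,.c4]) ([.c0,.c15],[.c1,.c3,.c5,.c5,.c6,.c7,.c8,.c9,.c10,.c12,.c12,.c14]) ([.c0,.c1,.c2,.c4,.c4,.c6,.c8],[.c7,.c9,.c11,.c13,.c13,.c14,.c15]) ([.c15],[.c5,.c6,.c7,.c12,.c14]) ([.c4,.c6],[.c7,.c13,.c14,.c15]) ([.c5,.c7,.c12,.c13,.c14],[.c4]) ([.c13,.c15],[.c4,.c5,.c6,.c12]) ([.c0],[.c1,.c3,.c3,.c5,.c5,.c6,.c6,.c7,.c7,.c9,.c10,.c11,.c12,.c13,.c14,.c14]) ([.c0,.c1,.c2,.c2,.c4,.c4,.c6,.c6,.c8,.c10,.c12],[.c7,.c7,.c11,.c13,.c15,.c15]) ([.c3,.c5,.c5,.c7,.c7,.c9,.c11,.c13,.c13,.c14,.c15],[.c0,.c0,.c2,.c4,.c4,.c8]) ([.c15],[.c1,.c1,.c2,.c3,.c4,.c4,.c5,.c5,.c6,.c6,.c8,.c9,.c10,.c12,.c12,.c14])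 ([.c5,.c7,.c7,.c13,.c14,.c15],[.c4]) ([.c15],[.c4,.c5,.c6,.c6,.c12,.c14]) ([.c4,.c4,.c6,.c12],[.c7,.c13,.c15]) ([.c5,.c5,.c6,.c7,.c12,.c13,.c14],[]), ([],[]))
/-- One block. -/
noncomputable def t14_27 : Blk I16 J28 := (.c18, I16.fn ([.c3,.c5,.c7,.c7,.c9,.c10,.c11,.c12,.c13,.c14,.c14],[.c0,.c2,.c4]) ([.c11,.c13,.c15,.c15],[.c1,.c2,.c3,.c4,.c5,.c6,.c6,.c8,.c10,.c12]) ([.c0,.c1,.c2,.c4,.c4,.c6,.c8],[.c7,.c9,.c11,.c13,.c13,.c14,.c15]) ([.c1,.c3,.c5,.c5,.c6,.c7,.c8,.c9,.c10,.c12,.c12,.c14],[.c0,.c15]) ([.c4,.c6],[.c7,.c13,.c14,.c15]) ([.c5,.c6,.c7,.c12,.c14],[.c15]) ([.c13,.c15],[.c4,.c5,.c6,.c12]) ([.c4],[.c5,.c7,.c12,.c13,.c14]) ([.c0,.c1,.c2,.c2,.c4,.c4,.c6,.c6,.c8,.c10,.c12],[.c7,.c7,.c11,.c13,.c15,.c15]) ([.c1,.c3,.c3,.c5,.c5,.c6,.c6,.c7,.c7,.c9,.c10,.c11,.c12,.c13,.c14,.c14],[.c0])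 ([.c15],[.c1,.c1,.c2,.c3,.c4,.c4,.c5,.c5,.c6,.c6,.c8,.c9,.c10,.c12,.c12,.c14]) ([.c0,.c0,.c2,.c4,.c4,.c8],[.c3,.c5,.c5,.c7,.c7,.c9,.c11,.c13,.c13,.c14,.c15]) ([.c15],[.c4,.c5,.c6,.c6,.c12,.c14]) ([.c4],[.c5,.c7,.c7,.c13,.c14,.c15]) ([.c5,.c5,.c6,.c7,.c12,.c13,.c14],[]) ([.c7,.c13,.c15],[.c4,.c4,.c6,.c12]), ([],[]))
/-- The blocks of a generator. -/
noncomputable def t14 : J28 → Blk I16 J28 := J28.fn t14_0 t14_1 t14_2 t14_3 t14_4 t14_5 t14_6 t14_7 t14_8 t14_9 t14_10 t14_11 t14_12 t14_13 t14_14 t14_15 t14_16 t14_17 t14_18 t14_19 t14_20 t14_21 t14_22 t14_23 t14_24 t14_25 t14_26 t14_27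
/-- One block. -/
noncomputable def t15_0 : Blk I16 J28 := (.c0, I16.fn ([.c0],[.c9]) ([.c1,.c8],[]) ([.c2],[.c11]) ([.c3,.c10],[]) ([.c4],[.c13]) ([.c5,.c12],[]) ([.c6],[.c15]) ([.c7,.c14],[]) ([.c9],[]) ([],[.c8]) ([.c11],[]) ([],[.c10]) ([.c13],[]) ([],[.c12]) ([.c15],[]) ([],[.c14]), ([],[.c13,.c15]))
/-- One block. -/
noncomputable def t15_1 : Blk I16 J28 := (.c1, I16.fn ([.c0],[.c9]) ([.c1,.c8],[]) ([.c2],[.c11]) ([.c3,.c10],[]) ([.c4],[.c13]) ([.c5,.c12],[]) ([.c6],[.c15]) ([.c7,.c14],[]) ([.c9],[]) ([],[.c8]) ([.c11],[]) ([],[.c10]) ([.c13],[]) ([],[.c12]) ([.c15],[]) ([],[.c14]), ([.c12,.c14],[.c15]))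
/-- One block. -/
noncomputable def t15_2 : Blk I16 J28 := (.c2, I16.fn ([.c0],[.c9]) ([.c1,.c8],[]) ([.c2],[.c11]) ([.c3,.c10],[]) ([.c4],[.c13]) ([.c5,.c12],[]) ([.c6],[.c15]) ([.c7,.c14],[]) ([.c9],[]) ([],[.c8]) ([.c11],[]) ([],[.c10]) ([.c13],[]) ([],[.c12]) ([.c15],[]) ([],[.c14]), ([.c12],[.c13,.c15]))
/-- One block. -/
noncomputable def t15_3 : Blk I16 J28 := (.c3, I16.fn ([.c0],[.c9]) ([.c1,.c8],[]) ([.c2],[.c11]) ([.c3,.c10],[]) ([.c4],[.c13]) ([.c5,.c12],[]) ([.c6],[.c15]) ([.c7,.c14],[]) ([.c9],[]) ([],[.c8]) ([.c11],[]) ([],[.c10]) ([.c13],[]) ([],[.c12]) ([.c15],[]) ([],[.c14]), ([],[.c13]))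
/-- One block. -/
noncomputable def t15_4 : Blk I16 J28 := (.c4, I16.fn ([.c0],[.c9]) ([.c1,.c8],[]) ([.c2],[.c11]) ([.c3,.c10],[]) ([.c4],[.c13]) ([.c5,.c12],[]) ([.c6],[.c15]) ([.c7,.c14],[]) ([.c9],[]) ([],[.c8]) ([.c11],[]) ([],[.c10]) ([.c13],[]) ([],[.c12]) ([.c15],[]) ([],[.c14]), ([.c12,.c14],[]))
/-- One block. -/
noncomputable def t15_5 : Blk I16 J28 := (.c5, I16.fn ([.c0],[.c9]) ([.c1,.c8],[]) ([.c2],[.c11]) ([.c3,.c10],[]) ([.c4],[.c13]) ([.c5,.c12],[]) ([.c6],[.c15]) ([.c7,.c14],[]) ([.c9],[]) ([],[.c8]) ([.c11],[]) ([],[.c10]) ([.c13],[]) ([],[.c12]) ([.c15],[]) ([],[.c14]), ([.c15],[]))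
/-- One block. -/
noncomputable def t15_6 : Blk I16 J28 := (.c6, I16.fn ([.c0],[.c9]) ([.c1,.c8],[]) ([.c2],[.c11]) ([.c3,.c10],[]) ([.c4],[.c13]) ([.c5,.c12],[]) ([.c6],[.c15]) ([.c7,.c14],[]) ([.c9],[]) ([],[.c8]) ([.c11],[]) ([],[.c10]) ([.c13],[]) ([],[.c12]) ([.c15],[]) ([],[.c14]), ([],[]))
/-- One block. -/
noncomputable def t15_7 : Blk I16 J28 := (.c7, I16.fn ([.c0],[.c9]) ([.c1,.c8],[]) ([.c2],[.c11]) ([.c3,.c10],[]) ([.c4],[.c13]) ([.c5,.c12],[]) ([.c6],[.c15]) ([.c7,.c14],[]) ([.c9],[]) ([],[.c8]) ([.c11],[]) ([],[.c10]) ([.c13],[]) ([],[.c12]) ([.c15],[]) ([],[.c14]), ([],[]))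
/-- One block. -/
noncomputable def t15_8 : Blk I16 J28 := (.c8, I16.fn ([.c0],[.c9]) ([.c1,.c8],[]) ([.c2],[.c11]) ([.c3,.c10],[]) ([.c4],[.c13]) ([.c5,.c12],[]) ([.c6],[.c15]) ([.c7,.c14],[]) ([.c9],[]) ([],[.c8]) ([.c11],[]) ([],[.c10]) ([.c13],[]) ([],[.c12]) ([.c15],[]) ([],[.c14]), ([],[]))
/-- One block. -/
noncomputable def t15_9 : Blk I16 J28 := (.c9, I16.fn ([.c0],[.c9]) ([.c1,.c8],[]) ([.c2],[.c11]) ([.c3,.c10],[]) ([.c4],[.c13]) ([.c5,.c12],[]) ([.c6],[.c15]) ([.c7,.c14],[]) ([.c9],[]) ([],[.c8]) ([.c11],[]) ([],[.c10]) ([.c13],[]) ([],[.c12]) ([.c15],[]) ([],[.c14]), ([],[]))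
/-- One block. -/
noncomputable def t15_10 : Blk I16 J28 := (.c10, I16.fn ([.c0],[.c9]) ([.c1,.c8],[]) ([.c2],[.c11]) ([.c3,.c10],[]) ([.c4],[.c13]) ([.c5,.c12],[]) ([.c6],[.c15]) ([.c7,.c14],[]) ([.c9],[]) ([],[.c8]) ([.c11],[]) ([],[.c10]) ([.c13],[]) ([],[.c12]) ([.c15],[]) ([],[.c14]), ([],[]))
/-- One block. -/
noncomputable def t15_11 : Blk I16 J28 := (.c11, I16.fn ([.c0],[.c9]) ([.c1,.c8],[]) ([.c2],[.c11]) ([.c3,.c10],[]) ([.c4],[.c13]) ([.c5,.c12],[]) ([.c6],[.c15]) ([.c7,.c14],[]) ([.c9],[]) ([],[.c8]) ([.c11],[]) ([],[.c10]) ([.c13],[]) ([],[.c12]) ([.c15],[]) ([],[.c14]), ([],[]))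
/-- One block. -/
noncomputable def t15_12 : Blk I16 J28 := (.c12, I16.fn ([.c0],[.c9]) ([.c1,.c8],[]) ([.c2],[.c11]) ([.c3,.c10],[]) ([.c4],[.c13]) ([.c5,.c12],[]) ([.c6],[.c15]) ([.c7,.c14],[]) ([.c9],[]) ([],[.c8]) ([.c11],[]) ([],[.c10]) ([.c13],[]) ([],[.c12]) ([.c15],[]) ([],[.c14]), ([],[]))
/-- One block. -/
noncomputable def t15_13 : Blk I16 J28 := (.c13, I16.fn ([.c0],[.c9]) ([.c1,.c8],[]) ([.c2],[.c11]) ([.c3,.c10],[]) ([.c4],[.c13]) ([.c5,.c12],[]) ([.c6],[.c15]) ([.c7,.c14],[]) ([.c9],[]) ([],[.c8]) ([.c11],[]) ([],[.c10]) ([.c13],[]) ([],[.c12]) ([.c15],[]) ([],[.c14]), ([],[]))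
/-- One block. -/
noncomputable def t15_14 : Blk I16 J28 := (.c14, I16.fn ([.c0],[.c9]) ([.c1,.c8],[]) ([.c2],[.c11]) ([.c3,.c10],[]) ([.c4],[.c13]) ([.c5,.c12],[]) ([.c6],[.c15]) ([.c7,.c14],[]) ([.c9],[]) ([],[.c8]) ([.c11],[]) ([],[.c10]) ([.c13],[]) ([],[.c12]) ([.c15],[]) ([],[.c14]), ([],[]))
/-- One block. -/
noncomputable def t15_15 : Blk I16 J28 := (.c15, I16.fn ([.c0],[.c9]) ([.c1,.c8],[]) ([.c2],[.c11]) ([.c3,.c10],[]) ([.c4],[.c13]) ([.c5,.c12],[]) ([.c6],[.c15]) ([.c7,.c14],[]) ([.c9],[]) ([],[.c8]) ([.c11],[]) ([],[.c10]) ([.c13],[]) ([],[.c12]) ([.c15],[]) ([],[.c14]), ([],[]))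
/-- One block. -/
noncomputable def t15_16 : Blk I16 J28 := (.c23, I16.fn ([.c11,.c13,.c15,.c15],[.c1,.c2,.c3,.c4,.c5,.c6,.c6,.c8,.c10,.c12]) ([.c0,.c2,.c4],[.c3,.c5,.c7,.c7,.c9,.c10,.c11,.c12,.c13,.c14,.c14]) ([.c1,.c3,.c5,.c5,.c6,.c7,.c8,.c9,.c10,.c12,.c12,.c14],[.c0,.c15]) ([.c7,.c9,.c11,.c13,.c13,.c14,.c15],[.c0,.c1,.c2,.c4,.c4,.c6,.c8]) ([.c5,.c6,.c7,.c12,.c14],[.c15]) ([.c7,.c13,.c14,.c15],[.c4,.c6]) ([.c4],[.c5,.c7,.c12,.c13,.c14]) ([.c4,.c5,.c6,.c12],[.c13,.c15]) ([.c1,.c3,.c3,.c5,.c5,.c6,.c6,.c7,.c7,.c9,.c10,.c11,.c12,.c13,.c14,.c14],[.c0]) ([.c7,.c7,.c11,.c13,.c15,.c15],[.c0,.c1,.c2,.c2,.c4,.c4,.c6,.c6,.c8,.c10,.c12]) ([.c0,.c0,.c2,.c4,.c4,.c8],[.c3,.c5,.c5,.c7,.c7,.c9,.c11,.c13,.c13,.c14,.c15]) ([.c1,.c1,.c2,.c3,.c4,.c4,.c5,.c5,.c6,.c6,.c8,.c9,.c10,.c12,.c12,.c14],[.c15])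 ([.c4],[.c5,.c7,.c7,.c13,.c14,.c15]) ([.c4,.c5,.c6,.c6,.c12,.c14],[.c15]) ([.c7,.c13,.c15],[.c4,.c4,.c6,.c12]) ([],[.c5,.c5,.c6,.c7,.c12,.c13,.c14]), ([],[]))
/-- One block. -/
noncomputable def t15_17 : Blk I16 J28 := (.c22, I16.fn ([.c1,.c2,.c3,.c4,.c5,.c6,.c6,.c8,.c10,.c12],[.c11,.c13,.c15,.c15]) ([.c3,.c5,.c7,.c7,.c9,.c10,.c11,.c12,.c13,.c14,.c14],[.c0,.c2,.c4]) ([.c0,.c15],[.c1,.c3,.c5,.c5,.c6,.c7,.c8,.c9,.c10,.c12,.c12,.c14]) ([.c0,.c1,.c2,.c4,.c4,.c6,.c8],[.c7,.c9,.c11,.c13,.c13,.c14,.c15]) ([.c15],[.c5,.c6,.c7,.c12,.c14]) ([.c4,.c6],[.c7,.c13,.c14,.c15]) ([.c5,.c7,.c12,.c13,.c14],[.c4]) ([.c13,.c15],[.c4,.c5,.c6,.c12]) ([.c0],[.c1,.c3,.c3,.c5,.c5,.c6,.c6,.c7,.c7,.c9,.c10,.c11,.c12,.c13,.c14,.c14]) ([.c0,.c1,.c2,.c2,.c4,.c4,.c6,.c6,.c8,.c10,.c12],[.c7,.c7,.c11,.c13,.c15,.c15])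 ([.c3,.c5,.c5,.c7,.c7,.c9,.c11,.c13,.c13,.c14,.c15],[.c0,.c0,.c2,.c4,.c4,.c8]) ([.c15],[.c1,.c1,.c2,.c3,.c4,.c4,.c5,.c5,.c6,.c6,.c8,.c9,.c10,.c12,.c12,.c14]) ([.c5,.c7,.c7,.c13,.c14,.c15],[.c4]) ([.c15],[.c4,.c5,.c6,.c6,.c12,.c14]) ([.c4,.c4,.c6,.c12],[.c7,.c13,.c15]) ([.c5,.c5,.c6,.c7,.c12,.c13,.c14],[]), ([],[]))
/-- One block. -/
noncomputable def t15_18 : Blk I16 J28 := (.c27, I16.fn ([.c11,.c13,.c15,.c15],[.c1,.c2,.c3,.c4,.c5,.c6,.c6,.c8,.c10,.c12]) ([.c0,.c2,.c4],[.c3,.c5,.c7,.c7,.c9,.c10,.c11,.c12,.c13,.c14,.c14]) ([.c1,.c3,.c5,.c5,.c6,.c7,.c8,.c9,.c10,.c12,.c12,.c14],[.c0,.c15]) ([.c7,.c9,.c11,.c13,.c13,.c14,.c15],[.c0,.c1,.c2,.c4,.c4,.c6,.c8]) ([.c5,.c6,.c7,.c12,.c14],[.c15]) ([.c7,.c13,.c14,.c15],[.c4,.c6]) ([.c4],[.c5,.c7,.c12,.c13,.c14])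 ([.c4,.c5,.c6,.c12],[.c13,.c15]) ([.c1,.c3,.c3,.c5,.c5,.c6,.c6,.c7,.c7,.c9,.c10,.c11,.c12,.c13,.c14,.c14],[.c0]) ([.c7,.c7,.c11,.c13,.c15,.c15],[.c0,.c1,.c2,.c2,.c4,.c4,.c6,.c6,.c8,.c10,.c12]) ([.c0,.c0,.c2,.c4,.c4,.c8],[.c3,.c5,.c5,.c7,.c7,.c9,.c11,.c13,.c13,.c14,.c15]) ([.c1,.c1,.c2,.c3,.c4,.c4,.c5,.c5,.c6,.c6,.c8,.c9,.c10,.c12,.c12,.c14],[.c15]) ([.c4],[.c5,.c7,.c7,.c13,.c14,.c15]) ([.c4,.c5,.c6,.c6,.c12,.c14],[.c15]) ([.c7,.c13,.c15],[.c4,.c4,.c6,.c12]) ([],[.c5,.c5,.c6,.c7,.c12,.c13,.c14]), ([],[]))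
/-- One block. -/
noncomputable def t15_19 : Blk I16 J28 := (.c25, I16.fn ([.c11,.c13,.c15,.c15],[.c1,.c2,.c3,.c4,.c5,.c6,.c6,.c8,.c10,.c12]) ([.c0,.c2,.c4],[.c3,.c5,.c7,.c7,.c9,.c10,.c11,.c12,.c13,.c14,.c14]) ([.c1,.c3,.c5,.c5,.c6,.c7,.c8,.c9,.c10,.c12,.c12,.c14],[.c0,.c15]) ([.c7,.c9,.c11,.c13,.c13,.c14,.c15],[.c0,.c1,.c2,.c4,.c4,.c6,.c8]) ([.c5,.c6,.c7,.c12,.c14],[.c15]) ([.c7,.c13,.c14,.c15],[.c4,.c6]) ([.c4],[.c5,.c7,.c12,.c13,.c14]) ([.c4,.c5,.c6,.c12],[.c13,.c15]) ([.c1,.c3,.c3,.c5,.c5,.c6,.c6,.c7,.c7,.c9,.c10,.c11,.c12,.c13,.c14,.c14],[.c0]) ([.c7,.c7,.c11,.c13,.c15,.c15],[.c0,.c1,.c2,.c2,.c4,.c4,.c6,.c6,.c8,.c10,.c12]) ([.c0,.c0,.c2,.c4,.c4,.c8],[.c3,.c5,.c5,.c7,.c7,.c9,.c11,.c13,.c13,.c14,.c15]) ([.c1,.c1,.c2,.c3,.c4,.c4,.c5,.c5,.c6,.c6,.c8,.c9,.c10,.c12,.c12,.c14],[.c15])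 ([.c4],[.c5,.c7,.c7,.c13,.c14,.c15]) ([.c4,.c5,.c6,.c6,.c12,.c14],[.c15]) ([.c7,.c13,.c15],[.c4,.c4,.c6,.c12]) ([],[.c5,.c5,.c6,.c7,.c12,.c13,.c14]), ([],[]))
/-- One block. -/
noncomputable def t15_20 : Blk I16 J28 := (.c24, I16.fn ([.c0,.c2,.c4],[.c3,.c5,.c7,.c7,.c9,.c10,.c11,.c12,.c13,.c14,.c14]) ([.c1,.c2,.c3,.c4,.c5,.c6,.c6,.c8,.c10,.c12],[.c11,.c13,.c15,.c15]) ([.c7,.c9,.c11,.c13,.c13,.c14,.c15],[.c0,.c1,.c2,.c4,.c4,.c6,.c8]) ([.c0,.c15],[.c1,.c3,.c5,.c5,.c6,.c7,.c8,.c9,.c10,.c12,.c12,.c14]) ([.c7,.c13,.c14,.c15],[.c4,.c6]) ([.c15],[.c5,.c6,.c7,.c12,.c14]) ([.c4,.c5,.c6,.c12],[.c13,.c15]) ([.c5,.c7,.c12,.c13,.c14],[.c4]) ([.c7,.c7,.c11,.c13,.c15,.c15],[.c0,.c1,.c2,.c2,.c4,.c4,.c6,.c6,.c8,.c10,.c12]) ([.c0],[.c1,.c3,.c3,.c5,.c5,.c6,.c6,.c7,.c7,.c9,.c10,.c11,.c12,.c13,.c14,.c14])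 ([.c1,.c1,.c2,.c3,.c4,.c4,.c5,.c5,.c6,.c6,.c8,.c9,.c10,.c12,.c12,.c14],[.c15]) ([.c3,.c5,.c5,.c7,.c7,.c9,.c11,.c13,.c13,.c14,.c15],[.c0,.c0,.c2,.c4,.c4,.c8]) ([.c4,.c5,.c6,.c6,.c12,.c14],[.c15]) ([.c5,.c7,.c7,.c13,.c14,.c15],[.c4]) ([],[.c5,.c5,.c6,.c7,.c12,.c13,.c14]) ([.c4,.c4,.c6,.c12],[.c7,.c13,.c15]), ([],[]))
/-- One block. -/
noncomputable def t15_21 : Blk I16 J28 := (.c26, I16.fn ([.c0,.c2,.c4],[.c3,.c5,.c7,.c7,.c9,.c10,.c11,.c12,.c13,.c14,.c14]) ([.c1,.c2,.c3,.c4,.c5,.c6,.c6,.c8,.c10,.c12],[.c11,.c13,.c15,.c15]) ([.c7,.c9,.c11,.c13,.c13,.c14,.c15],[.c0,.c1,.c2,.c4,.c4,.c6,.c8]) ([.c0,.c15],[.c1,.c3,.c5,.c5,.c6,.c7,.c8,.c9,.c10,.c12,.c12,.c14]) ([.c7,.c13,.c14,.c15],[.c4,.c6]) ([.c15],[.c5,.c6,.c7,.c12,.c14]) ([.c4,.c5,.c6,.c12],[.c13,.c15])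 ([.c5,.c7,.c12,.c13,.c14],[.c4]) ([.c7,.c7,.c11,.c13,.c15,.c15],[.c0,.c1,.c2,.c2,.c4,.c4,.c6,.c6,.c8,.c10,.c12]) ([.c0],[.c1,.c3,.c3,.c5,.c5,.c6,.c6,.c7,.c7,.c9,.c10,.c11,.c12,.c13,.c14,.c14]) ([.c1,.c1,.c2,.c3,.c4,.c4,.c5,.c5,.c6,.c6,.c8,.c9,.c10,.c12,.c12,.c14],[.c15]) ([.c3,.c5,.c5,.c7,.c7,.c9,.c11,.c13,.c13,.c14,.c15],[.c0,.c0,.c2,.c4,.c4,.c8]) ([.c4,.c5,.c6,.c6,.c12,.c14],[.c15]) ([.c5,.c7,.c7,.c13,.c14,.c15],[.c4]) ([],[.c5,.c5,.c6,.c7,.c12,.c13,.c14]) ([.c4,.c4,.c6,.c12],[.c7,.c13,.c15]), ([],[]))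
/-- One block. -/
noncomputable def t15_22 : Blk I16 J28 := (.c17, I16.fn ([.c0,.c2,.c4],[.c3,.c5,.c7,.c7,.c9,.c10,.c11,.c12,.c13,.c14,.c14]) ([.c1,.c2,.c3,.c4,.c5,.c6,.c6,.c8,.c10,.c12],[.c11,.c13,.c15,.c15]) ([.c7,.c9,.c11,.c13,.c13,.c14,.c15],[.c0,.c1,.c2,.c4,.c4,.c6,.c8]) ([.c0,.c15],[.c1,.c3,.c5,.c5,.c6,.c7,.c8,.c9,.c10,.c12,.c12,.c14]) ([.c7,.c13,.c14,.c15],[.c4,.c6]) ([.c15],[.c5,.c6,.c7,.c12,.c14]) ([.c4,.c5,.c6,.c12],[.c13,.c15]) ([.c5,.c7,.c12,.c13,.c14],[.c4]) ([.c7,.c7,.c11,.c13,.c15,.c15],[.c0,.c1,.c2,.c2,.c4,.c4,.c6,.c6,.c8,.c10,.c12]) ([.c0],[.c1,.c3,.c3,.c5,.c5,.c6,.c6,.c7,.c7,.c9,.c10,.c11,.c12,.c13,.c14,.c14]) ([.c1,.c1,.c2,.c3,.c4,.c4,.c5,.c5,.c6,.c6,.c8,.c9,.c10,.c12,.c12,.c14],[.c15]) ([.c3,.c5,.c5,.c7,.c7,.c9,.c11,.c13,.c13,.c14,.c15],[.c0,.c0,.c2,.c4,.c4,.c8])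 ([.c4,.c5,.c6,.c6,.c12,.c14],[.c15]) ([.c5,.c7,.c7,.c13,.c14,.c15],[.c4]) ([],[.c5,.c5,.c6,.c7,.c12,.c13,.c14]) ([.c4,.c4,.c6,.c12],[.c7,.c13,.c15]), ([],[]))
/-- One block. -/
noncomputable def t15_23 : Blk I16 J28 := (.c16, I16.fn ([.c3,.c5,.c7,.c7,.c9,.c10,.c11,.c12,.c13,.c14,.c14],[.c0,.c2,.c4]) ([.c11,.c13,.c15,.c15],[.c1,.c2,.c3,.c4,.c5,.c6,.c6,.c8,.c10,.c12]) ([.c0,.c1,.c2,.c4,.c4,.c6,.c8],[.c7,.c9,.c11,.c13,.c13,.c14,.c15]) ([.c1,.c3,.c5,.c5,.c6,.c7,.c8,.c9,.c10,.c12,.c12,.c14],[.c0,.c15]) ([.c4,.c6],[.c7,.c13,.c14,.c15]) ([.c5,.c6,.c7,.c12,.c14],[.c15]) ([.c13,.c15],[.c4,.c5,.c6,.c12]) ([.c4],[.c5,.c7,.c12,.c13,.c14]) ([.c0,.c1,.c2,.c2,.c4,.c4,.c6,.c6,.c8,.c10,.c12],[.c7,.c7,.c11,.c13,.c15,.c15]) ([.c1,.c3,.c3,.c5,.c5,.c6,.c6,.c7,.c7,.c9,.c10,.c11,.c12,.c13,.c14,.c14],[.c0])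 ([.c15],[.c1,.c1,.c2,.c3,.c4,.c4,.c5,.c5,.c6,.c6,.c8,.c9,.c10,.c12,.c12,.c14]) ([.c0,.c0,.c2,.c4,.c4,.c8],[.c3,.c5,.c5,.c7,.c7,.c9,.c11,.c13,.c13,.c14,.c15]) ([.c15],[.c4,.c5,.c6,.c6,.c12,.c14]) ([.c4],[.c5,.c7,.c7,.c13,.c14,.c15]) ([.c5,.c5,.c6,.c7,.c12,.c13,.c14],[]) ([.c7,.c13,.c15],[.c4,.c4,.c6,.c12]), ([],[]))
/-- One block. -/
noncomputable def t15_24 : Blk I16 J28 := (.c20, I16.fn ([.c1,.c2,.c3,.c4,.c5,.c6,.c6,.c8,.c10,.c12],[.c11,.c13,.c15,.c15]) ([.c3,.c5,.c7,.c7,.c9,.c10,.c11,.c12,.c13,.c14,.c14],[.c0,.c2,.c4]) ([.c0,.c15],[.c1,.c3,.c5,.c5,.c6,.c7,.c8,.c9,.c10,.c12,.c12,.c14]) ([.c0,.c1,.c2,.c4,.c4,.c6,.c8],[.c7,.c9,.c11,.c13,.c13,.c14,.c15]) ([.c15],[.c5,.c6,.c7,.c12,.c14]) ([.c4,.c6],[.c7,.c13,.c14,.c15]) ([.c5,.c7,.c12,.c13,.c14],[.c4])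 ([.c13,.c15],[.c4,.c5,.c6,.c12]) ([.c0],[.c1,.c3,.c3,.c5,.c5,.c6,.c6,.c7,.c7,.c9,.c10,.c11,.c12,.c13,.c14,.c14]) ([.c0,.c1,.c2,.c2,.c4,.c4,.c6,.c6,.c8,.c10,.c12],[.c7,.c7,.c11,.c13,.c15,.c15]) ([.c3,.c5,.c5,.c7,.c7,.c9,.c11,.c13,.c13,.c14,.c15],[.c0,.c0,.c2,.c4,.c4,.c8]) ([.c15],[.c1,.c1,.c2,.c3,.c4,.c4,.c5,.c5,.c6,.c6,.c8,.c9,.c10,.c12,.c12,.c14]) ([.c5,.c7,.c7,.c13,.c14,.c15],[.c4]) ([.c15],[.c4,.c5,.c6,.c6,.c12,.c14]) ([.c4,.c4,.c6,.c12],[.c7,.c13,.c15]) ([.c5,.c5,.c6,.c7,.c12,.c13,.c14],[]), ([],[]))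
/-- One block. -/
noncomputable def t15_25 : Blk I16 J28 := (.c19, I16.fn ([.c3,.c5,.c7,.c7,.c9,.c10,.c11,.c12,.c13,.c14,.c14],[.c0,.c2,.c4]) ([.c11,.c13,.c15,.c15],[.c1,.c2,.c3,.c4,.c5,.c6,.c6,.c8,.c10,.c12]) ([.c0,.c1,.c2,.c4,.c4,.c6,.c8],[.c7,.c9,.c11,.c13,.c13,.c14,.c15]) ([.c1,.c3,.c5,.c5,.c6,.c7,.c8,.c9,.c10,.c12,.c12,.c14],[.c0,.c15]) ([.c4,.c6],[.c7,.c13,.c14,.c15]) ([.c5,.c6,.c7,.c12,.c14],[.c15]) ([.c13,.c15],[.c4,.c5,.c6,.c12]) ([.c4],[.c5,.c7,.c12,.c13,.c14]) ([.c0,.c1,.c2,.c2,.c4,.c4,.c6,.c6,.c8,.c10,.c12],[.c7,.c7,.c11,.c13,.c15,.c15]) ([.c1,.c3,.c3,.c5,.c5,.c6,.c6,.c7,.c7,.c9,.c10,.c11,.c12,.c13,.c14,.c14],[.c0]) ([.c15],[.c1,.c1,.c2,.c3,.c4,.c4,.c5,.c5,.c6,.c6,.c8,.c9,.c10,.c12,.c12,.c14]) ([.c0,.c0,.c2,.c4,.c4,.c8],[.c3,.c5,.c5,.c7,.c7,.c9,.c11,.c13,.c13,.c14,.c15])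 ([.c15],[.c4,.c5,.c6,.c6,.c12,.c14]) ([.c4],[.c5,.c7,.c7,.c13,.c14,.c15]) ([.c5,.c5,.c6,.c7,.c12,.c13,.c14],[]) ([.c7,.c13,.c15],[.c4,.c4,.c6,.c12]), ([],[]))
/-- One block. -/
noncomputable def t15_26 : Blk I16 J28 := (.c21, I16.fn ([.c1,.c2,.c3,.c4,.c5,.c6,.c6,.c8,.c10,.c12],[.c11,.c13,.c15,.c15]) ([.c3,.c5,.c7,.c7,.c9,.c10,.c11,.c12,.c13,.c14,.c14],[.c0,.c2,.c4]) ([.c0,.c15],[.c1,.c3,.c5,.c5,.c6,.c7,.c8,.c9,.c10,.c12,.c12,.c14]) ([.c0,.c1,.c2,.c4,.c4,.c6,.c8],[.c7,.c9,.c11,.c13,.c13,.c14,.c15]) ([.c15],[.c5,.c6,.c7,.c12,.c14]) ([.c4,.c6],[.c7,.c13,.c14,.c15]) ([.c5,.c7,.c12,.c13,.c14],[.c4]) ([.c13,.c15],[.c4,.c5,.c6,.c12]) ([.c0],[.c1,.c3,.c3,.c5,.c5,.c6,.c6,.c7,.c7,.c9,.c10,.c11,.c12,.c13,.c14,.c14]) ([.c0,.c1,.c2,.c2,.c4,.c4,.c6,.c6,.c8,.c10,.c12],[.c7,.c7,.c11,.c13,.c15,.c15])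 ([.c3,.c5,.c5,.c7,.c7,.c9,.c11,.c13,.c13,.c14,.c15],[.c0,.c0,.c2,.c4,.c4,.c8]) ([.c15],[.c1,.c1,.c2,.c3,.c4,.c4,.c5,.c5,.c6,.c6,.c8,.c9,.c10,.c12,.c12,.c14]) ([.c5,.c7,.c7,.c13,.c14,.c15],[.c4]) ([.c15],[.c4,.c5,.c6,.c6,.c12,.c14]) ([.c4,.c4,.c6,.c12],[.c7,.c13,.c15]) ([.c5,.c5,.c6,.c7,.c12,.c13,.c14],[]), ([],[]))
/-- One block. -/
noncomputable def t15_27 : Blk I16 J28 := (.c18, I16.fn ([.c3,.c5,.c7,.c7,.c9,.c10,.c11,.c12,.c13,.c14,.c14],[.c0,.c2,.c4]) ([.c11,.c13,.c15,.c15],[.c1,.c2,.c3,.c4,.c5,.c6,.c6,.c8,.c10,.c12]) ([.c0,.c1,.c2,.c4,.c4,.c6,.c8],[.c7,.c9,.c11,.c13,.c13,.c14,.c15]) ([.c1,.c3,.c5,.c5,.c6,.c7,.c8,.c9,.c10,.c12,.c12,.c14],[.c0,.c15]) ([.c4,.c6],[.c7,.c13,.c14,.c15]) ([.c5,.c6,.c7,.c12,.c14],[.c15]) ([.c13,.c15],[.c4,.c5,.c6,.c12])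 ([.c4],[.c5,.c7,.c12,.c13,.c14]) ([.c0,.c1,.c2,.c2,.c4,.c4,.c6,.c6,.c8,.c10,.c12],[.c7,.c7,.c11,.c13,.c15,.c15]) ([.c1,.c3,.c3,.c5,.c5,.c6,.c6,.c7,.c7,.c9,.c10,.c11,.c12,.c13,.c14,.c14],[.c0]) ([.c15],[.c1,.c1,.c2,.c3,.c4,.c4,.c5,.c5,.c6,.c6,.c8,.c9,.c10,.c12,.c12,.c14]) ([.c0,.c0,.c2,.c4,.c4,.c8],[.c3,.c5,.c5,.c7,.c7,.c9,.c11,.c13,.c13,.c14,.c15]) ([.c15],[.c4,.c5,.c6,.c6,.c12,.c14]) ([.c4],[.c5,.c7,.c7,.c13,.c14,.c15]) ([.c5,.c5,.c6,.c7,.c12,.c13,.c14],[]) ([.c7,.c13,.c15],[.c4,.c4,.c6,.c12]), ([],[]))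
/-- The blocks of a generator. -/
noncomputable def t15 : J28 → Blk I16 J28 := J28.fn t15_0 t15_1 t15_2 t15_3 t15_4 t15_5 t15_6 t15_7 t15_8 t15_9 t15_10 t15_11 t15_12 t15_13 t15_14 t15_15 t15_16 t15_17 t15_18 t15_19 t15_20 t15_21 t15_22 t15_23 t15_24 t15_25 t15_26 t15_27

end Pool.Agent.Lib.MP_c86c76_al.Eng
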