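import Pool.Agent.Lib.MP_c86c76_al.Eng.Form4D

/-!
Tables of an affine action of the genus four mapping class group.
-/

set_option autoImplicit false

namespace Pool.Agent.Lib.MP_c86c76_al.Eng

/-- Eighteen rows. -/
noncomputable def u0_0 : I18 → Row P4 := I18.fn ([p1],[p0]) ([],[p0]) ([p3],[p2]) ([],[p2]) ([p5],[p4]) ([],[p4]) ([p7],[p6]) ([],[p6]) ([p9],[p8]) ([],[p8]) ([p11],[p10]) ([],[p10]) ([p13],[p12]) ([],[p12]) ([p15],[p14]) ([],[p14]) ([p17],[p16]) ([],[p16])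
/-- Eighteen rows. -/
noncomputable def u0_1 : I18 → Row P4 := I18.fn ([p19],[p18]) ([],[p18]) ([p21],[p20]) ([],[p20]) ([p23],[p22]) ([],[p22]) ([p25],[p24]) ([],[p24]) ([p27],[p26]) ([],[p26]) ([p29],[p28]) ([],[p28]) ([p31],[p30]) ([],[p30]) ([p33],[p32]) ([],[p32]) ([p35],[p34]) ([],[p34])
/-- Eighteen rows. -/
noncomputable def u0_2 : I18 → Row P4 := I18.fn ([p37],[p36]) ([],[p36]) ([p39],[p38]) ([],[p38]) ([p41],[p40]) ([],[p40]) ([p43],[p42]) ([],[p42]) ([p45],[p44]) ([],[p44]) ([p47],[p46]) ([],[p46]) ([p49],[p48]) ([],[p48]) ([p51],[p50]) ([],[p50]) ([p53],[p52]) ([],[p52])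
/-- Eighteen rows. -/
noncomputable def u0_3 : I18 → Row P4 := I18.fn ([p0,p54],[p1]) ([p0,p55],[]) ([p2,p2,p56],[p3]) ([p2,p3,p57],[]) ([p4,p58],[p5]) ([p4,p59],[]) ([p6,p6,p60],[p7]) ([p6,p7,p61],[]) ([p8,p62],[p9]) ([p8,p63],[]) ([p10,p10,p64],[p11]) ([p10,p11,p65],[]) ([p12,p66],[p13]) ([p12,p67],[]) ([p14,p14,p68],[p15]) ([p14,p15,p69],[]) ([p16,p70],[p17]) ([p16,p71],[])
/-- Eighteen rows. -/
noncomputable def u0_4 : I18 → Row P4 := I18.fn ([p18,p18,p72],[p19]) ([p18,p19,p73],[]) ([p20,p74],[p21]) ([p20,p75],[]) ([p22,p22,p76],[p23]) ([p22,p23,p77],[]) ([p24,p78],[p25]) ([p24,p79],[]) ([p26,p26,p80],[p27]) ([p26,p27,p81],[]) ([p28,p82],[p29]) ([p28,p83],[]) ([p30,p30,p84],[p31]) ([p30,p31,p85],[]) ([p32,p86],[p33]) ([p32,p87],[]) ([p34,p34,p88],[p35]) ([p34,p35,p89],[])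
/-- Eighteen rows. -/
noncomputable def u0_5 : I18 → Row P4 := I18.fn ([p36,p90],[p37]) ([p36,p91],[]) ([p38,p38,p92],[p39]) ([p38,p39,p93],[]) ([p40,p94],[p41]) ([p40,p95],[]) ([p42,p42,p96],[p43]) ([p42,p43,p97],[]) ([p44,p98],[p45]) ([p44,p99],[]) ([p46,p46,p100],[p47]) ([p46,p47,p101],[]) ([p48,p102],[p49]) ([p48,p103],[]) ([p50,p50,p104],[p51]) ([p50,p51,p105],[]) ([p52,p106],[p53]) ([p52,p107],[])
/-- Eighteen rows. -/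
noncomputable def u0_6 : I18 → Row P4 := I18.fn ([p1,p108],[p0]) ([p109],[p0]) ([p3,p110],[p2]) ([p111],[p2]) ([p5,p112],[p4]) ([p113],[p4]) ([p7,p114],[p6]) ([p115],[p6]) ([p9,p116],[p8]) ([p117],[p8]) ([p11,p118],[p10]) ([p119],[p10]) ([p13,p120],[p12]) ([p121],[p12]) ([p15,p122],[p14]) ([p123],[p14]) ([p17,p124],[p16]) ([p125],[p16])
/-- Eighteen rows. -/
noncomputable def u0_7 : I18 → Row P4 := I18.fn ([p19,p126],[p18]) ([p127],[p18]) ([p21,p128],[p20]) ([p129],[p20]) ([p23,p130],[p22]) ([p131],[p22]) ([p25,p132],[p24]) ([p133],[p24]) ([p27,p134],[p26]) ([p135],[p26]) ([p29,p136],[p28]) ([p137],[p28]) ([p31,p138],[p30]) ([p139],[p30]) ([p33,p140],[p32]) ([p141],[p32]) ([p35,p142],[p34]) ([p143],[p34])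
/-- Eighteen rows. -/
noncomputable def u0_8 : I18 → Row P4 := I18.fn ([p37,p144],[p36]) ([p145],[p36]) ([p39,p146],[p38]) ([p147],[p38]) ([p41,p148],[p40]) ([p149],[p40]) ([p43,p150],[p42]) ([p151],[p42]) ([p45,p152],[p44]) ([p153],[p44]) ([p47,p154],[p46]) ([p155],[p46]) ([p49,p156],[p48]) ([p157],[p48]) ([p51,p158],[p50]) ([p159],[p50]) ([p53,p160],[p52]) ([p161],[p52])
/-- One table. -/
noncomputable def u0 : Unit → Blk P4 Unit := fun _ => ((), rows2 (I9.fn u0_0 u0_1 u0_2 u0_3 u0_4 u0_5 u0_6 u0_7 u0_8), ([],[]))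
/-- Eighteen rows. -/
noncomputable def u1_0 : I18 → Row P4 := I18.fn ([p1],[p0,p54,p54,p54,p108]) ([],[p0,p55,p55,p55,p109]) ([p3,p57],[p2,p56,p56,p110]) ([],[p2,p56,p57,p111]) ([p5],[p4,p58,p58,p58,p112]) ([],[p4,p59,p59,p59,p113]) ([p7,p61],[p6,p60,p60,p114]) ([],[p6,p60,p61,p115]) ([p9],[p8,p62,p62,p62,p116]) ([],[p8,p63,p63,p63,p117]) ([p11,p65],[p10,p64,p64,p118]) ([],[p10,p64,p65,p119]) ([p13],[p12,p66,p66,p66,p120]) ([],[p12,p67,p67,p67,p121]) ([p15,p69],[p14,p68,p68,p122]) ([],[p14,p68,p69,p123]) ([p17],[p16,p70,p70,p70,p124]) ([],[p16,p71,p71,p71,p125])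
/-- Eighteen rows. -/
noncomputable def u1_1 : I18 → Row P4 := I18.fn ([p19,p73],[p18,p72,p72,p126]) ([],[p18,p72,p73,p127]) ([p21],[p20,p74,p74,p74,p128]) ([],[p20,p75,p75,p75,p129]) ([p23,p77],[p22,p76,p76,p130]) ([],[p22,p76,p77,p131]) ([p25],[p24,p78,p78,p78,p132]) ([],[p24,p79,p79,p79,p133]) ([p27,p81],[p26,p80,p80,p134]) ([],[p26,p80,p81,p135]) ([p29],[p28,p82,p82,p82,p136]) ([],[p28,p83,p83,p83,p137]) ([p31,p85],[p30,p84,p84,p138]) ([],[p30,p84,p85,p139]) ([p33],[p32,p86,p86,p86,p140]) ([],[p32,p87,p87,p87,p141]) ([p35,p89],[p34,p88,p88,p142]) ([],[p34,p88,p89,p143])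
/-- Eighteen rows. -/
noncomputable def u1_2 : I18 → Row P4 := I18.fn ([p37],[p36,p90,p90,p90,p144]) ([],[p36,p91,p91,p91,p145]) ([p39,p93],[p38,p92,p92,p146]) ([],[p38,p92,p93,p147]) ([p41],[p40,p94,p94,p94,p148]) ([],[p40,p95,p95,p95,p149]) ([p43,p97],[p42,p96,p96,p150]) ([],[p42,p96,p97,p151]) ([p45],[p44,p98,p98,p98,p152]) ([],[p44,p99,p99,p99,p153]) ([p47,p101],[p46,p100,p100,p154]) ([],[p46,p100,p101,p155]) ([p49],[p48,p102,p102,p102,p156]) ([],[p48,p103,p103,p103,p157]) ([p51,p105],[p50,p104,p104,p158]) ([],[p50,p104,p105,p159]) ([p53],[p52,p106,p106,p106,p160]) ([],[p52,p107,p107,p107,p161])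
/-- Eighteen rows. -/
noncomputable def u1_3 : I18 → Row P4 := I18.fn ([p54],[]) ([p55],[]) ([p56],[]) ([p57],[]) ([p58],[]) ([p59],[]) ([p60],[]) ([p61],[]) ([p62],[]) ([p63],[]) ([p64],[]) ([p65],[]) ([p66],[]) ([p67],[]) ([p68],[]) ([p69],[]) ([p70],[]) ([p71],[])
/-- Eighteen rows. -/
noncomputable def u1_4 : I18 → Row P4 := I18.fn ([p72],[]) ([p73],[]) ([p74],[]) ([p75],[]) ([p76],[]) ([p77],[]) ([p78],[]) ([p79],[]) ([p80],[]) ([p81],[]) ([p82],[]) ([p83],[]) ([p84],[]) ([p85],[]) ([p86],[]) ([p87],[]) ([p88],[]) ([p89],[])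
/-- Eighteen rows. -/
noncomputable def u1_5 : I18 → Row P4 := I18.fn ([p90],[]) ([p91],[]) ([p92],[]) ([p93],[]) ([p94],[]) ([p95],[]) ([p96],[]) ([p97],[]) ([p98],[]) ([p99],[]) ([p100],[]) ([p101],[]) ([p102],[]) ([p103],[]) ([p104],[]) ([p105],[]) ([p106],[]) ([p107],[])
/-- Eighteen rows. -/
noncomputable def u1_6 : I18 → Row P4 := I18.fn ([p108],[]) ([p109],[]) ([p110],[]) ([p111],[]) ([p112],[]) ([p113],[]) ([p114],[]) ([p115],[]) ([p116],[]) ([p117],[]) ([p118],[]) ([p119],[]) ([p120],[]) ([p121],[]) ([p122],[]) ([p123],[]) ([p124],[]) ([p125],[])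
/-- Eighteen rows. -/
noncomputable def u1_7 : I18 → Row P4 := I18.fn ([p126],[]) ([p127],[]) ([p128],[]) ([p129],[]) ([p130],[]) ([p131],[]) ([p132],[]) ([p133],[]) ([p134],[]) ([p135],[]) ([p136],[]) ([p137],[]) ([p138],[]) ([p139],[]) ([p140],[]) ([p141],[]) ([p142],[]) ([p143],[])
/-- Eighteen rows. -/
noncomputable def u1_8 : I18 → Row P4 := I18.fn ([p144],[]) ([p145],[]) ([p146],[]) ([p147],[]) ([p148],[]) ([p149],[]) ([p150],[]) ([p151],[]) ([p152],[]) ([p153],[]) ([p154],[]) ([p155],[]) ([p156],[]) ([p157],[]) ([p158],[]) ([p159],[]) ([p160],[]) ([p161],[])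
/-- One table. -/
noncomputable def u1 : Unit → Blk P4 Unit := fun _ => ((), rows2 (I9.fn u1_0 u1_1 u1_2 u1_3 u1_4 u1_5 u1_6 u1_7 u1_8), ([],[]))
/-- Eighteen rows. -/
noncomputable def u2_0 : I18 → Row P4 := I18.fn ([p1],[p0]) ([],[p0]) ([p3],[p2]) ([],[p2]) ([p5],[p4]) ([],[p4]) ([p7],[p6]) ([],[p6]) ([p9],[p8]) ([],[p8]) ([p11],[p10]) ([],[p10]) ([p13],[p12]) ([],[p12]) ([p15],[p14]) ([],[p14]) ([p17],[p16]) ([],[p16])
/-- Eighteen rows. -/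
noncomputable def u2_1 : I18 → Row P4 := I18.fn ([p0,p18],[p1]) ([p0,p19],[]) ([p2,p2,p20],[p3]) ([p2,p3,p21],[]) ([p4,p22],[p5]) ([p4,p23],[]) ([p6,p6,p24],[p7]) ([p6,p7,p25],[]) ([p8,p26],[p9]) ([p8,p27],[]) ([p10,p10,p28],[p11]) ([p10,p11,p29],[]) ([p12,p30],[p13]) ([p12,p31],[]) ([p14,p14,p32],[p15]) ([p14,p15,p33],[]) ([p16,p34],[p17]) ([p16,p35],[])
/-- Eighteen rows. -/
noncomputable def u2_2 : I18 → Row P4 := I18.fn ([p1,p36],[p0]) ([p37],[p0]) ([p3,p38],[p2]) ([p39],[p2]) ([p5,p40],[p4]) ([p41],[p4]) ([p7,p42],[p6]) ([p43],[p6]) ([p9,p44],[p8]) ([p45],[p8]) ([p11,p46],[p10]) ([p47],[p10]) ([p13,p48],[p12]) ([p49],[p12]) ([p15,p50],[p14]) ([p51],[p14]) ([p17,p52],[p16]) ([p53],[p16])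
/-- Eighteen rows. -/
noncomputable def u2_3 : I18 → Row P4 := I18.fn ([p0,p54],[p1]) ([p0,p55],[]) ([p2,p2,p56],[p3]) ([p2,p3,p57],[]) ([p4,p58],[p5]) ([p4,p59],[]) ([p6,p6,p60],[p7]) ([p6,p7,p61],[]) ([p8,p62],[p9]) ([p8,p63],[]) ([p10,p10,p64],[p11]) ([p10,p11,p65],[]) ([p12,p66],[p13]) ([p12,p67],[]) ([p14,p14,p68],[p15]) ([p14,p15,p69],[]) ([p16,p70],[p17]) ([p16,p71],[])
/-- Eighteen rows. -/
noncomputable def u2_4 : I18 → Row P4 := I18.fn ([p1,p1,p19,p55,p73],[p0,p0,p18,p18,p54,p54,p72]) ([],[p0,p0,p18,p19,p54,p55,p72]) ([p3,p3,p21,p57,p75],[p2,p2,p20,p56,p74]) ([],[p2,p2,p20,p56,p74]) ([p5,p5,p23,p59,p77],[p4,p4,p22,p22,p58,p58,p76]) ([],[p4,p4,p22,p23,p58,p59,p76]) ([p7,p7,p25,p61,p79],[p6,p6,p24,p60,p78]) ([],[p6,p6,p24,p60,p78]) ([p9,p9,p27,p63,p81],[p8,p8,p26,p26,p62,p62,p80]) ([],[p8,p8,p26,p27,p62,p63,p80]) ([p11,p11,p29,p65,p83],[p10,p10,p28,p64,p82])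 ([],[p10,p10,p28,p64,p82]) ([p13,p13,p31,p67,p85],[p12,p12,p30,p30,p66,p66,p84]) ([],[p12,p12,p30,p31,p66,p67,p84]) ([p15,p15,p33,p69,p87],[p14,p14,p32,p68,p86]) ([],[p14,p14,p32,p68,p86]) ([p17,p17,p35,p71,p89],[p16,p16,p34,p34,p70,p70,p88]) ([],[p16,p16,p34,p35,p70,p71,p88])
/-- Eighteen rows. -/
noncomputable def u2_5 : I18 → Row P4 := I18.fn ([p0,p18,p18,p54,p54,p72,p72,p90],[p1,p1,p19,p19,p55,p55,p73,p73]) ([p0,p0,p18,p18,p54,p54,p72,p72,p91],[p1]) ([p2,p2,p2,p20,p20,p56,p56,p74,p74,p74,p74,p92],[p3,p3,p3,p21,p21,p57,p57,p75,p75]) ([p2,p2,p2,p20,p20,p56,p56,p74,p74,p75,p75,p93],[]) ([p4,p22,p22,p58,p58,p76,p76,p94],[p5,p5,p23,p23,p59,p59,p77,p77]) ([p4,p4,p22,p22,p58,p58,p76,p76,p95],[p5]) ([p6,p6,p6,p24,p24,p60,p60,p78,p78,p78,p78,p96],[p7,p7,p7,p25,p25,p61,p61,p79,p79]) ([p6,p6,p6,p24,p24,p60,p60,p78,p78,p79,p79,p97],[]) ([p8,p26,p26,p62,p62,p80,p80,p98],[p9,p9,p27,p27,p63,p63,p81,p81])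 ([p8,p8,p26,p26,p62,p62,p80,p80,p99],[p9]) ([p10,p10,p10,p28,p28,p64,p64,p82,p82,p82,p82,p100],[p11,p11,p11,p29,p29,p65,p65,p83,p83]) ([p10,p10,p10,p28,p28,p64,p64,p82,p82,p83,p83,p101],[]) ([p12,p30,p30,p66,p66,p84,p84,p102],[p13,p13,p31,p31,p67,p67,p85,p85]) ([p12,p12,p30,p30,p66,p66,p84,p84,p103],[p13]) ([p14,p14,p14,p32,p32,p68,p68,p86,p86,p86,p86,p104],[p15,p15,p15,p33,p33,p69,p69,p87,p87]) ([p14,p14,p14,p32,p32,p68,p68,p86,p86,p87,p87,p105],[]) ([p16,p34,p34,p70,p70,p88,p88,p106],[p17,p17,p35,p35,p71,p71,p89,p89]) ([p16,p16,p34,p34,p70,p70,p88,p88,p107],[p17])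
/-- Eighteen rows. -/
noncomputable def u2_6 : I18 → Row P4 := I18.fn ([p1,p108],[p0]) ([p109],[p0]) ([p3,p110],[p2]) ([p111],[p2]) ([p5,p112],[p4]) ([p113],[p4]) ([p7,p114],[p6]) ([p115],[p6]) ([p9,p116],[p8]) ([p117],[p8]) ([p11,p118],[p10]) ([p119],[p10]) ([p13,p120],[p12]) ([p121],[p12]) ([p15,p122],[p14]) ([p123],[p14]) ([p17,p124],[p16]) ([p125],[p16])
/-- Eighteen rows. -/
noncomputable def u2_7 : I18 → Row P4 := I18.fn ([p0,p18,p18,p54,p54,p72,p72,p126],[p1,p1,p19,p19,p55,p55,p73,p73]) ([p0,p0,p18,p18,p54,p54,p72,p72,p127],[p1]) ([p2,p2,p2,p20,p20,p56,p56,p74,p74,p74,p74,p128],[p3,p3,p3,p21,p21,p57,p57,p75,p75]) ([p2,p2,p2,p20,p20,p56,p56,p74,p74,p75,p75,p129],[]) ([p4,p22,p22,p58,p58,p76,p76,p130],[p5,p5,p23,p23,p59,p59,p77,p77]) ([p4,p4,p22,p22,p58,p58,p76,p76,p131],[p5]) ([p6,p6,p6,p24,p24,p60,p60,p78,p78,p78,p78,p132],[p7,p7,p7,p25,p25,p61,p61,p79,p79])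 ([p6,p6,p6,p24,p24,p60,p60,p78,p78,p79,p79,p133],[]) ([p8,p26,p26,p62,p62,p80,p80,p134],[p9,p9,p27,p27,p63,p63,p81,p81]) ([p8,p8,p26,p26,p62,p62,p80,p80,p135],[p9]) ([p10,p10,p10,p28,p28,p64,p64,p82,p82,p82,p82,p136],[p11,p11,p11,p29,p29,p65,p65,p83,p83]) ([p10,p10,p10,p28,p28,p64,p64,p82,p82,p83,p83,p137],[]) ([p12,p30,p30,p66,p66,p84,p84,p138],[p13,p13,p31,p31,p67,p67,p85,p85]) ([p12,p12,p30,p30,p66,p66,p84,p84,p139],[p13]) ([p14,p14,p14,p32,p32,p68,p68,p86,p86,p86,p86,p140],[p15,p15,p15,p33,p33,p69,p69,p87,p87]) ([p14,p14,p14,p32,p32,p68,p68,p86,p86,p87,p87,p141],[]) ([p16,p34,p34,p70,p70,p88,p88,p142],[p17,p17,p35,p35,p71,p71,p89,p89]) ([p16,p16,p34,p34,p70,p70,p88,p88,p143],[p17])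
/-- Eighteen rows. -/
noncomputable def u2_8 : I18 → Row P4 := I18.fn ([p1,p1,p1,p1,p19,p19,p19,p19,p19,p19,p37,p55,p55,p55,p55,p55,p55,p73,p73,p73,p73,p73,p73,p73,p73,p91,p91,p109,p127,p127,p145],[p0,p0,p18,p18,p18,p18,p18,p18,p36,p54,p54,p54,p54,p54,p54,p72,p72,p72,p72,p72,p72,p72,p72,p90,p90,p90,p90,p108,p126,p126,p126,p126,p144]) ([p1,p1],[p0,p0,p0,p0,p18,p18,p18,p18,p18,p18,p36,p54,p54,p54,p54,p54,p54,p72,p72,p72,p72,p72,p72,p72,p72,p90,p90,p91,p91,p108,p126,p126,p127,p127,p144]) ([p3,p3,p3,p3,p21,p21,p21,p21,p39,p57,p57,p57,p57,p75,p75,p75,p75,p75,p75,p75,p75,p93,p93,p111,p129,p129,p147],[p2,p2,p20,p20,p38,p56,p56,p74,p74,p74,p74,p74,p74,p74,p74,p92,p92,p110,p128,p128,p146]) ([p3,p3,p21,p21,p57,p57],[p2,p2,p2,p2,p20,p20,p20,p20,p38,p56,p56,p56,p56,p74,p74,p74,p74,p74,p74,p74,p74,p92,p92,p110,p128,p128,p146]) ([p5,p5,p5,p5,p23,p23,p23,p23,p23,p23,p41,p59,p59,p59,p59,p59,p59,p77,p77,p77,p77,p77,p77,p77,p77,p95,p95,p113,p131,p131,p149],[p4,p4,p22,p22,p22,p22,p22,p22,p40,p58,p58,p58,p58,p58,p58,p76,p76,p76,p76,p76,p76,p76,p76,p94,p94,p94,p94,p112,p130,p130,p130,p130,p148])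 ([p5,p5],[p4,p4,p4,p4,p22,p22,p22,p22,p22,p22,p40,p58,p58,p58,p58,p58,p58,p76,p76,p76,p76,p76,p76,p76,p76,p94,p94,p95,p95,p112,p130,p130,p131,p131,p148]) ([p7,p7,p7,p7,p25,p25,p25,p25,p43,p61,p61,p61,p61,p79,p79,p79,p79,p79,p79,p79,p79,p97,p97,p115,p133,p133,p151],[p6,p6,p24,p24,p42,p60,p60,p78,p78,p78,p78,p78,p78,p78,p78,p96,p96,p114,p132,p132,p150]) ([p7,p7,p25,p25,p61,p61],[p6,p6,p6,p6,p24,p24,p24,p24,p42,p60,p60,p60,p60,p78,p78,p78,p78,p78,p78,p78,p78,p96,p96,p114,p132,p132,p150]) ([p9,p9,p9,p9,p27,p27,p27,p27,p27,p27,p45,p63,p63,p63,p63,p63,p63,p81,p81,p81,p81,p81,p81,p81,p81,p99,p99,p117,p135,p135,p153],[p8,p8,p26,p26,p26,p26,p26,p26,p44,p62,p62,p62,p62,p62,p62,p80,p80,p80,p80,p80,p80,p80,p80,p98,p98,p98,p98,p116,p134,p134,p134,p134,p152]) ([p9,p9],[p8,p8,p8,p8,p26,p26,p26,p26,p26,p26,p44,p62,p62,p62,p62,p62,p62,p80,p80,p80,p80,p80,p80,p80,p80,p98,p98,p99,p99,p116,p134,p134,p135,p135,p152])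 ([p11,p11,p11,p11,p29,p29,p29,p29,p47,p65,p65,p65,p65,p83,p83,p83,p83,p83,p83,p83,p83,p101,p101,p119,p137,p137,p155],[p10,p10,p28,p28,p46,p64,p64,p82,p82,p82,p82,p82,p82,p82,p82,p100,p100,p118,p136,p136,p154]) ([p11,p11,p29,p29,p65,p65],[p10,p10,p10,p10,p28,p28,p28,p28,p46,p64,p64,p64,p64,p82,p82,p82,p82,p82,p82,p82,p82,p100,p100,p118,p136,p136,p154]) ([p13,p13,p13,p13,p31,p31,p31,p31,p31,p31,p49,p67,p67,p67,p67,p67,p67,p85,p85,p85,p85,p85,p85,p85,p85,p103,p103,p121,p139,p139,p157],[p12,p12,p30,p30,p30,p30,p30,p30,p48,p66,p66,p66,p66,p66,p66,p84,p84,p84,p84,p84,p84,p84,p84,p102,p102,p102,p102,p120,p138,p138,p138,p138,p156]) ([p13,p13],[p12,p12,p12,p12,p30,p30,p30,p30,p30,p30,p48,p66,p66,p66,p66,p66,p66,p84,p84,p84,p84,p84,p84,p84,p84,p102,p102,p103,p103,p120,p138,p138,p139,p139,p156]) ([p15,p15,p15,p15,p33,p33,p33,p33,p51,p69,p69,p69,p69,p87,p87,p87,p87,p87,p87,p87,p87,p105,p105,p123,p141,p141,p159],[p14,p14,p32,p32,p50,p68,p68,p86,p86,p86,p86,p86,p86,p86,p86,p104,p104,p122,p140,p140,p158])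 ([p15,p15,p33,p33,p69,p69],[p14,p14,p14,p14,p32,p32,p32,p32,p50,p68,p68,p68,p68,p86,p86,p86,p86,p86,p86,p86,p86,p104,p104,p122,p140,p140,p158]) ([p17,p17,p17,p17,p35,p35,p35,p35,p35,p35,p53,p71,p71,p71,p71,p71,p71,p89,p89,p89,p89,p89,p89,p89,p89,p107,p107,p125,p143,p143,p161],[p16,p16,p34,p34,p34,p34,p34,p34,p52,p70,p70,p70,p70,p70,p70,p88,p88,p88,p88,p88,p88,p88,p88,p106,p106,p106,p106,p124,p142,p142,p142,p142,p160]) ([p17,p17],[p16,p16,p16,p16,p34,p34,p34,p34,p34,p34,p52,p70,p70,p70,p70,p70,p70,p88,p88,p88,p88,p88,p88,p88,p88,p106,p106,p107,p107,p124,p142,p142,p143,p143,p160])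
/-- One table. -/
noncomputable def u2 : Unit → Blk P4 Unit := fun _ => ((), rows2 (I9.fn u2_0 u2_1 u2_2 u2_3 u2_4 u2_5 u2_6 u2_7 u2_8), ([],[]))
/-- Eighteen rows. -/
noncomputable def u3_0 : I18 → Row P4 := I18.fn ([p1],[p0,p18,p18,p18,p36]) ([],[p0,p19,p19,p19,p37]) ([p3,p21],[p2,p20,p20,p38]) ([],[p2,p20,p21,p39]) ([p5],[p4,p22,p22,p22,p40]) ([],[p4,p23,p23,p23,p41]) ([p7,p25],[p6,p24,p24,p42]) ([],[p6,p24,p25,p43]) ([p9],[p8,p26,p26,p26,p44]) ([],[p8,p27,p27,p27,p45]) ([p11,p29],[p10,p28,p28,p46]) ([],[p10,p28,p29,p47]) ([p13],[p12,p30,p30,p30,p48]) ([],[p12,p31,p31,p31,p49]) ([p15,p33],[p14,p32,p32,p50]) ([],[p14,p32,p33,p51]) ([p17],[p16,p34,p34,p34,p52]) ([],[p16,p35,p35,p35,p53])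
/-- Eighteen rows. -/
noncomputable def u3_1 : I18 → Row P4 := I18.fn ([p18],[]) ([p19],[]) ([p20],[]) ([p21],[]) ([p22],[]) ([p23],[]) ([p24],[]) ([p25],[]) ([p26],[]) ([p27],[]) ([p28],[]) ([p29],[]) ([p30],[]) ([p31],[]) ([p32],[]) ([p33],[]) ([p34],[]) ([p35],[])
/-- Eighteen rows. -/
noncomputable def u3_2 : I18 → Row P4 := I18.fn ([p36],[]) ([p37],[]) ([p38],[]) ([p39],[]) ([p40],[]) ([p41],[]) ([p42],[]) ([p43],[]) ([p44],[]) ([p45],[]) ([p46],[]) ([p47],[]) ([p48],[]) ([p49],[]) ([p50],[]) ([p51],[]) ([p52],[]) ([p53],[])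
/-- Eighteen rows. -/
noncomputable def u3_3 : I18 → Row P4 := I18.fn ([p55,p73],[p54,p72,p72,p90]) ([],[p54,p72,p73,p91]) ([p57],[p56,p74,p74,p74,p92]) ([],[p56,p75,p75,p75,p93]) ([p59,p77],[p58,p76,p76,p94]) ([],[p58,p76,p77,p95]) ([p61],[p60,p78,p78,p78,p96]) ([],[p60,p79,p79,p79,p97]) ([p63,p81],[p62,p80,p80,p98]) ([],[p62,p80,p81,p99]) ([p65],[p64,p82,p82,p82,p100]) ([],[p64,p83,p83,p83,p101]) ([p67,p85],[p66,p84,p84,p102]) ([],[p66,p84,p85,p103]) ([p69],[p68,p86,p86,p86,p104]) ([],[p68,p87,p87,p87,p105]) ([p71,p89],[p70,p88,p88,p106]) ([],[p70,p88,p89,p107])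
/-- Eighteen rows. -/
noncomputable def u3_4 : I18 → Row P4 := I18.fn ([p72],[]) ([p73],[]) ([p74],[]) ([p75],[]) ([p76],[]) ([p77],[]) ([p78],[]) ([p79],[]) ([p80],[]) ([p81],[]) ([p82],[]) ([p83],[]) ([p84],[]) ([p85],[]) ([p86],[]) ([p87],[]) ([p88],[]) ([p89],[])
/-- Eighteen rows. -/
noncomputable def u3_5 : I18 → Row P4 := I18.fn ([p90],[]) ([p91],[]) ([p92],[]) ([p93],[]) ([p94],[]) ([p95],[]) ([p96],[]) ([p97],[]) ([p98],[]) ([p99],[]) ([p100],[]) ([p101],[]) ([p102],[]) ([p103],[]) ([p104],[]) ([p105],[]) ([p106],[]) ([p107],[])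
/-- Eighteen rows. -/
noncomputable def u3_6 : I18 → Row P4 := I18.fn ([p109],[p108,p126,p126,p126,p144]) ([],[p108,p127,p127,p127,p145]) ([p111,p129],[p110,p128,p128,p146]) ([],[p110,p128,p129,p147]) ([p113],[p112,p130,p130,p130,p148]) ([],[p112,p131,p131,p131,p149]) ([p115,p133],[p114,p132,p132,p150]) ([],[p114,p132,p133,p151]) ([p117],[p116,p134,p134,p134,p152]) ([],[p116,p135,p135,p135,p153]) ([p119,p137],[p118,p136,p136,p154]) ([],[p118,p136,p137,p155]) ([p121],[p120,p138,p138,p138,p156]) ([],[p120,p139,p139,p139,p157]) ([p123,p141],[p122,p140,p140,p158]) ([],[p122,p140,p141,p159]) ([p125],[p124,p142,p142,p142,p160]) ([],[p124,p143,p143,p143,p161])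
/-- Eighteen rows. -/
noncomputable def u3_7 : I18 → Row P4 := I18.fn ([p126],[]) ([p127],[]) ([p128],[]) ([p129],[]) ([p130],[]) ([p131],[]) ([p132],[]) ([p133],[]) ([p134],[]) ([p135],[]) ([p136],[]) ([p137],[]) ([p138],[]) ([p139],[]) ([p140],[]) ([p141],[]) ([p142],[]) ([p143],[])
/-- Eighteen rows. -/
noncomputable def u3_8 : I18 → Row P4 := I18.fn ([p144],[]) ([p145],[]) ([p146],[]) ([p147],[]) ([p148],[]) ([p149],[]) ([p150],[]) ([p151],[]) ([p152],[]) ([p153],[]) ([p154],[]) ([p155],[]) ([p156],[]) ([p157],[]) ([p158],[]) ([p159],[]) ([p160],[]) ([p161],[])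
/-- One table. -/
noncomputable def u3 : Unit → Blk P4 Unit := fun _ => ((), rows2 (I9.fn u3_0 u3_1 u3_2 u3_3 u3_4 u3_5 u3_6 u3_7 u3_8), ([],[]))
/-- Eighteen rows. -/
noncomputable def u4_0 : I18 → Row P4 := I18.fn ([p1],[p0]) ([],[p0]) ([p3],[p2]) ([],[p2]) ([p5],[p4]) ([],[p4]) ([p0,p6],[p1]) ([p0,p7],[]) ([p2,p2,p8],[p3]) ([p2,p3,p9],[]) ([p4,p10],[p5]) ([p4,p11],[]) ([p1,p12],[p0]) ([p13],[p0]) ([p3,p14],[p2]) ([p15],[p2]) ([p5,p16],[p4]) ([p17],[p4])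
/-- Eighteen rows. -/
noncomputable def u4_1 : I18 → Row P4 := I18.fn ([p0,p18],[p1]) ([p0,p19],[]) ([p2,p2,p20],[p3]) ([p2,p3,p21],[]) ([p4,p22],[p5]) ([p4,p23],[]) ([p1,p1,p7,p19,p25],[p0,p0,p6,p6,p18,p18,p24]) ([],[p0,p0,p6,p7,p18,p19,p24]) ([p3,p3,p9,p21,p27],[p2,p2,p8,p20,p26]) ([],[p2,p2,p8,p20,p26]) ([p5,p5,p11,p23,p29],[p4,p4,p10,p10,p22,p22,p28]) ([],[p4,p4,p10,p11,p22,p23,p28]) ([p0,p6,p6,p18,p18,p24,p24,p30],[p1,p1,p7,p7,p19,p19,p25,p25]) ([p0,p0,p6,p6,p18,p18,p24,p24,p31],[p1]) ([p2,p2,p2,p8,p8,p20,p20,p26,p26,p26,p26,p32],[p3,p3,p3,p9,p9,p21,p21,p27,p27]) ([p2,p2,p2,p8,p8,p20,p20,p26,p26,p27,p27,p33],[]) ([p4,p10,p10,p22,p22,p28,p28,p34],[p5,p5,p11,p11,p23,p23,p29,p29]) ([p4,p4,p10,p10,p22,p22,p28,p28,p35],[p5])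
/-- Eighteen rows. -/
noncomputable def u4_2 : I18 → Row P4 := I18.fn ([p1,p36],[p0]) ([p37],[p0]) ([p3,p38],[p2]) ([p39],[p2]) ([p5,p40],[p4]) ([p41],[p4]) ([p0,p6,p6,p18,p18,p24,p24,p42],[p1,p1,p7,p7,p19,p19,p25,p25]) ([p0,p0,p6,p6,p18,p18,p24,p24,p43],[p1]) ([p2,p2,p2,p8,p8,p20,p20,p26,p26,p26,p26,p44],[p3,p3,p3,p9,p9,p21,p21,p27,p27]) ([p2,p2,p2,p8,p8,p20,p20,p26,p26,p27,p27,p45],[]) ([p4,p10,p10,p22,p22,p28,p28,p46],[p5,p5,p11,p11,p23,p23,p29,p29]) ([p4,p4,p10,p10,p22,p22,p28,p28,p47],[p5]) ([p1,p1,p1,p1,p7,p7,p7,p7,p7,p7,p13,p19,p19,p19,p19,p19,p19,p25,p25,p25,p25,p25,p25,p25,p25,p31,p31,p37,p43,p43,p49],[p0,p0,p6,p6,p6,p6,p6,p6,p12,p18,p18,p18,p18,p18,p18,p24,p24,p24,p24,p24,p24,p24,p24,p30,p30,p30,p30,p36,p42,p42,p42,p42,p48]) ([p1,p1],[p0,p0,p0,p0,p6,p6,p6,p6,p6,p6,p12,p18,p18,p18,p18,p18,p18,p24,p24,p24,p24,p24,p24,p24,p24,p30,p30,p31,p31,p36,p42,p42,p43,p43,p48])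 ([p3,p3,p3,p3,p9,p9,p9,p9,p15,p21,p21,p21,p21,p27,p27,p27,p27,p27,p27,p27,p27,p33,p33,p39,p45,p45,p51],[p2,p2,p8,p8,p14,p20,p20,p26,p26,p26,p26,p26,p26,p26,p26,p32,p32,p38,p44,p44,p50]) ([p3,p3,p9,p9,p21,p21],[p2,p2,p2,p2,p8,p8,p8,p8,p14,p20,p20,p20,p20,p26,p26,p26,p26,p26,p26,p26,p26,p32,p32,p38,p44,p44,p50]) ([p5,p5,p5,p5,p11,p11,p11,p11,p11,p11,p17,p23,p23,p23,p23,p23,p23,p29,p29,p29,p29,p29,p29,p29,p29,p35,p35,p41,p47,p47,p53],[p4,p4,p10,p10,p10,p10,p10,p10,p16,p22,p22,p22,p22,p22,p22,p28,p28,p28,p28,p28,p28,p28,p28,p34,p34,p34,p34,p40,p46,p46,p46,p46,p52]) ([p5,p5],[p4,p4,p4,p4,p10,p10,p10,p10,p10,p10,p16,p22,p22,p22,p22,p22,p22,p28,p28,p28,p28,p28,p28,p28,p28,p34,p34,p35,p35,p40,p46,p46,p47,p47,p52])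
/-- Eighteen rows. -/
noncomputable def u4_3 : I18 → Row P4 := I18.fn ([p55],[p54]) ([],[p54]) ([p57],[p56]) ([],[p56]) ([p59],[p58]) ([],[p58]) ([p54,p54,p60],[p55]) ([p54,p55,p61],[]) ([p56,p62],[p57]) ([p56,p63],[]) ([p58,p58,p64],[p59]) ([p58,p59,p65],[]) ([p55,p66],[p54]) ([p67],[p54]) ([p57,p68],[p56]) ([p69],[p56]) ([p59,p70],[p58]) ([p71],[p58])
/-- Eighteen rows. -/
noncomputable def u4_4 : I18 → Row P4 := I18.fn ([p54,p54,p72],[p55]) ([p54,p55,p73],[]) ([p56,p74],[p57]) ([p56,p75],[]) ([p58,p58,p76],[p59]) ([p58,p59,p77],[]) ([p55,p55,p61,p73,p79],[p54,p54,p60,p72,p78]) ([],[p54,p54,p60,p72,p78]) ([p57,p57,p63,p75,p81],[p56,p56,p62,p62,p74,p74,p80]) ([],[p56,p56,p62,p63,p74,p75,p80]) ([p59,p59,p65,p77,p83],[p58,p58,p64,p76,p82]) ([],[p58,p58,p64,p76,p82]) ([p54,p54,p54,p60,p60,p72,p72,p78,p78,p78,p78,p84],[p55,p55,p55,p61,p61,p73,p73,p79,p79])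 ([p54,p54,p54,p60,p60,p72,p72,p78,p78,p79,p79,p85],[]) ([p56,p62,p62,p74,p74,p80,p80,p86],[p57,p57,p63,p63,p75,p75,p81,p81]) ([p56,p56,p62,p62,p74,p74,p80,p80,p87],[p57]) ([p58,p58,p58,p64,p64,p76,p76,p82,p82,p82,p82,p88],[p59,p59,p59,p65,p65,p77,p77,p83,p83]) ([p58,p58,p58,p64,p64,p76,p76,p82,p82,p83,p83,p89],[])
/-- Eighteen rows. -/
noncomputable def u4_5 : I18 → Row P4 := I18.fn ([p55,p90],[p54]) ([p91],[p54]) ([p57,p92],[p56]) ([p93],[p56]) ([p59,p94],[p58]) ([p95],[p58]) ([p54,p54,p54,p60,p60,p72,p72,p78,p78,p78,p78,p96],[p55,p55,p55,p61,p61,p73,p73,p79,p79]) ([p54,p54,p54,p60,p60,p72,p72,p78,p78,p79,p79,p97],[]) ([p56,p62,p62,p74,p74,p80,p80,p98],[p57,p57,p63,p63,p75,p75,p81,p81]) ([p56,p56,p62,p62,p74,p74,p80,p80,p99],[p57]) ([p58,p58,p58,p64,p64,p76,p76,p82,p82,p82,p82,p100],[p59,p59,p59,p65,p65,p77,p77,p83,p83]) ([p58,p58,p58,p64,p64,p76,p76,p82,p82,p83,p83,p101],[])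 ([p55,p55,p55,p55,p61,p61,p61,p61,p67,p73,p73,p73,p73,p79,p79,p79,p79,p79,p79,p79,p79,p85,p85,p91,p97,p97,p103],[p54,p54,p60,p60,p66,p72,p72,p78,p78,p78,p78,p78,p78,p78,p78,p84,p84,p90,p96,p96,p102]) ([p55,p55,p61,p61,p73,p73],[p54,p54,p54,p54,p60,p60,p60,p60,p66,p72,p72,p72,p72,p78,p78,p78,p78,p78,p78,p78,p78,p84,p84,p90,p96,p96,p102]) ([p57,p57,p57,p57,p63,p63,p63,p63,p63,p63,p69,p75,p75,p75,p75,p75,p75,p81,p81,p81,p81,p81,p81,p81,p81,p87,p87,p93,p99,p99,p105],[p56,p56,p62,p62,p62,p62,p62,p62,p68,p74,p74,p74,p74,p74,p74,p80,p80,p80,p80,p80,p80,p80,p80,p86,p86,p86,p86,p92,p98,p98,p98,p98,p104]) ([p57,p57],[p56,p56,p56,p56,p62,p62,p62,p62,p62,p62,p68,p74,p74,p74,p74,p74,p74,p80,p80,p80,p80,p80,p80,p80,p80,p86,p86,p87,p87,p92,p98,p98,p99,p99,p104]) ([p59,p59,p59,p59,p65,p65,p65,p65,p71,p77,p77,p77,p77,p83,p83,p83,p83,p83,p83,p83,p83,p89,p89,p95,p101,p101,p107],[p58,p58,p64,p64,p70,p76,p76,p82,p82,p82,p82,p82,p82,p82,p82,p88,p88,p94,p100,p100,p106])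 ([p59,p59,p65,p65,p77,p77],[p58,p58,p58,p58,p64,p64,p64,p64,p70,p76,p76,p76,p76,p82,p82,p82,p82,p82,p82,p82,p82,p88,p88,p94,p100,p100,p106])
/-- Eighteen rows. -/
noncomputable def u4_6 : I18 → Row P4 := I18.fn ([p109],[p108]) ([],[p108]) ([p111],[p110]) ([],[p110]) ([p113],[p112]) ([],[p112]) ([p108,p114],[p109]) ([p108,p115],[]) ([p110,p110,p116],[p111]) ([p110,p111,p117],[]) ([p112,p118],[p113]) ([p112,p119],[]) ([p109,p120],[p108]) ([p121],[p108]) ([p111,p122],[p110]) ([p123],[p110]) ([p113,p124],[p112]) ([p125],[p112])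
/-- Eighteen rows. -/
noncomputable def u4_7 : I18 → Row P4 := I18.fn ([p108,p126],[p109]) ([p108,p127],[]) ([p110,p110,p128],[p111]) ([p110,p111,p129],[]) ([p112,p130],[p113]) ([p112,p131],[]) ([p109,p109,p115,p127,p133],[p108,p108,p114,p114,p126,p126,p132]) ([],[p108,p108,p114,p115,p126,p127,p132]) ([p111,p111,p117,p129,p135],[p110,p110,p116,p128,p134]) ([],[p110,p110,p116,p128,p134]) ([p113,p113,p119,p131,p137],[p112,p112,p118,p118,p130,p130,p136]) ([],[p112,p112,p118,p119,p130,p131,p136]) ([p108,p114,p114,p126,p126,p132,p132,p138],[p109,p109,p115,p115,p127,p127,p133,p133]) ([p108,p108,p114,p114,p126,p126,p132,p132,p139],[p109]) ([p110,p110,p110,p116,p116,p128,p128,p134,p134,p134,p134,p140],[p111,p111,p111,p117,p117,p129,p129,p135,p135]) ([p110,p110,p110,p116,p116,p128,p128,p134,p134,p135,p135,p141],[]) ([p112,p118,p118,p130,p130,p136,p136,p142],[p113,p113,p119,p119,p131,p131,p137,p137])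 ([p112,p112,p118,p118,p130,p130,p136,p136,p143],[p113])
/-- Eighteen rows. -/
noncomputable def u4_8 : I18 → Row P4 := I18.fn ([p109,p144],[p108]) ([p145],[p108]) ([p111,p146],[p110]) ([p147],[p110]) ([p113,p148],[p112]) ([p149],[p112]) ([p108,p114,p114,p126,p126,p132,p132,p150],[p109,p109,p115,p115,p127,p127,p133,p133]) ([p108,p108,p114,p114,p126,p126,p132,p132,p151],[p109]) ([p110,p110,p110,p116,p116,p128,p128,p134,p134,p134,p134,p152],[p111,p111,p111,p117,p117,p129,p129,p135,p135]) ([p110,p110,p110,p116,p116,p128,p128,p134,p134,p135,p135,p153],[]) ([p112,p118,p118,p130,p130,p136,p136,p154],[p113,p113,p119,p119,p131,p131,p137,p137]) ([p112,p112,p118,p118,p130,p130,p136,p136,p155],[p113]) ([p109,p109,p109,p109,p115,p115,p115,p115,p115,p115,p121,p127,p127,p127,p127,p127,p127,p133,p133,p133,p133,p133,p133,p133,p133,p139,p139,p145,p151,p151,p157],[p108,p108,p114,p114,p114,p114,p114,p114,p120,p126,p126,p126,p126,p126,p126,p132,p132,p132,p132,p132,p132,p132,p132,p138,p138,p138,p138,p144,p150,p150,p150,p150,p156])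 ([p109,p109],[p108,p108,p108,p108,p114,p114,p114,p114,p114,p114,p120,p126,p126,p126,p126,p126,p126,p132,p132,p132,p132,p132,p132,p132,p132,p138,p138,p139,p139,p144,p150,p150,p151,p151,p156]) ([p111,p111,p111,p111,p117,p117,p117,p117,p123,p129,p129,p129,p129,p135,p135,p135,p135,p135,p135,p135,p135,p141,p141,p147,p153,p153,p159],[p110,p110,p116,p116,p122,p128,p128,p134,p134,p134,p134,p134,p134,p134,p134,p140,p140,p146,p152,p152,p158]) ([p111,p111,p117,p117,p129,p129],[p110,p110,p110,p110,p116,p116,p116,p116,p122,p128,p128,p128,p128,p134,p134,p134,p134,p134,p134,p134,p134,p140,p140,p146,p152,p152,p158]) ([p113,p113,p113,p113,p119,p119,p119,p119,p119,p119,p125,p131,p131,p131,p131,p131,p131,p137,p137,p137,p137,p137,p137,p137,p137,p143,p143,p149,p155,p155,p161],[p112,p112,p118,p118,p118,p118,p118,p118,p124,p130,p130,p130,p130,p130,p130,p136,p136,p136,p136,p136,p136,p136,p136,p142,p142,p142,p142,p148,p154,p154,p154,p154,p160])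 ([p113,p113],[p112,p112,p112,p112,p118,p118,p118,p118,p118,p118,p124,p130,p130,p130,p130,p130,p130,p136,p136,p136,p136,p136,p136,p136,p136,p142,p142,p143,p143,p148,p154,p154,p155,p155,p160])
/-- One table. -/
noncomputable def u4 : Unit → Blk P4 Unit := fun _ => ((), rows2 (I9.fn u4_0 u4_1 u4_2 u4_3 u4_4 u4_5 u4_6 u4_7 u4_8), ([p57,p59,p111,p113],[p56,p58,p58,p110,p110,p112,p112]))

end Pool.Agent.Lib.MP_c86c76_al.Eng
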