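import Pool.Agent.Lib.MP_c86c76_al.Eng.Form4D

/-!
Tables of an affine action of the genus four mapping class group.
-/

set_option autoImplicit false

namespace Pool.Agent.Lib.MP_c86c76_al.Eng

/-- Eighteen rows. -/
noncomputable def u5_0 : I18 → Row P4 := I18.fn ([p1],[p0,p6,p6,p6,p12]) ([],[p0,p7,p7,p7,p13]) ([p3,p9],[p2,p8,p8,p14]) ([],[p2,p8,p9,p15]) ([p5],[p4,p10,p10,p10,p16]) ([],[p4,p11,p11,p11,p17]) ([p6],[]) ([p7],[]) ([p8],[]) ([p9],[]) ([p10],[]) ([p11],[]) ([p12],[]) ([p13],[]) ([p14],[]) ([p15],[]) ([p16],[]) ([p17],[])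
/-- Eighteen rows. -/
noncomputable def u5_1 : I18 → Row P4 := I18.fn ([p19,p25],[p18,p24,p24,p30]) ([],[p18,p24,p25,p31]) ([p21],[p20,p26,p26,p26,p32]) ([],[p20,p27,p27,p27,p33]) ([p23,p29],[p22,p28,p28,p34]) ([],[p22,p28,p29,p35]) ([p24],[]) ([p25],[]) ([p26],[]) ([p27],[]) ([p28],[]) ([p29],[]) ([p30],[]) ([p31],[]) ([p32],[]) ([p33],[]) ([p34],[]) ([p35],[])
/-- Eighteen rows. -/
noncomputable def u5_2 : I18 → Row P4 := I18.fn ([p37],[p36,p42,p42,p42,p48]) ([],[p36,p43,p43,p43,p49]) ([p39,p45],[p38,p44,p44,p50]) ([],[p38,p44,p45,p51]) ([p41],[p40,p46,p46,p46,p52]) ([],[p40,p47,p47,p47,p53]) ([p42],[]) ([p43],[]) ([p44],[]) ([p45],[]) ([p46],[]) ([p47],[]) ([p48],[]) ([p49],[]) ([p50],[]) ([p51],[]) ([p52],[]) ([p53],[])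
/-- Eighteen rows. -/
noncomputable def u5_3 : I18 → Row P4 := I18.fn ([p55,p61],[p54,p60,p60,p66]) ([],[p54,p60,p61,p67]) ([p57],[p56,p62,p62,p62,p68]) ([],[p56,p63,p63,p63,p69]) ([p59,p65],[p58,p64,p64,p70]) ([],[p58,p64,p65,p71]) ([p60],[]) ([p61],[]) ([p62],[]) ([p63],[]) ([p64],[]) ([p65],[]) ([p66],[]) ([p67],[]) ([p68],[]) ([p69],[]) ([p70],[]) ([p71],[])
/-- Eighteen rows. -/
noncomputable def u5_4 : I18 → Row P4 := I18.fn ([p73],[p72,p78,p78,p78,p84]) ([],[p72,p79,p79,p79,p85]) ([p75,p81],[p74,p80,p80,p86]) ([],[p74,p80,p81,p87]) ([p77],[p76,p82,p82,p82,p88]) ([],[p76,p83,p83,p83,p89]) ([p78],[]) ([p79],[]) ([p80],[]) ([p81],[]) ([p82],[]) ([p83],[]) ([p84],[]) ([p85],[]) ([p86],[]) ([p87],[]) ([p88],[]) ([p89],[])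
/-- Eighteen rows. -/
noncomputable def u5_5 : I18 → Row P4 := I18.fn ([p91,p97],[p90,p96,p96,p102]) ([],[p90,p96,p97,p103]) ([p93],[p92,p98,p98,p98,p104]) ([],[p92,p99,p99,p99,p105]) ([p95,p101],[p94,p100,p100,p106]) ([],[p94,p100,p101,p107]) ([p96],[]) ([p97],[]) ([p98],[]) ([p99],[]) ([p100],[]) ([p101],[]) ([p102],[]) ([p103],[]) ([p104],[]) ([p105],[]) ([p106],[]) ([p107],[])
/-- Eighteen rows. -/
noncomputable def u5_6 : I18 → Row P4 := I18.fn ([p109],[p108,p114,p114,p114,p120]) ([],[p108,p115,p115,p115,p121]) ([p111,p117],[p110,p116,p116,p122]) ([],[p110,p116,p117,p123]) ([p113],[p112,p118,p118,p118,p124]) ([],[p112,p119,p119,p119,p125]) ([p114],[]) ([p115],[]) ([p116],[]) ([p117],[]) ([p118],[]) ([p119],[]) ([p120],[]) ([p121],[]) ([p122],[]) ([p123],[]) ([p124],[]) ([p125],[])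
/-- Eighteen rows. -/
noncomputable def u5_7 : I18 → Row P4 := I18.fn ([p127,p133],[p126,p132,p132,p138]) ([],[p126,p132,p133,p139]) ([p129],[p128,p134,p134,p134,p140]) ([],[p128,p135,p135,p135,p141]) ([p131,p137],[p130,p136,p136,p142]) ([],[p130,p136,p137,p143]) ([p132],[]) ([p133],[]) ([p134],[]) ([p135],[]) ([p136],[]) ([p137],[]) ([p138],[]) ([p139],[]) ([p140],[]) ([p141],[]) ([p142],[]) ([p143],[])
/-- Eighteen rows. -/
noncomputable def u5_8 : I18 → Row P4 := I18.fn ([p145],[p144,p150,p150,p150,p156]) ([],[p144,p151,p151,p151,p157]) ([p147,p153],[p146,p152,p152,p158]) ([],[p146,p152,p153,p159]) ([p149],[p148,p154,p154,p154,p160]) ([],[p148,p155,p155,p155,p161]) ([p150],[]) ([p151],[]) ([p152],[]) ([p153],[]) ([p154],[]) ([p155],[]) ([p156],[]) ([p157],[]) ([p158],[]) ([p159],[]) ([p160],[]) ([p161],[])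
/-- One table. -/
noncomputable def u5 : Unit → Blk P4 Unit := fun _ => ((), rows2 (I9.fn u5_0 u5_1 u5_2 u5_3 u5_4 u5_5 u5_6 u5_7 u5_8), ([],[]))
/-- Eighteen rows. -/
noncomputable def u6_0 : I18 → Row P4 := I18.fn ([p1],[p0]) ([],[p0]) ([p0,p2],[p1]) ([p0,p3],[]) ([p1,p4],[p0]) ([p5],[p0]) ([p0,p6],[p1]) ([p0,p7],[]) ([p1,p1,p3,p7,p9],[p0,p0,p2,p2,p6,p6,p8]) ([],[p0,p0,p2,p3,p6,p7,p8]) ([p0,p2,p2,p6,p6,p8,p8,p10],[p1,p1,p3,p3,p7,p7,p9,p9]) ([p0,p0,p2,p2,p6,p6,p8,p8,p11],[p1]) ([p1,p12],[p0]) ([p13],[p0]) ([p0,p2,p2,p6,p6,p8,p8,p14],[p1,p1,p3,p3,p7,p7,p9,p9]) ([p0,p0,p2,p2,p6,p6,p8,p8,p15],[p1]) ([p1,p1,p1,p1,p3,p3,p3,p3,p3,p3,p5,p7,p7,p7,p7,p7,p7,p9,p9,p9,p9,p9,p9,p9,p9,p11,p11,p13,p15,p15,p17],[p0,p0,p2,p2,p2,p2,p2,p2,p4,p6,p6,p6,p6,p6,p6,p8,p8,p8,p8,p8,p8,p8,p8,p10,p10,p10,p10,p12,p14,p14,p14,p14,p16]) ([p1,p1],[p0,p0,p0,p0,p2,p2,p2,p2,p2,p2,p4,p6,p6,p6,p6,p6,p6,p8,p8,p8,p8,p8,p8,p8,p8,p10,p10,p11,p11,p12,p14,p14,p15,p15,p16])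
/-- Eighteen rows. -/
noncomputable def u6_1 : I18 → Row P4 := I18.fn ([p19],[p18]) ([],[p18]) ([p18,p18,p20],[p19]) ([p18,p19,p21],[]) ([p19,p22],[p18]) ([p23],[p18]) ([p18,p18,p24],[p19]) ([p18,p19,p25],[]) ([p19,p19,p21,p25,p27],[p18,p18,p20,p24,p26]) ([],[p18,p18,p20,p24,p26]) ([p18,p18,p18,p20,p20,p24,p24,p26,p26,p26,p26,p28],[p19,p19,p19,p21,p21,p25,p25,p27,p27]) ([p18,p18,p18,p20,p20,p24,p24,p26,p26,p27,p27,p29],[]) ([p19,p30],[p18]) ([p31],[p18]) ([p18,p18,p18,p20,p20,p24,p24,p26,p26,p26,p26,p32],[p19,p19,p19,p21,p21,p25,p25,p27,p27]) ([p18,p18,p18,p20,p20,p24,p24,p26,p26,p27,p27,p33],[]) ([p19,p19,p19,p19,p21,p21,p21,p21,p23,p25,p25,p25,p25,p27,p27,p27,p27,p27,p27,p27,p27,p29,p29,p31,p33,p33,p35],[p18,p18,p20,p20,p22,p24,p24,p26,p26,p26,p26,p26,p26,p26,p26,p28,p28,p30,p32,p32,p34]) ([p19,p19,p21,p21,p25,p25],[p18,p18,p18,p18,p20,p20,p20,p20,p22,p24,p24,p24,p24,p26,p26,p26,p26,p26,p26,p26,p26,p28,p28,p30,p32,p32,p34])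
/-- Eighteen rows. -/
noncomputable def u6_2 : I18 → Row P4 := I18.fn ([p37],[p36]) ([],[p36]) ([p36,p38],[p37]) ([p36,p39],[]) ([p37,p40],[p36]) ([p41],[p36]) ([p36,p42],[p37]) ([p36,p43],[]) ([p37,p37,p39,p43,p45],[p36,p36,p38,p38,p42,p42,p44]) ([],[p36,p36,p38,p39,p42,p43,p44]) ([p36,p38,p38,p42,p42,p44,p44,p46],[p37,p37,p39,p39,p43,p43,p45,p45]) ([p36,p36,p38,p38,p42,p42,p44,p44,p47],[p37]) ([p37,p48],[p36]) ([p49],[p36]) ([p36,p38,p38,p42,p42,p44,p44,p50],[p37,p37,p39,p39,p43,p43,p45,p45]) ([p36,p36,p38,p38,p42,p42,p44,p44,p51],[p37]) ([p37,p37,p37,p37,p39,p39,p39,p39,p39,p39,p41,p43,p43,p43,p43,p43,p43,p45,p45,p45,p45,p45,p45,p45,p45,p47,p47,p49,p51,p51,p53],[p36,p36,p38,p38,p38,p38,p38,p38,p40,p42,p42,p42,p42,p42,p42,p44,p44,p44,p44,p44,p44,p44,p44,p46,p46,p46,p46,p48,p50,p50,p50,p50,p52]) ([p37,p37],[p36,p36,p36,p36,p38,p38,p38,p38,p38,p38,p40,p42,p42,p42,p42,p42,p42,p44,p44,p44,p44,p44,p44,p44,p44,p46,p46,p47,p47,p48,p50,p50,p51,p51,p52])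
/-- Eighteen rows. -/
noncomputable def u6_3 : I18 → Row P4 := I18.fn ([p55],[p54]) ([],[p54]) ([p54,p54,p56],[p55]) ([p54,p55,p57],[]) ([p55,p58],[p54]) ([p59],[p54]) ([p54,p54,p60],[p55]) ([p54,p55,p61],[]) ([p55,p55,p57,p61,p63],[p54,p54,p56,p60,p62]) ([],[p54,p54,p56,p60,p62]) ([p54,p54,p54,p56,p56,p60,p60,p62,p62,p62,p62,p64],[p55,p55,p55,p57,p57,p61,p61,p63,p63]) ([p54,p54,p54,p56,p56,p60,p60,p62,p62,p63,p63,p65],[]) ([p55,p66],[p54]) ([p67],[p54]) ([p54,p54,p54,p56,p56,p60,p60,p62,p62,p62,p62,p68],[p55,p55,p55,p57,p57,p61,p61,p63,p63]) ([p54,p54,p54,p56,p56,p60,p60,p62,p62,p63,p63,p69],[]) ([p55,p55,p55,p55,p57,p57,p57,p57,p59,p61,p61,p61,p61,p63,p63,p63,p63,p63,p63,p63,p63,p65,p65,p67,p69,p69,p71],[p54,p54,p56,p56,p58,p60,p60,p62,p62,p62,p62,p62,p62,p62,p62,p64,p64,p66,p68,p68,p70]) ([p55,p55,p57,p57,p61,p61],[p54,p54,p54,p54,p56,p56,p56,p56,p58,p60,p60,p60,p60,p62,p62,p62,p62,p62,p62,p62,p62,p64,p64,p66,p68,p68,p70])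
/-- Eighteen rows. -/
noncomputable def u6_4 : I18 → Row P4 := I18.fn ([p73],[p72]) ([],[p72]) ([p72,p74],[p73]) ([p72,p75],[]) ([p73,p76],[p72]) ([p77],[p72]) ([p72,p78],[p73]) ([p72,p79],[]) ([p73,p73,p75,p79,p81],[p72,p72,p74,p74,p78,p78,p80]) ([],[p72,p72,p74,p75,p78,p79,p80]) ([p72,p74,p74,p78,p78,p80,p80,p82],[p73,p73,p75,p75,p79,p79,p81,p81]) ([p72,p72,p74,p74,p78,p78,p80,p80,p83],[p73]) ([p73,p84],[p72]) ([p85],[p72]) ([p72,p74,p74,p78,p78,p80,p80,p86],[p73,p73,p75,p75,p79,p79,p81,p81]) ([p72,p72,p74,p74,p78,p78,p80,p80,p87],[p73]) ([p73,p73,p73,p73,p75,p75,p75,p75,p75,p75,p77,p79,p79,p79,p79,p79,p79,p81,p81,p81,p81,p81,p81,p81,p81,p83,p83,p85,p87,p87,p89],[p72,p72,p74,p74,p74,p74,p74,p74,p76,p78,p78,p78,p78,p78,p78,p80,p80,p80,p80,p80,p80,p80,p80,p82,p82,p82,p82,p84,p86,p86,p86,p86,p88]) ([p73,p73],[p72,p72,p72,p72,p74,p74,p74,p74,p74,p74,p76,p78,p78,p78,p78,p78,p78,p80,p80,p80,p80,p80,p80,p80,p80,p82,p82,p83,p83,p84,p86,p86,p87,p87,p88])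
/-- Eighteen rows. -/
noncomputable def u6_5 : I18 → Row P4 := I18.fn ([p91],[p90]) ([],[p90]) ([p90,p90,p92],[p91]) ([p90,p91,p93],[]) ([p91,p94],[p90]) ([p95],[p90]) ([p90,p90,p96],[p91]) ([p90,p91,p97],[]) ([p91,p91,p93,p97,p99],[p90,p90,p92,p96,p98]) ([],[p90,p90,p92,p96,p98]) ([p90,p90,p90,p92,p92,p96,p96,p98,p98,p98,p98,p100],[p91,p91,p91,p93,p93,p97,p97,p99,p99]) ([p90,p90,p90,p92,p92,p96,p96,p98,p98,p99,p99,p101],[]) ([p91,p102],[p90]) ([p103],[p90]) ([p90,p90,p90,p92,p92,p96,p96,p98,p98,p98,p98,p104],[p91,p91,p91,p93,p93,p97,p97,p99,p99]) ([p90,p90,p90,p92,p92,p96,p96,p98,p98,p99,p99,p105],[]) ([p91,p91,p91,p91,p93,p93,p93,p93,p95,p97,p97,p97,p97,p99,p99,p99,p99,p99,p99,p99,p99,p101,p101,p103,p105,p105,p107],[p90,p90,p92,p92,p94,p96,p96,p98,p98,p98,p98,p98,p98,p98,p98,p100,p100,p102,p104,p104,p106]) ([p91,p91,p93,p93,p97,p97],[p90,p90,p90,p90,p92,p92,p92,p92,p94,p96,p96,p96,p96,p98,p98,p98,p98,p98,p98,p98,p98,p100,p100,p102,p104,p104,p106])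
/-- Eighteen rows. -/
noncomputable def u6_6 : I18 → Row P4 := I18.fn ([p109],[p108]) ([],[p108]) ([p108,p110],[p109]) ([p108,p111],[]) ([p109,p112],[p108]) ([p113],[p108]) ([p108,p114],[p109]) ([p108,p115],[]) ([p109,p109,p111,p115,p117],[p108,p108,p110,p110,p114,p114,p116]) ([],[p108,p108,p110,p111,p114,p115,p116]) ([p108,p110,p110,p114,p114,p116,p116,p118],[p109,p109,p111,p111,p115,p115,p117,p117]) ([p108,p108,p110,p110,p114,p114,p116,p116,p119],[p109]) ([p109,p120],[p108]) ([p121],[p108]) ([p108,p110,p110,p114,p114,p116,p116,p122],[p109,p109,p111,p111,p115,p115,p117,p117]) ([p108,p108,p110,p110,p114,p114,p116,p116,p123],[p109]) ([p109,p109,p109,p109,p111,p111,p111,p111,p111,p111,p113,p115,p115,p115,p115,p115,p115,p117,p117,p117,p117,p117,p117,p117,p117,p119,p119,p121,p123,p123,p125],[p108,p108,p110,p110,p110,p110,p110,p110,p112,p114,p114,p114,p114,p114,p114,p116,p116,p116,p116,p116,p116,p116,p116,p118,p118,p118,p118,p120,p122,p122,p122,p122,p124])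 ([p109,p109],[p108,p108,p108,p108,p110,p110,p110,p110,p110,p110,p112,p114,p114,p114,p114,p114,p114,p116,p116,p116,p116,p116,p116,p116,p116,p118,p118,p119,p119,p120,p122,p122,p123,p123,p124])
/-- Eighteen rows. -/
noncomputable def u6_7 : I18 → Row P4 := I18.fn ([p127],[p126]) ([],[p126]) ([p126,p126,p128],[p127]) ([p126,p127,p129],[]) ([p127,p130],[p126]) ([p131],[p126]) ([p126,p126,p132],[p127]) ([p126,p127,p133],[]) ([p127,p127,p129,p133,p135],[p126,p126,p128,p132,p134]) ([],[p126,p126,p128,p132,p134]) ([p126,p126,p126,p128,p128,p132,p132,p134,p134,p134,p134,p136],[p127,p127,p127,p129,p129,p133,p133,p135,p135]) ([p126,p126,p126,p128,p128,p132,p132,p134,p134,p135,p135,p137],[]) ([p127,p138],[p126]) ([p139],[p126]) ([p126,p126,p126,p128,p128,p132,p132,p134,p134,p134,p134,p140],[p127,p127,p127,p129,p129,p133,p133,p135,p135]) ([p126,p126,p126,p128,p128,p132,p132,p134,p134,p135,p135,p141],[])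 ([p127,p127,p127,p127,p129,p129,p129,p129,p131,p133,p133,p133,p133,p135,p135,p135,p135,p135,p135,p135,p135,p137,p137,p139,p141,p141,p143],[p126,p126,p128,p128,p130,p132,p132,p134,p134,p134,p134,p134,p134,p134,p134,p136,p136,p138,p140,p140,p142]) ([p127,p127,p129,p129,p133,p133],[p126,p126,p126,p126,p128,p128,p128,p128,p130,p132,p132,p132,p132,p134,p134,p134,p134,p134,p134,p134,p134,p136,p136,p138,p140,p140,p142])
/-- Eighteen rows. -/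
noncomputable def u6_8 : I18 → Row P4 := I18.fn ([p145],[p144]) ([],[p144]) ([p144,p146],[p145]) ([p144,p147],[]) ([p145,p148],[p144]) ([p149],[p144]) ([p144,p150],[p145]) ([p144,p151],[]) ([p145,p145,p147,p151,p153],[p144,p144,p146,p146,p150,p150,p152]) ([],[p144,p144,p146,p147,p150,p151,p152]) ([p144,p146,p146,p150,p150,p152,p152,p154],[p145,p145,p147,p147,p151,p151,p153,p153]) ([p144,p144,p146,p146,p150,p150,p152,p152,p155],[p145]) ([p145,p156],[p144]) ([p157],[p144]) ([p144,p146,p146,p150,p150,p152,p152,p158],[p145,p145,p147,p147,p151,p151,p153,p153]) ([p144,p144,p146,p146,p150,p150,p152,p152,p159],[p145]) ([p145,p145,p145,p145,p147,p147,p147,p147,p147,p147,p149,p151,p151,p151,p151,p151,p151,p153,p153,p153,p153,p153,p153,p153,p153,p155,p155,p157,p159,p159,p161],[p144,p144,p146,p146,p146,p146,p146,p146,p148,p150,p150,p150,p150,p150,p150,p152,p152,p152,p152,p152,p152,p152,p152,p154,p154,p154,p154,p156,p158,p158,p158,p158,p160])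 ([p145,p145],[p144,p144,p144,p144,p146,p146,p146,p146,p146,p146,p148,p150,p150,p150,p150,p150,p150,p152,p152,p152,p152,p152,p152,p152,p152,p154,p154,p155,p155,p156,p158,p158,p159,p159,p160])
/-- One table. -/
noncomputable def u6 : Unit → Blk P4 Unit := fun _ => ((), rows2 (I9.fn u6_0 u6_1 u6_2 u6_3 u6_4 u6_5 u6_6 u6_7 u6_8), ([],[]))
/-- Eighteen rows. -/
noncomputable def u7_0 : I18 → Row P4 := I18.fn ([p1],[p0,p2,p2,p2,p4]) ([],[p0,p3,p3,p3,p5]) ([p2],[]) ([p3],[]) ([p4],[]) ([p5],[]) ([p7,p9],[p6,p8,p8,p10]) ([],[p6,p8,p9,p11]) ([p8],[]) ([p9],[]) ([p10],[]) ([p11],[]) ([p13],[p12,p14,p14,p14,p16]) ([],[p12,p15,p15,p15,p17]) ([p14],[]) ([p15],[]) ([p16],[]) ([p17],[])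
/-- Eighteen rows. -/
noncomputable def u7_1 : I18 → Row P4 := I18.fn ([p19,p21],[p18,p20,p20,p22]) ([],[p18,p20,p21,p23]) ([p20],[]) ([p21],[]) ([p22],[]) ([p23],[]) ([p25],[p24,p26,p26,p26,p28]) ([],[p24,p27,p27,p27,p29]) ([p26],[]) ([p27],[]) ([p28],[]) ([p29],[]) ([p31,p33],[p30,p32,p32,p34]) ([],[p30,p32,p33,p35]) ([p32],[]) ([p33],[]) ([p34],[]) ([p35],[])
/-- Eighteen rows. -/
noncomputable def u7_2 : I18 → Row P4 := I18.fn ([p37],[p36,p38,p38,p38,p40]) ([],[p36,p39,p39,p39,p41]) ([p38],[]) ([p39],[]) ([p40],[]) ([p41],[]) ([p43,p45],[p42,p44,p44,p46]) ([],[p42,p44,p45,p47]) ([p44],[]) ([p45],[]) ([p46],[]) ([p47],[]) ([p49],[p48,p50,p50,p50,p52]) ([],[p48,p51,p51,p51,p53]) ([p50],[]) ([p51],[]) ([p52],[]) ([p53],[])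
/-- Eighteen rows. -/
noncomputable def u7_3 : I18 → Row P4 := I18.fn ([p55,p57],[p54,p56,p56,p58]) ([],[p54,p56,p57,p59]) ([p56],[]) ([p57],[]) ([p58],[]) ([p59],[]) ([p61],[p60,p62,p62,p62,p64]) ([],[p60,p63,p63,p63,p65]) ([p62],[]) ([p63],[]) ([p64],[]) ([p65],[]) ([p67,p69],[p66,p68,p68,p70]) ([],[p66,p68,p69,p71]) ([p68],[]) ([p69],[]) ([p70],[]) ([p71],[])
/-- Eighteen rows. -/
noncomputable def u7_4 : I18 → Row P4 := I18.fn ([p73],[p72,p74,p74,p74,p76]) ([],[p72,p75,p75,p75,p77]) ([p74],[]) ([p75],[]) ([p76],[]) ([p77],[]) ([p79,p81],[p78,p80,p80,p82]) ([],[p78,p80,p81,p83]) ([p80],[]) ([p81],[]) ([p82],[]) ([p83],[]) ([p85],[p84,p86,p86,p86,p88]) ([],[p84,p87,p87,p87,p89]) ([p86],[]) ([p87],[]) ([p88],[]) ([p89],[])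
/-- Eighteen rows. -/
noncomputable def u7_5 : I18 → Row P4 := I18.fn ([p91,p93],[p90,p92,p92,p94]) ([],[p90,p92,p93,p95]) ([p92],[]) ([p93],[]) ([p94],[]) ([p95],[]) ([p97],[p96,p98,p98,p98,p100]) ([],[p96,p99,p99,p99,p101]) ([p98],[]) ([p99],[]) ([p100],[]) ([p101],[]) ([p103,p105],[p102,p104,p104,p106]) ([],[p102,p104,p105,p107]) ([p104],[]) ([p105],[]) ([p106],[]) ([p107],[])
/-- Eighteen rows. -/
noncomputable def u7_6 : I18 → Row P4 := I18.fn ([p109],[p108,p110,p110,p110,p112]) ([],[p108,p111,p111,p111,p113]) ([p110],[]) ([p111],[]) ([p112],[]) ([p113],[]) ([p115,p117],[p114,p116,p116,p118]) ([],[p114,p116,p117,p119]) ([p116],[]) ([p117],[]) ([p118],[]) ([p119],[]) ([p121],[p120,p122,p122,p122,p124]) ([],[p120,p123,p123,p123,p125]) ([p122],[]) ([p123],[]) ([p124],[]) ([p125],[])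
/-- Eighteen rows. -/
noncomputable def u7_7 : I18 → Row P4 := I18.fn ([p127,p129],[p126,p128,p128,p130]) ([],[p126,p128,p129,p131]) ([p128],[]) ([p129],[]) ([p130],[]) ([p131],[]) ([p133],[p132,p134,p134,p134,p136]) ([],[p132,p135,p135,p135,p137]) ([p134],[]) ([p135],[]) ([p136],[]) ([p137],[]) ([p139,p141],[p138,p140,p140,p142]) ([],[p138,p140,p141,p143]) ([p140],[]) ([p141],[]) ([p142],[]) ([p143],[])
/-- Eighteen rows. -/
noncomputable def u7_8 : I18 → Row P4 := I18.fn ([p145],[p144,p146,p146,p146,p148]) ([],[p144,p147,p147,p147,p149]) ([p146],[]) ([p147],[]) ([p148],[]) ([p149],[]) ([p151,p153],[p150,p152,p152,p154]) ([],[p150,p152,p153,p155]) ([p152],[]) ([p153],[]) ([p154],[]) ([p155],[]) ([p157],[p156,p158,p158,p158,p160]) ([],[p156,p159,p159,p159,p161]) ([p158],[]) ([p159],[]) ([p160],[]) ([p161],[])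
/-- One table. -/
noncomputable def u7 : Unit → Blk P4 Unit := fun _ => ((), rows2 (I9.fn u7_0 u7_1 u7_2 u7_3 u7_4 u7_5 u7_6 u7_7 u7_8), ([],[]))
/-- Eighteen rows. -/
noncomputable def u8_0 : I18 → Row P4 := I18.fn ([p0],[]) ([p1],[]) ([p2],[]) ([p3],[]) ([p4],[]) ([p5],[]) ([p6],[]) ([p7],[]) ([p8],[]) ([p9],[]) ([p10],[]) ([p11],[]) ([p12],[]) ([p13],[]) ([p14],[]) ([p15],[]) ([p16],[]) ([p17],[])
/-- Eighteen rows. -/
noncomputable def u8_1 : I18 → Row P4 := I18.fn ([p18],[]) ([p19],[]) ([p20],[]) ([p21],[]) ([p22],[]) ([p23],[]) ([p24],[]) ([p25],[]) ([p26],[]) ([p27],[]) ([p28],[]) ([p29],[]) ([p30],[]) ([p31],[]) ([p32],[]) ([p33],[]) ([p34],[]) ([p35],[])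
/-- Eighteen rows. -/
noncomputable def u8_2 : I18 → Row P4 := I18.fn ([p1,p19,p19,p37],[p0,p18,p18,p18,p18,p36]) ([],[p0,p18,p18,p19,p19,p36]) ([p3,p21,p21,p39],[p2,p20,p20,p38]) ([],[p2,p20,p20,p38]) ([p5,p23,p23,p41],[p4,p22,p22,p22,p22,p40]) ([],[p4,p22,p22,p23,p23,p40]) ([p7,p25,p25,p43],[p6,p24,p24,p42]) ([],[p6,p24,p24,p42]) ([p9,p27,p27,p45],[p8,p26,p26,p26,p26,p44]) ([],[p8,p26,p26,p27,p27,p44]) ([p11,p29,p29,p47],[p10,p28,p28,p46]) ([],[p10,p28,p28,p46]) ([p13,p31,p31,p49],[p12,p30,p30,p30,p30,p48]) ([],[p12,p30,p30,p31,p31,p48]) ([p15,p33,p33,p51],[p14,p32,p32,p50]) ([],[p14,p32,p32,p50]) ([p17,p35,p35,p53],[p16,p34,p34,p34,p34,p52]) ([],[p16,p34,p34,p35,p35,p52])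
/-- Eighteen rows. -/
noncomputable def u8_3 : I18 → Row P4 := I18.fn ([p54],[]) ([p55],[]) ([p56],[]) ([p57],[]) ([p58],[]) ([p59],[]) ([p60],[]) ([p61],[]) ([p62],[]) ([p63],[]) ([p64],[]) ([p65],[]) ([p66],[]) ([p67],[]) ([p68],[]) ([p69],[]) ([p70],[]) ([p71],[])
/-- Eighteen rows. -/
noncomputable def u8_4 : I18 → Row P4 := I18.fn ([p72],[]) ([p73],[]) ([p74],[]) ([p75],[]) ([p76],[]) ([p77],[]) ([p78],[]) ([p79],[]) ([p80],[]) ([p81],[]) ([p82],[]) ([p83],[]) ([p84],[]) ([p85],[]) ([p86],[]) ([p87],[]) ([p88],[]) ([p89],[])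
/-- Eighteen rows. -/
noncomputable def u8_5 : I18 → Row P4 := I18.fn ([p55,p73,p73,p91],[p54,p72,p72,p90]) ([],[p54,p72,p72,p90]) ([p57,p75,p75,p93],[p56,p74,p74,p74,p74,p92]) ([],[p56,p74,p74,p75,p75,p92]) ([p59,p77,p77,p95],[p58,p76,p76,p94]) ([],[p58,p76,p76,p94]) ([p61,p79,p79,p97],[p60,p78,p78,p78,p78,p96]) ([],[p60,p78,p78,p79,p79,p96]) ([p63,p81,p81,p99],[p62,p80,p80,p98]) ([],[p62,p80,p80,p98]) ([p65,p83,p83,p101],[p64,p82,p82,p82,p82,p100]) ([],[p64,p82,p82,p83,p83,p100]) ([p67,p85,p85,p103],[p66,p84,p84,p102]) ([],[p66,p84,p84,p102]) ([p69,p87,p87,p105],[p68,p86,p86,p86,p86,p104]) ([],[p68,p86,p86,p87,p87,p104]) ([p71,p89,p89,p107],[p70,p88,p88,p106]) ([],[p70,p88,p88,p106])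
/-- Eighteen rows. -/
noncomputable def u8_6 : I18 → Row P4 := I18.fn ([p108],[]) ([p109],[]) ([p110],[]) ([p111],[]) ([p112],[]) ([p113],[]) ([p114],[]) ([p115],[]) ([p116],[]) ([p117],[]) ([p118],[]) ([p119],[]) ([p120],[]) ([p121],[]) ([p122],[]) ([p123],[]) ([p124],[]) ([p125],[])
/-- Eighteen rows. -/
noncomputable def u8_7 : I18 → Row P4 := I18.fn ([p126],[]) ([p127],[]) ([p128],[]) ([p129],[]) ([p130],[]) ([p131],[]) ([p132],[]) ([p133],[]) ([p134],[]) ([p135],[]) ([p136],[]) ([p137],[]) ([p138],[]) ([p139],[]) ([p140],[]) ([p141],[]) ([p142],[]) ([p143],[])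
/-- Eighteen rows. -/
noncomputable def u8_8 : I18 → Row P4 := I18.fn ([p109,p127,p127,p145],[p108,p126,p126,p126,p126,p144]) ([],[p108,p126,p126,p127,p127,p144]) ([p111,p129,p129,p147],[p110,p128,p128,p146]) ([],[p110,p128,p128,p146]) ([p113,p131,p131,p149],[p112,p130,p130,p130,p130,p148]) ([],[p112,p130,p130,p131,p131,p148]) ([p115,p133,p133,p151],[p114,p132,p132,p150]) ([],[p114,p132,p132,p150]) ([p117,p135,p135,p153],[p116,p134,p134,p134,p134,p152]) ([],[p116,p134,p134,p135,p135,p152]) ([p119,p137,p137,p155],[p118,p136,p136,p154]) ([],[p118,p136,p136,p154]) ([p121,p139,p139,p157],[p120,p138,p138,p138,p138,p156]) ([],[p120,p138,p138,p139,p139,p156]) ([p123,p141,p141,p159],[p122,p140,p140,p158]) ([],[p122,p140,p140,p158]) ([p125,p143,p143,p161],[p124,p142,p142,p142,p142,p160]) ([],[p124,p142,p142,p143,p143,p160])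
/-- One table. -/
noncomputable def u8 : Unit → Blk P4 Unit := fun _ => ((), rows2 (I9.fn u8_0 u8_1 u8_2 u8_3 u8_4 u8_5 u8_6 u8_7 u8_8), ([],[]))

end Pool.Agent.Lib.MP_c86c76_al.Eng
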