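import Pool.Agent.Lib.MP_c86c76_al.Eng.Basic

/-!
A strict modular evaluator for the kernel.
-/

set_option autoImplicit false

namespace Pool.Agent.Lib.MP_c86c76_al.Eng

variable {I J S : Type}

/-- Evaluate a natural number before continuing. -/
noncomputable def force (v : ℕ) (k : ℕ → Bool) : Bool :=
  Nat.rec (motive := fun _ => Bool) false (fun m _ => k m) (Nat.add v 1)

theorem force_eq (v : ℕ) (k : ℕ → Bool) : force v k = k v := rfl

/-- `FA` tabulates functions in continuation style. -/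
def Tabulates {α : Type} (FA : (I → (α → Bool) → Bool) → ((I → α) → Bool) → Bool) : Prop :=
  ∀ (f : I → (α → Bool) → Bool) (g : I → α), (∀ i k, f i k = k (g i)) → ∀ k, FA f k = k g

/-- Tabulation over a product. -/
noncomputable def fa2 {A B α : Type}
    (FA : (A → ((B → α) → Bool) → Bool) → ((A → B → α) → Bool) → Bool)
    (FB : (B → (α → Bool) → Bool) → ((B → α) → Bool) → Bool)
    (f : A × B → (α → Bool) → Bool) (k : (A × B → α) → Bool) : Bool :=
  FA (fun a k' => FB (fun b => f (a, b)) k') fun G => k fun p =>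
    Prod.rec (motive := fun _ => α) (fun a b => G a b) p

theorem fa2_spec {A B α : Type}
    {FA : (A → ((B → α) → Bool) → Bool) → ((A → B → α) → Bool) → Bool}
    {FB : (B → (α → Bool) → Bool) → ((B → α) → Bool) → Bool} (hA : Tabulates FA)
    (hB : Tabulates FB) : Tabulates (fa2 FA FB) := by
  intro f g h k
  rw [fa2, hA _ (fun a b => g (a, b)) fun a k' => hB _ _ (fun b => h (a, b)) k']

/-- Sum of entries. -/
noncomputable def sumN (x : I → ℕ) (l : List I) (c : ℕ) : ℕ :=
  List.rec (motive := fun _ => ℕ) c (fun i _ ih => Nat.add (x i) ih) l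

theorem sumN_eq (x : I → ℕ) (l : List I) (c : ℕ) : sumN x l c = (l.map x).sum + c := by
  induction l with
  | nil => simp [sumN]
  | cons a l ih =>
    show x a + sumN x l c = _
    rw [ih, List.map_cons, List.sum_cons, add_assoc]

/-- A row applied to a vector, modulo `m`. -/
noncomputable def rowN (m c : ℕ) (x : I → ℕ) (r : Row I) : ℕ :=
  Prod.rec (motive := fun _ => ℕ)
    (fun p q => Nat.mod (Nat.sub (sumN x p c) (sumN x q 0)) m) r

theorem rowN_cast (m L c : ℕ) (x : I → ℕ) (hx : ∀ i, x i < m) (r : Row I) (hr : l1 r ≤ L) :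
    ((rowN m (c + L * m) x r : ℕ) : ZMod m) = c + dot r fun i => (x i : ZMod m) := by
  obtain ⟨p, q⟩ := r
  have h1 : (q.map x).sum ≤ L * m := by
    have := List.sum_le_card_nsmul (q.map x) m (by
      intro y hy
      obtain ⟨i, -, rfl⟩ := List.mem_map.1 hy
      exact (hx i).le)
    rw [List.length_map, smul_eq_mul] at this
    exact this.trans (Nat.mul_le_mul_right _ (by simp only [l1] at hr; omega))
  show (((sumN x p (c + L * m) - sumN x q 0) % m : ℕ) : ZMod m) = _
  rw [ZMod.natCast_mod, sumN_eq, sumN_eq, Nat.cast_sub (by omega)]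
  simp only [dot, Nat.cast_add, Nat.cast_mul, ZMod.natCast_self, Nat.cast_list_sum, List.map_map,
    Nat.cast_zero, Function.comp_def]
  ring

/-- A word read from the left, strictly. -/
noncomputable def runN (T : S → J → Blk I J)
    (FA : (I → (ℕ → Bool) → Bool) → ((I → ℕ) → Bool) → Bool) (m c : ℕ)
    (k : J → (I → ℕ) → ℕ → Bool) (w : List S) : J → (I → ℕ) → ℕ → Bool :=
  List.rec (motive := fun _ => J → (I → ℕ) → ℕ → Bool) k
    (fun s _ ih j x n => Prod.rec (motive := fun _ => Bool) (fun t q =>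
      Prod.rec (motive := fun _ => Bool) (fun R z =>
        FA (fun i k' => force (rowN m c x (R i)) k') fun x' =>
          force (rowN m (Nat.add n c) x z) fun n' => ih t x' n') q) (T s j)) w

theorem runN_spec (T : S → J → Blk I J) (L : ℕ) (hT : Short T L)
    {FA : (I → (ℕ → Bool) → Bool) → ((I → ℕ) → Bool) → Bool} (hFA : Tabulates FA) (m : ℕ)
    (hm : 0 < m) (k : J → (I → ℕ) → ℕ → Bool) (w : List S) (j : J) (x : I → ℕ) (n : ℕ)
    (hx : ∀ i, x i < m) (h : runN T FA m (L * m) k w j x n = true) :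
    ∃ j' x' n', k j' x' n' = true ∧ (∀ i, x' i < m) ∧
      run T w.reverse ((j, fun i => (x i : ZMod m)), (n : ZMod m)) =
        ((j', fun i => (x' i : ZMod m)), (n' : ZMod m)) := by
  induction w generalizing j x n with
  | nil => exact ⟨j, x, n, h, hx, rfl⟩
  | cons s w ih =>
    have h1 : FA (fun i k' => force (rowN m (L * m) x ((T s j).2.1 i)) k') (fun x' =>
        force (rowN m (n + L * m) x (T s j).2.2) fun n' =>
          runN T FA m (L * m) k w (T s j).1 x' n') = true := h
    rw [hFA _ (fun i => rowN m (L * m) x ((T s j).2.1 i)) fun _ _ => force_eq _ _, force_eq] at h1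
    obtain ⟨j', x', n', h2, h4, h3⟩ := ih _ _ _ (fun i => Nat.mod_lt _ hm) h1
    refine ⟨j', x', n', h2, h4, ?_⟩
    rw [List.reverse_cons, run_append, ← h3]
    congr 1
    refine Prod.ext (Prod.ext rfl (funext fun i => ?_)) ?_
    · have := rowN_cast m L 0 x hx _ ((hT s j).1 i)
      rw [zero_add, Nat.cast_zero, zero_add] at this
      exact this.symm
    · exact (rowN_cast m L n x hx _ (hT s j).2).symm

/-- The strict equality test of two words on the block `j`. -/
noncomputable def chk [DecidableEq J] (T : S → J → Blk I J)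
    (FA : (I → (ℕ → Bool) → Bool) → ((I → ℕ) → Bool) → Bool) (all : List I) (idx : I → ℕ)
    (n L B : ℕ) (u v : List S) (j : J) : Bool :=
  force (Nat.pow B n) fun m => force (Nat.mul L m) fun c =>
    FA (fun i k => force (Nat.pow B (idx i)) k) fun p =>
      runN T FA m c (fun a x r => runN T FA m c (fun b y t =>
        decide (a = b) && (Nat.beq r t && all.all fun i => Nat.beq (x i) (y i)))
        v.reverse j p 0) u.reverse j p 0

theorem run_eq_of_chk [Fintype I] [DecidableEq I] [DecidableEq J] (T : S → J → Blk I J) (L : ℕ)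
    (hT : Short T L) {FA : (I → (ℕ → Bool) → Bool) → ((I → ℕ) → Bool) → Bool}
    (hFA : Tabulates FA) (all : List I) (hall : ∀ i, i ∈ all) (idx : I → ℕ)
    (hinj : Function.Injective idx) (n : ℕ) (hlt : ∀ a, idx a < n) (B : ℕ) (K : ℤ) (hK1 : 1 ≤ K)
    (hK : K + K < B) (u v : List S) (j : J)
    (hu : ∀ k, Bd K (run T u ((j, Pi.single k 1), 0)))
    (hv : ∀ k, Bd K (run T v ((j, Pi.single k 1), 0)))
    (h : chk T FA all idx n L B u v j = true) (f : I → ℤ) (c : ℤ) :
    run T u ((j, f), c) = run T v ((j, f), c) := by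
  have hB : 1 < B := by omega
  have hm : 0 < B ^ n := by positivity
  have hp : ∀ i, B ^ idx i < B ^ n := fun i => Nat.pow_lt_pow_right hB (hlt i)
  rw [chk, force_eq, force_eq, hFA _ (fun i => Nat.pow B (idx i)) fun _ _ => force_eq _ _] at h
  obtain ⟨a, x, r, h1, -, h2⟩ := runN_spec T L hT hFA _ hm _ _ _ _ _ hp h
  obtain ⟨b, y, t, h3, -, h4⟩ := runN_spec T L hT hFA _ hm _ _ _ _ _ hp h1
  simp only [Bool.and_eq_true, decide_eq_true_eq, List.all_eq_true, Nat.beq_eq] at h3
  obtain ⟨rfl, rfl, h5⟩ := h3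
  have h6 : x = y := funext fun i => h5 i (hall i)
  subst h6
  rw [List.reverse_reverse, Nat.cast_zero] at h2 h4
  exact run_eq_of_pack T idx hinj n hlt B K hK u v j hu hv (h2.trans h4.symm) f c

/-- An index type. -/
inductive I16 : Type
  | c0 | c1 | c2 | c3 | c4 | c5 | c6 | c7 | c8 | c9 | c10 | c11 | c12 | c13 | c14 | c15
  deriving DecidableEq

/-- A function given by its values. -/
noncomputable def I16.fn {α : Type} (y0 y1 y2 y3 y4 y5 y6 y7 y8 y9 y10 y11 y12 y13 y14 y15 : α) : I16 → α :=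
  fun i => I16.rec (motive := fun _ => α) y0 y1 y2 y3 y4 y5 y6 y7 y8 y9 y10 y11 y12 y13 y14 y15 i

/-- Strict tabulation. -/
noncomputable def I16.fa {α : Type} (f : I16 → (α → Bool) → Bool) (k : (I16 → α) → Bool) :
    Bool :=
  f .c0 fun y0 => f .c1 fun y1 => f .c2 fun y2 => f .c3 fun y3 => f .c4 fun y4 => f .c5 fun y5
    => f .c6 fun y6 => f .c7 fun y7 => f .c8 fun y8 => f .c9 fun y9 => f .c10 fun y10 => f .c11
    fun y11 => f .c12 fun y12 => f .c13 fun y13 => f .c14 fun y14 => f .c15 fun y15 =>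
    k fun i => I16.rec (motive := fun _ => α) y0 y1 y2 y3 y4 y5 y6 y7 y8 y9 y10 y11 y12 y13 y14 y15 i

theorem I16.fa_spec {α : Type} : Tabulates (I16.fa (α := α)) := by
  intro f g h k
  simp only [I16.fa, h]
  congr 1
  funext i
  cases i <;> rfl

/-- All indices. -/
def I16.all : List I16 := [.c0, .c1, .c2, .c3, .c4, .c5, .c6, .c7, .c8, .c9, .c10, .c11, .c12, .c13, .c14, .c15]

theorem I16.mem_all (i : I16) : i ∈ I16.all := by cases i <;> decide

instance I16.fintype : Fintype I16 := ⟨I16.all.toFinset, fun i => List.mem_toFinset.2 i.mem_all⟩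

/-- The position of an index. -/
noncomputable def I16.pos : I16 → ℕ := I16.fn 0 1 2 3 4 5 6 7 8 9 10 11 12 13 14 15

theorem I16.pos_lt (i : I16) : i.pos < 16 := by cases i <;> decide

theorem I16.pos_inj : Function.Injective I16.pos := by
  have : ∀ i : I16, I16.all.getD i.pos .c0 = i := fun i => by cases i <;> rfl
  exact fun a b h => by rw [← this a, h, this b]

/-- An index type. -/
inductive J28 : Type
  | c0 | c1 | c2 | c3 | c4 | c5 | c6 | c7 | c8 | c9 | c10 | c11 | c12 | c13 | c14 | c15 | c16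
  | c17 | c18 | c19 | c20 | c21 | c22 | c23 | c24 | c25 | c26 | c27
  deriving DecidableEq

/-- A function given by its values. -/
noncomputable def J28.fn {α : Type} (y0 y1 y2 y3 y4 y5 y6 y7 y8 y9 y10 y11 y12 y13 y14 y15 y16 y17 y18 y19 y20 y21 y22 y23 y24
    y25 y26 y27 : α) : J28 → α :=
  fun i => J28.rec (motive := fun _ => α) y0 y1 y2 y3 y4 y5 y6 y7 y8 y9 y10 y11 y12 y13 y14 y15 y16 y17 y18 y19 y20 y21 y22 y23 y24
    y25 y26 y27 i

/-- Strict tabulation. -/
noncomputable def J28.fa {α : Type} (f : J28 → (α → Bool) → Bool) (k : (J28 → α) → Bool) :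
    Bool :=
  f .c0 fun y0 => f .c1 fun y1 => f .c2 fun y2 => f .c3 fun y3 => f .c4 fun y4 => f .c5 fun y5
    => f .c6 fun y6 => f .c7 fun y7 => f .c8 fun y8 => f .c9 fun y9 => f .c10 fun y10 => f .c11
    fun y11 => f .c12 fun y12 => f .c13 fun y13 => f .c14 fun y14 => f .c15 fun y15 => f .c16
    fun y16 => f .c17 fun y17 => f .c18 fun y18 => f .c19 fun y19 => f .c20 fun y20 => f .c21
    fun y21 => f .c22 fun y22 => f .c23 fun y23 => f .c24 fun y24 => f .c25 fun y25 => f .c26
    fun y26 => f .c27 fun y27 =>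
    k fun i => J28.rec (motive := fun _ => α) y0 y1 y2 y3 y4 y5 y6 y7 y8 y9 y10 y11 y12 y13 y14 y15 y16 y17 y18 y19 y20 y21 y22 y23 y24
    y25 y26 y27 i

theorem J28.fa_spec {α : Type} : Tabulates (J28.fa (α := α)) := by
  intro f g h k
  simp only [J28.fa, h]
  congr 1
  funext i
  cases i <;> rfl

/-- All indices. -/
def J28.all : List J28 := [.c0, .c1, .c2, .c3, .c4, .c5, .c6, .c7, .c8, .c9, .c10, .c11, .c12, .c13, .c14, .c15, .c16,
    .c17, .c18, .c19, .c20, .c21, .c22, .c23, .c24, .c25, .c26, .c27]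

theorem J28.mem_all (i : J28) : i ∈ J28.all := by cases i <;> decide

instance J28.fintype : Fintype J28 := ⟨J28.all.toFinset, fun i => List.mem_toFinset.2 i.mem_all⟩

/-- The position of an index. -/
noncomputable def J28.pos : J28 → ℕ := J28.fn 0 1 2 3 4 5 6 7 8 9 10 11 12 13 14 15 16 17 18 19 20 21 22 23 24 25 26 27

theorem J28.pos_lt (i : J28) : i.pos < 28 := by cases i <;> decide

theorem J28.pos_inj : Function.Injective J28.pos := by
  have : ∀ i : J28, J28.all.getD i.pos .c0 = i := fun i => by cases i <;> rfl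
  exact fun a b h => by rw [← this a, h, this b]

/-- An index type. -/
inductive I9 : Type
  | c0 | c1 | c2 | c3 | c4 | c5 | c6 | c7 | c8
  deriving DecidableEq

/-- A function given by its values. -/
noncomputable def I9.fn {α : Type} (y0 y1 y2 y3 y4 y5 y6 y7 y8 : α) : I9 → α :=
  fun i => I9.rec (motive := fun _ => α) y0 y1 y2 y3 y4 y5 y6 y7 y8 i

/-- Strict tabulation. -/
noncomputable def I9.fa {α : Type} (f : I9 → (α → Bool) → Bool) (k : (I9 → α) → Bool) :
    Bool :=
  f .c0 fun y0 => f .c1 fun y1 => f .c2 fun y2 => f .c3 fun y3 => f .c4 fun y4 => f .c5 fun y5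
    => f .c6 fun y6 => f .c7 fun y7 => f .c8 fun y8 =>
    k fun i => I9.rec (motive := fun _ => α) y0 y1 y2 y3 y4 y5 y6 y7 y8 i

theorem I9.fa_spec {α : Type} : Tabulates (I9.fa (α := α)) := by
  intro f g h k
  simp only [I9.fa, h]
  congr 1
  funext i
  cases i <;> rfl

/-- All indices. -/
def I9.all : List I9 := [.c0, .c1, .c2, .c3, .c4, .c5, .c6, .c7, .c8]

theorem I9.mem_all (i : I9) : i ∈ I9.all := by cases i <;> decide

instance I9.fintype : Fintype I9 := ⟨I9.all.toFinset, fun i => List.mem_toFinset.2 i.mem_all⟩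

/-- The position of an index. -/
noncomputable def I9.pos : I9 → ℕ := I9.fn 0 1 2 3 4 5 6 7 8

theorem I9.pos_lt (i : I9) : i.pos < 9 := by cases i <;> decide

theorem I9.pos_inj : Function.Injective I9.pos := by
  have : ∀ i : I9, I9.all.getD i.pos .c0 = i := fun i => by cases i <;> rfl
  exact fun a b h => by rw [← this a, h, this b]

/-- An index type. -/
inductive I18 : Type
  | c0 | c1 | c2 | c3 | c4 | c5 | c6 | c7 | c8 | c9 | c10 | c11 | c12 | c13 | c14 | c15 | c16
  | c17
  deriving DecidableEq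

/-- A function given by its values. -/
noncomputable def I18.fn {α : Type} (y0 y1 y2 y3 y4 y5 y6 y7 y8 y9 y10 y11 y12 y13 y14 y15 y16 y17 : α) : I18 → α :=
  fun i => I18.rec (motive := fun _ => α) y0 y1 y2 y3 y4 y5 y6 y7 y8 y9 y10 y11 y12 y13 y14 y15 y16 y17 i

/-- Strict tabulation. -/
noncomputable def I18.fa {α : Type} (f : I18 → (α → Bool) → Bool) (k : (I18 → α) → Bool) :
    Bool :=
  f .c0 fun y0 => f .c1 fun y1 => f .c2 fun y2 => f .c3 fun y3 => f .c4 fun y4 => f .c5 fun y5
    => f .c6 fun y6 => f .c7 fun y7 => f .c8 fun y8 => f .c9 fun y9 => f .c10 fun y10 => f .c11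
    fun y11 => f .c12 fun y12 => f .c13 fun y13 => f .c14 fun y14 => f .c15 fun y15 => f .c16
    fun y16 => f .c17 fun y17 =>
    k fun i => I18.rec (motive := fun _ => α) y0 y1 y2 y3 y4 y5 y6 y7 y8 y9 y10 y11 y12 y13 y14 y15 y16 y17 i

theorem I18.fa_spec {α : Type} : Tabulates (I18.fa (α := α)) := by
  intro f g h k
  simp only [I18.fa, h]
  congr 1
  funext i
  cases i <;> rfl

/-- All indices. -/
def I18.all : List I18 := [.c0, .c1, .c2, .c3, .c4, .c5, .c6, .c7, .c8, .c9, .c10, .c11, .c12, .c13, .c14, .c15, .c16,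
    .c17]

theorem I18.mem_all (i : I18) : i ∈ I18.all := by cases i <;> decide

instance I18.fintype : Fintype I18 := ⟨I18.all.toFinset, fun i => List.mem_toFinset.2 i.mem_all⟩

/-- The position of an index. -/
noncomputable def I18.pos : I18 → ℕ := I18.fn 0 1 2 3 4 5 6 7 8 9 10 11 12 13 14 15 16 17

theorem I18.pos_lt (i : I18) : i.pos < 18 := by cases i <;> decide

theorem I18.pos_inj : Function.Injective I18.pos := by
  have : ∀ i : I18, I18.all.getD i.pos .c0 = i := fun i => by cases i <;> rfl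
  exact fun a b h => by rw [← this a, h, this b]

end Pool.Agent.Lib.MP_c86c76_al.Eng
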