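import Pool.Agent.Lib.MP_c86c76_al.Eng.Group

/-!
Tables of an affine action of the genus four mapping class group.
-/

set_option autoImplicit false

namespace Pool.Agent.Lib.MP_c86c76_al.Eng

/-- The index type. -/
abbrev P4 : Type := I9 × I18

/-- Rows on the product. -/
noncomputable def rows2 (R : I9 → I18 → Row P4) : P4 → Row P4 :=
  fun p => Prod.rec (motive := fun _ => Row P4) (fun a b => R a b) p

/-- An index. -/
def p0 : P4 := (.c0, .c0)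
/-- An index. -/
def p1 : P4 := (.c0, .c1)
/-- An index. -/
def p2 : P4 := (.c0, .c2)
/-- An index. -/
def p3 : P4 := (.c0, .c3)
/-- An index. -/
def p4 : P4 := (.c0, .c4)
/-- An index. -/
def p5 : P4 := (.c0, .c5)
/-- An index. -/
def p6 : P4 := (.c0, .c6)
/-- An index. -/
def p7 : P4 := (.c0, .c7)
/-- An index. -/
def p8 : P4 := (.c0, .c8)
/-- An index. -/
def p9 : P4 := (.c0, .c9)
/-- An index. -/
def p10 : P4 := (.c0, .c10)
/-- An index. -/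
def p11 : P4 := (.c0, .c11)
/-- An index. -/
def p12 : P4 := (.c0, .c12)
/-- An index. -/
def p13 : P4 := (.c0, .c13)
/-- An index. -/
def p14 : P4 := (.c0, .c14)
/-- An index. -/
def p15 : P4 := (.c0, .c15)
/-- An index. -/
def p16 : P4 := (.c0, .c16)
/-- An index. -/
def p17 : P4 := (.c0, .c17)
/-- An index. -/
def p18 : P4 := (.c1, .c0)
/-- An index. -/
def p19 : P4 := (.c1, .c1)
/-- An index. -/
def p20 : P4 := (.c1, .c2)
/-- An index. -/
def p21 : P4 := (.c1, .c3)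
/-- An index. -/
def p22 : P4 := (.c1, .c4)
/-- An index. -/
def p23 : P4 := (.c1, .c5)
/-- An index. -/
def p24 : P4 := (.c1, .c6)
/-- An index. -/
def p25 : P4 := (.c1, .c7)
/-- An index. -/
def p26 : P4 := (.c1, .c8)
/-- An index. -/
def p27 : P4 := (.c1, .c9)
/-- An index. -/
def p28 : P4 := (.c1, .c10)
/-- An index. -/
def p29 : P4 := (.c1, .c11)
/-- An index. -/
def p30 : P4 := (.c1, .c12)
/-- An index. -/
def p31 : P4 := (.c1, .c13)
/-- An index. -/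
def p32 : P4 := (.c1, .c14)
/-- An index. -/
def p33 : P4 := (.c1, .c15)
/-- An index. -/
def p34 : P4 := (.c1, .c16)
/-- An index. -/
def p35 : P4 := (.c1, .c17)
/-- An index. -/
def p36 : P4 := (.c2, .c0)
/-- An index. -/
def p37 : P4 := (.c2, .c1)
/-- An index. -/
def p38 : P4 := (.c2, .c2)
/-- An index. -/
def p39 : P4 := (.c2, .c3)
/-- An index. -/
def p40 : P4 := (.c2, .c4)
/-- An index. -/
def p41 : P4 := (.c2, .c5)
/-- An index. -/
def p42 : P4 := (.c2, .c6)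
/-- An index. -/
def p43 : P4 := (.c2, .c7)
/-- An index. -/
def p44 : P4 := (.c2, .c8)
/-- An index. -/
def p45 : P4 := (.c2, .c9)
/-- An index. -/
def p46 : P4 := (.c2, .c10)
/-- An index. -/
def p47 : P4 := (.c2, .c11)
/-- An index. -/
def p48 : P4 := (.c2, .c12)
/-- An index. -/
def p49 : P4 := (.c2, .c13)
/-- An index. -/
def p50 : P4 := (.c2, .c14)
/-- An index. -/
def p51 : P4 := (.c2, .c15)
/-- An index. -/
def p52 : P4 := (.c2, .c16)
/-- An index. -/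
def p53 : P4 := (.c2, .c17)
/-- An index. -/
def p54 : P4 := (.c3, .c0)
/-- An index. -/
def p55 : P4 := (.c3, .c1)
/-- An index. -/
def p56 : P4 := (.c3, .c2)
/-- An index. -/
def p57 : P4 := (.c3, .c3)
/-- An index. -/
def p58 : P4 := (.c3, .c4)
/-- An index. -/
def p59 : P4 := (.c3, .c5)
/-- An index. -/
def p60 : P4 := (.c3, .c6)
/-- An index. -/
def p61 : P4 := (.c3, .c7)
/-- An index. -/
def p62 : P4 := (.c3, .c8)
/-- An index. -/
def p63 : P4 := (.c3, .c9)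
/-- An index. -/
def p64 : P4 := (.c3, .c10)
/-- An index. -/
def p65 : P4 := (.c3, .c11)
/-- An index. -/
def p66 : P4 := (.c3, .c12)
/-- An index. -/
def p67 : P4 := (.c3, .c13)
/-- An index. -/
def p68 : P4 := (.c3, .c14)
/-- An index. -/
def p69 : P4 := (.c3, .c15)
/-- An index. -/
def p70 : P4 := (.c3, .c16)
/-- An index. -/
def p71 : P4 := (.c3, .c17)
/-- An index. -/
def p72 : P4 := (.c4, .c0)
/-- An index. -/
def p73 : P4 := (.c4, .c1)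
/-- An index. -/
def p74 : P4 := (.c4, .c2)
/-- An index. -/
def p75 : P4 := (.c4, .c3)
/-- An index. -/
def p76 : P4 := (.c4, .c4)
/-- An index. -/
def p77 : P4 := (.c4, .c5)
/-- An index. -/
def p78 : P4 := (.c4, .c6)
/-- An index. -/
def p79 : P4 := (.c4, .c7)
/-- An index. -/
def p80 : P4 := (.c4, .c8)
/-- An index. -/
def p81 : P4 := (.c4, .c9)
/-- An index. -/
def p82 : P4 := (.c4, .c10)
/-- An index. -/
def p83 : P4 := (.c4, .c11)
/-- An index. -/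
def p84 : P4 := (.c4, .c12)
/-- An index. -/
def p85 : P4 := (.c4, .c13)
/-- An index. -/
def p86 : P4 := (.c4, .c14)
/-- An index. -/
def p87 : P4 := (.c4, .c15)
/-- An index. -/
def p88 : P4 := (.c4, .c16)
/-- An index. -/
def p89 : P4 := (.c4, .c17)
/-- An index. -/
def p90 : P4 := (.c5, .c0)
/-- An index. -/
def p91 : P4 := (.c5, .c1)
/-- An index. -/
def p92 : P4 := (.c5, .c2)
/-- An index. -/
def p93 : P4 := (.c5, .c3)
/-- An index. -/
def p94 : P4 := (.c5, .c4)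
/-- An index. -/
def p95 : P4 := (.c5, .c5)
/-- An index. -/
def p96 : P4 := (.c5, .c6)
/-- An index. -/
def p97 : P4 := (.c5, .c7)
/-- An index. -/
def p98 : P4 := (.c5, .c8)
/-- An index. -/
def p99 : P4 := (.c5, .c9)
/-- An index. -/
def p100 : P4 := (.c5, .c10)
/-- An index. -/
def p101 : P4 := (.c5, .c11)
/-- An index. -/
def p102 : P4 := (.c5, .c12)
/-- An index. -/
def p103 : P4 := (.c5, .c13)
/-- An index. -/
def p104 : P4 := (.c5, .c14)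
/-- An index. -/
def p105 : P4 := (.c5, .c15)
/-- An index. -/
def p106 : P4 := (.c5, .c16)
/-- An index. -/
def p107 : P4 := (.c5, .c17)
/-- An index. -/
def p108 : P4 := (.c6, .c0)
/-- An index. -/
def p109 : P4 := (.c6, .c1)
/-- An index. -/
def p110 : P4 := (.c6, .c2)
/-- An index. -/
def p111 : P4 := (.c6, .c3)
/-- An index. -/
def p112 : P4 := (.c6, .c4)
/-- An index. -/
def p113 : P4 := (.c6, .c5)
/-- An index. -/
def p114 : P4 := (.c6, .c6)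
/-- An index. -/
def p115 : P4 := (.c6, .c7)
/-- An index. -/
def p116 : P4 := (.c6, .c8)
/-- An index. -/
def p117 : P4 := (.c6, .c9)
/-- An index. -/
def p118 : P4 := (.c6, .c10)
/-- An index. -/
def p119 : P4 := (.c6, .c11)
/-- An index. -/
def p120 : P4 := (.c6, .c12)
/-- An index. -/
def p121 : P4 := (.c6, .c13)
/-- An index. -/
def p122 : P4 := (.c6, .c14)
/-- An index. -/
def p123 : P4 := (.c6, .c15)
/-- An index. -/
def p124 : P4 := (.c6, .c16)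
/-- An index. -/
def p125 : P4 := (.c6, .c17)
/-- An index. -/
def p126 : P4 := (.c7, .c0)
/-- An index. -/
def p127 : P4 := (.c7, .c1)
/-- An index. -/
def p128 : P4 := (.c7, .c2)
/-- An index. -/
def p129 : P4 := (.c7, .c3)
/-- An index. -/
def p130 : P4 := (.c7, .c4)
/-- An index. -/
def p131 : P4 := (.c7, .c5)
/-- An index. -/
def p132 : P4 := (.c7, .c6)
/-- An index. -/
def p133 : P4 := (.c7, .c7)
/-- An index. -/
def p134 : P4 := (.c7, .c8)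
/-- An index. -/
def p135 : P4 := (.c7, .c9)
/-- An index. -/
def p136 : P4 := (.c7, .c10)
/-- An index. -/
def p137 : P4 := (.c7, .c11)
/-- An index. -/
def p138 : P4 := (.c7, .c12)
/-- An index. -/
def p139 : P4 := (.c7, .c13)
/-- An index. -/
def p140 : P4 := (.c7, .c14)
/-- An index. -/
def p141 : P4 := (.c7, .c15)
/-- An index. -/
def p142 : P4 := (.c7, .c16)
/-- An index. -/
def p143 : P4 := (.c7, .c17)
/-- An index. -/
def p144 : P4 := (.c8, .c0)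
/-- An index. -/
def p145 : P4 := (.c8, .c1)
/-- An index. -/
def p146 : P4 := (.c8, .c2)
/-- An index. -/
def p147 : P4 := (.c8, .c3)
/-- An index. -/
def p148 : P4 := (.c8, .c4)
/-- An index. -/
def p149 : P4 := (.c8, .c5)
/-- An index. -/
def p150 : P4 := (.c8, .c6)
/-- An index. -/
def p151 : P4 := (.c8, .c7)
/-- An index. -/
def p152 : P4 := (.c8, .c8)
/-- An index. -/
def p153 : P4 := (.c8, .c9)
/-- An index. -/
def p154 : P4 := (.c8, .c10)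
/-- An index. -/
def p155 : P4 := (.c8, .c11)
/-- An index. -/
def p156 : P4 := (.c8, .c12)
/-- An index. -/
def p157 : P4 := (.c8, .c13)
/-- An index. -/
def p158 : P4 := (.c8, .c14)
/-- An index. -/
def p159 : P4 := (.c8, .c15)
/-- An index. -/
def p160 : P4 := (.c8, .c16)
/-- An index. -/
def p161 : P4 := (.c8, .c17)
/-- Eighteen rows. -/
noncomputable def k0_0 : I18 → Row P4 := I18.fn ([p0],[]) ([p1],[]) ([p2,p3],[]) ([p3,p3],[p2]) ([p4,p5],[]) ([p5,p5],[p4]) ([p6,p7],[]) ([p7,p7],[p6]) ([p8,p9],[]) ([p9,p9],[p8]) ([p10,p11],[]) ([p11,p11],[p10]) ([p12,p13],[]) ([p13,p13],[p12]) ([p14,p15],[]) ([p15,p15],[p14]) ([p16,p17],[]) ([p17,p17],[p16])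
/-- Eighteen rows. -/
noncomputable def k0_1 : I18 → Row P4 := I18.fn ([p18,p19],[]) ([p19,p19],[p18]) ([p20,p21],[]) ([p21,p21],[p20]) ([p22,p23],[]) ([p23,p23],[p22]) ([p24,p25],[]) ([p25,p25],[p24]) ([p26,p27],[]) ([p27,p27],[p26]) ([p28,p29],[]) ([p29,p29],[p28]) ([p30,p31],[]) ([p31,p31],[p30]) ([p32,p33],[]) ([p33,p33],[p32]) ([p34,p35],[]) ([p35,p35],[p34])
/-- Eighteen rows. -/
noncomputable def k0_2 : I18 → Row P4 := I18.fn ([p36,p37],[]) ([p37,p37],[p36]) ([p38,p39],[]) ([p39,p39],[p38]) ([p40,p41],[]) ([p41,p41],[p40]) ([p42,p43],[]) ([p43,p43],[p42]) ([p44,p45],[]) ([p45,p45],[p44]) ([p46,p47],[]) ([p47,p47],[p46]) ([p48,p49],[]) ([p49,p49],[p48]) ([p50,p51],[]) ([p51,p51],[p50]) ([p52,p53],[]) ([p53,p53],[p52])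
/-- Eighteen rows. -/
noncomputable def k0_3 : I18 → Row P4 := I18.fn ([p54,p55],[]) ([p55,p55],[p54]) ([p56,p57],[]) ([p57,p57],[p56]) ([p58,p59],[]) ([p59,p59],[p58]) ([p60,p61],[]) ([p61,p61],[p60]) ([p62,p63],[]) ([p63,p63],[p62]) ([p64,p65],[]) ([p65,p65],[p64]) ([p66,p67],[]) ([p67,p67],[p66]) ([p68,p69],[]) ([p69,p69],[p68]) ([p70,p71],[]) ([p71,p71],[p70])
/-- Eighteen rows. -/
noncomputable def k0_4 : I18 → Row P4 := I18.fn ([p72,p73],[]) ([p73,p73],[p72]) ([p74,p75],[]) ([p75,p75],[p74]) ([p76,p77],[]) ([p77,p77],[p76]) ([p78,p79],[]) ([p79,p79],[p78]) ([p80,p81],[]) ([p81,p81],[p80]) ([p82,p83],[]) ([p83,p83],[p82]) ([p84,p85],[]) ([p85,p85],[p84]) ([p86,p87],[]) ([p87,p87],[p86]) ([p88,p89],[]) ([p89,p89],[p88])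
/-- Eighteen rows. -/
noncomputable def k0_5 : I18 → Row P4 := I18.fn ([p90,p91],[]) ([p91,p91],[p90]) ([p92,p93],[]) ([p93,p93],[p92]) ([p94,p95],[]) ([p95,p95],[p94]) ([p96,p97],[]) ([p97,p97],[p96]) ([p98,p99],[]) ([p99,p99],[p98]) ([p100,p101],[]) ([p101,p101],[p100]) ([p102,p103],[]) ([p103,p103],[p102]) ([p104,p105],[]) ([p105,p105],[p104]) ([p106,p107],[]) ([p107,p107],[p106])
/-- Eighteen rows. -/
noncomputable def k0_6 : I18 → Row P4 := I18.fn ([p108,p109],[]) ([p109,p109],[p108]) ([p110,p111],[]) ([p111,p111],[p110]) ([p112,p113],[]) ([p113,p113],[p112]) ([p114,p115],[]) ([p115,p115],[p114]) ([p116,p117],[]) ([p117,p117],[p116]) ([p118,p119],[]) ([p119,p119],[p118]) ([p120,p121],[]) ([p121,p121],[p120]) ([p122,p123],[]) ([p123,p123],[p122]) ([p124,p125],[]) ([p125,p125],[p124])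
/-- Eighteen rows. -/
noncomputable def k0_7 : I18 → Row P4 := I18.fn ([p126,p127],[]) ([p127,p127],[p126]) ([p128,p129],[]) ([p129,p129],[p128]) ([p130,p131],[]) ([p131,p131],[p130]) ([p132,p133],[]) ([p133,p133],[p132]) ([p134,p135],[]) ([p135,p135],[p134]) ([p136,p137],[]) ([p137,p137],[p136]) ([p138,p139],[]) ([p139,p139],[p138]) ([p140,p141],[]) ([p141,p141],[p140]) ([p142,p143],[]) ([p143,p143],[p142])
/-- Eighteen rows. -/
noncomputable def k0_8 : I18 → Row P4 := I18.fn ([p144,p145],[]) ([p145,p145],[p144]) ([p146,p147],[]) ([p147,p147],[p146]) ([p148,p149],[]) ([p149,p149],[p148]) ([p150,p151],[]) ([p151,p151],[p150]) ([p152,p153],[]) ([p153,p153],[p152]) ([p154,p155],[]) ([p155,p155],[p154]) ([p156,p157],[]) ([p157,p157],[p156]) ([p158,p159],[]) ([p159,p159],[p158]) ([p160,p161],[]) ([p161,p161],[p160])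
/-- One table. -/
noncomputable def k0 : Unit → Blk P4 Unit := fun _ => ((), rows2 (I9.fn k0_0 k0_1 k0_2 k0_3 k0_4 k0_5 k0_6 k0_7 k0_8), ([],[]))
/-- Eighteen rows. -/
noncomputable def k1_0 : I18 → Row P4 := I18.fn ([p0],[]) ([p1],[]) ([p2],[]) ([p3],[]) ([p4],[]) ([p5],[]) ([p6],[]) ([p7],[]) ([p8],[]) ([p9],[]) ([p10,p11],[]) ([p11,p11],[p10]) ([p12],[]) ([p13],[]) ([p14,p15],[]) ([p15,p15],[p14]) ([p16,p17],[]) ([p17,p17],[p16])
/-- Eighteen rows. -/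
noncomputable def k1_1 : I18 → Row P4 := I18.fn ([p18],[]) ([p19],[]) ([p20],[]) ([p21],[]) ([p22,p23],[]) ([p23,p23],[p22]) ([p24],[]) ([p25],[]) ([p26,p27],[]) ([p27,p27],[p26]) ([p28,p29],[]) ([p29,p29],[p28]) ([p30,p31],[]) ([p31,p31],[p30]) ([p32,p33],[]) ([p33,p33],[p32]) ([p34,p35],[]) ([p35,p35],[p34])
/-- Eighteen rows. -/
noncomputable def k1_2 : I18 → Row P4 := I18.fn ([p36],[]) ([p37],[]) ([p38,p39],[]) ([p39,p39],[p38]) ([p40,p41],[]) ([p41,p41],[p40]) ([p42,p43],[]) ([p43,p43],[p42]) ([p44,p45],[]) ([p45,p45],[p44]) ([p46,p47],[]) ([p47,p47],[p46]) ([p48,p49],[]) ([p49,p49],[p48]) ([p50,p51],[]) ([p51,p51],[p50]) ([p52,p53],[]) ([p53,p53],[p52])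
/-- Eighteen rows. -/
noncomputable def k1_3 : I18 → Row P4 := I18.fn ([p54],[]) ([p55],[]) ([p56],[]) ([p57],[]) ([p58,p59],[]) ([p59,p59],[p58]) ([p60],[]) ([p61],[]) ([p62,p63],[]) ([p63,p63],[p62]) ([p64,p65],[]) ([p65,p65],[p64]) ([p66,p67],[]) ([p67,p67],[p66]) ([p68,p69],[]) ([p69,p69],[p68]) ([p70,p71],[]) ([p71,p71],[p70])
/-- Eighteen rows. -/
noncomputable def k1_4 : I18 → Row P4 := I18.fn ([p72],[]) ([p73],[]) ([p74,p75],[]) ([p75,p75],[p74]) ([p76,p77],[]) ([p77,p77],[p76]) ([p78,p79],[]) ([p79,p79],[p78]) ([p80,p81],[]) ([p81,p81],[p80]) ([p82,p83],[]) ([p83,p83],[p82]) ([p84,p85],[]) ([p85,p85],[p84]) ([p86,p87],[]) ([p87,p87],[p86]) ([p88,p89],[]) ([p89,p89],[p88])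
/-- Eighteen rows. -/
noncomputable def k1_5 : I18 → Row P4 := I18.fn ([p90,p91],[]) ([p91,p91],[p90]) ([p92,p93],[]) ([p93,p93],[p92]) ([p94,p95],[]) ([p95,p95],[p94]) ([p96,p97],[]) ([p97,p97],[p96]) ([p98,p99],[]) ([p99,p99],[p98]) ([p100,p101],[]) ([p101,p101],[p100]) ([p102,p103],[]) ([p103,p103],[p102]) ([p104,p105],[]) ([p105,p105],[p104]) ([p106,p107],[]) ([p107,p107],[p106])
/-- Eighteen rows. -/
noncomputable def k1_6 : I18 → Row P4 := I18.fn ([p108],[]) ([p109],[]) ([p110,p111],[]) ([p111,p111],[p110]) ([p112,p113],[]) ([p113,p113],[p112]) ([p114,p115],[]) ([p115,p115],[p114]) ([p116,p117],[]) ([p117,p117],[p116]) ([p118,p119],[]) ([p119,p119],[p118]) ([p120,p121],[]) ([p121,p121],[p120]) ([p122,p123],[]) ([p123,p123],[p122]) ([p124,p125],[]) ([p125,p125],[p124])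
/-- Eighteen rows. -/
noncomputable def k1_7 : I18 → Row P4 := I18.fn ([p126,p127],[]) ([p127,p127],[p126]) ([p128,p129],[]) ([p129,p129],[p128]) ([p130,p131],[]) ([p131,p131],[p130]) ([p132,p133],[]) ([p133,p133],[p132]) ([p134,p135],[]) ([p135,p135],[p134]) ([p136,p137],[]) ([p137,p137],[p136]) ([p138,p139],[]) ([p139,p139],[p138]) ([p140,p141],[]) ([p141,p141],[p140]) ([p142,p143],[]) ([p143,p143],[p142])
/-- Eighteen rows. -/
noncomputable def k1_8 : I18 → Row P4 := I18.fn ([p144,p145],[]) ([p145,p145],[p144]) ([p146,p147],[]) ([p147,p147],[p146]) ([p148,p149],[]) ([p149,p149],[p148]) ([p150,p151],[]) ([p151,p151],[p150]) ([p152,p153],[]) ([p153,p153],[p152]) ([p154,p155],[]) ([p155,p155],[p154]) ([p156,p157],[]) ([p157,p157],[p156]) ([p158,p159],[]) ([p159,p159],[p158]) ([p160,p161],[]) ([p161,p161],[p160])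
/-- One table. -/
noncomputable def k1 : Unit → Blk P4 Unit := fun _ => ((), rows2 (I9.fn k1_0 k1_1 k1_2 k1_3 k1_4 k1_5 k1_6 k1_7 k1_8), ([],[]))
/-- Eighteen rows. -/
noncomputable def k2_0 : I18 → Row P4 := I18.fn ([p0],[]) ([p1],[]) ([p2],[]) ([p3],[]) ([p4],[]) ([p5],[]) ([p6],[]) ([p7],[]) ([p8],[]) ([p9],[]) ([p10],[]) ([p11],[]) ([p12],[]) ([p13],[]) ([p14],[]) ([p15],[]) ([p16],[]) ([p17],[])
/-- Eighteen rows. -/
noncomputable def k2_1 : I18 → Row P4 := I18.fn ([p18],[]) ([p19],[]) ([p20],[]) ([p21],[]) ([p22],[]) ([p23],[]) ([p24],[]) ([p25],[]) ([p26],[]) ([p27],[]) ([p28],[]) ([p29],[]) ([p30],[]) ([p31],[]) ([p32],[]) ([p33],[]) ([p34,p35],[]) ([p35,p35],[p34])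
/-- Eighteen rows. -/
noncomputable def k2_2 : I18 → Row P4 := I18.fn ([p36],[]) ([p37],[]) ([p38],[]) ([p39],[]) ([p40],[]) ([p41],[]) ([p42],[]) ([p43],[]) ([p44],[]) ([p45],[]) ([p46,p47],[]) ([p47,p47],[p46]) ([p48],[]) ([p49],[]) ([p50,p51],[]) ([p51,p51],[p50]) ([p52,p53],[]) ([p53,p53],[p52])
/-- Eighteen rows. -/
noncomputable def k2_3 : I18 → Row P4 := I18.fn ([p54],[]) ([p55],[]) ([p56],[]) ([p57],[]) ([p58],[]) ([p59],[]) ([p60],[]) ([p61],[]) ([p62],[]) ([p63],[]) ([p64],[]) ([p65],[]) ([p66],[]) ([p67],[]) ([p68],[]) ([p69],[]) ([p70,p71],[]) ([p71,p71],[p70])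
/-- Eighteen rows. -/
noncomputable def k2_4 : I18 → Row P4 := I18.fn ([p72],[]) ([p73],[]) ([p74],[]) ([p75],[]) ([p76],[]) ([p77],[]) ([p78],[]) ([p79],[]) ([p80],[]) ([p81],[]) ([p82,p83],[]) ([p83,p83],[p82]) ([p84],[]) ([p85],[]) ([p86,p87],[]) ([p87,p87],[p86]) ([p88,p89],[]) ([p89,p89],[p88])
/-- Eighteen rows. -/
noncomputable def k2_5 : I18 → Row P4 := I18.fn ([p90],[]) ([p91],[]) ([p92],[]) ([p93],[]) ([p94,p95],[]) ([p95,p95],[p94]) ([p96],[]) ([p97],[]) ([p98,p99],[]) ([p99,p99],[p98]) ([p100,p101],[]) ([p101,p101],[p100]) ([p102,p103],[]) ([p103,p103],[p102]) ([p104,p105],[]) ([p105,p105],[p104]) ([p106,p107],[]) ([p107,p107],[p106])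
/-- Eighteen rows. -/
noncomputable def k2_6 : I18 → Row P4 := I18.fn ([p108],[]) ([p109],[]) ([p110],[]) ([p111],[]) ([p112],[]) ([p113],[]) ([p114],[]) ([p115],[]) ([p116],[]) ([p117],[]) ([p118,p119],[]) ([p119,p119],[p118]) ([p120],[]) ([p121],[]) ([p122,p123],[]) ([p123,p123],[p122]) ([p124,p125],[]) ([p125,p125],[p124])
/-- Eighteen rows. -/
noncomputable def k2_7 : I18 → Row P4 := I18.fn ([p126],[]) ([p127],[]) ([p128],[]) ([p129],[]) ([p130,p131],[]) ([p131,p131],[p130]) ([p132],[]) ([p133],[]) ([p134,p135],[]) ([p135,p135],[p134]) ([p136,p137],[]) ([p137,p137],[p136]) ([p138,p139],[]) ([p139,p139],[p138]) ([p140,p141],[]) ([p141,p141],[p140]) ([p142,p143],[]) ([p143,p143],[p142])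
/-- Eighteen rows. -/
noncomputable def k2_8 : I18 → Row P4 := I18.fn ([p144],[]) ([p145],[]) ([p146,p147],[]) ([p147,p147],[p146]) ([p148,p149],[]) ([p149,p149],[p148]) ([p150,p151],[]) ([p151,p151],[p150]) ([p152,p153],[]) ([p153,p153],[p152]) ([p154,p155],[]) ([p155,p155],[p154]) ([p156,p157],[]) ([p157,p157],[p156]) ([p158,p159],[]) ([p159,p159],[p158]) ([p160,p161],[]) ([p161,p161],[p160])
/-- One table. -/
noncomputable def k2 : Unit → Blk P4 Unit := fun _ => ((), rows2 (I9.fn k2_0 k2_1 k2_2 k2_3 k2_4 k2_5 k2_6 k2_7 k2_8), ([],[]))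
/-- Eighteen rows. -/
noncomputable def k3_0 : I18 → Row P4 := I18.fn ([p0],[]) ([p1],[]) ([p2],[]) ([p3],[]) ([p4],[]) ([p5],[]) ([p6],[]) ([p7],[]) ([p8],[]) ([p9],[]) ([p10],[]) ([p11],[]) ([p12],[]) ([p13],[]) ([p14],[]) ([p15],[]) ([p16],[]) ([p17],[])
/-- Eighteen rows. -/
noncomputable def k3_1 : I18 → Row P4 := I18.fn ([p18],[]) ([p19],[]) ([p20],[]) ([p21],[]) ([p22],[]) ([p23],[]) ([p24],[]) ([p25],[]) ([p26],[]) ([p27],[]) ([p28],[]) ([p29],[]) ([p30],[]) ([p31],[]) ([p32],[]) ([p33],[]) ([p34],[]) ([p35],[])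
/-- Eighteen rows. -/
noncomputable def k3_2 : I18 → Row P4 := I18.fn ([p36],[]) ([p37],[]) ([p38],[]) ([p39],[]) ([p40],[]) ([p41],[]) ([p42],[]) ([p43],[]) ([p44],[]) ([p45],[]) ([p46],[]) ([p47],[]) ([p48],[]) ([p49],[]) ([p50],[]) ([p51],[]) ([p52],[]) ([p53],[])
/-- Eighteen rows. -/
noncomputable def k3_3 : I18 → Row P4 := I18.fn ([p54],[]) ([p55],[]) ([p56],[]) ([p57],[]) ([p58],[]) ([p59],[]) ([p60],[]) ([p61],[]) ([p62],[]) ([p63],[]) ([p64],[]) ([p65],[]) ([p66],[]) ([p67],[]) ([p68],[]) ([p69],[]) ([p70],[]) ([p71],[])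
/-- Eighteen rows. -/
noncomputable def k3_4 : I18 → Row P4 := I18.fn ([p72],[]) ([p73],[]) ([p74],[]) ([p75],[]) ([p76],[]) ([p77],[]) ([p78],[]) ([p79],[]) ([p80],[]) ([p81],[]) ([p82],[]) ([p83],[]) ([p84],[]) ([p85],[]) ([p86],[]) ([p87],[]) ([p88],[]) ([p89],[])
/-- Eighteen rows. -/
noncomputable def k3_5 : I18 → Row P4 := I18.fn ([p90],[]) ([p91],[]) ([p92],[]) ([p93],[]) ([p94],[]) ([p95],[]) ([p96],[]) ([p97],[]) ([p98],[]) ([p99],[]) ([p100],[]) ([p101],[]) ([p102],[]) ([p103],[]) ([p104],[]) ([p105],[]) ([p106,p107],[]) ([p107,p107],[p106])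
/-- Eighteen rows. -/
noncomputable def k3_6 : I18 → Row P4 := I18.fn ([p108],[]) ([p109],[]) ([p110],[]) ([p111],[]) ([p112],[]) ([p113],[]) ([p114],[]) ([p115],[]) ([p116],[]) ([p117],[]) ([p118],[]) ([p119],[]) ([p120],[]) ([p121],[]) ([p122],[]) ([p123],[]) ([p124],[]) ([p125],[])
/-- Eighteen rows. -/
noncomputable def k3_7 : I18 → Row P4 := I18.fn ([p126],[]) ([p127],[]) ([p128],[]) ([p129],[]) ([p130],[]) ([p131],[]) ([p132],[]) ([p133],[]) ([p134],[]) ([p135],[]) ([p136],[]) ([p137],[]) ([p138],[]) ([p139],[]) ([p140],[]) ([p141],[]) ([p142,p143],[]) ([p143,p143],[p142])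
/-- Eighteen rows. -/
noncomputable def k3_8 : I18 → Row P4 := I18.fn ([p144],[]) ([p145],[]) ([p146],[]) ([p147],[]) ([p148],[]) ([p149],[]) ([p150],[]) ([p151],[]) ([p152],[]) ([p153],[]) ([p154,p155],[]) ([p155,p155],[p154]) ([p156],[]) ([p157],[]) ([p158,p159],[]) ([p159,p159],[p158]) ([p160,p161],[]) ([p161,p161],[p160])
/-- One table. -/
noncomputable def k3 : Unit → Blk P4 Unit := fun _ => ((), rows2 (I9.fn k3_0 k3_1 k3_2 k3_3 k3_4 k3_5 k3_6 k3_7 k3_8), ([],[]))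
/-- Eighteen rows. -/
noncomputable def k4_0 : I18 → Row P4 := I18.fn ([p0],[]) ([p1],[]) ([p2],[]) ([p3],[]) ([p4],[]) ([p5],[]) ([p6],[]) ([p7],[]) ([p8],[]) ([p9],[]) ([p10],[]) ([p11],[]) ([p12],[]) ([p13],[]) ([p14],[]) ([p15],[]) ([p16],[]) ([p17],[])
/-- Eighteen rows. -/
noncomputable def k4_1 : I18 → Row P4 := I18.fn ([p18],[]) ([p19],[]) ([p20],[]) ([p21],[]) ([p22],[]) ([p23],[]) ([p24],[]) ([p25],[]) ([p26],[]) ([p27],[]) ([p28],[]) ([p29],[]) ([p30],[]) ([p31],[]) ([p32],[]) ([p33],[]) ([p34],[]) ([p35],[])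
/-- Eighteen rows. -/
noncomputable def k4_2 : I18 → Row P4 := I18.fn ([p36],[]) ([p37],[]) ([p38],[]) ([p39],[]) ([p40],[]) ([p41],[]) ([p42],[]) ([p43],[]) ([p44],[]) ([p45],[]) ([p46],[]) ([p47],[]) ([p48],[]) ([p49],[]) ([p50],[]) ([p51],[]) ([p52],[]) ([p53],[])
/-- Eighteen rows. -/
noncomputable def k4_3 : I18 → Row P4 := I18.fn ([p0,p54],[]) ([p1,p55],[]) ([p2,p56],[]) ([p3,p57],[]) ([p4,p58],[]) ([p5,p59],[]) ([p6,p60],[]) ([p7,p61],[]) ([p8,p62],[]) ([p9,p63],[]) ([p10,p64],[]) ([p11,p65],[]) ([p12,p66],[]) ([p13,p67],[]) ([p14,p68],[]) ([p15,p69],[]) ([p16,p70],[]) ([p17,p71],[])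
/-- Eighteen rows. -/
noncomputable def k4_4 : I18 → Row P4 := I18.fn ([p18,p72],[]) ([p19,p73],[]) ([p20,p74],[]) ([p21,p75],[]) ([p22,p76],[]) ([p23,p77],[]) ([p24,p78],[]) ([p25,p79],[]) ([p26,p80],[]) ([p27,p81],[]) ([p28,p82],[]) ([p29,p83],[]) ([p30,p84],[]) ([p31,p85],[]) ([p32,p86],[]) ([p33,p87],[]) ([p34,p88],[]) ([p35,p89],[])
/-- Eighteen rows. -/
noncomputable def k4_5 : I18 → Row P4 := I18.fn ([p36,p90],[]) ([p37,p91],[]) ([p38,p92],[]) ([p39,p93],[]) ([p40,p94],[]) ([p41,p95],[]) ([p42,p96],[]) ([p43,p97],[]) ([p44,p98],[]) ([p45,p99],[]) ([p46,p100],[]) ([p47,p101],[]) ([p48,p102],[]) ([p49,p103],[]) ([p50,p104],[]) ([p51,p105],[]) ([p52,p106],[]) ([p53,p107],[])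
/-- Eighteen rows. -/
noncomputable def k4_6 : I18 → Row P4 := I18.fn ([p0,p54,p54,p108],[]) ([p1,p55,p55,p109],[]) ([p2,p56,p56,p110],[]) ([p3,p57,p57,p111],[]) ([p4,p58,p58,p112],[]) ([p5,p59,p59,p113],[]) ([p6,p60,p60,p114],[]) ([p7,p61,p61,p115],[]) ([p8,p62,p62,p116],[]) ([p9,p63,p63,p117],[]) ([p10,p64,p64,p118],[]) ([p11,p65,p65,p119],[]) ([p12,p66,p66,p120],[]) ([p13,p67,p67,p121],[]) ([p14,p68,p68,p122],[]) ([p15,p69,p69,p123],[]) ([p16,p70,p70,p124],[]) ([p17,p71,p71,p125],[])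
/-- Eighteen rows. -/
noncomputable def k4_7 : I18 → Row P4 := I18.fn ([p18,p72,p72,p126],[]) ([p19,p73,p73,p127],[]) ([p20,p74,p74,p128],[]) ([p21,p75,p75,p129],[]) ([p22,p76,p76,p130],[]) ([p23,p77,p77,p131],[]) ([p24,p78,p78,p132],[]) ([p25,p79,p79,p133],[]) ([p26,p80,p80,p134],[]) ([p27,p81,p81,p135],[]) ([p28,p82,p82,p136],[]) ([p29,p83,p83,p137],[]) ([p30,p84,p84,p138],[]) ([p31,p85,p85,p139],[]) ([p32,p86,p86,p140],[]) ([p33,p87,p87,p141],[]) ([p34,p88,p88,p142],[]) ([p35,p89,p89,p143],[])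
/-- Eighteen rows. -/
noncomputable def k4_8 : I18 → Row P4 := I18.fn ([p36,p90,p90,p144],[]) ([p37,p91,p91,p145],[]) ([p38,p92,p92,p146],[]) ([p39,p93,p93,p147],[]) ([p40,p94,p94,p148],[]) ([p41,p95,p95,p149],[]) ([p42,p96,p96,p150],[]) ([p43,p97,p97,p151],[]) ([p44,p98,p98,p152],[]) ([p45,p99,p99,p153],[]) ([p46,p100,p100,p154],[]) ([p47,p101,p101,p155],[]) ([p48,p102,p102,p156],[]) ([p49,p103,p103,p157],[]) ([p50,p104,p104,p158],[]) ([p51,p105,p105,p159],[]) ([p52,p106,p106,p160],[]) ([p53,p107,p107,p161],[])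
/-- One table. -/
noncomputable def k4 : Unit → Blk P4 Unit := fun _ => ((), rows2 (I9.fn k4_0 k4_1 k4_2 k4_3 k4_4 k4_5 k4_6 k4_7 k4_8), ([],[]))
/-- Eighteen rows. -/
noncomputable def k5_0 : I18 → Row P4 := I18.fn ([p0],[]) ([p1],[]) ([p2],[]) ([p3],[]) ([p4],[]) ([p5],[]) ([p6],[]) ([p7],[]) ([p8],[]) ([p9],[]) ([p10],[]) ([p11],[]) ([p12],[]) ([p13],[]) ([p14],[]) ([p15],[]) ([p16],[]) ([p17],[])
/-- Eighteen rows. -/
noncomputable def k5_1 : I18 → Row P4 := I18.fn ([p0,p18],[]) ([p1,p19],[]) ([p2,p20],[]) ([p3,p21],[]) ([p4,p22],[]) ([p5,p23],[]) ([p6,p24],[]) ([p7,p25],[]) ([p8,p26],[]) ([p9,p27],[]) ([p10,p28],[]) ([p11,p29],[]) ([p12,p30],[]) ([p13,p31],[]) ([p14,p32],[]) ([p15,p33],[]) ([p16,p34],[]) ([p17,p35],[])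
/-- Eighteen rows. -/
noncomputable def k5_2 : I18 → Row P4 := I18.fn ([p0,p18,p18,p36],[]) ([p1,p19,p19,p37],[]) ([p2,p20,p20,p38],[]) ([p3,p21,p21,p39],[]) ([p4,p22,p22,p40],[]) ([p5,p23,p23,p41],[]) ([p6,p24,p24,p42],[]) ([p7,p25,p25,p43],[]) ([p8,p26,p26,p44],[]) ([p9,p27,p27,p45],[]) ([p10,p28,p28,p46],[]) ([p11,p29,p29,p47],[]) ([p12,p30,p30,p48],[]) ([p13,p31,p31,p49],[]) ([p14,p32,p32,p50],[]) ([p15,p33,p33,p51],[]) ([p16,p34,p34,p52],[]) ([p17,p35,p35,p53],[])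
/-- Eighteen rows. -/
noncomputable def k5_3 : I18 → Row P4 := I18.fn ([p54],[]) ([p55],[]) ([p56],[]) ([p57],[]) ([p58],[]) ([p59],[]) ([p60],[]) ([p61],[]) ([p62],[]) ([p63],[]) ([p64],[]) ([p65],[]) ([p66],[]) ([p67],[]) ([p68],[]) ([p69],[]) ([p70],[]) ([p71],[])
/-- Eighteen rows. -/
noncomputable def k5_4 : I18 → Row P4 := I18.fn ([p54,p72],[]) ([p55,p73],[]) ([p56,p74],[]) ([p57,p75],[]) ([p58,p76],[]) ([p59,p77],[]) ([p60,p78],[]) ([p61,p79],[]) ([p62,p80],[]) ([p63,p81],[]) ([p64,p82],[]) ([p65,p83],[]) ([p66,p84],[]) ([p67,p85],[]) ([p68,p86],[]) ([p69,p87],[]) ([p70,p88],[]) ([p71,p89],[])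
/-- Eighteen rows. -/
noncomputable def k5_5 : I18 → Row P4 := I18.fn ([p54,p72,p72,p90],[]) ([p55,p73,p73,p91],[]) ([p56,p74,p74,p92],[]) ([p57,p75,p75,p93],[]) ([p58,p76,p76,p94],[]) ([p59,p77,p77,p95],[]) ([p60,p78,p78,p96],[]) ([p61,p79,p79,p97],[]) ([p62,p80,p80,p98],[]) ([p63,p81,p81,p99],[]) ([p64,p82,p82,p100],[]) ([p65,p83,p83,p101],[]) ([p66,p84,p84,p102],[]) ([p67,p85,p85,p103],[]) ([p68,p86,p86,p104],[]) ([p69,p87,p87,p105],[]) ([p70,p88,p88,p106],[]) ([p71,p89,p89,p107],[])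
/-- Eighteen rows. -/
noncomputable def k5_6 : I18 → Row P4 := I18.fn ([p108],[]) ([p109],[]) ([p110],[]) ([p111],[]) ([p112],[]) ([p113],[]) ([p114],[]) ([p115],[]) ([p116],[]) ([p117],[]) ([p118],[]) ([p119],[]) ([p120],[]) ([p121],[]) ([p122],[]) ([p123],[]) ([p124],[]) ([p125],[])
/-- Eighteen rows. -/
noncomputable def k5_7 : I18 → Row P4 := I18.fn ([p108,p126],[]) ([p109,p127],[]) ([p110,p128],[]) ([p111,p129],[]) ([p112,p130],[]) ([p113,p131],[]) ([p114,p132],[]) ([p115,p133],[]) ([p116,p134],[]) ([p117,p135],[]) ([p118,p136],[]) ([p119,p137],[]) ([p120,p138],[]) ([p121,p139],[]) ([p122,p140],[]) ([p123,p141],[]) ([p124,p142],[]) ([p125,p143],[])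
/-- Eighteen rows. -/
noncomputable def k5_8 : I18 → Row P4 := I18.fn ([p108,p126,p126,p144],[]) ([p109,p127,p127,p145],[]) ([p110,p128,p128,p146],[]) ([p111,p129,p129,p147],[]) ([p112,p130,p130,p148],[]) ([p113,p131,p131,p149],[]) ([p114,p132,p132,p150],[]) ([p115,p133,p133,p151],[]) ([p116,p134,p134,p152],[]) ([p117,p135,p135,p153],[]) ([p118,p136,p136,p154],[]) ([p119,p137,p137,p155],[]) ([p120,p138,p138,p156],[]) ([p121,p139,p139,p157],[]) ([p122,p140,p140,p158],[]) ([p123,p141,p141,p159],[]) ([p124,p142,p142,p160],[]) ([p125,p143,p143,p161],[])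
/-- One table. -/
noncomputable def k5 : Unit → Blk P4 Unit := fun _ => ((), rows2 (I9.fn k5_0 k5_1 k5_2 k5_3 k5_4 k5_5 k5_6 k5_7 k5_8), ([],[]))
/-- Eighteen rows. -/
noncomputable def k6_0 : I18 → Row P4 := I18.fn ([p0],[]) ([p1],[]) ([p2],[]) ([p3],[]) ([p4],[]) ([p5],[]) ([p0,p6],[]) ([p1,p7],[]) ([p2,p8],[]) ([p3,p9],[]) ([p4,p10],[]) ([p5,p11],[]) ([p0,p6,p6,p12],[]) ([p1,p7,p7,p13],[]) ([p2,p8,p8,p14],[]) ([p3,p9,p9,p15],[]) ([p4,p10,p10,p16],[]) ([p5,p11,p11,p17],[])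
/-- Eighteen rows. -/
noncomputable def k6_1 : I18 → Row P4 := I18.fn ([p18],[]) ([p19],[]) ([p20],[]) ([p21],[]) ([p22],[]) ([p23],[]) ([p18,p24],[]) ([p19,p25],[]) ([p20,p26],[]) ([p21,p27],[]) ([p22,p28],[]) ([p23,p29],[]) ([p18,p24,p24,p30],[]) ([p19,p25,p25,p31],[]) ([p20,p26,p26,p32],[]) ([p21,p27,p27,p33],[]) ([p22,p28,p28,p34],[]) ([p23,p29,p29,p35],[])
/-- Eighteen rows. -/
noncomputable def k6_2 : I18 → Row P4 := I18.fn ([p36],[]) ([p37],[]) ([p38],[]) ([p39],[]) ([p40],[]) ([p41],[]) ([p36,p42],[]) ([p37,p43],[]) ([p38,p44],[]) ([p39,p45],[]) ([p40,p46],[]) ([p41,p47],[]) ([p36,p42,p42,p48],[]) ([p37,p43,p43,p49],[]) ([p38,p44,p44,p50],[]) ([p39,p45,p45,p51],[]) ([p40,p46,p46,p52],[]) ([p41,p47,p47,p53],[])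
/-- Eighteen rows. -/
noncomputable def k6_3 : I18 → Row P4 := I18.fn ([p54],[]) ([p55],[]) ([p56],[]) ([p57],[]) ([p58],[]) ([p59],[]) ([p54,p60],[]) ([p55,p61],[]) ([p56,p62],[]) ([p57,p63],[]) ([p58,p64],[]) ([p59,p65],[]) ([p54,p60,p60,p66],[]) ([p55,p61,p61,p67],[]) ([p56,p62,p62,p68],[]) ([p57,p63,p63,p69],[]) ([p58,p64,p64,p70],[]) ([p59,p65,p65,p71],[])
/-- Eighteen rows. -/
noncomputable def k6_4 : I18 → Row P4 := I18.fn ([p72],[]) ([p73],[]) ([p74],[]) ([p75],[]) ([p76],[]) ([p77],[]) ([p72,p78],[]) ([p73,p79],[]) ([p74,p80],[]) ([p75,p81],[]) ([p76,p82],[]) ([p77,p83],[]) ([p72,p78,p78,p84],[]) ([p73,p79,p79,p85],[]) ([p74,p80,p80,p86],[]) ([p75,p81,p81,p87],[]) ([p76,p82,p82,p88],[]) ([p77,p83,p83,p89],[])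
/-- Eighteen rows. -/
noncomputable def k6_5 : I18 → Row P4 := I18.fn ([p90],[]) ([p91],[]) ([p92],[]) ([p93],[]) ([p94],[]) ([p95],[]) ([p90,p96],[]) ([p91,p97],[]) ([p92,p98],[]) ([p93,p99],[]) ([p94,p100],[]) ([p95,p101],[]) ([p90,p96,p96,p102],[]) ([p91,p97,p97,p103],[]) ([p92,p98,p98,p104],[]) ([p93,p99,p99,p105],[]) ([p94,p100,p100,p106],[]) ([p95,p101,p101,p107],[])
/-- Eighteen rows. -/
noncomputable def k6_6 : I18 → Row P4 := I18.fn ([p108],[]) ([p109],[]) ([p110],[]) ([p111],[]) ([p112],[]) ([p113],[]) ([p108,p114],[]) ([p109,p115],[]) ([p110,p116],[]) ([p111,p117],[]) ([p112,p118],[]) ([p113,p119],[]) ([p108,p114,p114,p120],[]) ([p109,p115,p115,p121],[]) ([p110,p116,p116,p122],[]) ([p111,p117,p117,p123],[]) ([p112,p118,p118,p124],[]) ([p113,p119,p119,p125],[])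
/-- Eighteen rows. -/
noncomputable def k6_7 : I18 → Row P4 := I18.fn ([p126],[]) ([p127],[]) ([p128],[]) ([p129],[]) ([p130],[]) ([p131],[]) ([p126,p132],[]) ([p127,p133],[]) ([p128,p134],[]) ([p129,p135],[]) ([p130,p136],[]) ([p131,p137],[]) ([p126,p132,p132,p138],[]) ([p127,p133,p133,p139],[]) ([p128,p134,p134,p140],[]) ([p129,p135,p135,p141],[]) ([p130,p136,p136,p142],[]) ([p131,p137,p137,p143],[])
/-- Eighteen rows. -/
noncomputable def k6_8 : I18 → Row P4 := I18.fn ([p144],[]) ([p145],[]) ([p146],[]) ([p147],[]) ([p148],[]) ([p149],[]) ([p144,p150],[]) ([p145,p151],[]) ([p146,p152],[]) ([p147,p153],[]) ([p148,p154],[]) ([p149,p155],[]) ([p144,p150,p150,p156],[]) ([p145,p151,p151,p157],[]) ([p146,p152,p152,p158],[]) ([p147,p153,p153,p159],[]) ([p148,p154,p154,p160],[]) ([p149,p155,p155,p161],[])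
/-- One table. -/
noncomputable def k6 : Unit → Blk P4 Unit := fun _ => ((), rows2 (I9.fn k6_0 k6_1 k6_2 k6_3 k6_4 k6_5 k6_6 k6_7 k6_8), ([],[]))
/-- Eighteen rows. -/
noncomputable def k7_0 : I18 → Row P4 := I18.fn ([p0],[]) ([p1],[]) ([p0,p2],[]) ([p1,p3],[]) ([p0,p2,p2,p4],[]) ([p1,p3,p3,p5],[]) ([p6],[]) ([p7],[]) ([p6,p8],[]) ([p7,p9],[]) ([p6,p8,p8,p10],[]) ([p7,p9,p9,p11],[]) ([p12],[]) ([p13],[]) ([p12,p14],[]) ([p13,p15],[]) ([p12,p14,p14,p16],[]) ([p13,p15,p15,p17],[])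
/-- Eighteen rows. -/
noncomputable def k7_1 : I18 → Row P4 := I18.fn ([p18],[]) ([p19],[]) ([p18,p20],[]) ([p19,p21],[]) ([p18,p20,p20,p22],[]) ([p19,p21,p21,p23],[]) ([p24],[]) ([p25],[]) ([p24,p26],[]) ([p25,p27],[]) ([p24,p26,p26,p28],[]) ([p25,p27,p27,p29],[]) ([p30],[]) ([p31],[]) ([p30,p32],[]) ([p31,p33],[]) ([p30,p32,p32,p34],[]) ([p31,p33,p33,p35],[])
/-- Eighteen rows. -/
noncomputable def k7_2 : I18 → Row P4 := I18.fn ([p36],[]) ([p37],[]) ([p36,p38],[]) ([p37,p39],[]) ([p36,p38,p38,p40],[]) ([p37,p39,p39,p41],[]) ([p42],[]) ([p43],[]) ([p42,p44],[]) ([p43,p45],[]) ([p42,p44,p44,p46],[]) ([p43,p45,p45,p47],[]) ([p48],[]) ([p49],[]) ([p48,p50],[]) ([p49,p51],[]) ([p48,p50,p50,p52],[]) ([p49,p51,p51,p53],[])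
/-- Eighteen rows. -/
noncomputable def k7_3 : I18 → Row P4 := I18.fn ([p54],[]) ([p55],[]) ([p54,p56],[]) ([p55,p57],[]) ([p54,p56,p56,p58],[]) ([p55,p57,p57,p59],[]) ([p60],[]) ([p61],[]) ([p60,p62],[]) ([p61,p63],[]) ([p60,p62,p62,p64],[]) ([p61,p63,p63,p65],[]) ([p66],[]) ([p67],[]) ([p66,p68],[]) ([p67,p69],[]) ([p66,p68,p68,p70],[]) ([p67,p69,p69,p71],[])
/-- Eighteen rows. -/
noncomputable def k7_4 : I18 → Row P4 := I18.fn ([p72],[]) ([p73],[]) ([p72,p74],[]) ([p73,p75],[]) ([p72,p74,p74,p76],[]) ([p73,p75,p75,p77],[]) ([p78],[]) ([p79],[]) ([p78,p80],[]) ([p79,p81],[]) ([p78,p80,p80,p82],[]) ([p79,p81,p81,p83],[]) ([p84],[]) ([p85],[]) ([p84,p86],[]) ([p85,p87],[]) ([p84,p86,p86,p88],[]) ([p85,p87,p87,p89],[])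
/-- Eighteen rows. -/
noncomputable def k7_5 : I18 → Row P4 := I18.fn ([p90],[]) ([p91],[]) ([p90,p92],[]) ([p91,p93],[]) ([p90,p92,p92,p94],[]) ([p91,p93,p93,p95],[]) ([p96],[]) ([p97],[]) ([p96,p98],[]) ([p97,p99],[]) ([p96,p98,p98,p100],[]) ([p97,p99,p99,p101],[]) ([p102],[]) ([p103],[]) ([p102,p104],[]) ([p103,p105],[]) ([p102,p104,p104,p106],[]) ([p103,p105,p105,p107],[])
/-- Eighteen rows. -/
noncomputable def k7_6 : I18 → Row P4 := I18.fn ([p108],[]) ([p109],[]) ([p108,p110],[]) ([p109,p111],[]) ([p108,p110,p110,p112],[]) ([p109,p111,p111,p113],[]) ([p114],[]) ([p115],[]) ([p114,p116],[]) ([p115,p117],[]) ([p114,p116,p116,p118],[]) ([p115,p117,p117,p119],[]) ([p120],[]) ([p121],[]) ([p120,p122],[]) ([p121,p123],[]) ([p120,p122,p122,p124],[]) ([p121,p123,p123,p125],[])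
/-- Eighteen rows. -/
noncomputable def k7_7 : I18 → Row P4 := I18.fn ([p126],[]) ([p127],[]) ([p126,p128],[]) ([p127,p129],[]) ([p126,p128,p128,p130],[]) ([p127,p129,p129,p131],[]) ([p132],[]) ([p133],[]) ([p132,p134],[]) ([p133,p135],[]) ([p132,p134,p134,p136],[]) ([p133,p135,p135,p137],[]) ([p138],[]) ([p139],[]) ([p138,p140],[]) ([p139,p141],[]) ([p138,p140,p140,p142],[]) ([p139,p141,p141,p143],[])
/-- Eighteen rows. -/
noncomputable def k7_8 : I18 → Row P4 := I18.fn ([p144],[]) ([p145],[]) ([p144,p146],[]) ([p145,p147],[]) ([p144,p146,p146,p148],[]) ([p145,p147,p147,p149],[]) ([p150],[]) ([p151],[]) ([p150,p152],[]) ([p151,p153],[]) ([p150,p152,p152,p154],[]) ([p151,p153,p153,p155],[]) ([p156],[]) ([p157],[]) ([p156,p158],[]) ([p157,p159],[]) ([p156,p158,p158,p160],[]) ([p157,p159,p159,p161],[])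
/-- One table. -/
noncomputable def k7 : Unit → Blk P4 Unit := fun _ => ((), rows2 (I9.fn k7_0 k7_1 k7_2 k7_3 k7_4 k7_5 k7_6 k7_7 k7_8), ([],[]))
/-- Eighteen rows. -/
noncomputable def k8_0 : I18 → Row P4 := I18.fn ([p0,p0,p0],[]) ([p1,p1,p1],[]) ([p2,p2],[p3]) ([p2,p3],[]) ([p4,p4],[p5]) ([p4,p5],[]) ([p6,p6],[p7]) ([p6,p7],[]) ([p8,p8],[p9]) ([p8,p9],[]) ([p10,p10],[p11]) ([p10,p11],[]) ([p12,p12],[p13]) ([p12,p13],[]) ([p14,p14],[p15]) ([p14,p15],[]) ([p16,p16],[p17]) ([p16,p17],[])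
/-- Eighteen rows. -/
noncomputable def k8_1 : I18 → Row P4 := I18.fn ([p18,p18],[p19]) ([p18,p19],[]) ([p20,p20],[p21]) ([p20,p21],[]) ([p22,p22],[p23]) ([p22,p23],[]) ([p24,p24],[p25]) ([p24,p25],[]) ([p26,p26],[p27]) ([p26,p27],[]) ([p28,p28],[p29]) ([p28,p29],[]) ([p30,p30],[p31]) ([p30,p31],[]) ([p32,p32],[p33]) ([p32,p33],[]) ([p34,p34],[p35]) ([p34,p35],[])
/-- Eighteen rows. -/
noncomputable def k8_2 : I18 → Row P4 := I18.fn ([p36,p36],[p37]) ([p36,p37],[]) ([p38,p38],[p39]) ([p38,p39],[]) ([p40,p40],[p41]) ([p40,p41],[]) ([p42,p42],[p43]) ([p42,p43],[]) ([p44,p44],[p45]) ([p44,p45],[]) ([p46,p46],[p47]) ([p46,p47],[]) ([p48,p48],[p49]) ([p48,p49],[]) ([p50,p50],[p51]) ([p50,p51],[]) ([p52,p52],[p53]) ([p52,p53],[])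
/-- Eighteen rows. -/
noncomputable def k8_3 : I18 → Row P4 := I18.fn ([p54,p54],[p55]) ([p54,p55],[]) ([p56,p56],[p57]) ([p56,p57],[]) ([p58,p58],[p59]) ([p58,p59],[]) ([p60,p60],[p61]) ([p60,p61],[]) ([p62,p62],[p63]) ([p62,p63],[]) ([p64,p64],[p65]) ([p64,p65],[]) ([p66,p66],[p67]) ([p66,p67],[]) ([p68,p68],[p69]) ([p68,p69],[]) ([p70,p70],[p71]) ([p70,p71],[])
/-- Eighteen rows. -/
noncomputable def k8_4 : I18 → Row P4 := I18.fn ([p72,p72],[p73]) ([p72,p73],[]) ([p74,p74],[p75]) ([p74,p75],[]) ([p76,p76],[p77]) ([p76,p77],[]) ([p78,p78],[p79]) ([p78,p79],[]) ([p80,p80],[p81]) ([p80,p81],[]) ([p82,p82],[p83]) ([p82,p83],[]) ([p84,p84],[p85]) ([p84,p85],[]) ([p86,p86],[p87]) ([p86,p87],[]) ([p88,p88],[p89]) ([p88,p89],[])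
/-- Eighteen rows. -/
noncomputable def k8_5 : I18 → Row P4 := I18.fn ([p90,p90],[p91]) ([p90,p91],[]) ([p92,p92],[p93]) ([p92,p93],[]) ([p94,p94],[p95]) ([p94,p95],[]) ([p96,p96],[p97]) ([p96,p97],[]) ([p98,p98],[p99]) ([p98,p99],[]) ([p100,p100],[p101]) ([p100,p101],[]) ([p102,p102],[p103]) ([p102,p103],[]) ([p104,p104],[p105]) ([p104,p105],[]) ([p106,p106],[p107]) ([p106,p107],[])
/-- Eighteen rows. -/
noncomputable def k8_6 : I18 → Row P4 := I18.fn ([p108,p108],[p109]) ([p108,p109],[]) ([p110,p110],[p111]) ([p110,p111],[]) ([p112,p112],[p113]) ([p112,p113],[]) ([p114,p114],[p115]) ([p114,p115],[]) ([p116,p116],[p117]) ([p116,p117],[]) ([p118,p118],[p119]) ([p118,p119],[]) ([p120,p120],[p121]) ([p120,p121],[]) ([p122,p122],[p123]) ([p122,p123],[]) ([p124,p124],[p125]) ([p124,p125],[])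
/-- Eighteen rows. -/
noncomputable def k8_7 : I18 → Row P4 := I18.fn ([p126,p126],[p127]) ([p126,p127],[]) ([p128,p128],[p129]) ([p128,p129],[]) ([p130,p130],[p131]) ([p130,p131],[]) ([p132,p132],[p133]) ([p132,p133],[]) ([p134,p134],[p135]) ([p134,p135],[]) ([p136,p136],[p137]) ([p136,p137],[]) ([p138,p138],[p139]) ([p138,p139],[]) ([p140,p140],[p141]) ([p140,p141],[]) ([p142,p142],[p143]) ([p142,p143],[])
/-- Eighteen rows. -/
noncomputable def k8_8 : I18 → Row P4 := I18.fn ([p144,p144],[p145]) ([p144,p145],[]) ([p146,p146],[p147]) ([p146,p147],[]) ([p148,p148],[p149]) ([p148,p149],[]) ([p150,p150],[p151]) ([p150,p151],[]) ([p152,p152],[p153]) ([p152,p153],[]) ([p154,p154],[p155]) ([p154,p155],[]) ([p156,p156],[p157]) ([p156,p157],[]) ([p158,p158],[p159]) ([p158,p159],[]) ([p160,p160],[p161]) ([p160,p161],[])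
/-- One table. -/
noncomputable def k8 : Unit → Blk P4 Unit := fun _ => ((), rows2 (I9.fn k8_0 k8_1 k8_2 k8_3 k8_4 k8_5 k8_6 k8_7 k8_8), ([],[]))
/-- Eighteen rows. -/
noncomputable def k9_0 : I18 → Row P4 := I18.fn ([p0,p0,p0],[]) ([p1,p1,p1],[]) ([p2,p2,p2],[]) ([p3,p3,p3],[]) ([p4,p4,p4],[]) ([p5,p5,p5],[]) ([p6,p6,p6],[]) ([p7,p7,p7],[]) ([p8,p8,p8],[]) ([p9,p9,p9],[]) ([p10,p10],[p11]) ([p10,p11],[]) ([p12,p12,p12],[]) ([p13,p13,p13],[]) ([p14,p14],[p15]) ([p14,p15],[]) ([p16,p16],[p17]) ([p16,p17],[])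
/-- Eighteen rows. -/
noncomputable def k9_1 : I18 → Row P4 := I18.fn ([p18,p18,p18],[]) ([p19,p19,p19],[]) ([p20,p20,p20],[]) ([p21,p21,p21],[]) ([p22,p22],[p23]) ([p22,p23],[]) ([p24,p24,p24],[]) ([p25,p25,p25],[]) ([p26,p26],[p27]) ([p26,p27],[]) ([p28,p28],[p29]) ([p28,p29],[]) ([p30,p30],[p31]) ([p30,p31],[]) ([p32,p32],[p33]) ([p32,p33],[]) ([p34,p34],[p35]) ([p34,p35],[])
/-- Eighteen rows. -/
noncomputable def k9_2 : I18 → Row P4 := I18.fn ([p36,p36,p36],[]) ([p37,p37,p37],[]) ([p38,p38],[p39]) ([p38,p39],[]) ([p40,p40],[p41]) ([p40,p41],[]) ([p42,p42],[p43]) ([p42,p43],[]) ([p44,p44],[p45]) ([p44,p45],[]) ([p46,p46],[p47]) ([p46,p47],[]) ([p48,p48],[p49]) ([p48,p49],[]) ([p50,p50],[p51]) ([p50,p51],[]) ([p52,p52],[p53]) ([p52,p53],[])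
/-- Eighteen rows. -/
noncomputable def k9_3 : I18 → Row P4 := I18.fn ([p54,p54,p54],[]) ([p55,p55,p55],[]) ([p56,p56,p56],[]) ([p57,p57,p57],[]) ([p58,p58],[p59]) ([p58,p59],[]) ([p60,p60,p60],[]) ([p61,p61,p61],[]) ([p62,p62],[p63]) ([p62,p63],[]) ([p64,p64],[p65]) ([p64,p65],[]) ([p66,p66],[p67]) ([p66,p67],[]) ([p68,p68],[p69]) ([p68,p69],[]) ([p70,p70],[p71]) ([p70,p71],[])
/-- Eighteen rows. -/
noncomputable def k9_4 : I18 → Row P4 := I18.fn ([p72,p72,p72],[]) ([p73,p73,p73],[]) ([p74,p74],[p75]) ([p74,p75],[]) ([p76,p76],[p77]) ([p76,p77],[]) ([p78,p78],[p79]) ([p78,p79],[]) ([p80,p80],[p81]) ([p80,p81],[]) ([p82,p82],[p83]) ([p82,p83],[]) ([p84,p84],[p85]) ([p84,p85],[]) ([p86,p86],[p87]) ([p86,p87],[]) ([p88,p88],[p89]) ([p88,p89],[])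
/-- Eighteen rows. -/
noncomputable def k9_5 : I18 → Row P4 := I18.fn ([p90,p90],[p91]) ([p90,p91],[]) ([p92,p92],[p93]) ([p92,p93],[]) ([p94,p94],[p95]) ([p94,p95],[]) ([p96,p96],[p97]) ([p96,p97],[]) ([p98,p98],[p99]) ([p98,p99],[]) ([p100,p100],[p101]) ([p100,p101],[]) ([p102,p102],[p103]) ([p102,p103],[]) ([p104,p104],[p105]) ([p104,p105],[]) ([p106,p106],[p107]) ([p106,p107],[])
/-- Eighteen rows. -/
noncomputable def k9_6 : I18 → Row P4 := I18.fn ([p108,p108,p108],[]) ([p109,p109,p109],[]) ([p110,p110],[p111]) ([p110,p111],[]) ([p112,p112],[p113]) ([p112,p113],[]) ([p114,p114],[p115]) ([p114,p115],[]) ([p116,p116],[p117]) ([p116,p117],[]) ([p118,p118],[p119]) ([p118,p119],[]) ([p120,p120],[p121]) ([p120,p121],[]) ([p122,p122],[p123]) ([p122,p123],[]) ([p124,p124],[p125]) ([p124,p125],[])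
/-- Eighteen rows. -/
noncomputable def k9_7 : I18 → Row P4 := I18.fn ([p126,p126],[p127]) ([p126,p127],[]) ([p128,p128],[p129]) ([p128,p129],[]) ([p130,p130],[p131]) ([p130,p131],[]) ([p132,p132],[p133]) ([p132,p133],[]) ([p134,p134],[p135]) ([p134,p135],[]) ([p136,p136],[p137]) ([p136,p137],[]) ([p138,p138],[p139]) ([p138,p139],[]) ([p140,p140],[p141]) ([p140,p141],[]) ([p142,p142],[p143]) ([p142,p143],[])
/-- Eighteen rows. -/
noncomputable def k9_8 : I18 → Row P4 := I18.fn ([p144,p144],[p145]) ([p144,p145],[]) ([p146,p146],[p147]) ([p146,p147],[]) ([p148,p148],[p149]) ([p148,p149],[]) ([p150,p150],[p151]) ([p150,p151],[]) ([p152,p152],[p153]) ([p152,p153],[]) ([p154,p154],[p155]) ([p154,p155],[]) ([p156,p156],[p157]) ([p156,p157],[]) ([p158,p158],[p159]) ([p158,p159],[]) ([p160,p160],[p161]) ([p160,p161],[])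
/-- One table. -/
noncomputable def k9 : Unit → Blk P4 Unit := fun _ => ((), rows2 (I9.fn k9_0 k9_1 k9_2 k9_3 k9_4 k9_5 k9_6 k9_7 k9_8), ([],[]))
/-- Eighteen rows. -/
noncomputable def k10_0 : I18 → Row P4 := I18.fn ([p0,p0,p0],[]) ([p1,p1,p1],[]) ([p2,p2,p2],[]) ([p3,p3,p3],[]) ([p4,p4,p4],[]) ([p5,p5,p5],[]) ([p6,p6,p6],[]) ([p7,p7,p7],[]) ([p8,p8,p8],[]) ([p9,p9,p9],[]) ([p10,p10,p10],[]) ([p11,p11,p11],[]) ([p12,p12,p12],[]) ([p13,p13,p13],[]) ([p14,p14,p14],[]) ([p15,p15,p15],[]) ([p16,p16,p16],[]) ([p17,p17,p17],[])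
/-- Eighteen rows. -/
noncomputable def k10_1 : I18 → Row P4 := I18.fn ([p18,p18,p18],[]) ([p19,p19,p19],[]) ([p20,p20,p20],[]) ([p21,p21,p21],[]) ([p22,p22,p22],[]) ([p23,p23,p23],[]) ([p24,p24,p24],[]) ([p25,p25,p25],[]) ([p26,p26,p26],[]) ([p27,p27,p27],[]) ([p28,p28,p28],[]) ([p29,p29,p29],[]) ([p30,p30,p30],[]) ([p31,p31,p31],[]) ([p32,p32,p32],[]) ([p33,p33,p33],[]) ([p34,p34],[p35]) ([p34,p35],[])
/-- Eighteen rows. -/
noncomputable def k10_2 : I18 → Row P4 := I18.fn ([p36,p36,p36],[]) ([p37,p37,p37],[]) ([p38,p38,p38],[]) ([p39,p39,p39],[]) ([p40,p40,p40],[]) ([p41,p41,p41],[]) ([p42,p42,p42],[]) ([p43,p43,p43],[]) ([p44,p44,p44],[]) ([p45,p45,p45],[]) ([p46,p46],[p47]) ([p46,p47],[]) ([p48,p48,p48],[]) ([p49,p49,p49],[]) ([p50,p50],[p51]) ([p50,p51],[]) ([p52,p52],[p53]) ([p52,p53],[])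
/-- Eighteen rows. -/
noncomputable def k10_3 : I18 → Row P4 := I18.fn ([p54,p54,p54],[]) ([p55,p55,p55],[]) ([p56,p56,p56],[]) ([p57,p57,p57],[]) ([p58,p58,p58],[]) ([p59,p59,p59],[]) ([p60,p60,p60],[]) ([p61,p61,p61],[]) ([p62,p62,p62],[]) ([p63,p63,p63],[]) ([p64,p64,p64],[]) ([p65,p65,p65],[]) ([p66,p66,p66],[]) ([p67,p67,p67],[]) ([p68,p68,p68],[]) ([p69,p69,p69],[]) ([p70,p70],[p71]) ([p70,p71],[])
/-- Eighteen rows. -/
noncomputable def k10_4 : I18 → Row P4 := I18.fn ([p72,p72,p72],[]) ([p73,p73,p73],[]) ([p74,p74,p74],[]) ([p75,p75,p75],[]) ([p76,p76,p76],[]) ([p77,p77,p77],[]) ([p78,p78,p78],[]) ([p79,p79,p79],[]) ([p80,p80,p80],[]) ([p81,p81,p81],[]) ([p82,p82],[p83]) ([p82,p83],[]) ([p84,p84,p84],[]) ([p85,p85,p85],[]) ([p86,p86],[p87]) ([p86,p87],[]) ([p88,p88],[p89]) ([p88,p89],[])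
/-- Eighteen rows. -/
noncomputable def k10_5 : I18 → Row P4 := I18.fn ([p90,p90,p90],[]) ([p91,p91,p91],[]) ([p92,p92,p92],[]) ([p93,p93,p93],[]) ([p94,p94],[p95]) ([p94,p95],[]) ([p96,p96,p96],[]) ([p97,p97,p97],[]) ([p98,p98],[p99]) ([p98,p99],[]) ([p100,p100],[p101]) ([p100,p101],[]) ([p102,p102],[p103]) ([p102,p103],[]) ([p104,p104],[p105]) ([p104,p105],[]) ([p106,p106],[p107]) ([p106,p107],[])
/-- Eighteen rows. -/
noncomputable def k10_6 : I18 → Row P4 := I18.fn ([p108,p108,p108],[]) ([p109,p109,p109],[]) ([p110,p110,p110],[]) ([p111,p111,p111],[]) ([p112,p112,p112],[]) ([p113,p113,p113],[]) ([p114,p114,p114],[]) ([p115,p115,p115],[]) ([p116,p116,p116],[]) ([p117,p117,p117],[]) ([p118,p118],[p119]) ([p118,p119],[]) ([p120,p120,p120],[]) ([p121,p121,p121],[]) ([p122,p122],[p123]) ([p122,p123],[]) ([p124,p124],[p125]) ([p124,p125],[])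
/-- Eighteen rows. -/
noncomputable def k10_7 : I18 → Row P4 := I18.fn ([p126,p126,p126],[]) ([p127,p127,p127],[]) ([p128,p128,p128],[]) ([p129,p129,p129],[]) ([p130,p130],[p131]) ([p130,p131],[]) ([p132,p132,p132],[]) ([p133,p133,p133],[]) ([p134,p134],[p135]) ([p134,p135],[]) ([p136,p136],[p137]) ([p136,p137],[]) ([p138,p138],[p139]) ([p138,p139],[]) ([p140,p140],[p141]) ([p140,p141],[]) ([p142,p142],[p143]) ([p142,p143],[])
/-- Eighteen rows. -/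
noncomputable def k10_8 : I18 → Row P4 := I18.fn ([p144,p144,p144],[]) ([p145,p145,p145],[]) ([p146,p146],[p147]) ([p146,p147],[]) ([p148,p148],[p149]) ([p148,p149],[]) ([p150,p150],[p151]) ([p150,p151],[]) ([p152,p152],[p153]) ([p152,p153],[]) ([p154,p154],[p155]) ([p154,p155],[]) ([p156,p156],[p157]) ([p156,p157],[]) ([p158,p158],[p159]) ([p158,p159],[]) ([p160,p160],[p161]) ([p160,p161],[])
/-- One table. -/
noncomputable def k10 : Unit → Blk P4 Unit := fun _ => ((), rows2 (I9.fn k10_0 k10_1 k10_2 k10_3 k10_4 k10_5 k10_6 k10_7 k10_8), ([],[]))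
/-- Eighteen rows. -/
noncomputable def k11_0 : I18 → Row P4 := I18.fn ([p0,p0,p0],[]) ([p1,p1,p1],[]) ([p2,p2,p2],[]) ([p3,p3,p3],[]) ([p4,p4,p4],[]) ([p5,p5,p5],[]) ([p6,p6,p6],[]) ([p7,p7,p7],[]) ([p8,p8,p8],[]) ([p9,p9,p9],[]) ([p10,p10,p10],[]) ([p11,p11,p11],[]) ([p12,p12,p12],[]) ([p13,p13,p13],[]) ([p14,p14,p14],[]) ([p15,p15,p15],[]) ([p16,p16,p16],[]) ([p17,p17,p17],[])
/-- Eighteen rows. -/
noncomputable def k11_1 : I18 → Row P4 := I18.fn ([p18,p18,p18],[]) ([p19,p19,p19],[]) ([p20,p20,p20],[]) ([p21,p21,p21],[]) ([p22,p22,p22],[]) ([p23,p23,p23],[]) ([p24,p24,p24],[]) ([p25,p25,p25],[]) ([p26,p26,p26],[]) ([p27,p27,p27],[]) ([p28,p28,p28],[]) ([p29,p29,p29],[]) ([p30,p30,p30],[]) ([p31,p31,p31],[]) ([p32,p32,p32],[]) ([p33,p33,p33],[]) ([p34,p34,p34],[]) ([p35,p35,p35],[])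
/-- Eighteen rows. -/
noncomputable def k11_2 : I18 → Row P4 := I18.fn ([p36,p36,p36],[]) ([p37,p37,p37],[]) ([p38,p38,p38],[]) ([p39,p39,p39],[]) ([p40,p40,p40],[]) ([p41,p41,p41],[]) ([p42,p42,p42],[]) ([p43,p43,p43],[]) ([p44,p44,p44],[]) ([p45,p45,p45],[]) ([p46,p46,p46],[]) ([p47,p47,p47],[]) ([p48,p48,p48],[]) ([p49,p49,p49],[]) ([p50,p50,p50],[]) ([p51,p51,p51],[]) ([p52,p52,p52],[]) ([p53,p53,p53],[])
/-- Eighteen rows. -/
noncomputable def k11_3 : I18 → Row P4 := I18.fn ([p54,p54,p54],[]) ([p55,p55,p55],[]) ([p56,p56,p56],[]) ([p57,p57,p57],[]) ([p58,p58,p58],[]) ([p59,p59,p59],[]) ([p60,p60,p60],[]) ([p61,p61,p61],[]) ([p62,p62,p62],[]) ([p63,p63,p63],[]) ([p64,p64,p64],[]) ([p65,p65,p65],[]) ([p66,p66,p66],[]) ([p67,p67,p67],[]) ([p68,p68,p68],[]) ([p69,p69,p69],[]) ([p70,p70,p70],[]) ([p71,p71,p71],[])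
/-- Eighteen rows. -/
noncomputable def k11_4 : I18 → Row P4 := I18.fn ([p72,p72,p72],[]) ([p73,p73,p73],[]) ([p74,p74,p74],[]) ([p75,p75,p75],[]) ([p76,p76,p76],[]) ([p77,p77,p77],[]) ([p78,p78,p78],[]) ([p79,p79,p79],[]) ([p80,p80,p80],[]) ([p81,p81,p81],[]) ([p82,p82,p82],[]) ([p83,p83,p83],[]) ([p84,p84,p84],[]) ([p85,p85,p85],[]) ([p86,p86,p86],[]) ([p87,p87,p87],[]) ([p88,p88,p88],[]) ([p89,p89,p89],[])
/-- Eighteen rows. -/
noncomputable def k11_5 : I18 → Row P4 := I18.fn ([p90,p90,p90],[]) ([p91,p91,p91],[]) ([p92,p92,p92],[]) ([p93,p93,p93],[]) ([p94,p94,p94],[]) ([p95,p95,p95],[]) ([p96,p96,p96],[]) ([p97,p97,p97],[]) ([p98,p98,p98],[]) ([p99,p99,p99],[]) ([p100,p100,p100],[]) ([p101,p101,p101],[]) ([p102,p102,p102],[]) ([p103,p103,p103],[]) ([p104,p104,p104],[]) ([p105,p105,p105],[]) ([p106,p106],[p107]) ([p106,p107],[])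
/-- Eighteen rows. -/
noncomputable def k11_6 : I18 → Row P4 := I18.fn ([p108,p108,p108],[]) ([p109,p109,p109],[]) ([p110,p110,p110],[]) ([p111,p111,p111],[]) ([p112,p112,p112],[]) ([p113,p113,p113],[]) ([p114,p114,p114],[]) ([p115,p115,p115],[]) ([p116,p116,p116],[]) ([p117,p117,p117],[]) ([p118,p118,p118],[]) ([p119,p119,p119],[]) ([p120,p120,p120],[]) ([p121,p121,p121],[]) ([p122,p122,p122],[]) ([p123,p123,p123],[]) ([p124,p124,p124],[]) ([p125,p125,p125],[])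
/-- Eighteen rows. -/
noncomputable def k11_7 : I18 → Row P4 := I18.fn ([p126,p126,p126],[]) ([p127,p127,p127],[]) ([p128,p128,p128],[]) ([p129,p129,p129],[]) ([p130,p130,p130],[]) ([p131,p131,p131],[]) ([p132,p132,p132],[]) ([p133,p133,p133],[]) ([p134,p134,p134],[]) ([p135,p135,p135],[]) ([p136,p136,p136],[]) ([p137,p137,p137],[]) ([p138,p138,p138],[]) ([p139,p139,p139],[]) ([p140,p140,p140],[]) ([p141,p141,p141],[]) ([p142,p142],[p143]) ([p142,p143],[])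
/-- Eighteen rows. -/
noncomputable def k11_8 : I18 → Row P4 := I18.fn ([p144,p144,p144],[]) ([p145,p145,p145],[]) ([p146,p146,p146],[]) ([p147,p147,p147],[]) ([p148,p148,p148],[]) ([p149,p149,p149],[]) ([p150,p150,p150],[]) ([p151,p151,p151],[]) ([p152,p152,p152],[]) ([p153,p153,p153],[]) ([p154,p154],[p155]) ([p154,p155],[]) ([p156,p156,p156],[]) ([p157,p157,p157],[]) ([p158,p158],[p159]) ([p158,p159],[]) ([p160,p160],[p161]) ([p160,p161],[])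
/-- One table. -/
noncomputable def k11 : Unit → Blk P4 Unit := fun _ => ((), rows2 (I9.fn k11_0 k11_1 k11_2 k11_3 k11_4 k11_5 k11_6 k11_7 k11_8), ([],[]))
/-- Eighteen rows. -/
noncomputable def k12_0 : I18 → Row P4 := I18.fn ([p0],[]) ([p1],[]) ([p2],[]) ([p3],[]) ([p4],[]) ([p5],[]) ([p6],[]) ([p7],[]) ([p8],[]) ([p9],[]) ([p10],[]) ([p11],[]) ([p12],[]) ([p13],[]) ([p14],[]) ([p15],[]) ([p16],[]) ([p17],[])
/-- Eighteen rows. -/
noncomputable def k12_1 : I18 → Row P4 := I18.fn ([p18],[]) ([p19],[]) ([p20],[]) ([p21],[]) ([p22],[]) ([p23],[]) ([p24],[]) ([p25],[]) ([p26],[]) ([p27],[]) ([p28],[]) ([p29],[]) ([p30],[]) ([p31],[]) ([p32],[]) ([p33],[]) ([p34],[]) ([p35],[])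
/-- Eighteen rows. -/
noncomputable def k12_2 : I18 → Row P4 := I18.fn ([p36],[]) ([p37],[]) ([p38],[]) ([p39],[]) ([p40],[]) ([p41],[]) ([p42],[]) ([p43],[]) ([p44],[]) ([p45],[]) ([p46],[]) ([p47],[]) ([p48],[]) ([p49],[]) ([p50],[]) ([p51],[]) ([p52],[]) ([p53],[])
/-- Eighteen rows. -/
noncomputable def k12_3 : I18 → Row P4 := I18.fn ([p54],[p0]) ([p55],[p1]) ([p56],[p2]) ([p57],[p3]) ([p58],[p4]) ([p59],[p5]) ([p60],[p6]) ([p61],[p7]) ([p62],[p8]) ([p63],[p9]) ([p64],[p10]) ([p65],[p11]) ([p66],[p12]) ([p67],[p13]) ([p68],[p14]) ([p69],[p15]) ([p70],[p16]) ([p71],[p17])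
/-- Eighteen rows. -/
noncomputable def k12_4 : I18 → Row P4 := I18.fn ([p72],[p18]) ([p73],[p19]) ([p74],[p20]) ([p75],[p21]) ([p76],[p22]) ([p77],[p23]) ([p78],[p24]) ([p79],[p25]) ([p80],[p26]) ([p81],[p27]) ([p82],[p28]) ([p83],[p29]) ([p84],[p30]) ([p85],[p31]) ([p86],[p32]) ([p87],[p33]) ([p88],[p34]) ([p89],[p35])
/-- Eighteen rows. -/
noncomputable def k12_5 : I18 → Row P4 := I18.fn ([p90],[p36]) ([p91],[p37]) ([p92],[p38]) ([p93],[p39]) ([p94],[p40]) ([p95],[p41]) ([p96],[p42]) ([p97],[p43]) ([p98],[p44]) ([p99],[p45]) ([p100],[p46]) ([p101],[p47]) ([p102],[p48]) ([p103],[p49]) ([p104],[p50]) ([p105],[p51]) ([p106],[p52]) ([p107],[p53])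
/-- Eighteen rows. -/
noncomputable def k12_6 : I18 → Row P4 := I18.fn ([p0,p108],[p54,p54]) ([p1,p109],[p55,p55]) ([p2,p110],[p56,p56]) ([p3,p111],[p57,p57]) ([p4,p112],[p58,p58]) ([p5,p113],[p59,p59]) ([p6,p114],[p60,p60]) ([p7,p115],[p61,p61]) ([p8,p116],[p62,p62]) ([p9,p117],[p63,p63]) ([p10,p118],[p64,p64]) ([p11,p119],[p65,p65]) ([p12,p120],[p66,p66]) ([p13,p121],[p67,p67]) ([p14,p122],[p68,p68]) ([p15,p123],[p69,p69]) ([p16,p124],[p70,p70]) ([p17,p125],[p71,p71])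
/-- Eighteen rows. -/
noncomputable def k12_7 : I18 → Row P4 := I18.fn ([p18,p126],[p72,p72]) ([p19,p127],[p73,p73]) ([p20,p128],[p74,p74]) ([p21,p129],[p75,p75]) ([p22,p130],[p76,p76]) ([p23,p131],[p77,p77]) ([p24,p132],[p78,p78]) ([p25,p133],[p79,p79]) ([p26,p134],[p80,p80]) ([p27,p135],[p81,p81]) ([p28,p136],[p82,p82]) ([p29,p137],[p83,p83]) ([p30,p138],[p84,p84]) ([p31,p139],[p85,p85]) ([p32,p140],[p86,p86]) ([p33,p141],[p87,p87]) ([p34,p142],[p88,p88]) ([p35,p143],[p89,p89])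
/-- Eighteen rows. -/
noncomputable def k12_8 : I18 → Row P4 := I18.fn ([p36,p144],[p90,p90]) ([p37,p145],[p91,p91]) ([p38,p146],[p92,p92]) ([p39,p147],[p93,p93]) ([p40,p148],[p94,p94]) ([p41,p149],[p95,p95]) ([p42,p150],[p96,p96]) ([p43,p151],[p97,p97]) ([p44,p152],[p98,p98]) ([p45,p153],[p99,p99]) ([p46,p154],[p100,p100]) ([p47,p155],[p101,p101]) ([p48,p156],[p102,p102]) ([p49,p157],[p103,p103]) ([p50,p158],[p104,p104]) ([p51,p159],[p105,p105]) ([p52,p160],[p106,p106]) ([p53,p161],[p107,p107])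
/-- One table. -/
noncomputable def k12 : Unit → Blk P4 Unit := fun _ => ((), rows2 (I9.fn k12_0 k12_1 k12_2 k12_3 k12_4 k12_5 k12_6 k12_7 k12_8), ([],[]))
/-- Eighteen rows. -/
noncomputable def k13_0 : I18 → Row P4 := I18.fn ([p0],[]) ([p1],[]) ([p2],[]) ([p3],[]) ([p4],[]) ([p5],[]) ([p6],[]) ([p7],[]) ([p8],[]) ([p9],[]) ([p10],[]) ([p11],[]) ([p12],[]) ([p13],[]) ([p14],[]) ([p15],[]) ([p16],[]) ([p17],[])
/-- Eighteen rows. -/
noncomputable def k13_1 : I18 → Row P4 := I18.fn ([p18],[p0]) ([p19],[p1]) ([p20],[p2]) ([p21],[p3]) ([p22],[p4]) ([p23],[p5]) ([p24],[p6]) ([p25],[p7]) ([p26],[p8]) ([p27],[p9]) ([p28],[p10]) ([p29],[p11]) ([p30],[p12]) ([p31],[p13]) ([p32],[p14]) ([p33],[p15]) ([p34],[p16]) ([p35],[p17])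
/-- Eighteen rows. -/
noncomputable def k13_2 : I18 → Row P4 := I18.fn ([p0,p36],[p18,p18]) ([p1,p37],[p19,p19]) ([p2,p38],[p20,p20]) ([p3,p39],[p21,p21]) ([p4,p40],[p22,p22]) ([p5,p41],[p23,p23]) ([p6,p42],[p24,p24]) ([p7,p43],[p25,p25]) ([p8,p44],[p26,p26]) ([p9,p45],[p27,p27]) ([p10,p46],[p28,p28]) ([p11,p47],[p29,p29]) ([p12,p48],[p30,p30]) ([p13,p49],[p31,p31]) ([p14,p50],[p32,p32]) ([p15,p51],[p33,p33]) ([p16,p52],[p34,p34]) ([p17,p53],[p35,p35])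
/-- Eighteen rows. -/
noncomputable def k13_3 : I18 → Row P4 := I18.fn ([p54],[]) ([p55],[]) ([p56],[]) ([p57],[]) ([p58],[]) ([p59],[]) ([p60],[]) ([p61],[]) ([p62],[]) ([p63],[]) ([p64],[]) ([p65],[]) ([p66],[]) ([p67],[]) ([p68],[]) ([p69],[]) ([p70],[]) ([p71],[])
/-- Eighteen rows. -/
noncomputable def k13_4 : I18 → Row P4 := I18.fn ([p72],[p54]) ([p73],[p55]) ([p74],[p56]) ([p75],[p57]) ([p76],[p58]) ([p77],[p59]) ([p78],[p60]) ([p79],[p61]) ([p80],[p62]) ([p81],[p63]) ([p82],[p64]) ([p83],[p65]) ([p84],[p66]) ([p85],[p67]) ([p86],[p68]) ([p87],[p69]) ([p88],[p70]) ([p89],[p71])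
/-- Eighteen rows. -/
noncomputable def k13_5 : I18 → Row P4 := I18.fn ([p54,p90],[p72,p72]) ([p55,p91],[p73,p73]) ([p56,p92],[p74,p74]) ([p57,p93],[p75,p75]) ([p58,p94],[p76,p76]) ([p59,p95],[p77,p77]) ([p60,p96],[p78,p78]) ([p61,p97],[p79,p79]) ([p62,p98],[p80,p80]) ([p63,p99],[p81,p81]) ([p64,p100],[p82,p82]) ([p65,p101],[p83,p83]) ([p66,p102],[p84,p84]) ([p67,p103],[p85,p85]) ([p68,p104],[p86,p86]) ([p69,p105],[p87,p87]) ([p70,p106],[p88,p88]) ([p71,p107],[p89,p89])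
/-- Eighteen rows. -/
noncomputable def k13_6 : I18 → Row P4 := I18.fn ([p108],[]) ([p109],[]) ([p110],[]) ([p111],[]) ([p112],[]) ([p113],[]) ([p114],[]) ([p115],[]) ([p116],[]) ([p117],[]) ([p118],[]) ([p119],[]) ([p120],[]) ([p121],[]) ([p122],[]) ([p123],[]) ([p124],[]) ([p125],[])
/-- Eighteen rows. -/
noncomputable def k13_7 : I18 → Row P4 := I18.fn ([p126],[p108]) ([p127],[p109]) ([p128],[p110]) ([p129],[p111]) ([p130],[p112]) ([p131],[p113]) ([p132],[p114]) ([p133],[p115]) ([p134],[p116]) ([p135],[p117]) ([p136],[p118]) ([p137],[p119]) ([p138],[p120]) ([p139],[p121]) ([p140],[p122]) ([p141],[p123]) ([p142],[p124]) ([p143],[p125])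
/-- Eighteen rows. -/
noncomputable def k13_8 : I18 → Row P4 := I18.fn ([p108,p144],[p126,p126]) ([p109,p145],[p127,p127]) ([p110,p146],[p128,p128]) ([p111,p147],[p129,p129]) ([p112,p148],[p130,p130]) ([p113,p149],[p131,p131]) ([p114,p150],[p132,p132]) ([p115,p151],[p133,p133]) ([p116,p152],[p134,p134]) ([p117,p153],[p135,p135]) ([p118,p154],[p136,p136]) ([p119,p155],[p137,p137]) ([p120,p156],[p138,p138]) ([p121,p157],[p139,p139]) ([p122,p158],[p140,p140]) ([p123,p159],[p141,p141]) ([p124,p160],[p142,p142]) ([p125,p161],[p143,p143])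
/-- One table. -/
noncomputable def k13 : Unit → Blk P4 Unit := fun _ => ((), rows2 (I9.fn k13_0 k13_1 k13_2 k13_3 k13_4 k13_5 k13_6 k13_7 k13_8), ([],[]))
/-- Eighteen rows. -/
noncomputable def k14_0 : I18 → Row P4 := I18.fn ([p0],[]) ([p1],[]) ([p2],[]) ([p3],[]) ([p4],[]) ([p5],[]) ([p6],[p0]) ([p7],[p1]) ([p8],[p2]) ([p9],[p3]) ([p10],[p4]) ([p11],[p5]) ([p0,p12],[p6,p6]) ([p1,p13],[p7,p7]) ([p2,p14],[p8,p8]) ([p3,p15],[p9,p9]) ([p4,p16],[p10,p10]) ([p5,p17],[p11,p11])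
/-- Eighteen rows. -/
noncomputable def k14_1 : I18 → Row P4 := I18.fn ([p18],[]) ([p19],[]) ([p20],[]) ([p21],[]) ([p22],[]) ([p23],[]) ([p24],[p18]) ([p25],[p19]) ([p26],[p20]) ([p27],[p21]) ([p28],[p22]) ([p29],[p23]) ([p18,p30],[p24,p24]) ([p19,p31],[p25,p25]) ([p20,p32],[p26,p26]) ([p21,p33],[p27,p27]) ([p22,p34],[p28,p28]) ([p23,p35],[p29,p29])
/-- Eighteen rows. -/
noncomputable def k14_2 : I18 → Row P4 := I18.fn ([p36],[]) ([p37],[]) ([p38],[]) ([p39],[]) ([p40],[]) ([p41],[]) ([p42],[p36]) ([p43],[p37]) ([p44],[p38]) ([p45],[p39]) ([p46],[p40]) ([p47],[p41]) ([p36,p48],[p42,p42]) ([p37,p49],[p43,p43]) ([p38,p50],[p44,p44]) ([p39,p51],[p45,p45]) ([p40,p52],[p46,p46]) ([p41,p53],[p47,p47])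
/-- Eighteen rows. -/
noncomputable def k14_3 : I18 → Row P4 := I18.fn ([p54],[]) ([p55],[]) ([p56],[]) ([p57],[]) ([p58],[]) ([p59],[]) ([p60],[p54]) ([p61],[p55]) ([p62],[p56]) ([p63],[p57]) ([p64],[p58]) ([p65],[p59]) ([p54,p66],[p60,p60]) ([p55,p67],[p61,p61]) ([p56,p68],[p62,p62]) ([p57,p69],[p63,p63]) ([p58,p70],[p64,p64]) ([p59,p71],[p65,p65])
/-- Eighteen rows. -/
noncomputable def k14_4 : I18 → Row P4 := I18.fn ([p72],[]) ([p73],[]) ([p74],[]) ([p75],[]) ([p76],[]) ([p77],[]) ([p78],[p72]) ([p79],[p73]) ([p80],[p74]) ([p81],[p75]) ([p82],[p76]) ([p83],[p77]) ([p72,p84],[p78,p78]) ([p73,p85],[p79,p79]) ([p74,p86],[p80,p80]) ([p75,p87],[p81,p81]) ([p76,p88],[p82,p82]) ([p77,p89],[p83,p83])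
/-- Eighteen rows. -/
noncomputable def k14_5 : I18 → Row P4 := I18.fn ([p90],[]) ([p91],[]) ([p92],[]) ([p93],[]) ([p94],[]) ([p95],[]) ([p96],[p90]) ([p97],[p91]) ([p98],[p92]) ([p99],[p93]) ([p100],[p94]) ([p101],[p95]) ([p90,p102],[p96,p96]) ([p91,p103],[p97,p97]) ([p92,p104],[p98,p98]) ([p93,p105],[p99,p99]) ([p94,p106],[p100,p100]) ([p95,p107],[p101,p101])
/-- Eighteen rows. -/
noncomputable def k14_6 : I18 → Row P4 := I18.fn ([p108],[]) ([p109],[]) ([p110],[]) ([p111],[]) ([p112],[]) ([p113],[]) ([p114],[p108]) ([p115],[p109]) ([p116],[p110]) ([p117],[p111]) ([p118],[p112]) ([p119],[p113]) ([p108,p120],[p114,p114]) ([p109,p121],[p115,p115]) ([p110,p122],[p116,p116]) ([p111,p123],[p117,p117]) ([p112,p124],[p118,p118]) ([p113,p125],[p119,p119])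
/-- Eighteen rows. -/
noncomputable def k14_7 : I18 → Row P4 := I18.fn ([p126],[]) ([p127],[]) ([p128],[]) ([p129],[]) ([p130],[]) ([p131],[]) ([p132],[p126]) ([p133],[p127]) ([p134],[p128]) ([p135],[p129]) ([p136],[p130]) ([p137],[p131]) ([p126,p138],[p132,p132]) ([p127,p139],[p133,p133]) ([p128,p140],[p134,p134]) ([p129,p141],[p135,p135]) ([p130,p142],[p136,p136]) ([p131,p143],[p137,p137])
/-- Eighteen rows. -/
noncomputable def k14_8 : I18 → Row P4 := I18.fn ([p144],[]) ([p145],[]) ([p146],[]) ([p147],[]) ([p148],[]) ([p149],[]) ([p150],[p144]) ([p151],[p145]) ([p152],[p146]) ([p153],[p147]) ([p154],[p148]) ([p155],[p149]) ([p144,p156],[p150,p150]) ([p145,p157],[p151,p151]) ([p146,p158],[p152,p152]) ([p147,p159],[p153,p153]) ([p148,p160],[p154,p154]) ([p149,p161],[p155,p155])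
/-- One table. -/
noncomputable def k14 : Unit → Blk P4 Unit := fun _ => ((), rows2 (I9.fn k14_0 k14_1 k14_2 k14_3 k14_4 k14_5 k14_6 k14_7 k14_8), ([],[]))
/-- Eighteen rows. -/
noncomputable def k15_0 : I18 → Row P4 := I18.fn ([p0],[]) ([p1],[]) ([p2],[p0]) ([p3],[p1]) ([p0,p4],[p2,p2]) ([p1,p5],[p3,p3]) ([p6],[]) ([p7],[]) ([p8],[p6]) ([p9],[p7]) ([p6,p10],[p8,p8]) ([p7,p11],[p9,p9]) ([p12],[]) ([p13],[]) ([p14],[p12]) ([p15],[p13]) ([p12,p16],[p14,p14]) ([p13,p17],[p15,p15])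
/-- Eighteen rows. -/
noncomputable def k15_1 : I18 → Row P4 := I18.fn ([p18],[]) ([p19],[]) ([p20],[p18]) ([p21],[p19]) ([p18,p22],[p20,p20]) ([p19,p23],[p21,p21]) ([p24],[]) ([p25],[]) ([p26],[p24]) ([p27],[p25]) ([p24,p28],[p26,p26]) ([p25,p29],[p27,p27]) ([p30],[]) ([p31],[]) ([p32],[p30]) ([p33],[p31]) ([p30,p34],[p32,p32]) ([p31,p35],[p33,p33])
/-- Eighteen rows. -/
noncomputable def k15_2 : I18 → Row P4 := I18.fn ([p36],[]) ([p37],[]) ([p38],[p36]) ([p39],[p37]) ([p36,p40],[p38,p38]) ([p37,p41],[p39,p39]) ([p42],[]) ([p43],[]) ([p44],[p42]) ([p45],[p43]) ([p42,p46],[p44,p44]) ([p43,p47],[p45,p45]) ([p48],[]) ([p49],[]) ([p50],[p48]) ([p51],[p49]) ([p48,p52],[p50,p50]) ([p49,p53],[p51,p51])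
/-- Eighteen rows. -/
noncomputable def k15_3 : I18 → Row P4 := I18.fn ([p54],[]) ([p55],[]) ([p56],[p54]) ([p57],[p55]) ([p54,p58],[p56,p56]) ([p55,p59],[p57,p57]) ([p60],[]) ([p61],[]) ([p62],[p60]) ([p63],[p61]) ([p60,p64],[p62,p62]) ([p61,p65],[p63,p63]) ([p66],[]) ([p67],[]) ([p68],[p66]) ([p69],[p67]) ([p66,p70],[p68,p68]) ([p67,p71],[p69,p69])
/-- Eighteen rows. -/
noncomputable def k15_4 : I18 → Row P4 := I18.fn ([p72],[]) ([p73],[]) ([p74],[p72]) ([p75],[p73]) ([p72,p76],[p74,p74]) ([p73,p77],[p75,p75]) ([p78],[]) ([p79],[]) ([p80],[p78]) ([p81],[p79]) ([p78,p82],[p80,p80]) ([p79,p83],[p81,p81]) ([p84],[]) ([p85],[]) ([p86],[p84]) ([p87],[p85]) ([p84,p88],[p86,p86]) ([p85,p89],[p87,p87])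
/-- Eighteen rows. -/
noncomputable def k15_5 : I18 → Row P4 := I18.fn ([p90],[]) ([p91],[]) ([p92],[p90]) ([p93],[p91]) ([p90,p94],[p92,p92]) ([p91,p95],[p93,p93]) ([p96],[]) ([p97],[]) ([p98],[p96]) ([p99],[p97]) ([p96,p100],[p98,p98]) ([p97,p101],[p99,p99]) ([p102],[]) ([p103],[]) ([p104],[p102]) ([p105],[p103]) ([p102,p106],[p104,p104]) ([p103,p107],[p105,p105])
/-- Eighteen rows. -/
noncomputable def k15_6 : I18 → Row P4 := I18.fn ([p108],[]) ([p109],[]) ([p110],[p108]) ([p111],[p109]) ([p108,p112],[p110,p110]) ([p109,p113],[p111,p111]) ([p114],[]) ([p115],[]) ([p116],[p114]) ([p117],[p115]) ([p114,p118],[p116,p116]) ([p115,p119],[p117,p117]) ([p120],[]) ([p121],[]) ([p122],[p120]) ([p123],[p121]) ([p120,p124],[p122,p122]) ([p121,p125],[p123,p123])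
/-- Eighteen rows. -/
noncomputable def k15_7 : I18 → Row P4 := I18.fn ([p126],[]) ([p127],[]) ([p128],[p126]) ([p129],[p127]) ([p126,p130],[p128,p128]) ([p127,p131],[p129,p129]) ([p132],[]) ([p133],[]) ([p134],[p132]) ([p135],[p133]) ([p132,p136],[p134,p134]) ([p133,p137],[p135,p135]) ([p138],[]) ([p139],[]) ([p140],[p138]) ([p141],[p139]) ([p138,p142],[p140,p140]) ([p139,p143],[p141,p141])
/-- Eighteen rows. -/
noncomputable def k15_8 : I18 → Row P4 := I18.fn ([p144],[]) ([p145],[]) ([p146],[p144]) ([p147],[p145]) ([p144,p148],[p146,p146]) ([p145,p149],[p147,p147]) ([p150],[]) ([p151],[]) ([p152],[p150]) ([p153],[p151]) ([p150,p154],[p152,p152]) ([p151,p155],[p153,p153]) ([p156],[]) ([p157],[]) ([p158],[p156]) ([p159],[p157]) ([p156,p160],[p158,p158]) ([p157,p161],[p159,p159])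
/-- One table. -/
noncomputable def k15 : Unit → Blk P4 Unit := fun _ => ((), rows2 (I9.fn k15_0 k15_1 k15_2 k15_3 k15_4 k15_5 k15_6 k15_7 k15_8), ([],[]))
/-- Eighteen rows. -/
noncomputable def k16_0 : I18 → Row P4 := I18.fn ([p0,p0,p0],[]) ([p1,p1,p1],[]) ([p2,p2,p2],[]) ([p3,p3,p3],[]) ([p4,p4,p4],[]) ([p5,p5,p5],[]) ([p6,p6,p6],[]) ([p7,p7,p7],[]) ([p8,p8,p8],[]) ([p9,p9,p9],[]) ([p10,p10,p10],[]) ([p11,p11,p11],[]) ([p12,p12,p12],[]) ([p13,p13,p13],[]) ([p14,p14,p14],[]) ([p15,p15,p15],[]) ([p16,p16,p16],[]) ([p17,p17,p17],[])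
/-- Eighteen rows. -/
noncomputable def k16_1 : I18 → Row P4 := I18.fn ([p18,p18,p18],[]) ([p19,p19,p19],[]) ([p20,p20,p20],[]) ([p21,p21,p21],[]) ([p22,p22,p22],[]) ([p23,p23,p23],[]) ([p24,p24,p24],[]) ([p25,p25,p25],[]) ([p26,p26,p26],[]) ([p27,p27,p27],[]) ([p28,p28,p28],[]) ([p29,p29,p29],[]) ([p30,p30,p30],[]) ([p31,p31,p31],[]) ([p32,p32,p32],[]) ([p33,p33,p33],[]) ([p34,p34,p34],[]) ([p35,p35,p35],[])
/-- Eighteen rows. -/
noncomputable def k16_2 : I18 → Row P4 := I18.fn ([p36,p36,p36],[]) ([p37,p37,p37],[]) ([p38,p38,p38],[]) ([p39,p39,p39],[]) ([p40,p40,p40],[]) ([p41,p41,p41],[]) ([p42,p42,p42],[]) ([p43,p43,p43],[]) ([p44,p44,p44],[]) ([p45,p45,p45],[]) ([p46,p46,p46],[]) ([p47,p47,p47],[]) ([p48,p48,p48],[]) ([p49,p49,p49],[]) ([p50,p50,p50],[]) ([p51,p51,p51],[]) ([p52,p52,p52],[]) ([p53,p53,p53],[])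
/-- Eighteen rows. -/
noncomputable def k16_3 : I18 → Row P4 := I18.fn ([p54,p54,p54],[]) ([p55,p55,p55],[]) ([p56,p56,p56],[]) ([p57,p57,p57],[]) ([p58,p58,p58],[]) ([p59,p59,p59],[]) ([p60,p60,p60],[]) ([p61,p61,p61],[]) ([p62,p62,p62],[]) ([p63,p63,p63],[]) ([p64,p64,p64],[]) ([p65,p65,p65],[]) ([p66,p66,p66],[]) ([p67,p67,p67],[]) ([p68,p68,p68],[]) ([p69,p69,p69],[]) ([p70,p70,p70],[]) ([p71,p71,p71],[])
/-- Eighteen rows. -/
noncomputable def k16_4 : I18 → Row P4 := I18.fn ([p72,p72,p72],[]) ([p73,p73,p73],[]) ([p74,p74,p74],[]) ([p75,p75,p75],[]) ([p76,p76,p76],[]) ([p77,p77,p77],[]) ([p78,p78,p78],[]) ([p79,p79,p79],[]) ([p80,p80,p80],[]) ([p81,p81,p81],[]) ([p82,p82,p82],[]) ([p83,p83,p83],[]) ([p84,p84,p84],[]) ([p85,p85,p85],[]) ([p86,p86,p86],[]) ([p87,p87,p87],[]) ([p88,p88,p88],[]) ([p89,p89,p89],[])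
/-- Eighteen rows. -/
noncomputable def k16_5 : I18 → Row P4 := I18.fn ([p90,p90,p90],[]) ([p91,p91,p91],[]) ([p92,p92,p92],[]) ([p93,p93,p93],[]) ([p94,p94,p94],[]) ([p95,p95,p95],[]) ([p96,p96,p96],[]) ([p97,p97,p97],[]) ([p98,p98,p98],[]) ([p99,p99,p99],[]) ([p100,p100,p100],[]) ([p101,p101,p101],[]) ([p102,p102,p102],[]) ([p103,p103,p103],[]) ([p104,p104,p104],[]) ([p105,p105,p105],[]) ([p106,p106,p106],[]) ([p107,p107,p107],[])
/-- Eighteen rows. -/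
noncomputable def k16_6 : I18 → Row P4 := I18.fn ([p108,p108,p108],[]) ([p109,p109,p109],[]) ([p110,p110,p110],[]) ([p111,p111,p111],[]) ([p112,p112,p112],[]) ([p113,p113,p113],[]) ([p114,p114,p114],[]) ([p115,p115,p115],[]) ([p116,p116,p116],[]) ([p117,p117,p117],[]) ([p118,p118,p118],[]) ([p119,p119,p119],[]) ([p120,p120,p120],[]) ([p121,p121,p121],[]) ([p122,p122,p122],[]) ([p123,p123,p123],[]) ([p124,p124,p124],[]) ([p125,p125,p125],[])
/-- Eighteen rows. -/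
noncomputable def k16_7 : I18 → Row P4 := I18.fn ([p126,p126,p126],[]) ([p127,p127,p127],[]) ([p128,p128,p128],[]) ([p129,p129,p129],[]) ([p130,p130,p130],[]) ([p131,p131,p131],[]) ([p132,p132,p132],[]) ([p133,p133,p133],[]) ([p134,p134,p134],[]) ([p135,p135,p135],[]) ([p136,p136,p136],[]) ([p137,p137,p137],[]) ([p138,p138,p138],[]) ([p139,p139,p139],[]) ([p140,p140,p140],[]) ([p141,p141,p141],[]) ([p142,p142,p142],[]) ([p143,p143,p143],[])
/-- Eighteen rows. -/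
noncomputable def k16_8 : I18 → Row P4 := I18.fn ([p144,p144,p144],[]) ([p145,p145,p145],[]) ([p146,p146,p146],[]) ([p147,p147,p147],[]) ([p148,p148,p148],[]) ([p149,p149,p149],[]) ([p150,p150,p150],[]) ([p151,p151,p151],[]) ([p152,p152,p152],[]) ([p153,p153,p153],[]) ([p154,p154,p154],[]) ([p155,p155,p155],[]) ([p156,p156,p156],[]) ([p157,p157,p157],[]) ([p158,p158,p158],[]) ([p159,p159,p159],[]) ([p160,p160,p160],[]) ([p161,p161,p161],[])
/-- One table. -/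
noncomputable def k16 : Unit → Blk P4 Unit := fun _ => ((), rows2 (I9.fn k16_0 k16_1 k16_2 k16_3 k16_4 k16_5 k16_6 k16_7 k16_8), ([],[]))
/-- Extra rows of the form. -/
def xtra : List (Row P4) := [([p0],[p1]),([p2],[p3]),([p4],[p5]),([p6],[p7]),([p8],[p9]),([p10],[p11]),([p12],[p13]),([p14],[p15]),([p16],[p17]),([p18],[p19]),([p20],[p21]),([p22],[p23]),([p24],[p25]),([p26],[p27]),([p28],[p29]),([p30],[p31]),([p32],[p33]),([p34],[p35]),([p36],[p37]),([p38],[p39]),([p40],[p41]),([p42],[p43]),([p44],[p45]),([p46],[p47]),([p48],[p49]),([p50],[p51]),([p52],[p53]),([p54],[p55]),([p56],[p57]),([p58],[p59]),([p60],[p61]),([p62],[p63]),([p64],[p65]),([p66],[p67]),([p68],[p69]),([p70],[p71]),([p72],[p73]),([p74],[p75]),([p76],[p77]),([p78],[p79]),([p80],[p81]),([p82],[p83]),([p84],[p85]),([p86],[p87]),([p88],[p89]),([p90],[p91]),([p92],[p93]),([p94],[p95]),([p96],[p97]),([p98],[p99]),([p100]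,[p101]),([p102],[p103]),([p104],[p105]),([p106],[p107]),([p108],[p109]),([p110],[p111]),([p112],[p113]),([p114],[p115]),([p116],[p117]),([p118],[p119]),([p120],[p121]),([p122],[p123]),([p124],[p125]),([p126],[p127]),([p128],[p129]),([p130],[p131]),([p132],[p133]),([p134],[p135]),([p136],[p137]),([p138],[p139]),([p140],[p141]),([p142],[p143]),([p144],[p145]),([p146],[p147]),([p148],[p149]),([p150],[p151]),([p152],[p153]),([p154],[p155]),([p156],[p157]),([p158],[p159]),([p160],[p161])]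

end Pool.Agent.Lib.MP_c86c76_al.Eng
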