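import Pool.Agent.Lib.MP_c86c76_al.Eng.Fast

/-!
Invariant positive definite forms: kernel test, finite level sets and uniform bounds.
-/

set_option autoImplicit false

namespace Pool.Agent.Lib.MP_c86c76_al.Eng

variable {I J S S' : Type}

/-- The linear part of a word on a block. -/
def lin {M : Type} [AddCommGroup M] (T : S → J → Blk I J) (w : List S) (j : J) (f : I → M) :
    I → M := (run T w ((j, f), 0)).1.2

theorem lin_map {M M' : Type} [AddCommGroup M] [AddCommGroup M'] (T : S → J → Blk I J)
    (w : List S) (j : J) (φ : M →+ M') (f : I → M) :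
    lin T w j (fun i => φ (f i)) = fun i => φ (lin T w j f i) := by
  have := run_map T φ w ((j, f), 0)
  simp only [mapSt, map_zero] at this
  rw [lin, this]
  rfl

theorem run_lin {M : Type} [AddCommGroup M] (T : S → J → Blk I J) (w : List S) (y : St I J M) :
    (run T w y).1.2 = lin T w y.1.1 y.1.2 := by
  rw [show y = (y.1, y.2) from rfl, run_shift]
  rfl

theorem bd_lin (T : S → J → Blk I J) (L : ℕ) (hT : Short T L) (w : List S) (j : J) (K : ℤ)
    (hK : 0 ≤ K) (f : I → ℤ) (hf : ∀ i, |f i| ≤ K) (i : I) :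
    |lin T w j f i| ≤ L ^ w.length * K := by
  induction w generalizing i with
  | nil => simpa [lin, run] using hf i
  | cons s w ih =>
    have := abs_dot_le (by positivity) _ ih _ L ((hT s (run T w ((j, f), 0)).1.1).1 i)
    rw [List.length_cons, pow_succ', mul_assoc]
    exact this

/-- The bilinear form given by a list of rows. -/
def q0 {R : Type} [CommRing R] (X : List (Row I)) (y y' : I → R) : R :=
  (X.map fun r => dot r y * dot r y').sum

theorem abs_q0_le (X : List (Row I)) (L : ℕ) (hX : ∀ r ∈ X, l1 r ≤ L) {K : ℤ} (hK : 0 ≤ K)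
    (y y' : I → ℤ) (hy : ∀ i, |y i| ≤ K) (hy' : ∀ i, |y' i| ≤ K) :
    |q0 X y y'| ≤ X.length * (L * K * (L * K)) := by
  induction X with
  | nil => simp [q0]
  | cons r X ih =>
    have h1 := ih fun r hr => hX r (List.mem_cons_of_mem _ hr)
    have h2 := abs_dot_le hK y hy r L (hX r List.mem_cons_self)
    have h3 := abs_dot_le hK y' hy' r L (hX r List.mem_cons_self)
    have h4 : |dot r y * dot r y'| ≤ L * K * (L * K) := by
      rw [abs_mul]
      exact mul_le_mul h2 h3 (abs_nonneg _) (by positivity)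
    have h5 := abs_add_le (dot r y * dot r y') (q0 X y y')
    have h6 : q0 (r :: X) y y' = dot r y * dot r y' + q0 X y y' := by simp [q0]
    rw [h6, List.length_cons]
    push_cast
    linarith

theorem sq_le_q0 (X : List (Row I)) (y : I → ℤ) (i : I) (hi : ([i], []) ∈ X) :
    y i * y i ≤ q0 X y y := by
  have := List.single_le_sum (l := X.map fun r => dot r y * dot r y) (by
    intro a ha
    obtain ⟨r, -, rfl⟩ := List.mem_map.1 ha
    exact mul_self_nonneg _) _ (List.mem_map.2 ⟨_, hi, rfl⟩)
  simpa [dot, q0] using this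

/-- The form evaluated modulo `m`. -/
noncomputable def qN (m c : ℕ) (X : List (Row I)) (y y' : I → ℕ) : ℕ :=
  Nat.mod (List.rec (motive := fun _ => ℕ) 0
    (fun r _ ih => Nat.add (Nat.mul (rowN m c y r) (rowN m c y' r)) ih) X) m

theorem qN_cast (m L : ℕ) (X : List (Row I)) (hX : ∀ r ∈ X, l1 r ≤ L) (y y' : I → ℕ)
    (hy : ∀ i, y i < m) (hy' : ∀ i, y' i < m) :
    ((qN m (L * m) X y y' : ℕ) : ZMod m) =
      q0 X (fun i => (y i : ZMod m)) fun i => (y' i : ZMod m) := by
  refine (ZMod.natCast_mod _ m).trans ?_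
  induction X with
  | nil => simp [q0]
  | cons r X ih =>
    have h1 := rowN_cast m L 0 y hy r (hX r List.mem_cons_self)
    have h2 := rowN_cast m L 0 y' hy' r (hX r List.mem_cons_self)
    rw [zero_add, Nat.cast_zero, zero_add] at h1 h2
    have h3 := ih fun r hr => hX r (List.mem_cons_of_mem _ hr)
    have h6 : ∀ a b : I → ZMod m, q0 (r :: X) a b = dot r a * dot r b + q0 X a b := by
      intro a b
      simp [q0]
    rw [h6, ← h1, ← h2, ← h3, ← Nat.cast_mul, ← Nat.cast_add]
    rfl

/-- The linear part of a word, strictly. -/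
noncomputable def img (T : S → J → Blk I J)
    (FA : (I → (ℕ → Bool) → Bool) → ((I → ℕ) → Bool) → Bool) (m c : ℕ) (w : List S) (j : J)
    (x : I → ℕ) (k : (I → ℕ) → Bool) : Bool := runN T FA m c (fun _ y _ => k y) w.reverse j x 0

theorem img_spec (T : S → J → Blk I J) (L : ℕ) (hT : Short T L)
    {FA : (I → (ℕ → Bool) → Bool) → ((I → ℕ) → Bool) → Bool} (hFA : Tabulates FA) (m : ℕ)
    (hm : 0 < m) (w : List S) (j : J) (x : I → ℕ) (hx : ∀ i, x i < m) (k : (I → ℕ) → Bool)
    (h : img T FA m (L * m) w j x k = true) : ∃ y, k y = true ∧ (∀ i, y i < m) ∧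
      (fun i => (y i : ZMod m)) = lin T w j fun i => (x i : ZMod m) := by
  obtain ⟨_, y, _, h1, h2, h3⟩ := runN_spec T L hT hFA m hm _ _ _ _ _ hx h
  refine ⟨y, h1, h2, ?_⟩
  rw [List.reverse_reverse, Nat.cast_zero] at h3
  rw [lin, h3]

/-- The Gram test for the columns in the chunk `t`. -/
noncomputable def gchk (T : S → J → Blk I J) (C : S' → Unit → Blk I Unit)
    (FA : (I → (ℕ → Bool) → Bool) → ((I → ℕ) → Bool) → Bool) (X : List (Row I)) (cw : List S')
    (idx ch dg : I → ℕ) (n d L B t : ℕ) (l : List (S × J)) : Bool :=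
  force (Nat.pow B (n * d)) fun m => force (Nat.mul L m) fun c =>
    FA (fun i k => force (Nat.pow B (idx i)) k) fun p =>
    FA (fun i k => force (if ch i = t then Nat.pow B (n * dg i) else 0) k) fun p' =>
      img C FA m c cw () p fun w => img C FA m c cw () p' fun w' =>
        force (qN m c X w w') fun g => l.all fun a =>
          img T FA m c [a.1] a.2 p fun x => img C FA m c cw () x fun y =>
            img T FA m c [a.1] a.2 p' fun x' => img C FA m c cw () x' fun y' =>
              Nat.beq (qN m c X y y') g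

section
variable [Fintype I] [DecidableEq I]

omit [DecidableEq I] in
theorem q0_ev {R : Type} [CommRing R] (X : List (Row I)) (U : I → I → ℤ) (f f' : I → R) :
    q0 X (fun i => ev f (U i)) (fun i => ev f' (U i)) =
      ∑ a : I × I, (q0 X (fun i => U i a.1) (fun i => U i a.2) : ℤ) * (f a.1 * f' a.2) := by
  induction X with
  | nil => simp [q0]
  | cons r X ih =>
    have h6 : ∀ (R : Type) [CommRing R] (a b : I → R),
        q0 (r :: X) a b = dot r a * dot r b + q0 X a b := by
      intro R _ a b
      simp [q0]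
    have h7 : ∀ k, dot r (fun i => U i k) = dot r U k := fun k =>
      dot_map (Pi.evalAddMonoidHom (fun _ : I => ℤ) k) r U
    simp only [h6, ih, dot_map, h7, Int.cast_add, Int.cast_mul, add_mul, Finset.sum_add_distrib]
    congr 1
    simp only [ev, AddMonoidHom.mk'_apply, Finset.sum_mul_sum, Fintype.sum_prod_type]
    exact Finset.sum_congr rfl fun _ _ => Finset.sum_congr rfl fun _ _ => by ring

theorem lin_ev {R : Type} [CommRing R] (T : S → J → Blk I J) (w : List S) (j : J) (f : I → R) :
    lin T w j f = fun i => ev f (lin T w j E i) := by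
  rw [← lin_map]
  simp only [ev_E]

theorem lin_lin_ev {R : Type} [CommRing R] (T : S → J → Blk I J) (C : S' → Unit → Blk I Unit)
    (cw : List S') (w : List S) (j : J) (f : I → R) :
    lin C cw () (lin T w j f) = fun i => ev f (lin C cw () (lin T w j E) i) := by
  rw [← lin_map, ← lin_ev]

theorem q0_ll {R : Type} [CommRing R] (X : List (Row I)) (T : S → J → Blk I J)
    (C : S' → Unit → Blk I Unit) (cw : List S') (w : List S) (j : J) (f f' : I → R) :
    q0 X (lin C cw () (lin T w j f)) (lin C cw () (lin T w j f')) =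
      ∑ a : I × I, (q0 X (fun i => lin C cw () (lin T w j E) i a.1)
        (fun i => lin C cw () (lin T w j E) i a.2) : ℤ) * (f a.1 * f' a.2) := by
  rw [lin_lin_ev T C cw w j f, lin_lin_ev T C cw w j f', q0_ev]

theorem q0_l {R : Type} [CommRing R] (X : List (Row I))
    (C : S' → Unit → Blk I Unit) (cw : List S') (f f' : I → R) :
    q0 X (lin C cw () f) (lin C cw () f') =
      ∑ a : I × I, (q0 X (fun i => lin C cw () E i a.1)
        (fun i => lin C cw () E i a.2) : ℤ) * (f a.1 * f' a.2) := by
  rw [lin_ev C cw () f, lin_ev C cw () f', q0_ev]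

omit [Fintype I] in
theorem abs_E (i k : I) : |E i k| ≤ 1 := by
  by_cases h : k = i
  · subst h; simp [E]
  · simp [E, Pi.single_eq_of_ne h]

theorem gram_of_gchk (T : S → J → Blk I J) (C : S' → Unit → Blk I Unit) (L L' : ℕ) (hL : 1 ≤ L)
    (hL1 : L' ≤ L) (hT : Short T L) (hC' : Short C L')
    {FA : (I → (ℕ → Bool) → Bool) → ((I → ℕ) → Bool) → Bool} (hFA : Tabulates FA)
    (X : List (Row I)) (hX' : ∀ r ∈ X, l1 r ≤ L') (cw : List S') (idx ch dg : I → ℕ)
    (hinj : Function.Injective idx) (hinj' : ∀ a b, ch a = ch b → dg a = dg b → a = b) (n d : ℕ)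
    (hlt : ∀ a, idx a < n) (hlt' : ∀ a, dg a < d) (B : ℕ)
    (hB : 2 * (X.length * (L' ^ (2 * cw.length + 2) * L ^ 2)) + 1 < B) (s : S) (j : J)
    (h : ∀ i, ∃ l, (s, j) ∈ l ∧ gchk T C FA X cw idx ch dg n d L B (ch i) l = true) (f : I → ℤ) :
    q0 X (lin C cw () (lin T [s] j f)) (lin C cw () (lin T [s] j f)) =
      q0 X (lin C cw () f) (lin C cw () f) := by
  have hC : Short C L := fun s j =>
    ⟨fun i => ((hC' s j).1 i).trans hL1, (hC' s j).2.trans hL1⟩
  have hX : ∀ r ∈ X, l1 r ≤ L := fun r hr => (hX' r hr).trans hL1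
  have key : ∀ a b : I, q0 X (fun i => lin C cw () (lin T [s] j E) i a)
      (fun i => lin C cw () (lin T [s] j E) i b) =
      q0 X (fun i => lin C cw () E i a) (fun i => lin C cw () E i b) := by
    intro a b
    obtain ⟨l, hl, h⟩ := h b
    have hB1 : 1 < B := by omega
    have hm : 0 < B ^ (n * d) := by positivity
    have hd : 0 < d := lt_of_le_of_lt (Nat.zero_le _) (hlt' b)
    have hn : 0 < n := lt_of_le_of_lt (Nat.zero_le _) (hlt b)
    have hp : ∀ i, B ^ idx i < B ^ (n * d) := fun i =>
      Nat.pow_lt_pow_right hB1 ((hlt i).trans_le (Nat.le_mul_of_pos_right n hd))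
    have hp' : ∀ i, (if ch i = ch b then B ^ (n * dg i) else 0) < B ^ (n * d) := fun i => by
      split_ifs
      · exact Nat.pow_lt_pow_right hB1 (Nat.mul_lt_mul_of_pos_left (hlt' i) hn)
      · exact hm
    rw [gchk, force_eq, force_eq, hFA _ (fun i => Nat.pow B (idx i)) fun _ _ => force_eq _ _,
      hFA _ (fun i => if ch i = ch b then Nat.pow B (n * dg i) else 0)
        fun _ _ => force_eq _ _] at h
    obtain ⟨w, h, hw, ew⟩ := img_spec C L hC hFA _ hm _ _ _ hp _ h
    obtain ⟨w', h, hw', ew'⟩ := img_spec C L hC hFA _ hm _ _ _ hp' _ h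
    rw [force_eq, List.all_eq_true] at h
    replace h := h _ hl
    obtain ⟨x, h, hx, ex⟩ := img_spec T L hT hFA _ hm _ _ _ hp _ h
    obtain ⟨y, h, hy, ey⟩ := img_spec C L hC hFA _ hm _ _ _ hx _ h
    obtain ⟨x', h, hx', ex'⟩ := img_spec T L hT hFA _ hm _ _ _ hp' _ h
    obtain ⟨y', h, hy', ey'⟩ := img_spec C L hC hFA _ hm _ _ _ hx' _ h
    have h1 := congrArg (Nat.cast : ℕ → ZMod (B ^ (n * d))) (Nat.eq_of_beq_eq_true h)
    erw [qN_cast _ L X hX y y' hy hy', qN_cast _ L X hX w w' hw hw'] at h1
    rw [ey, ey', ex, ex', ew, ew', q0_ll, q0_l, ← sub_eq_zero, ← Finset.sum_sub_distrib] at h1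
    let D : I × I → ℤ := fun a => q0 X (fun i => lin C cw () (lin T [s] j E) i a.1)
      (fun i => lin C cw () (lin T [s] j E) i a.2) -
      q0 X (fun i => lin C cw () E i a.1) (fun i => lin C cw () E i a.2)
    have hcol : ∀ {S0 J0 : Type} (T0 : S0 → J0 → Blk I J0) (w0 : List S0) (j0 : J0)
        (U : I → I → ℤ) (k : I), (fun i => lin T0 w0 j0 U i k) = lin T0 w0 j0 fun i => U i k :=
      fun T0 w0 j0 U k => (lin_map T0 w0 j0 (Pi.evalAddMonoidHom (fun _ : I => ℤ) k) U).symm
    have hL' : (1 : ℤ) ≤ L := by exact_mod_cast hL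
    have b1 : ∀ k i, |lin C cw () (lin T [s] j E) i k| ≤ (L' : ℤ) ^ cw.length * L := by
      intro k i
      rw [congrFun (hcol C cw () _ k) i, hcol]
      refine bd_lin C L' hC' cw () _ (by positivity) _ (fun i => ?_) i
      simpa using bd_lin T L hT [s] j 1 one_pos.le _ (fun i => abs_E i k) i
    have b2 : ∀ k i, |lin C cw () E i k| ≤ (L' : ℤ) ^ cw.length * L := by
      intro k i
      rw [congrFun (hcol C cw () _ k) i]
      exact bd_lin C L' hC' cw () _ (by positivity) _ (fun i => (abs_E i k).trans hL') i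
    have hD : ∀ a, |D a| < B := by
      intro a
      have c1 := abs_q0_le X L' hX' (by positivity) _ _ (b1 a.1) (b1 a.2)
      have c2 := abs_q0_le X L' hX' (by positivity) _ _ (b2 a.1) (b2 a.2)
      have c3 : (2 : ℤ) * (X.length * (L' ^ (2 * cw.length + 2) * L ^ 2)) + 1 < B := by
        exact_mod_cast hB
      have c4 : (L' : ℤ) * (L' ^ cw.length * L) * (L' * (L' ^ cw.length * L)) =
          L' ^ (2 * cw.length + 2) * L ^ 2 := by ring
      rw [c4] at c1 c2
      exact lt_of_le_of_lt (abs_sub _ _) (by linarith)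
    have hz := digits_zero (A := {a : I × I // ch a.2 = ch b})
      (fun a => idx a.1.1 + n * dg a.1.2) (by
        intro u v huv
        have e1 := congrArg (· % n) huv
        have e2 := congrArg (· / n) huv
        simp only [Nat.add_mul_mod_self_left, Nat.mod_eq_of_lt (hlt _),
          Nat.add_mul_div_left _ _ hn, Nat.div_eq_of_lt (hlt _), zero_add] at e1 e2
        exact Subtype.ext (Prod.ext (hinj e1) (hinj' _ _ (u.2.trans v.2.symm) e2))) (n * d)
      (fun a => by
        have e1 := hlt a.1.1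
        have e2 := Nat.mul_le_mul_left n (Nat.succ_le_of_lt (hlt' a.1.2))
        rw [Nat.mul_succ] at e2
        omega) B (fun a => D a.1) (fun a => hD a.1) (by
        have e1 : ∑ a : {a : I × I // ch a.2 = ch b}, D a.1 * (B : ℤ) ^ (idx a.1.1 + n * dg a.1.2) =
            ∑ a : I × I, if ch a.2 = ch b then D a * (B : ℤ) ^ (idx a.1 + n * dg a.2) else 0 := by
          rw [← Finset.sum_filter]
          exact (Finset.sum_subtype _ (by simp) fun a : I × I =>
            D a * (B : ℤ) ^ (idx a.1 + n * dg a.2)).symm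
        rw [e1]
        have e2 := (ZMod.intCast_zmod_eq_zero_iff_dvd (∑ a : I × I, if ch a.2 = ch b then
          D a * (B : ℤ) ^ (idx a.1 + n * dg a.2) else 0) (B ^ (n * d))).1 (by
            rw [← h1, Int.cast_sum]
            refine Finset.sum_congr rfl fun a _ => ?_
            split_ifs
            · simp only [D]
              push_cast
              ring
            · simp)
        exact_mod_cast e2)
    exact sub_eq_zero.1 (congrFun hz ⟨(a, b), rfl⟩)
  rw [q0_ll, q0_l]
  simp only [key]

end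

end Pool.Agent.Lib.MP_c86c76_al.Eng
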