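import Pool.Agent.Lib.MP_c86c76_al.Eng.Sys4

/-!
Kernel checks.
-/

set_option autoImplicit false

namespace Pool.Agent.Lib.MP_c86c76_al.Eng

theorem g4_2 (t : I18) : gch4 t.pos [.c6, .c7, .c8] = true := by
  cases t <;> decide +kernel

end Pool.Agent.Lib.MP_c86c76_al.Eng
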