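import Pool.Agent.Lib.MP_c86c76_al.Eng.Gram

/-!
From an affine action with an invariant positive definite form to a finite-index subgroup
mapping onto the integers.
-/

set_option autoImplicit false

namespace Pool.Agent.Lib.MP_c86c76_al.Eng

variable {I J S S' : Type}

/-- A positive definite form given by a change of coordinates. -/
structure Form (I S' : Type) where
  /-- tables of the coordinate changes -/
  C : S' → Unit → Blk I Unit
  /-- rows whose squares are summed -/
  X : List (Row I)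
  /-- the coordinate change -/
  cw : List S'
  /-- a multiple of its inverse -/
  cw' : List S'
  /-- the multiple -/
  c : ℤ
  /-- bound for the rows -/
  L : ℕ
  hC : Short C L
  hX : ∀ r ∈ X, l1 r ≤ L
  hX1 : ∀ i, ([i], []) ∈ X
  hc : 1 ≤ c
  hinv : ∀ x : I → ℤ, lin C cw' () (lin C cw () x) = c • x

/-- The value of the form. -/
def Form.Q (F : Form I S') (x : I → ℤ) : ℤ := q0 F.X (lin F.C F.cw () x) (lin F.C F.cw () x)

theorem Form.abs_le (F : Form I S') (x : I → ℤ) (q : ℤ) (hq : 0 ≤ q) (h : F.Q x ≤ q * q) (i : I) :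
    |x i| ≤ F.L ^ F.cw'.length * q := by
  have h1 : ∀ i, |lin F.C F.cw () x i| ≤ q := fun i =>
    abs_le_of_sq_le_sq (by
      have := (sq_le_q0 F.X (lin F.C F.cw () x) i (F.hX1 i)).trans h
      simpa only [sq] using this) hq
  have h2 := bd_lin F.C F.L F.hC F.cw' () q hq _ h1 i
  rw [F.hinv, Pi.smul_apply, smul_eq_mul, abs_mul, abs_of_pos (by linarith [F.hc])] at h2
  nlinarith [abs_nonneg (x i), F.hc]

theorem Form.finite_level [Finite I] [Finite J] (F : Form I S') (m : ℤ) :
    {x : J × (I → ℤ) | F.Q x.2 = m}.Finite := by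
  have h1 : (Set.pi Set.univ fun _ : I =>
      Set.Icc (-(F.L ^ F.cw'.length * |m|)) (F.L ^ F.cw'.length * |m|)).Finite :=
    Set.Finite.pi fun _ => Set.finite_Icc _ _
  refine (Set.finite_univ.prod h1).subset fun x hx => ⟨trivial, fun i _ => ?_⟩
  refine _root_.abs_le.1 (F.abs_le x.2 _ (abs_nonneg m) ?_ i)
  rw [show F.Q x.2 = m from hx, abs_mul_abs_self]
  simpa only [sq] using Int.le_self_sq m

/-- The tables preserve the form. -/
def Form.Inv (F : Form I S') (T : S → J → Blk I J) : Prop :=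
  ∀ s j f, F.Q (lin T [s] j f) = F.Q f

theorem Form.Q_run {F : Form I S'} {T : S → J → Blk I J} (h : F.Inv T) (w : List S)
    (y : St I J ℤ) : F.Q (run T w y).1.2 = F.Q y.1.2 := by
  induction w with
  | nil => rfl
  | cons s w ih => exact (h s (run T w y).1.1 (run T w y).1.2).trans ih

theorem Form.bd_unif [DecidableEq I] {F : Form I S'} {T : S → J → Blk I J} (h : F.Inv T) (L : ℕ)
    (hT : Short T L) (q : ℕ) (hq : F.X.length * F.L ^ (2 * F.cw.length + 2) ≤ q * q)
    (w : List S) (j : J) (k : I) :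
    Bd (((w.length * L + 1) * (F.L ^ F.cw'.length * q) : ℕ) : ℤ)
      (run T w ((j, Pi.single k 1), 0)) := by
  have h0 : F.Q (Pi.single k 1) ≤ (q : ℤ) * q := by
    have b := bd_lin F.C F.L F.hC F.cw () 1 one_pos.le _ (bd_single j k).1
    have c1 := abs_q0_le F.X F.L F.hX (by positivity) _ _ b b
    have c2 : (F.X.length : ℤ) * F.L ^ (2 * F.cw.length + 2) ≤ q * q := by exact_mod_cast hq
    have c3 : (F.L : ℤ) * (F.L ^ F.cw.length * 1) * (F.L * (F.L ^ F.cw.length * 1)) =
        F.L ^ (2 * F.cw.length + 2) := by ring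
    rw [c3] at c1
    exact ((le_abs_self _).trans c1).trans c2
  have hK : (0 : ℤ) ≤ F.L ^ F.cw'.length * q := by positivity
  have h1 : ∀ w : List S, ∀ i, |(run T w ((j, (Pi.single k 1 : I → ℤ)), 0)).1.2 i| ≤
      F.L ^ F.cw'.length * q := fun w =>
    F.abs_le _ q (by positivity) (by rw [Form.Q_run h]; exact h0)
  have h2 : |(run T w ((j, (Pi.single k 1 : I → ℤ)), 0)).2| ≤
      w.length * L * (F.L ^ F.cw'.length * q) := by
    induction w with
    | nil => simp [run]
    | cons s w ih =>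
      have a1 := abs_dot_le hK _ (h1 w) _ L
        (hT s (run T w ((j, (Pi.single k 1 : I → ℤ)), 0)).1.1).2
      have a2 := abs_add_le (run T w ((j, (Pi.single k 1 : I → ℤ)), 0)).2
        (dot (T s (run T w ((j, (Pi.single k 1 : I → ℤ)), 0)).1.1).2.2
          (run T w ((j, (Pi.single k 1 : I → ℤ)), 0)).1.2)
      simp only [run, step, List.length_cons]
      push_cast
      linarith
  have h3 : (0 : ℤ) ≤ w.length * L * (F.L ^ F.cw'.length * q) := by positivity
  refine ⟨fun i => ?_, ?_⟩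
  · have := h1 w i
    push_cast
    linarith
  · push_cast
    linarith

/-- Permutations that commute with the shift and keep the form. -/
def Form.Good (F : Form I S') (J : Type) : Subgroup (Equiv.Perm (St I J ℤ)) where
  carrier := {p | ∀ x n, p (x, n) = ((p (x, 0)).1, (p (x, 0)).2 + n) ∧
    F.Q (p (x, n)).1.2 = F.Q x.2}
  one_mem' := fun x n => by simp
  mul_mem' := by
    intro p q hp hq x n
    refine ⟨?_, ?_⟩
    · simp only [Equiv.Perm.mul_apply]
      rw [(hq x n).1, (hp _ _).1, show q (x, 0) = ((q (x, 0)).1, (q (x, 0)).2) from rfl,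
        (hp _ (q (x, 0)).2).1]
      simp only [add_assoc]
    · rw [Equiv.Perm.mul_apply, show q (x, n) = ((q (x, n)).1, (q (x, n)).2) from rfl,
        (hp _ _).2, (hq x n).2]
  inv_mem' := by
    intro p hp x n
    refine ⟨?_, ?_⟩
    · rw [Equiv.Perm.inv_eq_iff_eq, (hp _ _).1]
      have h := (hp (p⁻¹ (x, 0)).1 (p⁻¹ (x, 0)).2).1
      rw [Prod.mk.eta, show p (p⁻¹ (x, 0)) = (x, 0) from p.apply_symm_apply _,
        Prod.mk.injEq] at h
      rw [← h.1, ← add_assoc, ← h.2, zero_add]
    · have h := (hp (p⁻¹ (x, n)).1 (p⁻¹ (x, n)).2).2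
      rw [Prod.mk.eta, show p (p⁻¹ (x, n)) = (x, n) from p.apply_symm_apply _] at h
      exact h.symm

/-- A letter with a two-sided inverse word as a permutation. -/
def genP (T : S → J → Blk I J) (inv : S → List S)
    (h1 : ∀ s (y : St I J ℤ), run T (inv s ++ [s]) y = y)
    (h2 : ∀ s (y : St I J ℤ), run T (s :: inv s) y = y) (s : S) : Equiv.Perm (St I J ℤ) :=
  ⟨step T s, run T (inv s), fun y => (run_append T (inv s) [s] y).symm.trans (h1 s y), h2 s⟩

theorem Form.good_of_run {F : Form I S'} {T : S → J → Blk I J} (h : F.Inv T) (w : List S)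
    (p : Equiv.Perm (St I J ℤ)) (hp : ∀ y, p y = run T w y) : p ∈ F.Good J := fun x n => by
  rw [hp, hp]
  exact ⟨run_shift T w x n, Form.Q_run h w (x, n)⟩

/-- A group acting through good permutations with a non-trivial loop has a finite-index subgroup
with a non-trivial map to the integers. -/
theorem Form.virtual_of_good [Finite I] [Finite J] (F : Form I S') {G : Type} [Group G]
    (Φ : G →* Equiv.Perm (St I J ℤ)) (hΦ : ∀ g, Φ g ∈ F.Good J) (x0 : J × (I → ℤ)) (γ : G)
    (c : ℤ) (hc : c ≠ 0) (hγ : Φ γ (x0, 0) = (x0, c)) :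
    ∃ K : Subgroup G, K.FiniteIndex ∧ ∃ (φ : K →* Multiplicative ℤ) (k : K), φ k ≠ 1 := by
  have hmul : ∀ g h x, Φ (g * h) (x, 0) =
      ((Φ g ((Φ h (x, 0)).1, 0)).1, (Φ g ((Φ h (x, 0)).1, 0)).2 + (Φ h (x, 0)).2) := by
    intro g h x
    rw [map_mul, Equiv.Perm.mul_apply]
    exact (hΦ g (Φ h (x, 0)).1 (Φ h (x, 0)).2).1
  let act : MulAction G (J × (I → ℤ)) :=
    { smul := fun g x => (Φ g (x, 0)).1
      one_smul := fun x => by
        show (Φ 1 (x, 0)).1 = x
        simp
      mul_smul := fun g h x => by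
        show (Φ (g * h) (x, 0)).1 = (Φ g ((Φ h (x, 0)).1, 0)).1
        rw [hmul] }
  have hfin : (MulAction.orbit G x0).Finite :=
    (F.finite_level (F.Q x0.2)).subset (by
      rintro _ ⟨g, rfl⟩
      exact (hΦ g x0 0).2)
  refine ⟨MulAction.stabilizer G x0, ⟨?_⟩, MonoidHom.mk'
    (fun k => Multiplicative.ofAdd (Φ k (x0, 0)).2) fun a b => ?_,
    ⟨γ, congrArg Prod.fst hγ⟩, ?_⟩
  · rw [MulAction.index_stabilizer]
    exact ((Set.ncard_pos hfin).2 ⟨x0, MulAction.mem_orbit_self x0⟩).ne'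
  · have hb : (Φ b (x0, 0)).1 = x0 := b.2
    rw [Subgroup.coe_mul, hmul, hb, ofAdd_add]
  · rw [MonoidHom.mk'_apply, hγ]
    exact fun h => hc (ofAdd_eq_one.1 h)

end Pool.Agent.Lib.MP_c86c76_al.Eng
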