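import Pool.Agent.Lib.MP_c86c76_al.Eng.Gram4a
import Pool.Agent.Lib.MP_c86c76_al.Eng.Gram4b
import Pool.Agent.Lib.MP_c86c76_al.Eng.Gram4c

/-!
The genus four tables preserve the form.
-/

set_option autoImplicit false

namespace Pool.Agent.Lib.MP_c86c76_al.Eng

theorem inv4 : F4.Inv T4 := by
  refine inv4_of fun t s => ?_
  cases s
  · exact ⟨_, by decide, g4_0 t⟩
  · exact ⟨_, by decide, g4_0 t⟩
  · exact ⟨_, by decide, g4_0 t⟩
  · exact ⟨_, by decide, g4_1 t⟩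
  · exact ⟨_, by decide, g4_1 t⟩
  · exact ⟨_, by decide, g4_1 t⟩
  · exact ⟨_, by decide, g4_2 t⟩
  · exact ⟨_, by decide, g4_2 t⟩
  · exact ⟨_, by decide, g4_2 t⟩

end Pool.Agent.Lib.MP_c86c76_al.Eng
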