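import Mathlib

/-!
The presentation of the mapping class group of the closed surface of genus `g` given by Matsumoto
and by Labruere and Paris. The generators `0, ..., 2g-1` are the twists `x0, y1, ..., y(2g-1)`
along a chain of curves and the generator `2g` is the twist `z`, whose curve meets only `y3`.
-/

set_option autoImplicit false

namespace Pool.Agent.Lib.MP_c86c76_al.Eng

/-- The edges of the diagram. -/
def Edge (g i j : ℕ) : Prop := (j = i + 1 ∧ j < 2 * g) ∨ (i = 3 ∧ j = 2 * g)

/-- The product of the listed generators. -/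
def word (g : ℕ) (l : List ℕ) : FreeGroup (Fin (2 * g + 1)) :=
  (l.map fun k => FreeGroup.of (Fin.ofNat (2 * g + 1) k)).prod

/-- The relators. -/
def rels (g : ℕ) : Set (FreeGroup (Fin (2 * g + 1))) :=
  {r | (∃ i j, Edge g i j ∧ r = word g [i, j, i] * (word g [j, i, j])⁻¹) ∨
    (∃ i j, i < j ∧ j ≤ 2 * g ∧ ¬ Edge g i j ∧ r = word g [i, j] * (word g [j, i])⁻¹) ∨
    r = word g [1, 2, 3, 2 * g] ^ 10 * (word g [0, 1, 2, 3, 2 * g] ^ 6)⁻¹ ∨
    r = word g [1, 2, 3, 4, 5, 2 * g] ^ 12 * (word g [0, 1, 2, 3, 4, 5, 2 * g] ^ 9)⁻¹ ∨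
    r = word g [0] ^ (2 * g - 2) * (word g (2 * g :: List.range' 2 (2 * g - 2)) ^ (4 * g - 4))⁻¹}

/-- The mapping class group of the closed orientable surface of genus `g`, for `g` at least 3. -/
abbrev ModLP (g : ℕ) : Type := PresentedGroup (rels g)

end Pool.Agent.Lib.MP_c86c76_al.Eng
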