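import Pool.Agent.Lib.MP_c86c76_al.Eng.Group
import Pool.Agent.Lib.MP_c86c76_al.Eng.LP
import Pool.Agent.Lib.MP_c86c76_al.NotT.General

/-!
From word identities to an action of the presented group.
-/

set_option autoImplicit false

namespace Pool.Agent.Lib.MP_c86c76_al.Eng

variable {I J S S' : Type}

instance edgeDec (g i j : ℕ) : Decidable (Edge g i j) := by
  unfold Edge
  infer_instance

/-- A power of a word. -/
def rp {A : Type} (n : ℕ) (w : List A) : List A := (List.replicate n w).flatten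

/-- The two sides of an Artin relation. -/
def pairW (g i j : ℕ) : List ℕ × List ℕ :=
  if Edge g i j then ([i, j, i], [j, i, j]) else ([i, j], [j, i])

/-- Letters of a word. -/
def lets (g : ℕ) (σ : ℕ → S) (l : List ℕ) : List S := l.map fun k => σ (k % (2 * g + 1))

theorem word_rp (g n : ℕ) (w : List ℕ) : word g (rp n w) = word g w ^ n := by
  induction n with
  | zero => simp [word, rp]
  | succ n ih =>
    have : word g (rp (n + 1) w) = word g w * word g (rp n w) := by
      simp [word, rp, List.replicate_succ]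
    rw [this, ih, pow_succ']

theorem notT_of_words [Finite I] [Finite J] (g : ℕ) (hg : 2 ≤ g) (F : Form I S')
    (T : S → J → Blk I J) (hI : F.Inv T) (σ : ℕ → S) (P : S → Equiv.Perm (St I J ℤ))
    (hP : ∀ s y, P s y = step T s y) (H : List ℕ → List ℕ → Prop)
    (hH : ∀ u v, H u v → ∀ y : St I J ℤ, run T (lets g σ u) y = run T (lets g σ v) y)
    (hA : ∀ j ≤ 2 * g, ∀ i < j, H (pairW g i j).1 (pairW g i j).2)
    (h1 : H (rp 10 [1, 2, 3, 2 * g]) (rp 6 [0, 1, 2, 3, 2 * g]))
    (h2 : H (rp 12 [1, 2, 3, 4, 5, 2 * g]) (rp 9 [0, 1, 2, 3, 4, 5, 2 * g]))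
    (h3 : H (rp (2 * g - 2) [0]) (rp (4 * g - 4) (2 * g :: List.range' 2 (2 * g - 2))))
    (x0 : J × (I → ℤ)) (w0 : List ℕ) (c : ℤ) (hc : c ≠ 0)
    (h0 : run T (lets g σ w0) (x0, 0) = (x0, c)) (A : Finset (ModLP g)) (ε : ℝ) (hε : 0 < ε) :
    ∃ (H : Type) (_ : NormedAddCommGroup H) (_ : InnerProductSpace ℂ H) (_ : CompleteSpace H)
      (π : ModLP g →* (H ≃ₗᵢ[ℂ] H)) (v : H), ‖v‖ = 1 ∧ (∀ s ∈ A, ‖π s v - v‖ < ε) ∧
      ∀ w : H, (∀ g, π g w = w) → w = 0 := by
  let f : Fin (2 * g + 1) → Equiv.Perm (St I J ℤ) := fun i => P (σ i.val)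
  have hw : ∀ l y, FreeGroup.lift f (word g l) y = run T (lets g σ l) y := by
    intro l y
    induction l with
    | nil => simp [word, lets, run]
    | cons s w ih =>
      have : word g (s :: w) = FreeGroup.of (Fin.ofNat (2 * g + 1) s) * word g w := by
        simp [word]
      rw [this, map_mul, FreeGroup.lift_apply_of, Equiv.Perm.mul_apply, ih]
      exact hP _ _
  have hr : ∀ u v, H u v → FreeGroup.lift f (word g u * (word g v)⁻¹) = 1 := by
    intro u v h
    rw [map_mul, map_inv, mul_inv_eq_one]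
    ext1 y
    rw [hw, hw, hH u v h]
  have hrel : ∀ r ∈ rels g, FreeGroup.lift f r = 1 := by
    rintro r (⟨i, j, h, rfl⟩ | ⟨i, j, hij, hj, h, rfl⟩ | rfl | rfl | rfl)
    · have h' := hA j (by unfold Edge at h; omega) i (by unfold Edge at h; omega)
      rw [pairW, if_pos h] at h'
      exact hr _ _ h'
    · have h' := hA j hj i hij
      rw [pairW, if_neg h] at h'
      exact hr _ _ h'
    · rw [← word_rp, ← word_rp]
      exact hr _ _ h1
    · rw [← word_rp, ← word_rp]
      exact hr _ _ h2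
    · rw [← word_rp, ← word_rp]
      exact hr _ _ h3
  let Φ : ModLP g →* Equiv.Perm (St I J ℤ) := PresentedGroup.toGroup hrel
  have hΦ : ∀ x, Φ x ∈ F.Good J := by
    intro x
    have : Subgroup.closure (Set.range (PresentedGroup.of : Fin (2 * g + 1) → ModLP g)) ≤
        (F.Good J).comap Φ := by
      rw [Subgroup.closure_le]
      rintro _ ⟨s, rfl⟩
      show PresentedGroup.toGroup hrel (PresentedGroup.of s) ∈ F.Good J
      rw [PresentedGroup.toGroup.of]
      exact Form.good_of_run hI [σ s.val] _ (hP _)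
    rw [PresentedGroup.closure_range_of] at this
    exact this (Subgroup.mem_top x)
  obtain ⟨K, hK, φ, k, hk⟩ := F.virtual_of_good Φ hΦ x0 (PresentedGroup.mk _ (word g w0)) c hc
    ((hw _ _).trans h0)
  exact NotT.almost_of_virtual K φ k hk A ε hε

end Pool.Agent.Lib.MP_c86c76_al.Eng
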