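import Pool.Agent.Lib.MP_c86c76_al.Eng.Sys3
import Pool.Agent.Lib.MP_c86c76_al.Eng.LPHom

/-!
Kernel checks for genus three.
-/

set_option autoImplicit false

namespace Pool.Agent.Lib.MP_c86c76_al.Eng

/-- The letter of a generator. -/
def s3 (k : ℕ) : I16 := I16.all.getD k .c0

/-- The inverse letter. -/
noncomputable def inv3L : I16 → List I16 :=
  I16.fn [.c7] [.c8] [.c9] [.c10] [.c11] [.c12] [.c13] [.c0] [.c1] [.c2] [.c3] [.c4] [.c5] [.c6]
    [.c7] [.c7]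

/-- The word test. -/
def H3 (u v : List ℕ) : Prop :=
  u.length ≤ 1000 ∧ v.length ≤ 1000 ∧ ∀ j, chk3 T3 (lets 3 s3 u) (lets 3 s3 v) [j] = true

theorem chk3_one {S : Type} (T : S → J28 → Blk I16 J28) (u v : List S)
    (h : chk3 T u v J28.all = true) (j : J28) : chk3 T u v [j] = true := by
  simp only [chk3, List.all_eq_true, List.mem_singleton, forall_eq] at h ⊢
  exact h j j.mem_all

theorem lp3 : (∀ s : I16, chk3 T3 (inv3L s ++ [s]) [] J28.all = true ∧
      chk3 T3 (s :: inv3L s) [] J28.all = true) ∧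
    (∀ j ≤ 2 * 3, ∀ i < j, H3 (pairW 3 i j).1 (pairW 3 i j).2) ∧
    H3 (rp 10 [1, 2, 3, 2 * 3]) (rp 6 [0, 1, 2, 3, 2 * 3]) ∧
    H3 (rp 12 [1, 2, 3, 4, 5, 2 * 3]) (rp 9 [0, 1, 2, 3, 4, 5, 2 * 3]) ∧
    H3 (rp (2 * 3 - 2) [0]) (rp (4 * 3 - 4) (2 * 3 :: List.range' 2 (2 * 3 - 2))) := by
  unfold H3
  refine ⟨fun s => ?_, fun j hj i hi => ?_, ⟨by decide, by decide, fun j => ?_⟩,
    ⟨by decide, by decide, fun j => ?_⟩, ⟨by decide, by decide, fun j => ?_⟩⟩
  · cases s <;> decide +kernel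
  · interval_cases j <;> interval_cases i <;>
      exact ⟨by decide, by decide, chk3_one _ _ _ (by decide +kernel)⟩
  · cases j <;> decide +kernel
  · cases j <;> decide +kernel
  · cases j <;> decide +kernel

end Pool.Agent.Lib.MP_c86c76_al.Eng
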