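import Pool.Agent.Lib.MP_c86c76_al.Eng.Sys4
import Pool.Agent.Lib.MP_c86c76_al.Eng.LPHom

/-!
Kernel checks for genus four.
-/

set_option autoImplicit false

namespace Pool.Agent.Lib.MP_c86c76_al.Eng

/-- The letter of a generator. -/
def s4 (k : ℕ) : I9 := I9.all.getD k .c0

/-- The word test. -/
def H4 (u v : List ℕ) : Prop :=
  u.length ≤ 1000 ∧ v.length ≤ 1000 ∧ chk4 (lets 4 s4 u) (lets 4 s4 v) = true

theorem lp4 : (∀ s : I9, chk4 [s, s, s] [] = true) ∧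
    (∀ j ≤ 2 * 4, ∀ i < j, H4 (pairW 4 i j).1 (pairW 4 i j).2) ∧
    H4 (rp 10 [1, 2, 3, 2 * 4]) (rp 6 [0, 1, 2, 3, 2 * 4]) ∧
    H4 (rp 12 [1, 2, 3, 4, 5, 2 * 4]) (rp 9 [0, 1, 2, 3, 4, 5, 2 * 4]) ∧
    H4 (rp (2 * 4 - 2) [0]) (rp (4 * 4 - 4) (2 * 4 :: List.range' 2 (2 * 4 - 2))) := by
  unfold H4
  refine ⟨fun s => ?_, fun j hj i hi => ?_, ?_, ?_, ?_⟩
  · cases s <;> decide +kernel
  · interval_cases j <;> interval_cases i <;> decide +kernel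
  · decide +kernel
  · decide +kernel
  · decide +kernel

end Pool.Agent.Lib.MP_c86c76_al.Eng
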