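import Pool.Agent.Lib.MP_c86c76_al.Eng.Group

/-!
A kernel test for a word to fix a unit vector and to shift the height.
-/

set_option autoImplicit false

namespace Pool.Agent.Lib.MP_c86c76_al.Eng

variable {I J S : Type} [DecidableEq I] [DecidableEq J]

/-- The loop test. -/
noncomputable def lchk (T : S → J → Blk I J)
    (FA : (I → (ℕ → Bool) → Bool) → ((I → ℕ) → Bool) → Bool) (all : List I) (L B : ℕ)
    (w : List S) (j : J) (k : I) (c : ℤ) : Bool :=
  force B fun m => force (Nat.mul L m) fun e =>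
    FA (fun i f => force (if i = k then 1 else 0) f) fun p =>
      runN T FA m e (fun a x r => decide (a = j) &&
        (Nat.beq r (c % m).toNat && all.all fun i => Nat.beq (x i) (p i))) w.reverse j p 0

theorem bd_single' (k i : I) : |(Pi.single k 1 : I → ℤ) i| ≤ 1 := by
  by_cases h : i = k
  · subst h; simp
  · simp [Pi.single_eq_of_ne h]

theorem loop_of_lchk (T : S → J → Blk I J) (L : ℕ) (hT : Short T L)
    {FA : (I → (ℕ → Bool) → Bool) → ((I → ℕ) → Bool) → Bool} (hFA : Tabulates FA)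
    (all : List I) (hall : ∀ i, i ∈ all) (B : ℕ) (K : ℤ) (hK1 : 1 ≤ K) (hK : K + K < B)
    (w : List S) (j : J) (k : I) (c : ℤ) (hc : |c| ≤ K)
    (hw : Bd K (run T w ((j, Pi.single k 1), 0))) (h : lchk T FA all L B w j k c = true) :
    run T w ((j, Pi.single k 1), (0 : ℤ)) = ((j, Pi.single k 1), c) := by
  have hB : 1 < B := by omega
  rw [lchk, force_eq, force_eq,
    hFA _ (fun i => if i = k then 1 else 0) fun _ _ => force_eq _ _] at h
  obtain ⟨a, x, r, h1, -, h2⟩ := runN_spec T L hT hFA B (by omega) _ _ _ _ _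
    (fun i => by split_ifs <;> omega) h
  simp only [Bool.and_eq_true, decide_eq_true_eq, List.all_eq_true, Nat.beq_eq] at h1
  obtain ⟨rfl, rfl, h5⟩ := h1
  have e : (((a, fun i => (((if i = k then 1 else 0 : ℕ) : ℕ) : ZMod B)), ((0 : ℕ) : ZMod B)) :
      St I J (ZMod B)) = mapSt (Int.castAddHom (ZMod B)) ((a, Pi.single k 1), 0) := by
    refine Prod.ext (Prod.ext rfl (funext fun i => ?_)) (by simp [mapSt])
    simp [mapSt, Pi.single_apply]
  rw [List.reverse_reverse, e, run_map] at h2
  simp only [mapSt, Prod.mk.injEq, Int.coe_castAddHom] at h2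
  have inj : ∀ u v : ℤ, |u| ≤ K → |v| ≤ K → (u : ZMod B) = v → u = v := by
    intro u v hu hv huv
    have h3 := (ZMod.intCast_eq_intCast_iff_dvd_sub u v B).1 huv
    have h4 := Int.eq_zero_of_abs_lt_dvd h3
      (lt_of_le_of_lt ((abs_sub _ _).trans (add_le_add hv hu)) hK)
    omega
  refine Prod.ext (Prod.ext h2.1.1 (funext fun i => ?_)) ?_
  · refine inj _ _ (hw.1 i) (((bd_single' k i)).trans hK1) ?_
    rw [congrFun h2.1.2 i, h5 i (hall i)]
    simp [Pi.single_apply]
  · refine inj _ _ hw.2 hc ?_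
    rw [h2.2]
    have h3 : (((c % B).toNat : ℕ) : ℤ) = c % B :=
      Int.toNat_of_nonneg (Int.emod_nonneg _ (by omega))
    rw [← Int.cast_natCast, h3, ZMod.intCast_mod]

end Pool.Agent.Lib.MP_c86c76_al.Eng
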