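import Pool.Agent.Lib.MP_c86c76_al.Eng.LP3
import Pool.Agent.Lib.MP_c86c76_al.Eng.LP4
import Pool.Agent.Lib.MP_c86c76_al.Eng.Inv4
import Pool.Agent.Lib.MP_c86c76_al.Eng.Loop

/-!
The presented groups in genus three and four do not have property (T).
-/

set_option autoImplicit false

namespace Pool.Agent.Lib.MP_c86c76_al.Eng

theorem inv3L_len (s : I16) : (inv3L s).length = 1 := by cases s <;> rfl

/-- The letters in genus three as permutations. -/
noncomputable def P3 : I16 → Equiv.Perm (St I16 J28 ℤ) := genP T3 inv3L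
  (fun s y => run_eq_of_chk3 T3 T3_short inv3 _ [] (by simp [inv3L_len]) (by simp)
    (fun j => ⟨_, j.mem_all, (lp3.1 s).1⟩) y)
  (fun s y => run_eq_of_chk3 T3 T3_short inv3 _ [] (by simp [inv3L_len]) (by simp)
    (fun j => ⟨_, j.mem_all, (lp3.1 s).2⟩) y)

/-- The letters in genus four as permutations. -/
noncomputable def P4' : I9 → Equiv.Perm (St P4 Unit ℤ) := genP T4 (fun s => [s, s])
  (fun s y => run_eq_of_chk4 inv4 _ [] (by simp) (by simp) (lp4.1 s) y)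
  (fun s y => run_eq_of_chk4 inv4 _ [] (by simp) (by simp) (lp4.1 s) y)

theorem st_ext {I J : Type} (all : List I) (hall : ∀ i, i ∈ all) {y y' : St I J ℤ}
    (h : y.1.1 = y'.1.1 ∧ all.map y.1.2 = all.map y'.1.2 ∧ y.2 = y'.2) : y = y' :=
  Prod.ext (Prod.ext h.1 (funext fun i => List.map_inj_left.1 h.2.1 i (hall i))) h.2.2

theorem loop3 : run T3 (lets 3 s3 [3, 3, 3, 6, 2]) ((.c19, Pi.single .c4 1), (0 : ℤ)) =
    ((.c19, Pi.single .c4 1), -1) := st_ext I16.all I16.mem_all (by decide +kernel)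

theorem loop4 : run T4 (lets 4 s4 (rp 2 [2, 6, 6, 5, 6, 4, 4, 3, 5]))
    (((), Pi.single p118 1), (0 : ℤ)) = (((), Pi.single p118 1), -3) :=
  loop_of_lchk T4 64 T4_short fa4_spec all4 mem_all4 (2 ^ 120) (65 ^ 18) (by norm_num)
    (by norm_num) _ () p118 (-3) (by norm_num)
    (bd_crude T4 64 T4_short _ _ (bd_single () p118)) (by decide +kernel)

theorem lp_notT (g : ℕ) (hg : g = 3 ∨ g = 4) (A : Finset (ModLP g)) (ε : ℝ) (hε : 0 < ε) :
    ∃ (H : Type) (_ : NormedAddCommGroup H) (_ : InnerProductSpace ℂ H) (_ : CompleteSpace H)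
      (π : ModLP g →* (H ≃ₗᵢ[ℂ] H)) (v : H), ‖v‖ = 1 ∧ (∀ s ∈ A, ‖π s v - v‖ < ε) ∧
      ∀ w : H, (∀ g, π g w = w) → w = 0 := by
  rcases hg with rfl | rfl
  · exact notT_of_words 3 (by norm_num) F3 T3 inv3 s3 P3 (fun _ _ => rfl) H3
      (fun u v h => run_eq_of_chk3 T3 T3_short inv3 _ _ (by simpa [lets] using h.1)
        (by simpa [lets] using h.2.1) fun j => ⟨_, List.mem_singleton_self j, h.2.2 j⟩)
      lp3.2.1 lp3.2.2.1 lp3.2.2.2.1 lp3.2.2.2.2 _ _ (-1) (by norm_num) loop3 A ε hε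
  · exact notT_of_words 4 (by norm_num) F4 T4 inv4 s4 P4' (fun _ _ => rfl) H4
      (fun u v h => run_eq_of_chk4 inv4 _ _ (by simpa [lets] using h.1)
        (by simpa [lets] using h.2.1) h.2.2)
      lp4.2.1 lp4.2.2.1 lp4.2.2.2.1 lp4.2.2.2.2 _ _ (-3) (by norm_num) loop4 A ε hε

end Pool.Agent.Lib.MP_c86c76_al.Eng
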