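import Pool.Agent.Lib.MP_c86c76_al.Eng.B3
import Pool.Agent.Lib.MP_c86c76_al.B.Rels

/-!
The relators of genus three in chunks.
-/

set_option autoImplicit false

namespace Pool.Agent.Lib.MP_c86c76_al.Eng

open Pool.Agent.MB

/-- A chunk of relator codes. -/
def ch3 (q : ℕ) : List ℕ := ((rl1 ++ rl2 ++ rl3).drop (20 * q)).take 20

/-- The test of a chunk on a block. -/
noncomputable def cc3 (q : ℕ) (j : J28) : Bool := (ch3 q).all fun m => relB3 (dw m) j

theorem ch3_mem : ∀ m ∈ rl1 ++ rl2 ++ rl3, ∃ q < 7, m ∈ ch3 q := by decide +kernel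

end Pool.Agent.Lib.MP_c86c76_al.Eng
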