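import Pool.Agent.Lib.MP_c86c76_al.Eng.R3

/-!
Kernel checks.
-/

set_option autoImplicit false

namespace Pool.Agent.Lib.MP_c86c76_al.Eng

open Pool.Agent.MB

theorem r3_2 : ∀ j ∈ [J28.c14, J28.c15, J28.c16, J28.c17, J28.c18, J28.c19, J28.c20], ∀ q < 7, cc3 q j = true := by
  intro j hj q hq
  simp only [List.mem_cons, List.not_mem_nil, or_false] at hj
  rcases hj with rfl | rfl | rfl | rfl | rfl | rfl | rfl <;> interval_cases q <;> decide +kernel

end Pool.Agent.Lib.MP_c86c76_al.Eng
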