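import Pool.Agent.Lib.MP_c86c76_al.Eng.R3a
import Pool.Agent.Lib.MP_c86c76_al.Eng.R3b
import Pool.Agent.Lib.MP_c86c76_al.Eng.R3c
import Pool.Agent.Lib.MP_c86c76_al.Eng.R3d

/-!
Kernel checks.
-/

set_option autoImplicit false

namespace Pool.Agent.Lib.MP_c86c76_al.Eng

open Pool.Agent.MB

theorem rels3_hold : ∀ w ∈ rels3, gw tau3 w = 1 := by
  intro w hw
  obtain ⟨m, hm, rfl⟩ := List.mem_map.1 hw
  obtain ⟨q, hq, hm⟩ := ch3_mem m hm
  refine gw_tau3_one _ fun j => List.all_eq_true.1 (?_ : cc3 q j = true) m hm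
  cases j
  all_goals first
    | exact r3_0 _ (by decide) q hq
    | exact r3_1 _ (by decide) q hq
    | exact r3_2 _ (by decide) q hq
    | exact r3_3 _ (by decide) q hq

end Pool.Agent.Lib.MP_c86c76_al.Eng
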