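import Pool.Agent.Lib.MP_c86c76_al.Eng.Sys4
import Pool.Agent.Lib.MP_c86c76_al.Eng.Data3

/-!
The genus three system: form and tests.
-/

set_option autoImplicit false

namespace Pool.Agent.Lib.MP_c86c76_al.Eng

/-- One coordinate change. -/
noncomputable def m0 : Unit → Blk I16 Unit := fun _ => ((), I16.fn ([.c0],[]) ([.c1],[]) ([.c0,.c2],[.c3]) ([.c1,.c2,.c3],[]) ([.c4],[]) ([.c5],[]) ([.c4,.c6],[.c7]) ([.c5,.c6,.c7],[]) ([.c8],[]) ([.c9],[]) ([.c8,.c10],[.c11]) ([.c9,.c10,.c11],[]) ([.c12],[]) ([.c13],[]) ([.c12,.c14],[.c15]) ([.c13,.c14,.c15],[]), ([], []))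
/-- One coordinate change. -/
noncomputable def m1 : Unit → Blk I16 Unit := fun _ => ((), I16.fn ([.c0],[]) ([.c1],[]) ([.c2],[]) ([.c3],[]) ([.c0,.c4],[.c5]) ([.c1,.c4,.c5],[]) ([.c2,.c6],[.c7]) ([.c3,.c6,.c7],[]) ([.c8],[]) ([.c9],[]) ([.c10],[]) ([.c11],[]) ([.c8,.c12],[.c13]) ([.c9,.c12,.c13],[]) ([.c10,.c14],[.c15]) ([.c11,.c14,.c15],[]), ([], []))
/-- One coordinate change. -/
noncomputable def m2 : Unit → Blk I16 Unit := fun _ => ((), I16.fn ([.c0],[]) ([.c1],[]) ([.c2],[]) ([.c3],[]) ([.c4],[]) ([.c5],[]) ([.c6],[]) ([.c7],[]) ([.c0,.c8],[.c9]) ([.c1,.c8,.c9],[]) ([.c2,.c10],[.c11]) ([.c3,.c10,.c11],[]) ([.c4,.c12],[.c13]) ([.c5,.c12,.c13],[]) ([.c6,.c14],[.c15]) ([.c7,.c14,.c15],[]), ([], []))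
/-- One coordinate change. -/
noncomputable def m3 : Unit → Blk I16 Unit := fun _ => ((), I16.fn ([.c0,.c0],[]) ([.c1,.c1],[]) ([.c2,.c3],[.c0,.c1]) ([.c0,.c3],[.c1,.c2]) ([.c4,.c4],[]) ([.c5,.c5],[]) ([.c6,.c7],[.c4,.c5]) ([.c4,.c7],[.c5,.c6]) ([.c8,.c8],[]) ([.c9,.c9],[]) ([.c10,.c11],[.c8,.c9]) ([.c8,.c11],[.c9,.c10]) ([.c12,.c12],[]) ([.c13,.c13],[]) ([.c14,.c15],[.c12,.c13]) ([.c12,.c15],[.c13,.c14]), ([], []))
/-- One coordinate change. -/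
noncomputable def m4 : Unit → Blk I16 Unit := fun _ => ((), I16.fn ([.c0,.c0],[]) ([.c1,.c1],[]) ([.c2,.c2],[]) ([.c3,.c3],[]) ([.c4,.c5],[.c0,.c1]) ([.c0,.c5],[.c1,.c4]) ([.c6,.c7],[.c2,.c3]) ([.c2,.c7],[.c3,.c6]) ([.c8,.c8],[]) ([.c9,.c9],[]) ([.c10,.c10],[]) ([.c11,.c11],[]) ([.c12,.c13],[.c8,.c9]) ([.c8,.c13],[.c9,.c12]) ([.c14,.c15],[.c10,.c11]) ([.c10,.c15],[.c11,.c14]), ([], []))
/-- One coordinate change. -/
noncomputable def m5 : Unit → Blk I16 Unit := fun _ => ((), I16.fn ([.c0,.c0],[]) ([.c1,.c1],[]) ([.c2,.c2],[]) ([.c3,.c3],[]) ([.c4,.c4],[]) ([.c5,.c5],[]) ([.c6,.c6],[]) ([.c7,.c7],[]) ([.c8,.c9],[.c0,.c1]) ([.c0,.c9],[.c1,.c8]) ([.c10,.c11],[.c2,.c3]) ([.c2,.c11],[.c3,.c10]) ([.c12,.c13],[.c4,.c5]) ([.c4,.c13],[.c5,.c12]) ([.c14,.c15],[.c6,.c7]) ([.c6,.c15],[.c7,.c14]), ([], []))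
/-- One coordinate change. -/
noncomputable def m6 : Unit → Blk I16 Unit := fun _ => ((), I16.fn ([.c0,.c0],[]) ([.c1,.c1],[]) ([.c2,.c2],[]) ([.c3,.c3],[]) ([.c4,.c4],[]) ([.c5,.c5],[]) ([.c6,.c6],[]) ([.c7,.c7],[]) ([.c8,.c8],[]) ([.c9,.c9],[]) ([.c10,.c10],[]) ([.c11,.c11],[]) ([.c12,.c12],[]) ([.c13,.c13],[]) ([.c14,.c14],[]) ([.c15,.c15],[]), ([], []))

/-- The coordinate changes. -/
noncomputable def C3 : I9 → Unit → Blk I16 Unit := I9.fn m0 m1 m2 m3 m4 m5 m6 m6 m6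

theorem C3_short : Short C3 4 :=
  short_of C3 4 I9.all [()] I16.all I9.mem_all (by simp) I16.mem_all (by decide +kernel)

theorem C3_chk : chk C3 I16.fa I16.all I16.pos 16 4 (2 ^ 20)
    [.c3, .c4, .c5, .c0, .c1, .c2] [.c6, .c6, .c6] () = true := by decide +kernel

theorem C3_scalar (x : I16 → ℤ) : lin C3 [.c6] () x = (2 : ℤ) • x := by
  have : ∀ i ∈ I16.all, (C3 .c6 ()).2.1 i = ([i, i], []) := by decide +kernel
  funext i
  show dot ((C3 .c6 ()).2.1 i) x = _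
  rw [this i (I16.mem_all i)]
  simp [dot]
  ring

/-- The invariant form. -/
noncomputable def F3 : Form I16 I9 where
  C := C3
  X := I16.all.map fun i => ([i], [])
  cw := [.c0, .c1, .c2]
  cw' := [.c3, .c4, .c5]
  c := 8
  L := 4
  hC := C3_short
  hX := by decide +kernel
  hX1 := fun i => List.mem_map.2 ⟨i, I16.mem_all i, rfl⟩
  hc := by norm_num
  hinv := fun x => by
    have h := run_eq_of_chk C3 4 C3_short I16.fa_spec I16.all I16.mem_all I16.pos I16.pos_inj 16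
      I16.pos_lt (2 ^ 20) (5 ^ 6) (by norm_num) (by norm_num) _ _ ()
      (fun k => (bd_crude C3 4 C3_short _ _ (bd_single () k)).mono (by norm_num))
      (fun k => (bd_crude C3 4 C3_short _ _ (bd_single () k)).mono (by norm_num)) C3_chk x 0
    rw [← lin_append]
    refine (congrArg (fun y => y.1.2) h).trans ?_
    show lin C3 ([.c6] ++ ([.c6] ++ [.c6])) () x = _
    simp only [lin_append, C3_scalar, smul_smul]
    norm_num

section
variable {S : Type} (T : S → J28 → Blk I16 J28)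

/-- The Gram test for all blocks of one letter. -/
noncomputable def gch3 (s : S) : Bool :=
  gchk T C3 I16.fa F3.X F3.cw I16.pos (fun _ => 0) I16.pos 16 16 255 (2 ^ 40) 0
    (J28.all.map fun j => (s, j))

theorem inv3_of (hT : Short T 255) (h : ∀ s, gch3 T s = true) : F3.Inv T :=
  fun s j f => gram_of_gchk T C3 255 4 (by norm_num) (by norm_num) hT C3_short I16.fa_spec
    F3.X F3.hX F3.cw I16.pos (fun _ => 0) I16.pos I16.pos_inj
    (fun _ _ _ h2 => I16.pos_inj h2) 16 16 I16.pos_lt I16.pos_lt (2 ^ 40) (by decide +kernel) s j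
    (fun _ => ⟨_, List.mem_map.2 ⟨j, j.mem_all, rfl⟩, h s⟩) f

/-- The word test on a list of blocks. -/
noncomputable def chk3 (u v : List S) (l : List J28) : Bool :=
  l.all (chk T I16.fa I16.all I16.pos 16 255 (2 ^ 36) u v)

theorem run_eq_of_chk3 (hT : Short T 255) (hI : F3.Inv T) (u v : List S) (hu : u.length ≤ 1000)
    (hv : v.length ≤ 1000) (h : ∀ j, ∃ l, j ∈ l ∧ chk3 T u v l = true) (y : St I16 J28 ℤ) :
    run T u y = run T v y := by
  have hb : ∀ w : List S, w.length ≤ 1000 → ∀ k,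
      Bd (2 ^ 34) (run T w ((y.1.1, Pi.single k 1), 0)) := fun w hw k =>
    (Form.bd_unif hI 255 hT (2 ^ 10) (by decide +kernel) w y.1.1 k).mono (by
      have e : F3.L ^ F3.cw'.length * 2 ^ 10 = 2 ^ 16 := by decide +kernel
      rw [e]
      have : (w.length * 255 + 1) * 2 ^ 16 ≤ 2 ^ 34 := by omega
      exact_mod_cast this)
  obtain ⟨l, hl, h⟩ := h y.1.1
  exact run_eq_of_chk T 255 hT I16.fa_spec I16.all I16.mem_all I16.pos I16.pos_inj 16 I16.pos_lt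
    (2 ^ 36) (2 ^ 34) (by norm_num) (by norm_num) u v y.1.1 (hb u hu) (hb v hv)
    (List.all_eq_true.1 h _ hl) y.1.2 y.2

end

/-- The twists and their inverses. -/
noncomputable def T3 : I16 → J28 → Blk I16 J28 :=
  I16.fn t0 t1 t2 t3 t4 t5 t6 t7 t8 t9 t10 t11 t12 t13 t0 t0

theorem T3_short : Short T3 255 :=
  short_of T3 255 I16.all J28.all I16.all I16.mem_all J28.mem_all I16.mem_all (by decide +kernel)

theorem inv3 : F3.Inv T3 := by
  refine inv3_of T3 T3_short fun s => ?_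
  cases s <;> decide +kernel

end Pool.Agent.Lib.MP_c86c76_al.Eng
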