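import Pool.Agent.Lib.MP_c86c76_al.Eng.Data4a
import Pool.Agent.Lib.MP_c86c76_al.Eng.Data4b

/-!
The genus four system: tabulation, form and tests.
-/

set_option autoImplicit false

namespace Pool.Agent.Lib.MP_c86c76_al.Eng

/-- Strict tabulation on the index type. -/
noncomputable def fa4 : (P4 → (ℕ → Bool) → Bool) → ((P4 → ℕ) → Bool) → Bool := fa2 I9.fa I18.fa

theorem fa4_spec : Tabulates fa4 := fa2_spec I9.fa_spec I18.fa_spec

/-- All indices. -/
def all4 : List P4 := I9.all.flatMap fun a => I18.all.map fun b => (a, b)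

theorem mem_all4 (i : P4) : i ∈ all4 :=
  List.mem_flatMap.2 ⟨i.1, i.1.mem_all, List.mem_map.2 ⟨i.2, i.2.mem_all, rfl⟩⟩

/-- Position of an index. -/
noncomputable def pos4 (i : P4) : ℕ := 18 * i.1.pos + i.2.pos

theorem pos4_lt (i : P4) : pos4 i < 162 := by
  have := i.1.pos_lt
  have := i.2.pos_lt
  unfold pos4
  omega

theorem pos4_inj : Function.Injective pos4 := by
  intro a b h
  have h1 := a.2.pos_lt
  have h2 := b.2.pos_lt
  unfold pos4 at h
  exact Prod.ext (I9.pos_inj (by omega)) (I18.pos_inj (by omega))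

/-- The generators. -/
noncomputable def T4 : I9 → Unit → Blk P4 Unit := I9.fn u0 u1 u2 u3 u4 u5 u6 u7 u8

/-- The coordinate changes. -/
noncomputable def C4 : I18 → Unit → Blk P4 Unit :=
  I18.fn k0 k1 k2 k3 k4 k5 k6 k7 k8 k9 k10 k11 k12 k13 k14 k15 k16 k16

theorem short_of {I J S : Type} (T : S → J → Blk I J) (L : ℕ) (lS : List S) (lJ : List J)
    (lI : List I) (hS : ∀ s, s ∈ lS) (hJ : ∀ j, j ∈ lJ) (hI : ∀ i, i ∈ lI)
    (h : (lS.all fun s => lJ.all fun j => (lI.all fun i => Nat.ble (l1 ((T s j).2.1 i)) L) &&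
      Nat.ble (l1 (T s j).2.2) L) = true) : Short T L := by
  intro s j
  simp only [List.all_eq_true, Bool.and_eq_true, Nat.ble_eq] at h
  exact ⟨fun i => (h s (hS s) j (hJ j)).1 i (hI i), (h s (hS s) j (hJ j)).2⟩

theorem T4_short : Short T4 64 :=
  short_of T4 64 I9.all [()] all4 I9.mem_all (by simp) mem_all4 (by decide +kernel)

theorem C4_short : Short C4 4 :=
  short_of C4 4 I18.all [()] all4 I18.mem_all (by simp) mem_all4 (by decide +kernel)

theorem C4_chk : chk C4 fa4 all4 pos4 162 4 (2 ^ 40)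
    [.c8, .c9, .c10, .c11, .c12, .c13, .c14, .c15, .c4, .c5, .c6, .c7, .c0, .c1, .c2, .c3]
    [.c16, .c16, .c16, .c16] () = true := by decide +kernel

theorem C4_scalar (x : P4 → ℤ) : lin C4 [.c16] () x = (3 : ℤ) • x := by
  have : ∀ i ∈ all4, (C4 .c16 ()).2.1 i = ([i, i, i], []) := by decide +kernel
  funext i
  show dot ((C4 .c16 ()).2.1 i) x = _
  rw [this i (mem_all4 i)]
  simp [dot]
  ring

theorem lin_append {I S M : Type} [AddCommGroup M] (T : S → Unit → Blk I Unit) (u v : List S)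
    (x : I → M) : lin T (u ++ v) () x = lin T u () (lin T v () x) := by
  rw [lin, run_append, run_lin]
  rfl

/-- The invariant form. -/
noncomputable def F4 : Form P4 I18 where
  C := C4
  X := (all4.map fun i => ([i], [])) ++ xtra
  cw := [.c4, .c5, .c6, .c7, .c0, .c1, .c2, .c3]
  cw' := [.c8, .c9, .c10, .c11, .c12, .c13, .c14, .c15]
  c := 81
  L := 4
  hC := C4_short
  hX := by decide +kernel
  hX1 := fun i => List.mem_append_left _ (List.mem_map.2 ⟨i, mem_all4 i, rfl⟩)
  hc := by norm_num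
  hinv := fun x => by
    have h := run_eq_of_chk C4 4 C4_short fa4_spec all4 mem_all4 pos4 pos4_inj 162 pos4_lt
      (2 ^ 40) (5 ^ 16) (by norm_num) (by norm_num) _ _ ()
      (fun k => (bd_crude C4 4 C4_short _ _ (bd_single () k)).mono (by norm_num))
      (fun k => (bd_crude C4 4 C4_short _ _ (bd_single () k)).mono (by norm_num)) C4_chk x 0
    rw [← lin_append]
    refine (congrArg (fun y => y.1.2) h).trans ?_
    show lin C4 ([.c16] ++ ([.c16] ++ ([.c16] ++ [.c16]))) () x = _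
    simp only [lin_append, C4_scalar, smul_smul]
    norm_num

/-- The Gram test for one chunk of columns. -/
noncomputable def gch4 (t : ℕ) (l : List I9) : Bool :=
  gchk T4 C4 fa4 F4.X F4.cw pos4 (fun i => i.2.pos) (fun i => i.1.pos) 162 9 64 (2 ^ 58) t
    (l.map fun s => (s, ()))

theorem inv4_of (h : ∀ (t : I18) (s : I9), ∃ l, s ∈ l ∧ gch4 t.pos l = true) : F4.Inv T4 :=
  fun s j f => gram_of_gchk T4 C4 64 4 (by norm_num) (by norm_num) T4_short C4_short fa4_spec
    F4.X F4.hX F4.cw pos4 (fun i => i.2.pos) (fun i => i.1.pos) pos4_inj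
    (fun a b h1 h2 => Prod.ext (I9.pos_inj h2) (I18.pos_inj h1)) 162 9 pos4_lt
    (fun a => a.1.pos_lt) (2 ^ 58) (by decide +kernel) s j (fun i => by
      obtain ⟨l, hl, h⟩ := h i.2 s
      exact ⟨_, List.mem_map.2 ⟨s, hl, rfl⟩, h⟩) f

/-- The word test. -/
noncomputable def chk4 (u v : List I9) : Bool := chk T4 fa4 all4 pos4 162 64 (2 ^ 56) u v ()

theorem run_eq_of_chk4 (hI : F4.Inv T4) (u v : List I9) (hu : u.length ≤ 1000)
    (hv : v.length ≤ 1000) (h : chk4 u v = true) (y : St P4 Unit ℤ) : run T4 u y = run T4 v y := by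
  have hb : ∀ w : List I9, w.length ≤ 1000 → ∀ k,
      Bd (2 ^ 54) (run T4 w (((), Pi.single k 1), 0)) := fun w hw k =>
    (Form.bd_unif hI 64 T4_short (2 ^ 22) (by decide +kernel) w () k).mono (by
      have e : F4.L ^ F4.cw'.length * 2 ^ 22 = 2 ^ 38 := by decide +kernel
      rw [e]
      have : (w.length * 64 + 1) * 2 ^ 38 ≤ 2 ^ 54 := by omega
      exact_mod_cast this)
  exact run_eq_of_chk T4 64 T4_short fa4_spec all4 mem_all4 pos4 pos4_inj 162 pos4_lt (2 ^ 56)
    (2 ^ 54) (by norm_num) (by norm_num) u v () (hb u hu) (hb v hv) h y.1.2 y.2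

end Pool.Agent.Lib.MP_c86c76_al.Eng
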